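import Pool.Agent.Lib.MP_992c01_co.Stm

set_option autoImplicit false

open scoped BigOperators Classical

namespace Pool.MP_992c01_co.NC

theorem aff_inj (s ε c : ℝ) (hs : s ≠ 0) : Function.Injective (aff s ε c) := by
  intro p q h
  unfold aff at h
  rw [Prod.mk.injEq] at h
  obtain ⟨h1, h2⟩ := h
  have h3 : s * p.1 = s * q.1 := by
    rw [h2] at h1
    linarith
  exact Prod.ext (mul_left_cancel₀ hs h3) h2

theorem aff_seg (s ε c : ℝ) (p q : Pt) :
    aff s ε c '' segment ℝ p q = segment ℝ (aff s ε c p) (aff s ε c q) := by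
  ext x
  constructor
  · rintro ⟨y, ⟨a, b, ha, hb, hab, rfl⟩, rfl⟩
    refine ⟨a, b, ha, hb, hab, ?_⟩
    unfold aff
    apply Prod.ext
    · simp only [Prod.fst_add, Prod.smul_fst, Prod.snd_add, Prod.smul_snd, smul_eq_mul]
      linear_combination (-c) * hab
    · simp only [Prod.snd_add, Prod.smul_snd, smul_eq_mul]
  · rintro ⟨a, b, ha, hb, hab, rfl⟩
    refine ⟨a • p + b • q, ⟨a, b, ha, hb, hab, rfl⟩, ?_⟩
    unfold aff
    apply Prod.ext
    · simp only [Prod.fst_add, Prod.smul_fst, Prod.snd_add, Prod.smul_snd, smul_eq_mul]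
      linear_combination c * hab
    · simp only [Prod.snd_add, Prod.smul_snd, smul_eq_mul]

theorem aff_disj (s ε c : ℝ) (hs : s ≠ 0) (p q p' q' : Pt) :
    Disjoint (segment ℝ (aff s ε c p) (aff s ε c q))
      (segment ℝ (aff s ε c p') (aff s ε c q')) ↔
    Disjoint (segment ℝ p q) (segment ℝ p' q') := by
  rw [← aff_seg, ← aff_seg]
  exact Set.disjoint_image_iff (aff_inj s ε c hs)

theorem aff_edges (f : Pt → Pt) : ∀ (l : List Pt),
    Edges (l.map f) = (fun e : Pt × Pt => (f e.1, f e.2)) '' Edges l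
  | [] => by simp [Edges]
  | [_] => by simp [Edges]
  | q :: p :: l => by
      have ih := aff_edges f (p :: l)
      simp only [List.map_cons] at ih ⊢
      simp only [Edges]
      rw [ih, Set.image_union, Set.image_singleton]

theorem aff_nc (s ε c : ℝ) (hs : s ≠ 0) : ∀ (l : List Pt),
    NCList (l.map (aff s ε c)) ↔ NCList l
  | [] => by simp [NCList]
  | [_] => by simp [NCList]
  | q :: p :: l => by
      have ih := aff_nc s ε c hs (p :: l)
      simp only [List.map_cons] at ih ⊢
      simp only [NCList]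
      rw [ih, aff_edges]
      refine and_congr_right (fun _ => ?_)
      constructor
      · intro h e he
        exact (aff_disj s ε c hs q p e.1 e.2).1 (h _ ⟨e, he, rfl⟩)
      · rintro h _ ⟨e, he, rfl⟩
        exact (aff_disj s ε c hs q p e.1 e.2).2 (h e he)

theorem aff_or (s ε c : ℝ) (a b d : Pt) :
    orient (aff s ε c a) (aff s ε c b) (aff s ε c d) = s * orient a b d := by
  unfold orient aff
  ring

theorem p_aff : S_aff := by
  intro s ε c hs
  refine ⟨aff_inj s ε c hs, aff_or s ε c, ?_, aff_nc s ε c hs⟩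
  intro P hP a ha b hb d hd hab had hbd
  rw [Finset.mem_image] at ha hb hd
  obtain ⟨a', ha', rfl⟩ := ha
  obtain ⟨b', hb', rfl⟩ := hb
  obtain ⟨d', hd', rfl⟩ := hd
  rw [aff_or]
  exact mul_ne_zero hs (hP a' ha' b' hb' d' hd' (fun h => hab (by rw [h]))
    (fun h => had (by rw [h])) (fun h => hbd (by rw [h])))

end Pool.MP_992c01_co.NC
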