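import Pool.Agent.Lib.MP_992c01_co.Stm

set_option autoImplicit false

open scoped BigOperators Classical

namespace Pool.MP_992c01_co.NC

private theorem core_W_le (g : Pt → ℝ) (hg : ∀ v, 0 ≤ g v) : ∀ l : List Pt,
    W g l ≤ (l.map g).sum
  | [] => by simp [W]
  | [a] => by simpa [W] using hg a
  | q :: p :: l => by
    have ih := core_W_le g hg (p :: l)
    simp only [W, List.map_cons, List.sum_cons] at ih ⊢
    linarith

private theorem core_good (C : Cfg) (s : ℝ) (l : List Pt) (h : Good C s l) :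
    l ≠ [] ∧ (∀ v ∈ l, v ∈ C.V) ∧ l.IsChain (fun v w => C.E v w) := by
  induction h with
  | single s v hv => exact ⟨by simp, by simpa using hv, List.isChain_singleton _⟩
  | cons s v w l h hE hs hnb ih =>
    obtain ⟨-, hV, hch⟩ := ih
    refine ⟨by simp, ?_, ?_⟩
    · intro u hu
      rcases List.mem_cons.1 hu with rfl | hu
      · exact C.EV _ _ (C.Esymm _ _ hE)
      · exact hV u hu
    · rw [List.isChain_cons_cons]
      exact ⟨C.Esymm _ _ hE, hch⟩

theorem p_core : S_htComm → S_goodBel → S_goodNC → S_run → S_core := by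
  intro _ hBel hNC hrun C hne
  -- a time above all heights
  obtain ⟨s, hs⟩ : ∃ s : ℝ, ∀ v ∈ C.V, ∀ u ∈ C.V, ht v u < s := by
    obtain ⟨M, hM⟩ := ((C.V ×ˢ C.V).image (fun x : Pt × Pt => ht x.1 x.2)).bddAbove
    refine ⟨M + 1, fun v hv u hu => ?_⟩
    have := hM (Finset.mem_coe.2 (Finset.mem_image.2
      ⟨(v, u), Finset.mem_product.2 ⟨hv, hu⟩, rfl⟩))
    simp only at this
    linarith
  obtain ⟨path, hinv⟩ := hrun C s (fun v hv u hu _ => ne_of_lt (hs v hv u hu))
  have hT : Target C s =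
      ∑ a ∈ C.V, ∑ b ∈ C.V, if a.1 < 0 ∧ 0 < b.1 ∧ C.E a b then C.g a + C.g b else 0 := by
    unfold Target
    refine Finset.sum_congr rfl fun a ha => Finset.sum_congr rfl fun b hb => ?_
    have h1 := hs a ha b hb
    by_cases h : a.1 < 0 ∧ 0 < b.1 ∧ C.E a b
    · rw [if_pos h, if_pos ⟨h.1, h.2.1, h.2.2, h1⟩]
    · rw [if_neg h, if_neg]
      rintro ⟨h2, h3, h4, -⟩
      exact h ⟨h2, h3, h4⟩
  have hB : BadSum C s =
      ∑ v ∈ C.V, ∑ q ∈ C.V, if BadP C v q then (C.κ v : ℝ) * C.c q else 0 := by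
    unfold BadSum
    refine Finset.sum_congr rfl fun a ha => Finset.sum_congr rfl fun b hb => ?_
    have h1 := hs a ha b hb
    by_cases h : BadP C a b
    · rw [if_pos h, if_pos ⟨h, h1⟩]
    · rw [if_neg h, if_neg]
      rintro ⟨h2, -⟩
      exact h h2
  have hPhi : 0 ≤ Phi C s path := by
    unfold Phi
    refine Finset.sum_nonneg fun π _ => Finset.sum_nonneg fun u _ => ?_
    split_ifs
    · exact C.hc u
    · exact le_refl _
  have hineq := hinv.ineq
  rw [hT, hB] at hineq
  have hcard : (Fintype.card (Σ v : {v // v ∈ C.V}, Fin (C.κ v.1)) : ℝ) =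
      ∑ v ∈ C.V, (C.κ v : ℝ) := by
    rw [Fintype.card_sigma]
    simp only [Fintype.card_fin]
    push_cast
    exact Finset.sum_coe_sort C.V (fun v => (C.κ v : ℝ))
  rcases isEmpty_or_nonempty (Σ v : {v // v ∈ C.V}, Fin (C.κ v.1)) with hem | hnem
  · obtain ⟨v, hv⟩ := hne
    refine ⟨[v], by simp, by simp, by simpa using hv, List.isChain_singleton _, trivial, ?_⟩
    have h0 : (∑ π : (Σ v : {v // v ∈ C.V}, Fin (C.κ v.1)), W C.g (path π)) = 0 :=
      Fintype.sum_empty _
    rw [h0] at hineq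
    have h1 : 0 ≤ (∑ v ∈ C.V, (C.κ v : ℝ)) * (([v] : List Pt).map C.g).sum := by
      apply mul_nonneg
      · exact Finset.sum_nonneg fun v _ => Nat.cast_nonneg _
      · simpa using C.hg v
    linarith
  · obtain ⟨π, -, hπ⟩ := Finset.exists_max_image
      (Finset.univ : Finset (Σ v : {v // v ∈ C.V}, Fin (C.κ v.1)))
      (fun π => W C.g (path π)) Finset.univ_nonempty
    have hgood := hinv.good π
    obtain ⟨h1, h2, h3⟩ := core_good C s _ hgood
    have hnd : (path π).Nodup := by
      cases hl : path π with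
      | nil => exact absurd hl h1
      | cons v l =>
        rw [hl] at hgood
        exact (hBel C s v l hgood).2
    refine ⟨path π, h1, hnd, h2, h3, hNC C s _ hgood, ?_⟩
    have hsum : (∑ π' : (Σ v : {v // v ∈ C.V}, Fin (C.κ v.1)), W C.g (path π')) ≤
        (∑ v ∈ C.V, (C.κ v : ℝ)) * ((path π).map C.g).sum := by
      calc (∑ π' : (Σ v : {v // v ∈ C.V}, Fin (C.κ v.1)), W C.g (path π'))
          ≤ ∑ _π' : (Σ v : {v // v ∈ C.V}, Fin (C.κ v.1)), ((path π).map C.g).sum := by
            refine Finset.sum_le_sum fun π' hπ' => ?_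
            exact (hπ π' hπ').trans (core_W_le C.g C.hg _)
        _ = (∑ v ∈ C.V, (C.κ v : ℝ)) * ((path π).map C.g).sum := by
            rw [Finset.sum_const, nsmul_eq_mul, Finset.card_univ, hcard]
    linarith

end Pool.MP_992c01_co.NC
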