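import Pool.Agent.Lib.MP_992c01_co.Stm

set_option autoImplicit false

open scoped BigOperators Classical

namespace Pool.MP_992c01_co.NC

theorem coreGP_fst (c : ℝ) (p : Pt) : (aff 1 0 c p).1 = p.1 - c := by
  simp [aff]

theorem coreGP_snd (c : ℝ) (p : Pt) : (aff 1 0 c p).2 = p.2 := rfl

theorem coreGP_inv (c : ℝ) (p : Pt) : aff 1 0 (-c) (aff 1 0 c p) = p := by
  ext <;> simp [aff]

theorem coreGP_inv' (c : ℝ) (p : Pt) : aff 1 0 c (aff 1 0 (-c) p) = p := by
  ext <;> simp [aff]

theorem coreGP_inj (c : ℝ) : Function.Injective (aff 1 0 c) := by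
  intro p q h
  rw [← coreGP_inv c p, ← coreGP_inv c q, h]

theorem coreGP_orient (c : ℝ) (v q a : Pt) :
    orient (aff 1 0 c v) (aff 1 0 c q) (aff 1 0 c a) = orient v q a := by
  unfold orient
  rw [coreGP_fst, coreGP_fst, coreGP_fst, coreGP_snd, coreGP_snd, coreGP_snd]
  ring

theorem coreGP_htsub (v q a : Pt) (h1 : q.1 ≠ v.1) (h2 : a.1 ≠ v.1) :
    ht v q - ht v a = v.1 * orient v q a / ((q.1 - v.1) * (a.1 - v.1)) := by
  unfold ht orient
  have h3 := sub_ne_zero.2 h1
  have h4 := sub_ne_zero.2 h2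
  field_simp
  ring

/-- sign of the orientation for a point on the other side -/
theorem coreGP_sign (v q a : Pt) (h1 : q.1 ≠ v.1) (h2 : v.1 * a.1 < 0) :
    ∃ r : ℝ, 0 < r ∧ ht v q - ht v a = - (r * (orient v q a * (q.1 - v.1))) := by
  have h3 : a.1 ≠ v.1 := by
    intro h
    rw [h] at h2
    nlinarith [mul_self_nonneg v.1]
  have hr : v.1 * (a.1 - v.1) < 0 := by nlinarith [mul_self_nonneg v.1]
  have hq : 0 < (q.1 - v.1) ^ 2 := by
    have := sub_ne_zero.2 h1
    positivity
  have ha : 0 < (a.1 - v.1) ^ 2 := by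
    have := sub_ne_zero.2 h3
    positivity
  refine ⟨- (v.1 * (a.1 - v.1)) / ((q.1 - v.1) ^ 2 * (a.1 - v.1) ^ 2), ?_, ?_⟩
  · apply div_pos (by linarith) (by positivity)
  · rw [coreGP_htsub v q a h1 h3]
    have h5 := sub_ne_zero.2 h1
    have h6 := sub_ne_zero.2 h3
    field_simp

theorem coreGP_splitAux (v q a b : Pt) (S : Finset Pt) (ha : a ∈ S) (hb : b ∈ S)
    (h1 : q.1 ≠ v.1) (o1 : orient v q a * (q.1 - v.1) < 0) (o2 : 0 < orient v q b * (q.1 - v.1)) :
    SplitP v q S := by
  rcases lt_or_gt_of_ne h1 with h | h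
  · refine ⟨b, hb, a, ha, ?_, ?_⟩
    · by_contra hc
      push Not at hc
      nlinarith
    · by_contra hc
      push Not at hc
      nlinarith
  · refine ⟨a, ha, b, hb, ?_, ?_⟩
    · by_contra hc
      push Not at hc
      nlinarith
    · by_contra hc
      push Not at hc
      nlinarith

/-- the configuration used for the core lemma in general position -/
noncomputable def coreGP_cfg (A B : Finset Pt) (E : Pt → Pt → Prop) (w : Pt → ℝ) (L : ℕ) (c : ℝ)
    (hA : ∀ a ∈ A, a.1 < c) (hB : ∀ b ∈ B, c < b.1) (hBn : B.Nonempty) (hL : 1 ≤ L)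
    (hw : ∀ p, 0 ≤ w p) (hpos : 0 < ∑ a ∈ A, w a)
    (hd : ∀ p ∈ (A ∪ B).image (aff 1 0 c), ∀ q ∈ (A ∪ B).image (aff 1 0 c),
      ∀ p' ∈ (A ∪ B).image (aff 1 0 c), ∀ q' ∈ (A ∪ B).image (aff 1 0 c),
      p.1 ≠ q.1 → p'.1 ≠ q'.1 → ht p q = ht p' q' → (p = p' ∧ q = q') ∨ (p = q' ∧ q = p')) :
    Cfg where
  V := (A ∪ B).image (aff 1 0 c)
  hx := by
    intro v hv
    rw [Finset.mem_image] at hv
    obtain ⟨u, hu, rfl⟩ := hv
    rw [coreGP_fst]
    rcases Finset.mem_union.1 hu with h | h
    · have := hA u h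
      intro h0
      linarith
    · have := hB u h
      intro h0
      linarith
  hdist := hd
  E := fun x y => ∃ a ∈ A, ∃ b ∈ B, E a b ∧
    ((x = aff 1 0 c a ∧ y = aff 1 0 c b) ∨ (x = aff 1 0 c b ∧ y = aff 1 0 c a))
  Esymm := by
    rintro x y ⟨a, ha, b, hb, hE, h⟩
    refine ⟨a, ha, b, hb, hE, ?_⟩
    rcases h with h | h
    · exact Or.inr ⟨h.2, h.1⟩
    · exact Or.inl ⟨h.2, h.1⟩
  EV := by
    rintro x y ⟨a, ha, b, hb, hE, h⟩
    rcases h with ⟨rfl, rfl⟩ | ⟨rfl, rfl⟩
    · exact Finset.mem_image_of_mem _ (Finset.mem_union_left _ ha)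
    · exact Finset.mem_image_of_mem _ (Finset.mem_union_right _ hb)
  Eopp := by
    rintro x y ⟨a, ha, b, hb, hE, h⟩
    have h1 := hA a ha
    have h2 := hB b hb
    rcases h with ⟨rfl, rfl⟩ | ⟨rfl, rfl⟩
    · rw [coreGP_fst, coreGP_fst]
      nlinarith
    · rw [coreGP_fst, coreGP_fst]
      nlinarith
  κ := fun x => if x.1 < 0 then ⌈w (aff 1 0 (-c) x) * (L * B.card) / ∑ a ∈ A, w a⌉₊ else L
  g := fun x => if x.1 < 0 then w (aff 1 0 (-c) x) else 0
  c := fun x => if x.1 < 0 then w (aff 1 0 (-c) x) / L else (∑ a ∈ A, w a) / (L * B.card)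
  hg := by
    intro v
    split_ifs
    · exact hw _
    · exact le_refl _
  hc := by
    intro v
    split_ifs
    · exact div_nonneg (hw _) (Nat.cast_nonneg _)
    · exact div_nonneg hpos.le (by positivity)
  hgc := by
    rintro x y ⟨a, ha, b, hb, hE, h⟩
    have h1 := hA a ha
    have h2 := hB b hb
    have hL' : (0 : ℝ) < L := by exact_mod_cast hL
    have hB' : (0 : ℝ) < B.card := by exact_mod_cast hBn.card_pos
    have e1 : (aff 1 0 c a).1 < 0 := by rw [coreGP_fst]; linarith
    have e2 : ¬ (aff 1 0 c b).1 < 0 := by rw [coreGP_fst]; linarith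
    rcases h with ⟨rfl, rfl⟩ | ⟨rfl, rfl⟩
    · rw [if_pos e1, if_neg e2, if_pos e1, if_neg e2, coreGP_inv]
      have h3 := Nat.le_ceil (w a * (L * B.card) / ∑ a ∈ A, w a)
      have h4 : 0 < (∑ a ∈ A, w a) / (L * B.card : ℝ) := by positivity
      have h5 := mul_le_mul_of_nonneg_right h3 h4.le
      have h6 : (w a * (L * B.card) / ∑ a ∈ A, w a) * ((∑ a ∈ A, w a) / (L * B.card : ℝ)) = w a := by
        have := hpos.ne'
        field_simp
      rw [h6] at h5
      linarith
    · rw [if_neg e2, if_pos e1, if_neg e2, if_pos e1, coreGP_inv]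
      have : (L : ℝ) * (w a / L) = w a := by field_simp
      linarith

theorem coreGP_sumUnion (A B : Finset Pt) (hAB : Disjoint A B) (c : ℝ) (f : Pt → ℝ) :
    ∑ x ∈ (A ∪ B).image (aff 1 0 c), f x =
      ∑ a ∈ A, f (aff 1 0 c a) + ∑ b ∈ B, f (aff 1 0 c b) := by
  rw [Finset.sum_image (fun x _ y _ h => coreGP_inj c h), Finset.sum_union hAB]

theorem p_coreGP : S_htComm → S_dev → S_aff → S_axis → S_core → S_coreGP := by
  intro _ _ hAff hAxis hCore A B E w L hgen hsep hBn hL hw hpos hcard
  have hAn : A.Nonempty := by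
    rcases A.eq_empty_or_nonempty with h | h
    · subst h
      simp at hpos
    · exact h
  obtain ⟨a₁, ha₁, ha₁m⟩ := A.exists_max_image (fun p => p.1) hAn
  obtain ⟨b₁, hb₁, hb₁m⟩ := B.exists_min_image (fun p => p.1) hBn
  obtain ⟨c, hc1, hc2, hcV, hd⟩ := hAxis (A ∪ B) a₁.1 b₁.1 hgen (hsep a₁ ha₁ b₁ hb₁)
  have hA : ∀ a ∈ A, a.1 < c := fun a ha => lt_of_le_of_lt (ha₁m a ha) hc1
  have hB : ∀ b ∈ B, c < b.1 := fun b hb => lt_of_lt_of_le hc2 (hb₁m b hb)
  have hAB : Disjoint A B := by
    rw [Finset.disjoint_left]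
    intro x hx hy
    have := hA x hx
    have := hB x hy
    linarith
  have hL' : (0 : ℝ) < L := by exact_mod_cast hL
  have hB' : (0 : ℝ) < B.card := by exact_mod_cast hBn.card_pos
  have eA : ∀ a ∈ A, (aff 1 0 c a).1 < 0 := by
    intro a ha
    rw [coreGP_fst]
    have := hA a ha
    linarith
  have eB : ∀ b ∈ B, 0 < (aff 1 0 c b).1 := by
    intro b hb
    rw [coreGP_fst]
    have := hB b hb
    linarith
  set C : Cfg := coreGP_cfg A B E w L c hA hB hBn hL hw hpos hd with hC
  have hV : C.V = (A ∪ B).image (aff 1 0 c) := rfl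
  have hVn : C.V.Nonempty := by
    rw [hV]
    exact (hAn.mono Finset.subset_union_left).image _
  have kA : ∀ a ∈ A, C.κ (aff 1 0 c a) = ⌈w a * (L * B.card) / ∑ a ∈ A, w a⌉₊ := by
    intro a ha
    show (if (aff 1 0 c a).1 < 0 then
      ⌈w (aff 1 0 (-c) (aff 1 0 c a)) * (L * B.card) / ∑ a ∈ A, w a⌉₊ else L) = _
    rw [if_pos (eA a ha), coreGP_inv]
  have kB : ∀ b ∈ B, C.κ (aff 1 0 c b) = L := by
    intro b hb
    show (if (aff 1 0 c b).1 < 0 then
      ⌈w (aff 1 0 (-c) (aff 1 0 c b)) * (L * B.card) / ∑ a ∈ A, w a⌉₊ else L) = _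
    rw [if_neg (not_lt.2 (eB b hb).le)]
  have gA : ∀ a ∈ A, C.g (aff 1 0 c a) = w a := by
    intro a ha
    show (if (aff 1 0 c a).1 < 0 then w (aff 1 0 (-c) (aff 1 0 c a)) else 0) = _
    rw [if_pos (eA a ha), coreGP_inv]
  have gB : ∀ b ∈ B, C.g (aff 1 0 c b) = 0 := by
    intro b hb
    show (if (aff 1 0 c b).1 < 0 then w (aff 1 0 (-c) (aff 1 0 c b)) else 0) = _
    rw [if_neg (not_lt.2 (eB b hb).le)]
  have cA : ∀ a ∈ A, C.c (aff 1 0 c a) = w a / L := by
    intro a ha
    show (if (aff 1 0 c a).1 < 0 then w (aff 1 0 (-c) (aff 1 0 c a)) / L else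
      (∑ a ∈ A, w a) / (L * B.card)) = _
    rw [if_pos (eA a ha), coreGP_inv]
  have cB : ∀ b ∈ B, C.c (aff 1 0 c b) = (∑ a ∈ A, w a) / (L * B.card) := by
    intro b hb
    show (if (aff 1 0 c b).1 < 0 then w (aff 1 0 (-c) (aff 1 0 c b)) / L else
      (∑ a ∈ A, w a) / (L * B.card)) = _
    rw [if_neg (not_lt.2 (eB b hb).le)]
  obtain ⟨l', hl0, hlN, hlV, hlC, hlNC, hlS⟩ := hCore C hVn
  have hmap : (l'.map (aff 1 0 (-c))).map (aff 1 0 c) = l' := by
    rw [List.map_map]
    have : (aff 1 0 c ∘ aff 1 0 (-c)) = id := by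
      funext p
      exact coreGP_inv' c p
    rw [this, List.map_id]
  refine ⟨l'.map (aff 1 0 (-c)), ?_, ?_, ?_, ?_, ?_, ?_⟩
  · intro h
    exact hl0 (List.map_eq_nil_iff.1 h)
  · exact hlN.map (coreGP_inj (-c))
  · intro v hv
    rw [List.mem_map] at hv
    obtain ⟨u, hu, rfl⟩ := hv
    have := hlV u hu
    rw [hV, Finset.mem_image] at this
    obtain ⟨x, hx, rfl⟩ := this
    rw [coreGP_inv]
    exact hx
  · rw [List.isChain_map]
    refine hlC.imp ?_
    rintro x y ⟨a, ha, b, hb, hE, h⟩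
    rcases h with ⟨rfl, rfl⟩ | ⟨rfl, rfl⟩
    · rw [coreGP_inv, coreGP_inv]
      exact Or.inl ⟨ha, hb, hE⟩
    · rw [coreGP_inv, coreGP_inv]
      exact Or.inr ⟨ha, hb, hE⟩
  · have := ((hAff 1 0 c one_ne_zero).2.2.2 (l'.map (aff 1 0 (-c)))).1
    rw [hmap] at this
    exact this hlNC
  · -- the first sum
    have T1 : (∑ a ∈ A, ∑ b ∈ B, if E a b then w a else 0) ≤
        ∑ a ∈ C.V, ∑ b ∈ C.V, if a.1 < 0 ∧ 0 < b.1 ∧ C.E a b then C.g a + C.g b else 0 := by
      rw [hV]
      have hnn : ∀ x y : Pt,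
          (0 : ℝ) ≤ (if x.1 < 0 ∧ 0 < y.1 ∧ C.E x y then C.g x + C.g y else 0) := by
        intro x y
        split_ifs
        · exact add_nonneg (C.hg _) (C.hg _)
        · exact le_refl _
      rw [coreGP_sumUnion A B hAB c]
      have hR : (0 : ℝ) ≤ ∑ b ∈ B, ∑ y ∈ (A ∪ B).image (aff 1 0 c),
          (if (aff 1 0 c b).1 < 0 ∧ 0 < y.1 ∧ C.E (aff 1 0 c b) y then
            C.g (aff 1 0 c b) + C.g y else 0) :=
        Finset.sum_nonneg (fun _ _ => Finset.sum_nonneg (fun _ _ => hnn _ _))
      have hLe : (∑ a ∈ A, ∑ b ∈ B, if E a b then w a else 0) ≤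
          ∑ a ∈ A, ∑ y ∈ (A ∪ B).image (aff 1 0 c),
          (if (aff 1 0 c a).1 < 0 ∧ 0 < y.1 ∧ C.E (aff 1 0 c a) y then
            C.g (aff 1 0 c a) + C.g y else 0) := by
        apply Finset.sum_le_sum
        intro a ha
        rw [coreGP_sumUnion A B hAB c]
        have h1 : (0 : ℝ) ≤ ∑ y ∈ A, (if (aff 1 0 c a).1 < 0 ∧ 0 < (aff 1 0 c y).1 ∧
            C.E (aff 1 0 c a) (aff 1 0 c y) then
            C.g (aff 1 0 c a) + C.g (aff 1 0 c y) else 0) :=
          Finset.sum_nonneg (fun _ _ => hnn _ _)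
        have h2 : (∑ b ∈ B, if E a b then w a else 0) ≤
            ∑ y ∈ B, (if (aff 1 0 c a).1 < 0 ∧ 0 < (aff 1 0 c y).1 ∧
            C.E (aff 1 0 c a) (aff 1 0 c y) then
            C.g (aff 1 0 c a) + C.g (aff 1 0 c y) else 0) := by
          apply Finset.sum_le_sum
          intro b hb
          by_cases hE : E a b
          · rw [if_pos hE, if_pos ⟨eA a ha, eB b hb, a, ha, b, hb, hE, Or.inl ⟨rfl, rfl⟩⟩,
              gA a ha, gB b hb]
            linarith
          · rw [if_neg hE]
            exact hnn _ _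
        linarith
      linarith
    -- the bad pairs
    have hBad : ∀ (v q : Pt) (S : Finset Pt),
        (∀ x ∈ (A ∪ B), (aff 1 0 c v).1 * (aff 1 0 c x).1 < 0 → x ∈ S) →
        BadP C (aff 1 0 c v) (aff 1 0 c q) → SplitP v q S := by
      rintro v q S hS ⟨h1, h2, a', ha', b', hb', h3, h4, h5, h6⟩
      rw [hV, Finset.mem_image] at ha' hb'
      obtain ⟨a, ha, rfl⟩ := ha'
      obtain ⟨b, hb, rfl⟩ := hb'
      have hne : (aff 1 0 c q).1 ≠ (aff 1 0 c v).1 := by
        intro h
        rw [h] at h2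
        exact lt_irrefl _ h2
      have hne' : q.1 ≠ v.1 := by
        intro h
        apply hne
        rw [coreGP_fst, coreGP_fst, h]
      obtain ⟨r, hr, er⟩ := coreGP_sign _ _ _ hne h3
      obtain ⟨r', hr', er'⟩ := coreGP_sign _ _ _ hne h4
      rw [coreGP_orient, coreGP_fst, coreGP_fst] at er er'
      have e0 : q.1 - c - (v.1 - c) = q.1 - v.1 := by ring
      rw [e0] at er er'
      refine coreGP_splitAux v q a b S (hS a ha h3) (hS b hb h4) hne' ?_ ?_
      · by_contra hc
        push Not at hc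
        have := mul_nonneg hr.le hc
        linarith
      · by_contra hc
        push Not at hc
        have := mul_nonneg hr'.le (neg_nonneg.2 hc)
        linarith
    have T2 : (∑ v ∈ C.V, ∑ q ∈ C.V, if BadP C v q then (C.κ v : ℝ) * C.c q else 0) ≤
        (∑ v ∈ B, ∑ q ∈ B, if SplitP v q A then (∑ a ∈ A, w a) / B.card else 0) +
        (∑ v ∈ A, ∑ q ∈ A, if SplitP v q B then
          w q / L + w v * w q * B.card / (∑ a ∈ A, w a) else 0) := by
      rw [hV, coreGP_sumUnion A B hAB c]
      have hA2 : ∑ v ∈ A, ∑ y ∈ (A ∪ B).image (aff 1 0 c),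
          (if BadP C (aff 1 0 c v) y then (C.κ (aff 1 0 c v) : ℝ) * C.c y else 0) ≤
          (∑ v ∈ A, ∑ q ∈ A, if SplitP v q B then
          w q / L + w v * w q * B.card / (∑ a ∈ A, w a) else 0) := by
        apply Finset.sum_le_sum
        intro v hv
        rw [coreGP_sumUnion A B hAB c]
        have h0 : ∑ b ∈ B, (if BadP C (aff 1 0 c v) (aff 1 0 c b) then
            (C.κ (aff 1 0 c v) : ℝ) * C.c (aff 1 0 c b) else 0) = 0 := by
          apply Finset.sum_eq_zero
          intro b hb
          rw [if_neg]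
          intro h
          have h1 := h.1
          have h2 := eA v hv
          have h3 := eB b hb
          nlinarith
        rw [h0, add_zero]
        apply Finset.sum_le_sum
        intro q hq
        by_cases hbad : BadP C (aff 1 0 c v) (aff 1 0 c q)
        · have hs : SplitP v q B := by
            refine hBad v q B ?_ hbad
            intro x hx hneg
            rcases Finset.mem_union.1 hx with h | h
            · exfalso
              have h1 := eA v hv
              have h2 := eA x h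
              nlinarith
            · exact h
          rw [if_pos hbad, if_pos hs, kA v hv, cA q hq]
          have h1 : ((⌈w v * (L * B.card) / ∑ a ∈ A, w a⌉₊ : ℕ) : ℝ) ≤
              w v * (L * B.card) / (∑ a ∈ A, w a) + 1 := by
            apply (Nat.ceil_lt_add_one _).le
            have := hw v
            positivity
          have h2 : 0 ≤ w q / (L : ℝ) := div_nonneg (hw q) hL'.le
          have h3 := mul_le_mul_of_nonneg_right h1 h2
          have h4 : (w v * (L * B.card) / (∑ a ∈ A, w a) + 1) * (w q / (L : ℝ)) =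
              w q / L + w v * w q * B.card / (∑ a ∈ A, w a) := by
            have := hpos.ne'
            field_simp
            ring
          linarith
        · rw [if_neg hbad]
          split_ifs
          · have h1 := hw q
            have h2 := hw v
            positivity
          · exact le_refl _
      have hB2 : ∑ v ∈ B, ∑ y ∈ (A ∪ B).image (aff 1 0 c),
          (if BadP C (aff 1 0 c v) y then (C.κ (aff 1 0 c v) : ℝ) * C.c y else 0) ≤
          (∑ v ∈ B, ∑ q ∈ B, if SplitP v q A then (∑ a ∈ A, w a) / B.card else 0) := by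
        apply Finset.sum_le_sum
        intro v hv
        rw [coreGP_sumUnion A B hAB c]
        have h0 : ∑ a ∈ A, (if BadP C (aff 1 0 c v) (aff 1 0 c a) then
            (C.κ (aff 1 0 c v) : ℝ) * C.c (aff 1 0 c a) else 0) = 0 := by
          apply Finset.sum_eq_zero
          intro b hb
          rw [if_neg]
          intro h
          have h1 := h.1
          have h2 := eB v hv
          have h3 := eA b hb
          nlinarith
        rw [h0, zero_add]
        apply Finset.sum_le_sum
        intro q hq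
        by_cases hbad : BadP C (aff 1 0 c v) (aff 1 0 c q)
        · have hs : SplitP v q A := by
            refine hBad v q A ?_ hbad
            intro x hx hneg
            rcases Finset.mem_union.1 hx with h | h
            · exact h
            · exfalso
              have h1 := eB v hv
              have h2 := eB x h
              nlinarith
          rw [if_pos hbad, if_pos hs, kB v hv, cB q hq]
          have h4 : (L : ℝ) * ((∑ a ∈ A, w a) / (L * B.card)) = (∑ a ∈ A, w a) / B.card := by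
            field_simp
          linarith
        · rw [if_neg hbad]
          split_ifs
          · positivity
          · exact le_refl _
      linarith
    have T3 : (∑ v ∈ C.V, (C.κ v : ℝ)) ≤ 3 * L * B.card := by
      rw [hV, coreGP_sumUnion A B hAB c]
      have h1 : ∑ b ∈ B, (C.κ (aff 1 0 c b) : ℝ) = L * B.card := by
        rw [Finset.sum_congr rfl (fun b hb => by rw [kB b hb])]
        rw [Finset.sum_const, nsmul_eq_mul]
        ring
      have h2 : ∑ a ∈ A, (C.κ (aff 1 0 c a) : ℝ) ≤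
          ∑ a ∈ A, (w a * (L * B.card) / (∑ a ∈ A, w a) + 1) := by
        apply Finset.sum_le_sum
        intro a ha
        rw [kA a ha]
        apply (Nat.ceil_lt_add_one _).le
        have := hw a
        positivity
      have h3 : ∑ a ∈ A, (w a * (L * B.card) / (∑ a ∈ A, w a) + 1) = L * B.card + A.card := by
        rw [Finset.sum_add_distrib, Finset.sum_const, nsmul_eq_mul, mul_one,
          ← Finset.sum_div, ← Finset.sum_mul]
        have := hpos.ne'
        field_simp
      rw [h3] at h2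
      linarith
    have T4 : (l'.map C.g).sum ≤ ((l'.map (aff 1 0 (-c))).map w).sum := by
      rw [List.map_map]
      apply List.sum_le_sum
      intro x hx
      have := hlV x hx
      rw [hV, Finset.mem_image] at this
      obtain ⟨u, hu, rfl⟩ := this
      rw [Function.comp_apply, coreGP_inv]
      rcases Finset.mem_union.1 hu with h | h
      · rw [gA u h]
      · rw [gB u h]
        exact hw u
    have T5 : 0 ≤ (l'.map C.g).sum := by
      apply List.sum_nonneg
      intro x hx
      rw [List.mem_map] at hx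
      obtain ⟨u, _, rfl⟩ := hx
      exact C.hg u
    have T6 : (∑ v ∈ C.V, (C.κ v : ℝ)) * (l'.map C.g).sum ≤
        3 * L * B.card * ((l'.map (aff 1 0 (-c))).map w).sum := by
      have h1 := mul_le_mul_of_nonneg_right T3 T5
      have h2 : (0 : ℝ) ≤ 3 * L * B.card := by positivity
      have h3 := mul_le_mul_of_nonneg_left T4 h2
      linarith
    linarith

end Pool.MP_992c01_co.NC
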