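import Pool.Agent.Lib.MP_992c01_co.Stm

set_option autoImplicit false

open scoped BigOperators Classical

namespace Pool.MP_992c01_co.NC

theorem distinct_invol (p : Pt) : aff (-1) 0 0 (aff (-1) 0 0 p) = p := by
  unfold aff
  ext <;> simp

theorem distinct_fst (p : Pt) : (aff (-1) 0 0 p).1 = -p.1 := by
  unfold aff
  simp

theorem distinct_cut (P : Finset Pt) (hP : P.Nonempty)
    (hd : ∀ p ∈ P, ∀ q ∈ P, p.1 = q.1 → p = q) :
    ∀ m : ℕ, m ≤ P.card → ∃ x₀ : ℝ, (P.filter (fun p => p.1 ≤ x₀)).card = m := by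
  intro m
  induction m with
  | zero =>
    intro _
    obtain ⟨r, hr, hmin⟩ := Finset.exists_min_image P (fun p => p.1) hP
    refine ⟨r.1 - 1, ?_⟩
    rw [Finset.card_eq_zero, Finset.filter_eq_empty_iff]
    intro p hp h
    have := hmin p hp
    linarith
  | succ m ih =>
    intro hm
    obtain ⟨x₀, hx⟩ := ih (by omega)
    have hne : (P.filter (fun p => x₀ < p.1)).Nonempty := by
      rw [← Finset.card_pos]
      have h := Finset.card_filter_add_card_filter_not (s := P) (fun p : Pt => p.1 ≤ x₀)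
      simp only [not_le] at h
      omega
    obtain ⟨q, hq, hmin⟩ := Finset.exists_min_image _ (fun p : Pt => p.1) hne
    rw [Finset.mem_filter] at hq
    refine ⟨q.1, ?_⟩
    have h1 : P.filter (fun p => p.1 ≤ q.1) = insert q (P.filter (fun p => p.1 ≤ x₀)) := by
      ext p
      rw [Finset.mem_filter, Finset.mem_insert, Finset.mem_filter]
      constructor
      · rintro ⟨hp, hpq⟩
        by_cases h : p.1 ≤ x₀
        · exact Or.inr ⟨hp, h⟩
        · refine Or.inl (hd p hp q hq.1 (le_antisymm hpq ?_))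
          exact hmin p (Finset.mem_filter.2 ⟨hp, not_le.1 h⟩)
      · rintro (rfl | ⟨hp, h⟩)
        · exact ⟨hq.1, le_rfl⟩
        · exact ⟨hp, h.trans hq.2.le⟩
    rw [h1, Finset.card_insert_of_notMem, hx]
    rw [Finset.mem_filter]
    rintro ⟨_, h⟩
    exact absurd hq.2 (not_lt.2 h)

theorem distinct_right (hA : S_aff) {k : ℕ} {η δ : ℝ}
    (hL : ∀ (P : Finset Pt)
      (col : Pt → Pt → Fin k) (w : Pt → ℝ) (x₀ : ℝ), GenPos P →
      (∀ p ∈ P, ∀ q ∈ P, p.1 = q.1 → p = q) →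
      (∀ x y, col x y = col y x) → (∀ p, 0 ≤ w p) → 0 < ∑ p ∈ P, w p →
      (∀ p ∈ P, w p ≤ η * ∑ p ∈ P, w p) →
      (∑ p ∈ P, w p) / 2 ≤ ∑ p ∈ P.filter (fun p => p.1 ≤ x₀), w p →
      (P.filter (fun p => p.1 ≤ x₀)).card ≤ 2 * (P.filter (fun p => x₀ < p.1)).card →
      ∃ l : List Pt, MonoNC k P col l ∧ δ * ∑ p ∈ P, w p ≤ (l.map w).sum)
    (P : Finset Pt) (col : Pt → Pt → Fin k) (w : Pt → ℝ) (x₀ : ℝ) (hG : GenPos P)
    (hd : ∀ p ∈ P, ∀ q ∈ P, p.1 = q.1 → p = q)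
    (hc : ∀ x y, col x y = col y x) (hw : ∀ p, 0 ≤ w p) (hpos : 0 < ∑ p ∈ P, w p)
    (hη : ∀ p ∈ P, w p ≤ η * ∑ p ∈ P, w p)
    (hhalf : (∑ p ∈ P, w p) / 2 ≤ ∑ p ∈ P.filter (fun p => x₀ < p.1), w p)
    (hcard : (P.filter (fun p => x₀ < p.1)).card ≤ 2 * (P.filter (fun p => p.1 ≤ x₀)).card) :
    ∃ l : List Pt, MonoNC k P col l ∧ δ * ∑ p ∈ P, w p ≤ (l.map w).sum := by
  obtain ⟨hinj, _, hgp, hnc⟩ := hA (-1) 0 0 (by norm_num)
  set ρ := aff (-1) 0 0 with hρ
  have hinv : ∀ p, ρ (ρ p) = p := distinct_invol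
  have hfst : ∀ p, (ρ p).1 = -p.1 := distinct_fst
  have hsum : ∀ S : Finset Pt, ∑ p ∈ S.image ρ, w (ρ p) = ∑ p ∈ S, w p := by
    intro S
    rw [Finset.sum_image fun a _ b _ h => hinj h]
    exact Finset.sum_congr rfl fun p _ => by rw [hinv]
  have hne : (P.filter (fun p => x₀ < p.1)).Nonempty := by
    rw [Finset.nonempty_iff_ne_empty]
    intro h
    rw [h, Finset.sum_empty] at hhalf
    linarith
  obtain ⟨q, hq, hmin⟩ := Finset.exists_min_image _ (fun p : Pt => p.1) hne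
  rw [Finset.mem_filter] at hq
  have hf1 : (P.image ρ).filter (fun p => p.1 ≤ -q.1) =
      (P.filter (fun p => x₀ < p.1)).image ρ := by
    ext p
    simp only [Finset.mem_filter, Finset.mem_image]
    constructor
    · rintro ⟨⟨a, ha, rfl⟩, h⟩
      rw [hfst] at h
      exact ⟨a, ⟨ha, by linarith [hq.2]⟩, rfl⟩
    · rintro ⟨a, ⟨ha, h⟩, rfl⟩
      refine ⟨⟨a, ha, rfl⟩, ?_⟩
      rw [hfst]
      have := hmin a (Finset.mem_filter.2 ⟨ha, h⟩)
      linarith
  have hf2 : (P.image ρ).filter (fun p => -q.1 < p.1) =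
      (P.filter (fun p => p.1 ≤ x₀)).image ρ := by
    ext p
    simp only [Finset.mem_filter, Finset.mem_image]
    constructor
    · rintro ⟨⟨a, ha, rfl⟩, h⟩
      rw [hfst] at h
      refine ⟨a, ⟨ha, ?_⟩, rfl⟩
      by_contra h2
      have := hmin a (Finset.mem_filter.2 ⟨ha, not_le.1 h2⟩)
      linarith
    · rintro ⟨a, ⟨ha, h⟩, rfl⟩
      refine ⟨⟨a, ha, rfl⟩, ?_⟩
      rw [hfst]
      linarith [hq.2]
  obtain ⟨l, ⟨hl1, hl2, hl3, ⟨c, hl4⟩, hl5⟩, hl6⟩ := hL (P.image ρ)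
    (fun x y => col (ρ x) (ρ y)) (fun p => w (ρ p)) (-q.1) (hgp P hG) (by
      intro p hp p' hp' h
      rw [Finset.mem_image] at hp hp'
      obtain ⟨a, ha, rfl⟩ := hp
      obtain ⟨b, hb, rfl⟩ := hp'
      rw [hfst, hfst] at h
      rw [hd a ha b hb (by linarith)]) (fun x y => hc _ _) (fun p => hw _) (by rw [hsum]; exact hpos)
    (by
      intro p hp
      rw [hsum]
      rw [Finset.mem_image] at hp
      obtain ⟨a, ha, rfl⟩ := hp
      rw [hinv]
      exact hη a ha) (by rw [hf1, hsum, hsum]; exact hhalf)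
    (by
      rw [hf1, hf2, Finset.card_image_of_injective _ hinj, Finset.card_image_of_injective _ hinj]
      exact hcard)
  refine ⟨l.map ρ, ⟨?_, ?_, ?_, ⟨c, ?_⟩, ?_⟩, ?_⟩
  · intro h
    exact hl1 (List.map_eq_nil_iff.1 h)
  · exact hl2.map hinj
  · intro v hv
    rw [List.mem_map] at hv
    obtain ⟨a, ha, rfl⟩ := hv
    have h := hl3 a ha
    rw [Finset.mem_image] at h
    obtain ⟨b, hb, rfl⟩ := h
    rw [hinv]
    exact hb
  · rw [List.isChain_map]
    exact hl4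
  · exact (hnc l).2 hl5
  · rw [hsum] at hl6
    rw [List.map_map]
    exact hl6

theorem p_distinct : S_aff → S_left → S_distinct := by
  intro hA hLf k hk
  obtain ⟨η, δ, hη, hδ, hL⟩ := hLf k hk
  have hη' : 0 < min η (1 / 2) := lt_min hη (by norm_num)
  refine ⟨min δ (min η (1 / 2)), lt_min hδ hη', ?_⟩
  intro P col w hG hd hc hw hne
  have hnn : 0 ≤ ∑ p ∈ P, w p := Finset.sum_nonneg fun p _ => hw p
  by_cases hbig : ∃ p ∈ P, min η (1 / 2) * ∑ p ∈ P, w p ≤ w p
  · obtain ⟨p, hp, h⟩ := hbig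
    refine ⟨[p], ⟨by simp, by simp, ?_, ⟨⟨0, hk⟩, by simp⟩, trivial⟩, ?_⟩
    · intro v hv
      rw [List.mem_singleton] at hv
      rw [hv]
      exact hp
    · rw [List.map_singleton, List.sum_singleton]
      exact (mul_le_mul_of_nonneg_right (min_le_right _ _) hnn).trans h
  · push Not at hbig
    have hpos : 0 < ∑ p ∈ P, w p := by
      obtain ⟨p, hp⟩ := hne
      have h1 := hbig p hp
      have h2 := hw p
      by_contra h3
      have h4 : ∑ p ∈ P, w p = 0 := le_antisymm (not_lt.1 h3) hnn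
      rw [h4, mul_zero] at h1
      linarith
    have hcard2 : 2 ≤ P.card := by
      by_contra h
      have h1 : P.card = 1 := by
        have := hne.card_pos
        omega
      obtain ⟨p, hp⟩ := Finset.card_eq_one.1 h1
      have h2 := hbig p (by rw [hp]; exact Finset.mem_singleton_self p)
      rw [hp, Finset.sum_singleton] at h2 hpos
      have h3 : min η (1 / 2) * w p ≤ 1 / 2 * w p :=
        mul_le_mul_of_nonneg_right (min_le_right _ _) hpos.le
      linarith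
    have hηP : ∀ p ∈ P, w p ≤ η * ∑ p ∈ P, w p := fun p hp =>
      (hbig p hp).le.trans (mul_le_mul_of_nonneg_right (min_le_left _ _) hnn)
    obtain ⟨x₀, hx⟩ := distinct_cut P hne hd (P.card / 2) (Nat.div_le_self _ _)
    have hx2 := Finset.card_filter_add_card_filter_not (s := P) (fun p : Pt => p.1 ≤ x₀)
    have hs2 := Finset.sum_filter_add_sum_filter_not P (fun p : Pt => p.1 ≤ x₀) w
    simp only [not_le] at hx2 hs2
    have hδle : min δ (min η (1 / 2)) * ∑ p ∈ P, w p ≤ δ * ∑ p ∈ P, w p :=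
      mul_le_mul_of_nonneg_right (min_le_left _ _) hnn
    by_cases hcase : (∑ p ∈ P, w p) / 2 ≤ ∑ p ∈ P.filter (fun p => p.1 ≤ x₀), w p
    · obtain ⟨l, h1, h2⟩ := hL P col w x₀ hG hd hc hw hpos hηP hcase (by omega)
      exact ⟨l, h1, hδle.trans h2⟩
    · obtain ⟨l, h1, h2⟩ := distinct_right hA hL P col w x₀ hG hd hc hw hpos hηP
        (by linarith) (by omega)
      exact ⟨l, h1, hδle.trans h2⟩

end Pool.MP_992c01_co.NC
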