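import Pool.Agent.Lib.MP_992c01_co.Stm

set_option autoImplicit false

open scoped BigOperators Classical

namespace Pool.MP_992c01_co.NC

theorem p_frac : S_weighted → S_dual → S_frac := by
  intro hW hD k hk
  obtain ⟨δ, hδ, hW'⟩ := hW k hk
  refine ⟨δ, hδ, ?_⟩
  intro P col hP hcol hne
  set 𝒮 : Finset (Finset Pt) :=
    P.powerset.filter (fun S => ∃ l, MonoNC k P col l ∧ l.toFinset = S) with h𝒮
  have key : ∀ w : Pt → ℝ, (∀ p, 0 ≤ w p) → ∃ S ∈ 𝒮, δ * ∑ p ∈ P, w p ≤ ∑ p ∈ S ∩ P, w p := by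
    intro w hw
    obtain ⟨l, hl, hle⟩ := hW' P col w hP hcol hw hne
    have hsub : l.toFinset ⊆ P := by
      intro v hv
      exact hl.2.2.1 v (List.mem_toFinset.mp hv)
    refine ⟨l.toFinset, ?_, ?_⟩
    · rw [h𝒮, Finset.mem_filter, Finset.mem_powerset]
      exact ⟨hsub, l, hl, rfl⟩
    · rw [Finset.inter_eq_left.mpr hsub, List.sum_toFinset w hl.2.1]
      exact hle
  have hS0 : 𝒮.Nonempty := by
    obtain ⟨S, hS, _⟩ := key (fun _ => 0) (fun _ => le_rfl)
    exact ⟨S, hS⟩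
  obtain ⟨lam, hlam, hsum, hcov⟩ := hD P 𝒮 δ hδ hS0 key
  have hch : ∀ S : ↥𝒮, ∃ l, MonoNC k P col l ∧ l.toFinset = (S : Finset Pt) := by
    intro S
    exact (Finset.mem_filter.mp S.2).2
  choose lf hlf hlf' using hch
  set e := 𝒮.equivFin with he
  refine ⟨𝒮.card, fun i => lf (e.symm i), fun i => lam (e.symm i), fun i => hlf _,
    fun i => hlam _, ?_, ?_⟩
  · rw [Equiv.sum_comp e.symm (fun S : ↥𝒮 => lam (S : Finset Pt)), Finset.sum_coe_sort 𝒮 lam]
    exact hsum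
  · intro p hp
    have h1 := hcov p hp
    rw [Finset.sum_filter] at h1 ⊢
    rw [Equiv.sum_comp e.symm
      (fun S : ↥𝒮 => if p ∈ lf S then lam (S : Finset Pt) else 0)]
    rw [← Finset.sum_coe_sort 𝒮 (fun S => if p ∈ S then lam S else 0)] at h1
    refine h1.trans (le_of_eq ?_)
    refine Finset.sum_congr rfl fun S _ => ?_
    have : p ∈ lf S ↔ p ∈ (S : Finset Pt) := by
      rw [← hlf' S, List.mem_toFinset]
    simp only [this]

end Pool.MP_992c01_co.NC
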