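import Pool.Agent.Lib.MP_992c01_co.Stm

set_option autoImplicit false

open scoped BigOperators Classical

namespace Pool.MP_992c01_co.NC

theorem goodBel_inv {C : Cfg} {s : ℝ} {v x : Pt} {l : List Pt} (h : Good C s (v :: x :: l)) :
    Good C (ht x v) (x :: l) ∧ C.E x v ∧ ht x v < s ∧ ¬ Bel (x :: l) v := by
  cases h with
  | cons s v w l h hE hs hnb => exact ⟨h, hE, hs, hnb⟩

theorem p_goodBel : S_htComm → S_dev → S_goodBel := by
  intro hc hd C s v l
  obtain ⟨-, d2, -, -, -, d6⟩ := hd
  induction l generalizing s v with
  | nil => intro _; simp
  | cons x l ih =>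
    intro hG
    obtain ⟨h, hE, hlt, hnb⟩ := goodBel_inv hG
    obtain ⟨ih1, ih2⟩ := ih _ _ h
    refine ⟨?_, ?_⟩
    · intro u hu hux
      have hux' : u ≠ x := hux
      have hul : u ∈ l := by
        rcases List.mem_cons.1 hu with h1 | h1
        · exact absurd h1 hux'
        · exact h1
      by_cases hh : u = l.headI
      · cases l with
        | nil => simp at hul
        | cons y l' =>
          have huy : u = y := hh
          subst huy
          obtain ⟨-, hE', hlt', -⟩ := goodBel_inv h
          left
          have e1 : v.1 * x.1 < 0 := by
            have := C.Eopp _ _ hE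
            linarith [mul_comm v.1 x.1]
          have e2 : x.1 * u.1 < 0 := by
            have := C.Eopp _ _ hE'
            linarith [mul_comm u.1 x.1]
          rw [d6 v x u e1, (d2 x u _ e2).2, hc x u, hc v x]
          exact hlt'
      · right
        exact ih1 u hul hh
    · rw [List.nodup_cons]
      refine ⟨?_, ih2⟩
      intro hv
      rcases List.mem_cons.1 hv with h1 | h1
      · have := C.Eopp _ _ hE
        rw [h1] at this
        nlinarith [mul_self_nonneg x.1]
      · by_cases hh : v = l.headI
        · cases l with
          | nil => simp at h1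
          | cons y l' =>
            have hvy : v = y := hh
            subst hvy
            obtain ⟨-, -, hlt', -⟩ := goodBel_inv h
            rw [hc v x] at hlt'
            exact lt_irrefl _ hlt'
        · exact hnb (ih1 v h1 hh)

end Pool.MP_992c01_co.NC
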