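import Pool.Agent.Lib.MP_992c01_co.Stm

set_option autoImplicit false

open scoped BigOperators Classical

namespace Pool.MP_992c01_co.NC

/-- slope of the line `p q` -/
noncomputable def goodNC_sl (p q : Pt) : ℝ := (q.2 - p.2) / (q.1 - p.1)

theorem goodNC_line1 (p q : Pt) (h : p.1 ≠ q.1) : p.2 = ht p q + goodNC_sl p q * p.1 := by
  have h1 : q.1 - p.1 ≠ 0 := sub_ne_zero.mpr (Ne.symm h)
  unfold ht goodNC_sl
  field_simp
  ring

theorem goodNC_line2 (p q : Pt) (h : p.1 ≠ q.1) : q.2 = ht p q + goodNC_sl p q * q.1 := by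
  have h1 : q.1 - p.1 ≠ 0 := sub_ne_zero.mpr (Ne.symm h)
  unfold ht goodNC_sl
  field_simp
  ring

/-- Points of a segment: equation of the line and position between the abscissae. -/
theorem goodNC_seg (p q P : Pt) (h : p.1 ≠ q.1) (hP : P ∈ segment ℝ p q) :
    P.2 = ht p q + goodNC_sl p q * P.1 ∧
    ∃ s t : ℝ, 0 ≤ s ∧ 0 ≤ t ∧ s + t = 1 ∧ P = s • p + t • q := by
  obtain ⟨s, t, hs, ht', hst, rfl⟩ := hP
  refine ⟨?_, s, t, hs, ht', hst, rfl⟩
  have e1 := goodNC_line1 p q h
  have e2 := goodNC_line2 p q h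
  simp only [Prod.fst_add, Prod.snd_add, Prod.smul_fst, Prod.smul_snd, smul_eq_mul]
  have : s = 1 - t := by linarith
  subst this
  calc (1 - t) * p.2 + t * q.2
      = (1 - t) * (ht p q + goodNC_sl p q * p.1) + t * (ht p q + goodNC_sl p q * q.1) := by
        rw [← e1, ← e2]
    _ = ht p q + goodNC_sl p q * ((1 - t) * p.1 + t * q.1) := by ring

theorem goodNC_dev (x u : Pt) (h α : ℝ) (hx : x.1 ≠ 0) (e : x.2 = h + α * x.1) :
    dev x u h = u.2 - h - α * u.1 := by
  unfold dev
  rw [e]
  field_simp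
  ring

/-- If `z` is on the line with height `h` through `x` then `ht x z = h`. -/
theorem goodNC_ht (x z : Pt) (h α : ℝ) (hxz : x.1 ≠ z.1) (e : x.2 = h + α * x.1)
    (e' : z.2 = h + α * z.1) : ht x z = h := by
  have h1 : z.1 - x.1 ≠ 0 := sub_ne_zero.mpr (Ne.symm hxz)
  unfold ht
  rw [e, e']
  field_simp
  ring

/-- facts about the edges of a good path -/
theorem goodNC_edges (hcomm : S_htComm) (C : Cfg) (s : ℝ) (l : List Pt) (h : Good C s l) :
    ∀ x y, (x, y) ∈ Edges l → x ∈ l ∧ y ∈ l ∧ C.E x y ∧ ht x y < s ∧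
      ∀ u, dev x u (ht x y) < 0 → Bel l u := by
  induction h with
  | single s v hv =>
    intro x y hxy
    exact absurd hxy (by simp [Edges])
  | cons s v w l h hE hs hnb ih =>
    intro x y hxy
    have hxy' : (x, y) = (w, v) ∨ (x, y) ∈ Edges (v :: l) := by
      simpa [Edges] using hxy
    rcases hxy' with h1 | h1
    · obtain ⟨rfl, rfl⟩ := Prod.mk.inj h1
      refine ⟨by simp, by simp, C.Esymm _ _ hE, by rw [hcomm]; exact hs, ?_⟩
      intro u hu
      exact Or.inl hu
    · obtain ⟨a1, a2, a3, a4, a5⟩ := ih x y h1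
      exact ⟨List.mem_cons_of_mem _ a1, List.mem_cons_of_mem _ a2, a3, lt_trans a4 hs,
        fun u hu => Or.inr (a5 u hu)⟩

/-- The last vertex of a good path was admissible. -/
theorem goodNC_head (C : Cfg) (s : ℝ) (v : Pt) (l : List Pt) (h : Good C s (v :: l)) :
    ¬ Bel l v := by
  cases h with
  | single s v hv => simp [Bel]
  | cons s v w l h hE hs hnb => exact hnb

/-- A point of the edge `z z'` on the side of `z`: distances to the axis. -/
theorem goodNC_side (z z' : Pt) (s t : ℝ) (ht' : 0 ≤ t) (hst : s + t = 1)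
    (hopp : z.1 * z'.1 < 0) (c : ℝ) (hc : c = s * z.1 + t * z'.1) (hcz : 0 < c * z.1) :
    c * (z.1 - c) ≥ 0 := by
  have hs1 : s = 1 - t := by linarith
  have h1 : z.1 - c = t * (z.1 - z'.1) := by rw [hc, hs1]; ring
  rw [h1]
  have h2 : 0 ≤ c * (z.1 - z'.1) := by
    rcases lt_or_gt_of_ne (show c ≠ 0 by rintro rfl; simp at hcz) with h3 | h3
    · have h4 : z.1 < 0 := by nlinarith
      have h5 : 0 < z'.1 := by nlinarith
      nlinarith
    · have h4 : 0 < z.1 := by nlinarith
      have h5 : z'.1 < 0 := by nlinarith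
      nlinarith
  have : c * (t * (z.1 - z'.1)) = t * (c * (z.1 - z'.1)) := by ring
  rw [this]
  exact mul_nonneg ht' h2

/-- Core: `z` is the end of a later edge (slope `β`, height `t`) on the side of the common point. -/
theorem goodNC_core (C : Cfg) (x y z P : Pt) (h t α β : ℝ) (hht : h < t)
    (hxV : x ∈ C.V) (hyV : y ∈ C.V) (hzV : z ∈ C.V) (hxy : x.1 * y.1 < 0) (hh : ht x y = h)
    (ex : x.2 = h + α * x.1) (ey : y.2 = h + α * y.1) (ez : z.2 = t + β * z.1)
    (eP : P.2 = h + α * P.1) (eP' : P.2 = t + β * P.1) (hside : 0 ≤ P.1 * (z.1 - P.1))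
    (hzx : z ≠ x) (hzy : z ≠ y) : dev x z h < 0 := by
  have hx0 : x.1 ≠ 0 := C.hx x hxV
  have hy0 : y.1 ≠ 0 := C.hx y hyV
  have hz0 : z.1 ≠ 0 := C.hx z hzV
  rw [goodNC_dev x z h α hx0 ex]
  have k1 : (β - α) * P.1 = h - t := by linarith [eP, eP']
  have k2 : z.2 - h - α * z.1 = (β - α) * (z.1 - P.1) := by
    rw [ez]; linarith [k1]
  have hP0 : P.1 ≠ 0 := by
    intro h0
    rw [h0] at k1
    linarith
  have k3 : (β - α) * (z.1 - P.1) * (P.1 * P.1) = (h - t) * (P.1 * (z.1 - P.1)) := by
    rw [← k1]; ring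
  have k4 : 0 < P.1 * P.1 := mul_self_pos.mpr hP0
  have hne : z.1 - P.1 ≠ 0 := by
    intro h0
    have hz1 : z.1 = P.1 := by linarith
    have ez' : z.2 = h + α * z.1 := by
      rw [hz1, ← eP, eP', ez, hz1]
    -- `z` is opposite to `x` or to `y`
    by_cases hzx' : x.1 = z.1
    · have hyz : y.1 ≠ z.1 := by
        intro h1
        rw [hzx', h1] at hxy
        nlinarith [mul_self_nonneg z.1]
      have h2 := goodNC_ht y z h α hyz ey ez'
      have hxy1 : x.1 ≠ y.1 := by
        intro h1; rw [h1] at hxy; nlinarith [mul_self_nonneg y.1]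
      rcases C.hdist y hyV z hzV x hxV y hyV hyz hxy1 (h2.trans hh.symm) with h3 | h3
      · exact hzy h3.2
      · exact hzx h3.2
    · have h2 := goodNC_ht x z h α hzx' ex ez'
      have hxy1 : x.1 ≠ y.1 := by
        intro h1; rw [h1] at hxy; nlinarith [mul_self_nonneg y.1]
      rcases C.hdist x hxV z hzV x hxV y hyV hzx' hxy1 (h2.trans hh.symm) with h3 | h3
      · exact hzy h3.2
      · exact hzx h3.2
  have hpos : 0 < P.1 * (z.1 - P.1) := lt_of_le_of_ne hside (Ne.symm (mul_ne_zero hP0 hne))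
  rw [k2]
  by_contra hcon
  push Not at hcon
  have h1 : 0 ≤ (β - α) * (z.1 - P.1) * (P.1 * P.1) := mul_nonneg hcon k4.le
  have h2 : (h - t) * (P.1 * (z.1 - P.1)) < 0 := mul_neg_of_neg_of_pos (by linarith) hpos
  linarith

theorem p_goodNC : S_htComm → S_dev → S_goodMono → S_goodBel → S_goodNC := by
  intro hcomm _ _ hbel C s l h
  induction h with
  | single s v hv => trivial
  | cons s v w l h hE hs hnb ih =>
    refine ⟨ih, ?_⟩
    rintro ⟨x, y⟩ hxy
    have hgood : Good C s (w :: v :: l) := Good.cons s v w l h hE hs hnb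
    have hnd := (hbel C s w (v :: l) hgood).2
    -- edges of `l`
    have hxy' : (x, y) ∈ Edges (v :: l) := by
      cases l with
      | nil => simp [Edges] at hxy
      | cons a l' =>
        simp only [Edges]
        exact Or.inr hxy
    obtain ⟨-, -, hExy, hlt, -⟩ := goodNC_edges hcomm C _ _ h x y hxy'
    -- `l` itself is good
    have hl : ∃ s', Good C s' l := by
      cases h with
      | single s v hv => simp [Edges] at hxy
      | cons s v' w' l' h' hE' hs' hnb' => exact ⟨_, h'⟩
    obtain ⟨s', hl⟩ := hl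
    obtain ⟨hxl, hyl, -, -, hB⟩ := goodNC_edges hcomm C _ _ hl x y hxy
    have hv' := goodNC_head C _ _ _ h
    have hxV := C.EV _ _ hExy
    have hyV := C.EV _ _ (C.Esymm _ _ hExy)
    have hvV := C.EV _ _ hE
    have hwV := C.EV _ _ (C.Esymm _ _ hE)
    have hoxy := C.Eopp _ _ hExy
    have hovw := C.Eopp _ _ hE
    have hx1 : x.1 ≠ y.1 := by
      intro h1; rw [h1] at hoxy; nlinarith [mul_self_nonneg y.1]
    have hv1 : v.1 ≠ w.1 := by
      intro h1; rw [h1] at hovw; nlinarith [mul_self_nonneg w.1]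
    have hwx : w ≠ x := by
      rintro rfl
      exact (List.nodup_cons.mp hnd).1 (List.mem_cons_of_mem _ hxl)
    have hwy : w ≠ y := by
      rintro rfl
      exact (List.nodup_cons.mp hnd).1 (List.mem_cons_of_mem _ hyl)
    have hvx : v ≠ x := by
      rintro rfl
      exact (List.nodup_cons.mp (List.nodup_cons.mp hnd).2).1 hxl
    have hvy : v ≠ y := by
      rintro rfl
      exact (List.nodup_cons.mp (List.nodup_cons.mp hnd).2).1 hyl
    rw [Set.disjoint_left]
    intro P hP1 hP2
    simp only at hP2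
    obtain ⟨eP, -⟩ := goodNC_seg x y P hx1 hP2
    rw [segment_symm] at hP1
    obtain ⟨eP', a, b, ha, hb, hab, hPab⟩ := goodNC_seg v w P hv1 hP1
    have hPc : P.1 = a * v.1 + b * w.1 := by
      rw [hPab]
      simp only [Prod.fst_add, Prod.smul_fst, smul_eq_mul]
    have hP0 : P.1 ≠ 0 := by
      intro h0
      rw [h0] at eP eP'
      linarith
    have hbelow : ∀ z, z ∈ C.V → z ≠ x → z ≠ y → z.2 = ht v w + goodNC_sl v w * z.1 →
        0 ≤ P.1 * (z.1 - P.1) → Bel l z := by
      intro z hzV hzx hzy ez hside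
      exact hB z (goodNC_core C x y z P (ht x y) (ht v w) (goodNC_sl x y) (goodNC_sl v w) hlt
        hxV hyV hzV hoxy rfl (goodNC_line1 x y hx1) (goodNC_line2 x y hx1) ez eP eP' hside hzx hzy)
    have hsides : 0 < P.1 * w.1 ∨ 0 < P.1 * v.1 := by
      rcases lt_or_gt_of_ne hP0 with h1 | h1
      · rcases lt_or_gt_of_ne (C.hx w hwV) with h2 | h2
        · left; nlinarith
        · right
          have : v.1 < 0 := by nlinarith
          nlinarith
      · rcases lt_or_gt_of_ne (C.hx w hwV) with h2 | h2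
        · right
          have : 0 < v.1 := by nlinarith
          nlinarith
        · left; nlinarith
    rcases hsides with hw | hv
    · -- the common point is on the side of `w`
      have hside := goodNC_side w v b a ha (by linarith) (by linarith) P.1 (by linarith) hw
      have hb1 := hbelow w hwV hwx hwy (goodNC_line2 v w hv1) hside
      apply hnb
      cases l with
      | nil => simp at hxl
      | cons a' l' => exact Or.inr hb1
    · have hside := goodNC_side v w a b hb hab hovw P.1 hPc hv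
      exact hv' (hbelow v hvV hvx hvy (goodNC_line1 v w hv1) hside)

end Pool.MP_992c01_co.NC
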