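import Pool.Agent.Lib.MP_992c01_co.Stm

set_option autoImplicit false

open scoped BigOperators Classical

namespace Pool.MP_992c01_co.NC

theorem greedy_genPos {P Q : Finset Pt} (hP : GenPos P) (h : Q ⊆ P) : GenPos Q :=
  fun a ha b hb c hc => hP a (h ha) b (h hb) c (h hc)

theorem greedy_mono {k : ℕ} {P Q : Finset Pt} {col : Pt → Pt → Fin k} {l : List Pt}
    (h : MonoNC k Q col l) (hQ : Q ⊆ P) : MonoNC k P col l :=
  ⟨h.1, h.2.1, fun v hv => hQ (h.2.2.1 v hv), h.2.2.2⟩

theorem p_greedy : S_weighted → S_greedy := by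
  intro hw k hk
  obtain ⟨δ₀, hδ₀, H⟩ := hw k hk
  refine ⟨min δ₀ 1, lt_min hδ₀ one_pos, min_le_right _ _, ?_⟩
  intro P col hP hcol m
  have hd0 : 0 ≤ 1 - min δ₀ 1 := by
    have := min_le_right δ₀ 1
    linarith
  induction m with
  | zero =>
    refine ⟨[], by simp, by simp, by simp, ?_⟩
    simp
  | succ m ih =>
    obtain ⟨L, hL1, hL2, hL3, hL4⟩ := ih
    set U : Finset Pt := P.filter (fun p => ∀ l ∈ L, p ∉ l) with hU
    rcases U.eq_empty_or_nonempty with hemp | hne
    · refine ⟨L, by omega, hL2, hL3, ?_⟩
      rw [← hU, hemp]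
      simp only [Finset.card_empty, Nat.cast_zero]
      positivity
    · have hUP : U ⊆ P := Finset.filter_subset _ _
      obtain ⟨l, hl1, hl2⟩ := H U col (fun _ => 1) (greedy_genPos hP hUP) hcol
        (fun _ => zero_le_one) hne
      have hl3 : ∀ v ∈ l, v ∈ U := hl1.2.2.1
      have hlen : (l.map (fun _ : Pt => (1 : ℝ))).sum = (l.length : ℝ) := by simp
      rw [hlen] at hl2
      simp only [Finset.sum_const, nsmul_eq_mul, mul_one] at hl2
      refine ⟨l :: L, by simp only [List.length_cons]; omega, ?_, ?_, ?_⟩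
      · intro l' hl'
        rcases List.mem_cons.mp hl' with h | h
        · rw [h]
          exact greedy_mono hl1 hUP
        · exact hL2 l' h
      · refine List.Pairwise.cons ?_ hL3
        intro l' hl' v hv
        have := hl3 v hv
        rw [hU, Finset.mem_filter] at this
        exact this.2 l' hl'
      · have hsub : P.filter (fun p => ∀ l' ∈ l :: L, p ∉ l') ⊆ U \ l.toFinset := by
          intro p hp
          rw [Finset.mem_filter] at hp
          rw [Finset.mem_sdiff, hU, Finset.mem_filter, List.mem_toFinset]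
          exact ⟨⟨hp.1, fun l' hl' => hp.2 l' (List.mem_cons_of_mem _ hl')⟩,
            hp.2 l List.mem_cons_self⟩
        have hlU : l.toFinset ⊆ U := by
          intro v hv
          exact hl3 v (List.mem_toFinset.mp hv)
        have hc1 : ((U \ l.toFinset).card : ℝ) = (U.card : ℝ) - l.length := by
          have h1 := Finset.card_sdiff_add_card_eq_card hlU
          have h2 : l.toFinset.card = l.length := List.toFinset_card_of_nodup hl1.2.1
          rw [h2] at h1
          have h3 : ((U \ l.toFinset).card : ℝ) + l.length = U.card := by exact_mod_cast h1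
          linarith
        have hc2 : ((P.filter (fun p => ∀ l' ∈ l :: L, p ∉ l')).card : ℝ) ≤
            ((U \ l.toFinset).card : ℝ) := by
          exact_mod_cast Finset.card_le_card hsub
        have hc3 : min δ₀ 1 * (U.card : ℝ) ≤ δ₀ * U.card :=
          mul_le_mul_of_nonneg_right (min_le_left _ _) (Nat.cast_nonneg _)
        calc ((P.filter (fun p => ∀ l' ∈ l :: L, p ∉ l')).card : ℝ)
            ≤ (1 - min δ₀ 1) * U.card := by
              rw [hc1] at hc2
              nlinarith
          _ ≤ (1 - min δ₀ 1) * ((1 - min δ₀ 1) ^ m * P.card) :=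
              mul_le_mul_of_nonneg_left hL4 hd0
          _ = (1 - min δ₀ 1) ^ (m + 1) * P.card := by ring

end Pool.MP_992c01_co.NC
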