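import Pool.Agent.Lib.MP_992c01_co.Stm

set_option autoImplicit false

open scoped BigOperators Classical

namespace Pool.MP_992c01_co.NC

/-- an initial part of weight between `T` and `2 T` -/
theorem groups_cut (S : Finset Pt) (μ : Pt → ℝ) (T : ℝ) (hT : 0 < T) (hμ : ∀ p, 0 ≤ μ p)
    (hinj : ∀ p ∈ S, ∀ q ∈ S, p.1 = q.1 → p = q) (hsm : ∀ p ∈ S, μ p ≤ T)
    (hS : T ≤ ∑ p ∈ S, μ p) :
    ∃ c : ℝ, T ≤ ∑ p ∈ S.filter (fun p => p.1 ≤ c), μ p ∧
      ∑ p ∈ S.filter (fun p => p.1 ≤ c), μ p ≤ 2 * T := by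
  have hne : S.Nonempty := by
    by_contra h
    rw [Finset.not_nonempty_iff_eq_empty] at h
    rw [h, Finset.sum_empty] at hS
    linarith
  set C : Finset Pt := S.filter (fun c => T ≤ ∑ p ∈ S.filter (fun p => p.1 ≤ c.1), μ p) with hC
  have hCne : C.Nonempty := by
    obtain ⟨c, hc, hmax⟩ := Finset.exists_max_image S (fun p => p.1) hne
    refine ⟨c, ?_⟩
    rw [hC, Finset.mem_filter]
    refine ⟨hc, ?_⟩
    have : S.filter (fun p => p.1 ≤ c.1) = S := Finset.filter_true_of_mem (fun p hp => hmax p hp)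
    rw [this]
    exact hS
  obtain ⟨c, hc, hmin⟩ := Finset.exists_min_image C (fun p => p.1) hCne
  have hcS : c ∈ S := (Finset.mem_filter.mp hc).1
  refine ⟨c.1, (Finset.mem_filter.mp hc).2, ?_⟩
  have hlt : ∑ p ∈ S.filter (fun p => p.1 < c.1), μ p < T := by
    by_contra hcon
    push Not at hcon
    have hne2 : (S.filter (fun p => p.1 < c.1)).Nonempty := by
      by_contra h
      rw [Finset.not_nonempty_iff_eq_empty] at h
      rw [h, Finset.sum_empty] at hcon
      linarith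
    obtain ⟨d, hd, hmax⟩ := Finset.exists_max_image _ (fun p => p.1) hne2
    rw [Finset.mem_filter] at hd
    have hsub : S.filter (fun p => p.1 < c.1) ⊆ S.filter (fun p => p.1 ≤ d.1) := by
      intro p hp
      rw [Finset.mem_filter]
      exact ⟨(Finset.mem_filter.mp hp).1, hmax p hp⟩
    have hdC : d ∈ C := by
      rw [hC, Finset.mem_filter]
      exact ⟨hd.1, le_trans hcon
        (Finset.sum_le_sum_of_subset_of_nonneg hsub (fun p _ _ => hμ p))⟩
    have := hmin d hdC
    linarith [hd.2]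
  have hsplit : S.filter (fun p => p.1 ≤ c.1) = insert c (S.filter (fun p => p.1 < c.1)) := by
    ext p
    simp only [Finset.mem_filter, Finset.mem_insert]
    constructor
    · rintro ⟨hp, hle⟩
      rcases lt_or_eq_of_le hle with h | h
      · exact Or.inr ⟨hp, h⟩
      · exact Or.inl (hinj p hp c hcS h)
    · rintro (h | ⟨hp, h⟩)
      · rw [h]; exact ⟨hcS, le_rfl⟩
      · exact ⟨hp, h.le⟩
  rw [hsplit, Finset.sum_insert (by simp)]
  linarith [hsm c hcS]

theorem groups_ind (μ : Pt → ℝ) (T : ℝ) (hT : 0 < T) (hμ : ∀ p, 0 ≤ μ p) (m : ℕ) :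
    ∀ S : Finset Pt, (∀ p ∈ S, ∀ q ∈ S, p.1 = q.1 → p = q) → (∀ p ∈ S, μ p ≤ T) →
      2 * (m : ℝ) * T ≤ ∑ p ∈ S, μ p →
      ∃ G : Fin m → Finset Pt, (∀ i, G i ⊆ S) ∧ (∀ i j, i < j → Lft (G i) (G j)) ∧
        ∀ i, T ≤ ∑ p ∈ G i, μ p := by
  induction m with
  | zero =>
    intro S _ _ _
    exact ⟨fun _ => ∅, fun i => i.elim0, fun i => i.elim0, fun i => i.elim0⟩
  | succ m ih =>
    intro S hinj hsm hS
    have hS1 : T ≤ ∑ p ∈ S, μ p := by
      refine le_trans ?_ hS
      push_cast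
      have : 0 ≤ (m : ℝ) * T := by positivity
      nlinarith
    obtain ⟨c, hc1, hc2⟩ := groups_cut S μ T hT hμ hinj hsm hS1
    have hsum := Finset.sum_filter_add_sum_filter_not S (fun p => p.1 ≤ c) μ
    have hS' : 2 * (m : ℝ) * T ≤ ∑ p ∈ S.filter (fun p => ¬ p.1 ≤ c), μ p := by
      push_cast at hS
      nlinarith
    obtain ⟨G, hG1, hG2, hG3⟩ := ih (S.filter (fun p => ¬ p.1 ≤ c))
      (fun p hp q hq => hinj p (Finset.mem_filter.mp hp).1 q (Finset.mem_filter.mp hq).1)
      (fun p hp => hsm p (Finset.mem_filter.mp hp).1) hS'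
    refine ⟨Fin.cons (S.filter (fun p => p.1 ≤ c)) G, ?_, ?_, ?_⟩
    · intro i
      refine Fin.cases ?_ (fun i => ?_) i
      · rw [Fin.cons_zero]; exact Finset.filter_subset _ _
      · rw [Fin.cons_succ]; exact (hG1 i).trans (Finset.filter_subset _ _)
    · intro i j hij
      refine Fin.cases ?_ (fun j => ?_) j hij
      · intro h; exact absurd h (Fin.not_lt_zero _)
      · refine Fin.cases ?_ (fun i => ?_) i
        · intro _ p hp q hq
          rw [Fin.cons_zero] at hp
          rw [Fin.cons_succ] at hq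
          have h1 := (Finset.mem_filter.mp hp).2
          have h2 := (Finset.mem_filter.mp (hG1 j hq)).2
          exact lt_of_le_of_lt h1 (not_le.mp h2)
        · intro h
          rw [Fin.cons_succ, Fin.cons_succ]
          exact hG2 i j (Fin.succ_lt_succ_iff.mp h)
    · intro i
      refine Fin.cases ?_ (fun i => ?_) i
      · rw [Fin.cons_zero]; exact hc1
      · rw [Fin.cons_succ]; exact hG3 i

theorem p_groups : S_groups := by
  intro S μ m hm hμ hinj hsm
  have hm0 : (0 : ℝ) < m := by exact_mod_cast hm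
  have hS0 : 0 ≤ ∑ p ∈ S, μ p := Finset.sum_nonneg (fun p _ => hμ p)
  rcases hS0.eq_or_lt with h0 | hpos
  · refine ⟨fun _ => ∅, fun i => Finset.empty_subset _, fun i j _ p hp => by simp at hp, ?_⟩
    intro i
    rw [← h0]
    simp
  · refine groups_ind μ ((∑ p ∈ S, μ p) / (2 * m)) (by positivity) hμ m S hinj hsm ?_
    rw [mul_div_cancel₀ _ (by positivity : (2 * (m : ℝ)) ≠ 0)]

end Pool.MP_992c01_co.NC
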