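import Pool.Agent.Lib.MP_992c01_co.Stm

set_option autoImplicit false

open scoped BigOperators Classical

namespace Pool.MP_992c01_co.NC

/-- the maximum of `p.2 - θ p.1` over `S` -/
private noncomputable def ham_g (S : Finset Pt) (θ : ℝ) : ℝ :=
  if h : S.Nonempty then S.sup' h (fun p => p.2 - θ * p.1) else 0

private theorem ham_g_cont (S : Finset Pt) : Continuous (ham_g S) := by
  unfold ham_g
  by_cases h : S.Nonempty
  · simp only [h, dite_true]
    exact Continuous.finset_sup'_apply h (fun p _ => by fun_prop)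
  · simp only [h, dite_false]
    exact continuous_const

private theorem ham_f (X : Finset Pt) (μ : Pt → ℝ) (hμ : ∀ p, 0 ≤ μ p)
    (hX : 0 < ∑ p ∈ X, μ p) : ∃ f : ℝ → ℝ, Continuous f ∧ ∀ θ,
    (∃ x ∈ X, f θ = x.2 - θ * x.1) ∧
    (∑ p ∈ X, μ p) / 2 ≤ ∑ p ∈ X.filter (fun p => p.2 ≤ θ * p.1 + f θ), μ p ∧
    (∑ p ∈ X, μ p) / 2 ≤ ∑ p ∈ X.filter (fun p => θ * p.1 + f θ ≤ p.2), μ p := by
  set G : Finset (Finset Pt) := X.powerset.filter
    (fun S => (∑ p ∈ X, μ p) / 2 ≤ ∑ p ∈ S, μ p ∧ S.Nonempty) with hG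
  have hXne : X.Nonempty := by
    by_contra h
    rw [Finset.not_nonempty_iff_eq_empty] at h
    simp [h] at hX
  have hGne : G.Nonempty := ⟨X, by
    simp only [hG, Finset.mem_filter, Finset.mem_powerset, Finset.Subset.refl, true_and]
    exact ⟨by linarith, hXne⟩⟩
  refine ⟨fun θ => G.inf' hGne (fun S => ham_g S θ), ?_, fun θ => ?_⟩
  · exact Continuous.finset_inf'_apply hGne (fun S _ => ham_g_cont S)
  · obtain ⟨S, hS, hSeq⟩ := Finset.exists_mem_eq_inf' hGne (fun S => ham_g S θ)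
    simp only [hSeq]
    simp only [hG, Finset.mem_filter, Finset.mem_powerset] at hS
    obtain ⟨hSX, hSw, hSne⟩ := hS
    have hgS : ham_g S θ = S.sup' hSne (fun p => p.2 - θ * p.1) := by
      unfold ham_g
      simp only [hSne, dite_true]
    obtain ⟨x, hx, hxeq⟩ := Finset.exists_mem_eq_sup' hSne (fun p : Pt => p.2 - θ * p.1)
    refine ⟨⟨x, hSX hx, by rw [hgS, hxeq]⟩, ?_, ?_⟩
    · refine hSw.trans (Finset.sum_le_sum_of_subset_of_nonneg ?_ (fun p _ _ => hμ p))
      intro p hp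
      rw [Finset.mem_filter]
      refine ⟨hSX hp, ?_⟩
      have := Finset.le_sup' (fun p : Pt => p.2 - θ * p.1) hp
      rw [hgS]
      linarith
    · by_contra hlt
      rw [not_le] at hlt
      have hsplit := Finset.sum_filter_add_sum_filter_not X
        (fun p : Pt => θ * p.1 + ham_g S θ ≤ p.2) μ
      set S' := X.filter (fun p : Pt => ¬ (θ * p.1 + ham_g S θ ≤ p.2)) with hS'
      have hw : (∑ p ∈ X, μ p) / 2 < ∑ p ∈ S', μ p := by linarith
      have hne : S'.Nonempty := by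
        by_contra h
        rw [Finset.not_nonempty_iff_eq_empty] at h
        rw [h] at hw
        simp at hw
        linarith
      have hmem : S' ∈ G := by
        simp only [hG, Finset.mem_filter, Finset.mem_powerset]
        exact ⟨Finset.filter_subset _ _, hw.le, hne⟩
      have h1 : G.inf' hGne (fun S => ham_g S θ) ≤ ham_g S' θ :=
        Finset.inf'_le (fun S => ham_g S θ) hmem
      rw [hSeq] at h1
      have h2 : ham_g S' θ < ham_g S θ := by
        have : ham_g S' θ = S'.sup' hne (fun p => p.2 - θ * p.1) := by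
          unfold ham_g
          simp only [hne, dite_true]
        rw [this, Finset.sup'_lt_iff]
        intro p hp
        have := (Finset.mem_filter.mp hp).2
        rw [not_le] at this
        linarith
      linarith

theorem p_ham : S_ham := by
  intro X Z μ ν hXZ hμ hν hX hZ
  obtain ⟨f, hf, hf'⟩ := ham_f X μ hμ hX
  obtain ⟨g, hg, hg'⟩ := ham_f Z ν hν hZ
  set θ0 : ℝ := ∑ x ∈ X, ∑ z ∈ Z, |(z.2 - x.2) / (z.1 - x.1)| with hθ0
  have hbd : ∀ x ∈ X, ∀ z ∈ Z, |z.2 - x.2| ≤ θ0 * (z.1 - x.1) := by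
    intro x hx z hz
    have hpos : 0 < z.1 - x.1 := by
      have := hXZ x hx z hz
      linarith
    have h1 : |(z.2 - x.2) / (z.1 - x.1)| ≤ θ0 := by
      calc |(z.2 - x.2) / (z.1 - x.1)| ≤ ∑ z ∈ Z, |(z.2 - x.2) / (z.1 - x.1)| :=
            Finset.single_le_sum (f := fun z : Pt => |(z.2 - x.2) / (z.1 - x.1)|)
              (fun _ _ => abs_nonneg _) hz
        _ ≤ θ0 := Finset.single_le_sum
              (f := fun x : Pt => ∑ z ∈ Z, |(z.2 - x.2) / (z.1 - x.1)|)
              (fun _ _ => Finset.sum_nonneg fun _ _ => abs_nonneg _) hx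
    rw [abs_div, abs_of_pos hpos, div_le_iff₀ hpos] at h1
    exact h1
  have hivt : (0 : ℝ) ∈ Set.range (fun θ => f θ - g θ) := by
    apply mem_range_of_exists_le_of_exists_ge (hf.sub hg)
    · refine ⟨-θ0, ?_⟩
      obtain ⟨⟨x, hx, hxe⟩, -⟩ := hf' (-θ0)
      obtain ⟨⟨z, hz, hze⟩, -⟩ := hg' (-θ0)
      have := hbd x hx z hz
      have h2 := neg_abs_le (z.2 - x.2)
      rw [Pi.sub_apply, hxe, hze]
      linarith
    · refine ⟨θ0, ?_⟩
      obtain ⟨⟨x, hx, hxe⟩, -⟩ := hf' θ0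
      obtain ⟨⟨z, hz, hze⟩, -⟩ := hg' θ0
      have := hbd x hx z hz
      have h2 := le_abs_self (z.2 - x.2)
      rw [Pi.sub_apply, hxe, hze]
      linarith
  obtain ⟨θ, hθ⟩ := hivt
  have hθ2 : f θ - g θ = 0 := hθ
  have hfg : g θ = f θ := by linarith
  obtain ⟨⟨x, hx, hxe⟩, hx1, hx2⟩ := hf' θ
  obtain ⟨⟨z, hz, hze⟩, hz1, hz2⟩ := hg' θ
  rw [hfg] at hze hz1 hz2
  exact ⟨θ, f θ, ⟨x, hx, by linarith⟩, ⟨z, hz, by linarith⟩, hx1, hx2, hz1, hz2⟩

end Pool.MP_992c01_co.NC
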