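import Pool.Agent.Lib.MP_992c01_co.Stm

set_option autoImplicit false

open scoped BigOperators Classical

namespace Pool.MP_992c01_co.NC

theorem left_lft_mono {X Y X' Y' : Finset Pt} (h : Lft X Y) (hX : X' ⊆ X) (hY : Y' ⊆ Y) :
    Lft X' Y' := fun p hp q hq => h p (hX hp) q (hY hq)

theorem left_genPos_mono {P Q : Finset Pt} (h : GenPos P) (hQ : Q ⊆ P) : GenPos Q :=
  fun a ha b hb c hc => h a (hQ ha) b (hQ hb) c (hQ hc)

/-- combination of the two systems of groups and the same-type lemma -/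
theorem left_combine {m : ℕ} {δ₀ : ℝ} {P : Finset Pt} {w : Pt → ℝ} {x₀ : ℝ}
    (hmul : ∀ (P : Finset Pt) (X : Fin (m + m) → Finset Pt)
      (μ : Fin (m + m) → Pt → ℝ), GenPos P → (∀ i, X i ⊆ P) → (∀ i j, i < j → Lft (X i) (X j)) →
      (∀ i p, 0 ≤ μ i p) → (∀ i, 0 < ∑ p ∈ X i, μ i p) →
      ∃ Y : Fin (m + m) → Finset Pt, (∀ i, Y i ⊆ X i) ∧
        (∀ i, δ₀ * ∑ p ∈ X i, μ i p ≤ ∑ p ∈ Y i, μ i p) ∧
        ∀ i j k, i < j → j < k → NoTri (Y i) (Y j) (Y k))
    (hG : GenPos P) (hw : ∀ p, 0 ≤ w p)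
    (GA GB : Fin m → Finset Pt) (hA : ∀ i, GA i ⊆ P.filter (fun p => p.1 ≤ x₀))
    (hB : ∀ i, GB i ⊆ P.filter (fun p => x₀ < p.1))
    (hAl : ∀ i j, i < j → Lft (GA i) (GA j)) (hBl : ∀ i j, i < j → Lft (GB i) (GB j))
    (hA0 : ∀ i, 0 < ∑ p ∈ GA i, w p) (hB0 : ∀ i, 0 < ∑ p ∈ GB i, (1 : ℝ)) :
    ∃ A B : Fin m → Finset Pt, (∀ i, A i ⊆ GA i) ∧ (∀ i, B i ⊆ GB i) ∧
      (∀ i, δ₀ * ∑ p ∈ GA i, w p ≤ ∑ p ∈ A i, w p) ∧
      (∀ i, δ₀ * ((GB i).card : ℝ) ≤ ((B i).card : ℝ)) ∧
      (∀ i j j', j < j' → NoTri (A i) (B j) (B j')) ∧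
      (∀ i i' j, i < i' → NoTri (A i) (A i') (B j)) := by
  obtain ⟨Y, hY1, hY2, hY3⟩ := hmul P (Fin.append GA GB)
    (Fin.append (fun _ => w) (fun _ _ => (1 : ℝ))) hG
    (by
      intro i
      refine Fin.addCases (fun i => ?_) (fun i => ?_) i
      · rw [Fin.append_left]; exact (hA i).trans (Finset.filter_subset _ _)
      · rw [Fin.append_right]; exact (hB i).trans (Finset.filter_subset _ _))
    (by
      intro i j
      refine Fin.addCases (fun i => ?_) (fun i => ?_) i <;>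
      refine Fin.addCases (fun j => ?_) (fun j => ?_) j <;>
      simp only [Fin.append_left, Fin.append_right]
      · intro h
        apply hAl i j
        have : (Fin.castAdd m i : Fin (m + m)).val < (Fin.castAdd m j : Fin (m + m)).val := h
        exact this
      · intro _ p hp q hq
        have h1 := (Finset.mem_filter.1 (hA i hp)).2
        have h2 := (Finset.mem_filter.1 (hB j hq)).2
        exact lt_of_le_of_lt h1 h2
      · intro h
        exfalso
        have : (Fin.natAdd m i : Fin (m + m)).val < (Fin.castAdd m j : Fin (m + m)).val := h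
        simp at this
        omega
      · intro h; exact hBl i j (by simpa using h))
    (by
      intro i p
      refine Fin.addCases (fun i => ?_) (fun i => ?_) i
      · rw [Fin.append_left]; exact hw p
      · rw [Fin.append_right]; exact zero_le_one)
    (by
      intro i
      refine Fin.addCases (fun i => ?_) (fun i => ?_) i
      · rw [Fin.append_left, Fin.append_left]; exact hA0 i
      · rw [Fin.append_right, Fin.append_right]; exact hB0 i)
  refine ⟨fun i => Y (Fin.castAdd m i), fun j => Y (Fin.natAdd m j), ?_, ?_, ?_, ?_, ?_, ?_⟩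
  · intro i
    have := hY1 (Fin.castAdd m i)
    rwa [Fin.append_left] at this
  · intro i
    have := hY1 (Fin.natAdd m i)
    rwa [Fin.append_right] at this
  · intro i
    have := hY2 (Fin.castAdd m i)
    rwa [Fin.append_left, Fin.append_left] at this
  · intro i
    have := hY2 (Fin.natAdd m i)
    rw [Fin.append_right, Fin.append_right] at this
    simpa using this
  · intro i j j' h
    apply hY3
    · show (Fin.castAdd m i : Fin (m + m)).val < (Fin.natAdd m j : Fin (m + m)).val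
      simp
      omega
    · show (Fin.natAdd m j : Fin (m + m)).val < (Fin.natAdd m j' : Fin (m + m)).val
      simpa using h
  · intro i i' j h
    apply hY3
    · show (Fin.castAdd m i : Fin (m + m)).val < (Fin.castAdd m i' : Fin (m + m)).val
      simpa using h
    · show (Fin.castAdd m i' : Fin (m + m)).val < (Fin.natAdd m j : Fin (m + m)).val
      simp
      omega

/-- pigeonhole for the colours -/
theorem left_colour {k : ℕ} (hk : 1 ≤ k) (A B : Finset Pt) (col : Pt → Pt → Fin k) (w : Pt → ℝ) :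
    ∃ c : Fin k, (∑ a ∈ A, w a) * B.card / k ≤
      ∑ a ∈ A, ∑ b ∈ B, if col a b = c then w a else 0 := by
  by_contra hcon
  push Not at hcon
  have hk0 : (0 : ℝ) < k := by exact_mod_cast hk
  have hne : (Finset.univ : Finset (Fin k)).Nonempty := ⟨⟨0, by omega⟩, Finset.mem_univ _⟩
  have h1 : ∑ c : Fin k, (∑ a ∈ A, ∑ b ∈ B, if col a b = c then w a else 0) <
      ∑ _c : Fin k, (∑ a ∈ A, w a) * B.card / k :=
    Finset.sum_lt_sum_of_nonempty hne (fun c _ => hcon c)
  have h2 : ∑ c : Fin k, (∑ a ∈ A, ∑ b ∈ B, if col a b = c then w a else 0) =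
      (∑ a ∈ A, w a) * B.card := by
    rw [Finset.sum_comm]
    rw [Finset.sum_mul]
    refine Finset.sum_congr rfl fun a _ => ?_
    rw [Finset.sum_comm]
    have : ∀ b ∈ B, (∑ c : Fin k, if col a b = c then w a else 0) = w a := by
      intro b _
      simp
    rw [Finset.sum_congr rfl this]
    simp [mul_comm]
  rw [h2] at h1
  simp only [Finset.sum_const, Finset.card_univ, Fintype.card_fin, nsmul_eq_mul] at h1
  have h3 : (k : ℝ) * ((∑ a ∈ A, w a) * B.card / k) = (∑ a ∈ A, w a) * B.card := by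
    field_simp
  linarith

/-- the final computation -/
theorem left_final {k m L : ℕ} (hk : 1 ≤ k) (hm : m = 18 * k) (hL : 1 ≤ L) {wA a b T s1 s2 s3 s : ℝ}
    (hwA : 0 < wA) (hb : 0 < b) (hab : a ≤ L * b)
    (hT : wA * b / k ≤ T) (h1 : s1 ≤ 3 / m * b ^ 2) (h2 : s2 ≤ 3 / m * a * wA)
    (h3 : s3 ≤ 3 / m * wA ^ 2)
    (h : T - s1 * (wA / b) - (s2 / L + s3 * b / wA) ≤ 3 * L * b * s) :
    wA / (6 * k * L) ≤ s := by
  have hk0 : (0 : ℝ) < k := by exact_mod_cast hk
  have hL0 : (0 : ℝ) < L := by exact_mod_cast hL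
  have hm' : (m : ℝ) = 18 * k := by exact_mod_cast hm
  have hm0 : (0 : ℝ) < m := by rw [hm']; positivity
  have e1 : s1 * (wA / b) ≤ 3 / m * b * wA := by
    calc s1 * (wA / b) ≤ 3 / m * b ^ 2 * (wA / b) :=
          mul_le_mul_of_nonneg_right h1 (by positivity)
      _ = 3 / m * b * wA := by field_simp
  have e2 : s2 / L ≤ 3 / m * b * wA := by
    rw [div_le_iff₀ hL0]
    calc s2 ≤ 3 / m * a * wA := h2
      _ ≤ 3 / m * (L * b) * wA := by
          have : 3 / (m : ℝ) * a ≤ 3 / m * (L * b) := mul_le_mul_of_nonneg_left hab (by positivity)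
          exact mul_le_mul_of_nonneg_right this hwA.le
      _ = 3 / m * b * wA * L := by ring
  have e3 : s3 * b / wA ≤ 3 / m * b * wA := by
    rw [div_le_iff₀ hwA]
    calc s3 * b ≤ 3 / m * wA ^ 2 * b := mul_le_mul_of_nonneg_right h3 hb.le
      _ = 3 / m * b * wA * wA := by ring
  have e4 : wA * b / (2 * k) ≤ 3 * L * b * s := by
    have : wA * b / (2 * k) = wA * b / k - 3 * (3 / m * b * wA) := by
      rw [hm']; field_simp; ring
    linarith
  rw [div_le_iff₀ (by positivity)]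
  rw [div_le_iff₀ (by positivity)] at e4
  have : wA * b ≤ (s * (6 * k * L)) * b := by
    calc wA * b ≤ 3 * L * b * s * (2 * k) := e4
      _ = (s * (6 * k * L)) * b := by ring
  exact le_of_mul_le_mul_right this hb

theorem p_left : S_coreGP → S_multi → S_groups → S_select → S_left := by
  intro hcore hmulti hgroups hselect k hk
  obtain ⟨m, hm⟩ : ∃ m : ℕ, m = 18 * k := ⟨_, rfl⟩
  have hm1 : 1 ≤ m := by omega
  have hk0 : (0 : ℝ) < k := by exact_mod_cast hk
  have hm0 : (0 : ℝ) < m := by exact_mod_cast hm1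
  obtain ⟨δ₀, hδ0, hδ1, hmul⟩ := hmulti (m + m)
  obtain ⟨L, hLdef⟩ : ∃ L : ℕ, L = ⌈4 * (m : ℝ) / δ₀⌉₊ := ⟨_, rfl⟩
  have hLge : 4 * (m : ℝ) / δ₀ ≤ L := by rw [hLdef]; exact Nat.le_ceil _
  have hL0' : (0 : ℝ) < L := lt_of_lt_of_le (by positivity) hLge
  have hL1 : 1 ≤ L := by
    have : 0 < L := by exact_mod_cast hL0'
    omega
  refine ⟨1 / (6 * m), δ₀ / (24 * k * m * L), by positivity, by positivity, ?_⟩
  intro P col w x₀ hG hinj hsym hw hpos hη hhalf hcard
  set W : ℝ := ∑ p ∈ P, w p with hW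
  set S := P.filter (fun p => p.1 ≤ x₀) with hS
  set R := P.filter (fun p => x₀ < p.1) with hR
  have hSP : S ⊆ P := Finset.filter_subset _ _
  have hRP : R ⊆ P := Finset.filter_subset _ _
  -- cardinalities
  have hn : (6 * m : ℝ) ≤ P.card := by
    have h1 : W ≤ P.card * (1 / (6 * m) * W) := by
      rw [hW]
      calc ∑ p ∈ P, w p ≤ ∑ _p ∈ P, 1 / (6 * m) * ∑ p ∈ P, w p := Finset.sum_le_sum hη
        _ = _ := by simp
    have h2 : 1 ≤ (P.card : ℝ) * (1 / (6 * m)) := by
      by_contra hc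
      push Not at hc
      have : (P.card : ℝ) * (1 / (6 * m)) * W < 1 * W := mul_lt_mul_of_pos_right hc hpos
      nlinarith
    rw [mul_one_div, le_div_iff₀ (by positivity)] at h2
    linarith
  have hSR : S.card + R.card = P.card := by
    have h1 : R = P.filter (fun p => ¬ p.1 ≤ x₀) := by
      rw [hR]; congr 1; funext p; simp
    rw [h1, hS]
    exact Finset.card_filter_add_card_filter_not _
  have hRc : (2 * m : ℝ) ≤ R.card := by
    have h1 : (S.card : ℝ) + R.card = P.card := by exact_mod_cast hSR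
    have h2 : (S.card : ℝ) ≤ 2 * R.card := by exact_mod_cast hcard
    linarith
  have hwS : 0 < ∑ p ∈ S, w p := lt_of_lt_of_le (by positivity) hhalf
  -- groups
  obtain ⟨GA, hGA1, hGA2, hGA3⟩ := hgroups S w m hm1 hw
    (fun p hp q hq h => hinj p (hSP hp) q (hSP hq) h)
    (by
      intro p hp
      have h1 := hη p (hSP hp)
      rw [le_div_iff₀ (by positivity)]
      have h2 : w p * (2 * m) ≤ 1 / (6 * m) * W * (2 * m) :=
        mul_le_mul_of_nonneg_right h1 (by positivity)
      have h3 : 1 / (6 * (m : ℝ)) * W * (2 * m) = W / 3 := by field_simp; ring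
      linarith)
  obtain ⟨GB, hGB1, hGB2, hGB3⟩ := hgroups R (fun _ => 1) m hm1 (fun _ => zero_le_one)
    (fun p hp q hq h => hinj p (hRP hp) q (hRP hq) h)
    (by
      intro p _
      rw [le_div_iff₀ (by positivity)]
      simpa using hRc)
  have hRpos : (0 : ℝ) < R.card := lt_of_lt_of_le (by positivity) hRc
  have hGA0 : ∀ i, 0 < ∑ p ∈ GA i, w p := fun i =>
    lt_of_lt_of_le (by positivity) (hGA3 i)
  have hGB3' : ∀ i, (R.card : ℝ) / (2 * m) ≤ (GB i).card := by
    intro i
    have := hGB3 i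
    simpa using this
  have hGB0 : ∀ i, 0 < ∑ p ∈ GB i, (1 : ℝ) := by
    intro i
    have h1 := hGB3' i
    have h2 : (0 : ℝ) < R.card / (2 * m) := by positivity
    simpa using lt_of_lt_of_le h2 h1
  obtain ⟨A, B, hA1, hB1, hA2, hB2, hN1, hN2⟩ := left_combine hmul hG hw GA GB hGA1 hGB1
    hGA2 hGB2 hGA0 hGB0
  have hAw : ∀ i, δ₀ * ((∑ p ∈ S, w p) / (2 * m)) ≤ ∑ p ∈ A i, w p := fun i =>
    (mul_le_mul_of_nonneg_left (hGA3 i) hδ0.le).trans (hA2 i)
  have hBc : ∀ i, δ₀ * ((R.card : ℝ) / (2 * m)) ≤ (B i).card := fun i =>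
    (mul_le_mul_of_nonneg_left (hGB3' i) hδ0.le).trans (hB2 i)
  have hA0 : ∀ i, 0 < ∑ p ∈ A i, w p := fun i => lt_of_lt_of_le (by positivity) (hAw i)
  have hB0 : ∀ i, (0 : ℝ) < (B i).card := fun i => lt_of_lt_of_le (by positivity) (hBc i)
  have hBne : ∀ i, (B i).Nonempty := fun i =>
    Finset.card_pos.1 (by exact_mod_cast hB0 i)
  have hAS : ∀ i, A i ⊆ S := fun i => (hA1 i).trans (hGA1 i)
  have hBR : ∀ i, B i ⊆ R := fun i => (hB1 i).trans (hGB1 i)
  have hlft : ∀ i j, Lft (A i) (B j) := by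
    intro i j p hp q hq
    have h1 := (Finset.mem_filter.1 (hAS i hp)).2
    have h2 := (Finset.mem_filter.1 (hBR j hq)).2
    exact lt_of_le_of_lt h1 h2
  obtain ⟨i, j, hs1, hs2, hs3⟩ := hselect m A B w hm1 hw hA0 hBne hlft
    (fun i i' h => left_lft_mono (hGA2 i i' h) (hA1 i) (hA1 i'))
    (fun j j' h => left_lft_mono (hGB2 j j' h) (hB1 j) (hB1 j'))
    hN1 hN2
  have hUP : A i ∪ B j ⊆ P := Finset.union_subset ((hAS i).trans hSP) ((hBR j).trans hRP)
  have hAL : ((A i).card : ℝ) ≤ L * (B j).card := by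
    have h1 : ((A i).card : ℝ) ≤ S.card := by exact_mod_cast Finset.card_le_card (hAS i)
    have h2 : (S.card : ℝ) ≤ 2 * R.card := by exact_mod_cast hcard
    have h3 : 4 * (m : ℝ) / δ₀ * (δ₀ * ((R.card : ℝ) / (2 * m))) ≤ L * (B j).card :=
      mul_le_mul hLge (hBc j) (by positivity) hL0'.le
    have h4 : 4 * (m : ℝ) / δ₀ * (δ₀ * ((R.card : ℝ) / (2 * m))) = 2 * R.card := by
      field_simp; ring
    linarith
  obtain ⟨c, hc⟩ := left_colour hk (A i) (B j) col w
  obtain ⟨l, hl1, hl2, hl3, hl4, hl5, hl6⟩ := hcore (A i) (B j) (fun a b => col a b = c) w L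
    (left_genPos_mono hG hUP) (fun a ha b hb => hlft i j a ha b hb) (hBne j) hL1 hw (hA0 i) hAL
  refine ⟨l, ⟨hl1, hl2, fun v hv => hUP (hl3 v hv), ⟨c, ?_⟩, hl5⟩, ?_⟩
  · refine List.IsChain.imp ?_ hl4
    rintro v u (⟨_, _, h⟩ | ⟨_, _, h⟩)
    · exact h
    · rw [hsym]; exact h
  · have key : (∑ p ∈ A i, w p) / (6 * k * L) ≤ (l.map w).sum := by
      refine left_final hk hm hL1 (hA0 i) (hB0 j) hAL hc hs1 hs2 hs3 ?_
      refine le_trans (le_of_eq ?_) hl6
      congr 1
      · congr 1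
        · refine Finset.sum_congr rfl fun a _ => Finset.sum_congr rfl fun b _ => ?_
          by_cases h : col a b = c <;> simp [h]
        rw [Finset.sum_mul]
        refine Finset.sum_congr rfl fun v _ => ?_
        rw [Finset.sum_mul]
        refine Finset.sum_congr rfl fun q _ => ?_
        split_ifs <;> simp
      · rw [Finset.sum_div, Finset.sum_mul, Finset.sum_div, ← Finset.sum_add_distrib]
        refine Finset.sum_congr rfl fun v _ => ?_
        rw [Finset.sum_div, Finset.sum_mul, Finset.sum_div, ← Finset.sum_add_distrib]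
        refine Finset.sum_congr rfl fun q _ => ?_
        split_ifs <;> simp
    refine le_trans ?_ key
    have h1 := hAw i
    rw [le_div_iff₀ (by positivity)]
    refine le_trans ?_ h1
    have h2 : δ₀ * (W / 2 / (2 * m)) ≤ δ₀ * ((∑ p ∈ S, w p) / (2 * m)) :=
      mul_le_mul_of_nonneg_left (div_le_div_of_nonneg_right hhalf (by positivity)) hδ0.le
    refine le_trans (le_of_eq ?_) h2
    field_simp
    ring

end Pool.MP_992c01_co.NC
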