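import Pool.Agent.Lib.MP_992c01_co.Stm

/-! MP_992c01_co : piece p_multi (see `Stm.lean` for the statement and its proof). -/

set_option autoImplicit false

open scoped BigOperators Classical

noncomputable section

namespace Pool.MP_992c01_co.NC

private theorem multi_noTri {X Y Z X' Y' Z' : Finset Pt} (h : NoTri X Y Z) (hX : X' ⊆ X) (hY : Y' ⊆ Y)
    (hZ : Z' ⊆ Z) : NoTri X' Y' Z' := by
  obtain ⟨θ, f, σ, h1, h2, h3⟩ := h
  exact ⟨θ, f, σ, fun p hp => h1 p (hX hp), fun p hp => h2 p (hZ hp), fun p hp => h3 p (hY hp)⟩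

private theorem multi_lft {X Y X' Y' : Finset Pt} (h : Lft X Y) (hX : X' ⊆ X) (hY : Y' ⊆ Y) : Lft X' Y' :=
  fun p hp q hq => h p (hX hp) q (hY hq)

private theorem multi_ind (h3 : S_triple) (N : ℕ) (T : Finset (Fin N × Fin N × Fin N)) :
    ∃ δ : ℝ, 0 < δ ∧ δ ≤ 1 ∧ ∀ (P : Finset Pt) (X : Fin N → Finset Pt)
      (μ : Fin N → Pt → ℝ), GenPos P → (∀ i, X i ⊆ P) → (∀ i j, i < j → Lft (X i) (X j)) →
      (∀ i p, 0 ≤ μ i p) → (∀ i, 0 < ∑ p ∈ X i, μ i p) →
      ∃ Y : Fin N → Finset Pt, (∀ i, Y i ⊆ X i) ∧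
        (∀ i, δ * ∑ p ∈ X i, μ i p ≤ ∑ p ∈ Y i, μ i p) ∧
        ∀ t ∈ T, t.1 < t.2.1 → t.2.1 < t.2.2 → NoTri (Y t.1) (Y t.2.1) (Y t.2.2) := by
  induction T using Finset.induction_on with
  | empty =>
    refine ⟨1, one_pos, le_rfl, fun P X μ _ _ _ _ _ => ⟨X, fun i => Finset.Subset.refl _, fun i => ?_, ?_⟩⟩
    · rw [one_mul]
    · intro t ht
      exact absurd ht (Finset.notMem_empty t)
  | insert t T _ ih =>
    obtain ⟨δ, hδ0, hδ1, ih⟩ := ih
    refine ⟨δ / 2, by linarith, by linarith, fun P X μ hP hX hL hμ hpos => ?_⟩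
    obtain ⟨Y, hY, hw, hT⟩ := ih P X μ hP hX hL hμ hpos
    obtain ⟨i, j, k⟩ := t
    by_cases hijk : i < j ∧ j < k
    · obtain ⟨hij, hjk⟩ := hijk
      have hik : i < k := hij.trans hjk
      have hLY : ∀ a b, a < b → Lft (Y a) (Y b) := fun a b hab => multi_lft (hL a b hab) (hY a) (hY b)
      have hYpos : ∀ a, 0 < ∑ p ∈ Y a, μ a p := fun a => lt_of_lt_of_le (mul_pos hδ0 (hpos a)) (hw a)
      obtain ⟨A, B, C, hA, hB, hC, wA, wB, wC, hN⟩ := h3 P (Y i) (Y j) (Y k) ![μ i, μ j, μ k] hP
        ((hY i).trans (hX i)) ((hY j).trans (hX j)) ((hY k).trans (hX k)) (hLY i j hij) (hLY j k hjk)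
        (hLY i k hik) (by
          intro l p
          fin_cases l
          · exact hμ i p
          · exact hμ j p
          · exact hμ k p) (hYpos i) (hYpos k)
      have wA' : (∑ p ∈ Y i, μ i p) / 2 ≤ ∑ p ∈ A, μ i p := wA
      have wB' : (∑ p ∈ Y j, μ j p) / 2 ≤ ∑ p ∈ B, μ j p := wB
      have wC' : (∑ p ∈ Y k, μ k p) / 2 ≤ ∑ p ∈ C, μ k p := wC
      set Y' : Fin N → Finset Pt := fun l => if l = i then A else if l = j then B else if l = k then C else Y l
        with hY'
      have ei : Y' i = A := by simp [hY']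
      have ej : Y' j = B := by simp [hY', hij.ne']
      have ek : Y' k = C := by simp [hY', hik.ne', hjk.ne']
      have hsub : ∀ l, Y' l ⊆ Y l := by
        intro l
        by_cases h1 : l = i
        · subst h1
          rw [ei]
          exact hA
        · by_cases h2 : l = j
          · subst h2
            rw [ej]
            exact hB
          · by_cases h3 : l = k
            · subst h3
              rw [ek]
              exact hC
            · simp [hY', h1, h2, h3]
      have hhalf : ∀ l, (∑ p ∈ Y l, μ l p) / 2 ≤ ∑ p ∈ Y' l, μ l p := by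
        intro l
        by_cases h1 : l = i
        · subst h1
          rw [ei]
          exact wA'
        · by_cases h2 : l = j
          · subst h2
            rw [ej]
            exact wB'
          · by_cases h3 : l = k
            · subst h3
              rw [ek]
              exact wC'
            · have : Y' l = Y l := by simp [hY', h1, h2, h3]
              rw [this]
              have := hYpos l
              linarith
      refine ⟨Y', fun l => (hsub l).trans (hY l), fun l => ?_, ?_⟩
      · have h1 := hw l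
        have h2 := hhalf l
        linarith
      · intro t ht ht1 ht2
        rcases Finset.mem_insert.mp ht with h | h
        · subst h
          simp only
          rw [ei, ej, ek]
          exact hN
        · exact multi_noTri (hT t h ht1 ht2) (hsub _) (hsub _) (hsub _)
    · refine ⟨Y, hY, fun l => ?_, ?_⟩
      · have h1 := hw l
        have h2 := mul_pos hδ0 (hpos l)
        linarith
      · intro t ht ht1 ht2
        rcases Finset.mem_insert.mp ht with h | h
        · subst h
          exact absurd ⟨ht1, ht2⟩ hijk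
        · exact hT t h ht1 ht2

theorem p_multi : S_triple → S_multi := by
  intro h3 N
  obtain ⟨δ, hδ0, hδ1, h⟩ := multi_ind h3 N Finset.univ
  refine ⟨δ, hδ0, hδ1, fun P X μ hP hX hL hμ hpos => ?_⟩
  obtain ⟨Y, hY, hw, hT⟩ := h P X μ hP hX hL hμ hpos
  exact ⟨Y, hY, hw, fun i j k hij hjk => hT (i, j, k) (Finset.mem_univ _) hij hjk⟩

end Pool.MP_992c01_co.NC
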