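import Pool.Agent.Lib.MP_992c01_co.Stm

set_option autoImplicit false

open scoped BigOperators Classical

namespace Pool.MP_992c01_co.NC

private noncomputable def run_H (C : Cfg) : Finset ℝ :=
  ((C.V ×ˢ C.V).filter (fun p => p.1.1 ≠ p.2.1)).image (fun p => ht p.1 p.2)

private theorem run_mem (C : Cfg) (h : ℝ) : h ∈ run_H C ↔
    ∃ v ∈ C.V, ∃ u ∈ C.V, v.1 ≠ u.1 ∧ ht v u = h := by
  unfold run_H
  rw [Finset.mem_image]
  constructor
  · rintro ⟨⟨v, u⟩, hp, rfl⟩
    rw [Finset.mem_filter, Finset.mem_product] at hp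
    exact ⟨v, hp.1.1, u, hp.1.2, hp.2, rfl⟩
  · rintro ⟨v, hv, u, hu, hne, rfl⟩
    exact ⟨(v, u), Finset.mem_filter.2 ⟨Finset.mem_product.2 ⟨hv, hu⟩, hne⟩, rfl⟩

private theorem run_gap (H : Finset ℝ) (t : ℝ) : ∃ s0 < t, ∀ h ∈ H, h < t → h < s0 := by
  have h1 : ∀ᶠ x in nhdsWithin t (Set.Iio t), ∀ h ∈ H.filter (fun h => h < t), h < x := by
    rw [Filter.eventually_all_finset]
    intro h hh
    rw [Finset.mem_filter] at hh
    exact nhdsWithin_le_nhds (lt_mem_nhds hh.2)
  have h2 : ∀ᶠ x in nhdsWithin t (Set.Iio t), x < t := self_mem_nhdsWithin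
  obtain ⟨x, hx1, hx2⟩ := (h1.and h2).exists
  exact ⟨x, hx2, fun h hh hlt => hx1 h (Finset.mem_filter.2 ⟨hh, hlt⟩)⟩

theorem p_run : S_htComm → S_step → S_start → S_run := by
  intro _ hstep hstart C
  have key : ∀ n : ℕ, ∀ s : ℝ, ((run_H C).filter (fun h => h < s)).card = n →
      (∀ h ∈ run_H C, h ≠ s) →
      ∃ path : (Σ v : {v // v ∈ C.V}, Fin (C.κ v.1)) → List Pt, Inv C s path := by
    intro n
    induction n using Nat.strong_induction_on with
    | _ n ih =>
      intro s hn hs
      rcases ((run_H C).filter (fun h => h < s)).eq_empty_or_nonempty with he | hne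
      · refine hstart C s ?_
        intro v hv u hu hvu
        have hm : ht v u ∈ run_H C := (run_mem C _).2 ⟨v, hv, u, hu, hvu, rfl⟩
        by_contra hcon
        have hlt : ht v u < s := lt_of_le_of_ne (not_lt.1 hcon) (hs _ hm)
        have : ht v u ∈ (run_H C).filter (fun h => h < s) := Finset.mem_filter.2 ⟨hm, hlt⟩
        rw [he] at this
        exact absurd this (Finset.notMem_empty _)
      · obtain ⟨t, ht1, ht2⟩ := ((run_H C).filter (fun h => h < s)).exists_max_image id hne
        rw [Finset.mem_filter] at ht1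
        obtain ⟨htH, hts⟩ := ht1
        obtain ⟨s0, hs0, hgap⟩ := run_gap (run_H C) t
        have hs0' : ∀ h ∈ run_H C, h ≠ s0 := by
          intro h hh heq
          rcases lt_or_ge h t with hlt | hge
          · exact absurd (hgap h hh hlt) (by rw [heq]; exact lt_irrefl _)
          · rw [heq] at hge
            exact absurd hs0 (not_lt.2 hge)
        have hcard : ((run_H C).filter (fun h => h < s0)).card < n := by
          rw [← hn]
          refine Finset.card_lt_card ?_
          rw [Finset.ssubset_iff_of_subset]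
          · exact ⟨t, Finset.mem_filter.2 ⟨htH, hts⟩, fun hmem =>
              absurd (Finset.mem_filter.1 hmem).2 (not_lt.2 hs0.le)⟩
          · intro h hh
            rw [Finset.mem_filter] at hh ⊢
            exact ⟨hh.1, hh.2.trans (hs0.trans hts)⟩
        obtain ⟨path, hpath⟩ := ih _ hcard s0 rfl hs0'
        obtain ⟨p, hp, q, hq, hpq, hpqt⟩ := (run_mem C t).1 htH
        refine hstep C _ s0 s p q path ⟨hp, hq, hpq, ?_, ?_, ?_⟩ hpath
        · rw [hpqt]
          exact hs0
        · rw [hpqt]
          exact hts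
        · intro v hv u hu hvu h1 h2
          have hm : ht v u ∈ run_H C := (run_mem C _).2 ⟨v, hv, u, hu, hvu, rfl⟩
          have hlt : ht v u < s := lt_of_le_of_ne h2 (hs _ hm)
          have hle : ht v u ≤ t := ht2 _ (Finset.mem_filter.2 ⟨hm, hlt⟩)
          have heq : ht v u = t := by
            rcases lt_or_eq_of_le hle with hlt' | heq
            · exact absurd (hgap _ hm hlt') (not_lt.2 h1)
            · exact heq
          exact C.hdist v hv u hu p hp q hq hvu hpq (by rw [heq, hpqt])
  intro s hs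
  refine key _ s rfl ?_
  intro h hh
  obtain ⟨v, hv, u, hu, hvu, rfl⟩ := (run_mem C h).1 hh
  exact hs v hv u hu hvu

end Pool.MP_992c01_co.NC
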