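import Pool.Agent.Lib.MP_992c01_co.Stm

set_option autoImplicit false

open scoped BigOperators Classical

namespace Pool.MP_992c01_co.NC

private theorem select_atmost {m : ℕ} (Q : Fin m → Prop) (c : ℝ) (hc : 0 ≤ c)
    (h : ∀ i i', i < i' → ¬ (Q i ∧ Q i')) : ∑ i, (if Q i then c else 0) ≤ c := by
  by_cases hex : ∃ i, Q i
  · obtain ⟨i0, hi0⟩ := hex
    rw [Finset.sum_eq_single i0]
    · rw [if_pos hi0]
    · intro i _ hne
      rw [if_neg]
      intro hi
      rcases lt_or_gt_of_ne hne with hlt | hlt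
      · exact h i i0 hlt ⟨hi, hi0⟩
      · exact h i0 i hlt ⟨hi0, hi⟩
    · intro hni
      exact absurd (Finset.mem_univ i0) hni
  · rw [Finset.sum_eq_zero]
    · exact hc
    · intro i _
      rw [if_neg]
      intro hi
      exact hex ⟨i, hi⟩

/-- sums over the pairs of `S` of a weight `f v q`, split according to `T i` -/
private theorem select_swap {m : ℕ} (S : Finset Pt) (T : Fin m → Finset Pt) (f : Pt → Pt → ℝ)
    (hf : ∀ v q, 0 ≤ f v q)
    (h : ∀ v ∈ S, ∀ q ∈ S, ∀ i i', i < i' → ¬ (SplitP v q (T i) ∧ SplitP v q (T i'))) :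
    ∑ i, ∑ v ∈ S, ∑ q ∈ S, (if SplitP v q (T i) then f v q else 0) ≤
      ∑ v ∈ S, ∑ q ∈ S, f v q := by
  rw [Finset.sum_comm]
  refine Finset.sum_le_sum fun v hv => ?_
  rw [Finset.sum_comm]
  refine Finset.sum_le_sum fun q hq => ?_
  exact select_atmost (fun i => SplitP v q (T i)) (f v q) (hf v q) (h v hv q hq)

private theorem select_avg {m : ℕ} (hm : 1 ≤ m) (r : Fin m → Fin m → ℝ)
    (h : ∑ i, ∑ j, r i j ≤ 3 * m) : ∃ i j, r i j ≤ 3 / m := by
  by_contra hcon
  push Not at hcon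
  have hm' : (0 : ℝ) < m := by exact_mod_cast hm
  have : Nonempty (Fin m) := ⟨⟨0, hm⟩⟩
  have h1 : ∑ i : Fin m, ∑ _j : Fin m, (3 / m : ℝ) < ∑ i, ∑ j, r i j := by
    refine Finset.sum_lt_sum_of_nonempty Finset.univ_nonempty fun i _ => ?_
    refine Finset.sum_lt_sum_of_nonempty Finset.univ_nonempty fun j _ => ?_
    exact hcon i j
  have h2 : ∑ i : Fin m, ∑ _j : Fin m, (3 / m : ℝ) = 3 * m := by
    simp only [Finset.sum_const, Finset.card_univ, Fintype.card_fin, nsmul_eq_mul]
    field_simp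
  linarith

theorem p_select : S_split → S_select := by
  rintro ⟨hs1, hs2⟩ m A B w hm hw hA hB hAB hAA hBB hAN hBN
  have hm' : (0 : ℝ) < m := by exact_mod_cast hm
  set WA : Fin m → ℝ := fun i => ∑ p ∈ A i, w p with hWA
  set R1 : Fin m → Fin m → ℝ := fun i j =>
    ∑ v ∈ B j, ∑ q ∈ B j, if SplitP v q (A i) then (1 : ℝ) else 0 with hR1
  set R2 : Fin m → Fin m → ℝ := fun i j =>
    ∑ v ∈ A i, ∑ q ∈ A i, if SplitP v q (B j) then w q else 0 with hR2
  set R3 : Fin m → Fin m → ℝ := fun i j =>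
    ∑ v ∈ A i, ∑ q ∈ A i, if SplitP v q (B j) then w v * w q else 0 with hR3
  have hWpos : ∀ i, 0 < WA i := hA
  have hAne : ∀ i, (A i).Nonempty := by
    intro i
    rw [Finset.nonempty_iff_ne_empty]
    intro h0
    have := hA i
    rw [h0] at this
    simp at this
  have hcA : ∀ i, (0 : ℝ) < (A i).card := fun i => by
    exact_mod_cast Finset.card_pos.mpr (hAne i)
  have hcB : ∀ j, (0 : ℝ) < (B j).card := fun j => by
    exact_mod_cast Finset.card_pos.mpr (hB j)
  have hD1 : ∀ j, (0 : ℝ) < ((B j).card : ℝ) ^ 2 := fun j => pow_pos (hcB j) 2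
  have hD2 : ∀ i, (0 : ℝ) < ((A i).card : ℝ) * WA i := fun i => mul_pos (hcA i) (hWpos i)
  have hD3 : ∀ i, (0 : ℝ) < WA i ^ 2 := fun i => pow_pos (hWpos i) 2
  have hR1n : ∀ i j, 0 ≤ R1 i j := fun i j =>
    Finset.sum_nonneg fun v _ => Finset.sum_nonneg fun q _ => by
      split_ifs
      · exact zero_le_one
      · exact le_refl _
  have hR2n : ∀ i j, 0 ≤ R2 i j := fun i j =>
    Finset.sum_nonneg fun v _ => Finset.sum_nonneg fun q _ => by
      split_ifs
      · exact hw q
      · exact le_refl _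
  have hR3n : ∀ i j, 0 ≤ R3 i j := fun i j =>
    Finset.sum_nonneg fun v _ => Finset.sum_nonneg fun q _ => by
      split_ifs
      · exact mul_nonneg (hw v) (hw q)
      · exact le_refl _
  have hS1 : ∀ j, ∑ i, R1 i j ≤ ((B j).card : ℝ) ^ 2 := by
    intro j
    have h := select_swap (B j) A (fun _ _ => (1 : ℝ)) (fun _ _ => zero_le_one) (by
      intro v hv q hq i i' hii
      exact hs2 (A i) (A i') (B j) (hAA i i' hii) (hAB i' j) (hBN i i' j hii) v hv q hq)
    refine h.trans (le_of_eq ?_)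
    simp only [Finset.sum_const, nsmul_eq_mul, mul_one]
    ring
  have hS2 : ∀ i, ∑ j, R2 i j ≤ ((A i).card : ℝ) * WA i := by
    intro i
    have h := select_swap (A i) B (fun _ q => w q) (fun _ q => hw q) (by
      intro v hv q hq j j' hjj
      exact hs1 (A i) (B j) (B j') (hAB i j) (hBB j j' hjj) (hAN i j j' hjj) v hv q hq)
    refine h.trans (le_of_eq ?_)
    rw [Finset.sum_const, nsmul_eq_mul]
  have hS3 : ∀ i, ∑ j, R3 i j ≤ WA i ^ 2 := by
    intro i
    have h := select_swap (A i) B (fun v q => w v * w q) (fun v q => mul_nonneg (hw v) (hw q)) (by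
      intro v hv q hq j j' hjj
      exact hs1 (A i) (B j) (B j') (hAB i j) (hBB j j' hjj) (hAN i j j' hjj) v hv q hq)
    refine h.trans (le_of_eq ?_)
    rw [pow_two, hWA, Finset.sum_mul_sum]
  have htot : ∑ i, ∑ j, (R1 i j / ((B j).card : ℝ) ^ 2 + R2 i j / (((A i).card : ℝ) * WA i) +
      R3 i j / WA i ^ 2) ≤ 3 * m := by
    have e1 : ∑ i, ∑ j, R1 i j / ((B j).card : ℝ) ^ 2 ≤ m := by
      rw [Finset.sum_comm]
      calc ∑ j, ∑ i, R1 i j / ((B j).card : ℝ) ^ 2
          = ∑ j, (∑ i, R1 i j) / ((B j).card : ℝ) ^ 2 := by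
            refine Finset.sum_congr rfl fun j _ => ?_
            rw [Finset.sum_div]
        _ ≤ ∑ _j : Fin m, (1 : ℝ) := by
            refine Finset.sum_le_sum fun j _ => ?_
            rw [div_le_one (hD1 j)]
            exact hS1 j
        _ = m := by simp
    have e2 : ∑ i, ∑ j, R2 i j / (((A i).card : ℝ) * WA i) ≤ m := by
      calc ∑ i, ∑ j, R2 i j / (((A i).card : ℝ) * WA i)
          = ∑ i, (∑ j, R2 i j) / (((A i).card : ℝ) * WA i) := by
            refine Finset.sum_congr rfl fun i _ => ?_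
            rw [Finset.sum_div]
        _ ≤ ∑ _i : Fin m, (1 : ℝ) := by
            refine Finset.sum_le_sum fun i _ => ?_
            rw [div_le_one (hD2 i)]
            exact hS2 i
        _ = m := by simp
    have e3 : ∑ i, ∑ j, R3 i j / WA i ^ 2 ≤ m := by
      calc ∑ i, ∑ j, R3 i j / WA i ^ 2
          = ∑ i, (∑ j, R3 i j) / WA i ^ 2 := by
            refine Finset.sum_congr rfl fun i _ => ?_
            rw [Finset.sum_div]
        _ ≤ ∑ _i : Fin m, (1 : ℝ) := by
            refine Finset.sum_le_sum fun i _ => ?_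
            rw [div_le_one (hD3 i)]
            exact hS3 i
        _ = m := by simp
    simp only [Finset.sum_add_distrib]
    linarith
  obtain ⟨i, j, hij⟩ := select_avg hm _ htot
  have n1 : 0 ≤ R1 i j / ((B j).card : ℝ) ^ 2 := div_nonneg (hR1n i j) (hD1 j).le
  have n2 : 0 ≤ R2 i j / (((A i).card : ℝ) * WA i) := div_nonneg (hR2n i j) (hD2 i).le
  have n3 : 0 ≤ R3 i j / WA i ^ 2 := div_nonneg (hR3n i j) (hD3 i).le
  refine ⟨i, j, ?_, ?_, ?_⟩
  · have : R1 i j / ((B j).card : ℝ) ^ 2 ≤ 3 / m := by linarith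
    exact (div_le_iff₀ (hD1 j)).mp this
  · have : R2 i j / (((A i).card : ℝ) * WA i) ≤ 3 / m := by linarith
    have h2 := (div_le_iff₀ (hD2 i)).mp this
    rw [mul_assoc]
    exact h2
  · have : R3 i j / WA i ^ 2 ≤ 3 / m := by linarith
    exact (div_le_iff₀ (hD3 i)).mp this

end Pool.MP_992c01_co.NC
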