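import Pool.Agent.Lib.MP_992c01_co.Stm

/-! MP_992c01_co : piece p_split (see `Stm.lean` for the statement and its proof). -/

set_option autoImplicit false

open scoped BigOperators Classical

noncomputable section

namespace Pool.MP_992c01_co.NC

private theorem split_mid {v q a b : Pt} (ha : orient v q a < 0) (hb : 0 < orient v q b) :
    ∃ t : ℝ, 0 < t ∧ t < 1 ∧ orient v q (t * a.1 + (1 - t) * b.1, t * a.2 + (1 - t) * b.2) = 0 := by
  have hd : 0 < orient v q b - orient v q a := by linarith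
  refine ⟨orient v q b / (orient v q b - orient v q a), div_pos hb hd, ?_, ?_⟩
  · rw [div_lt_one hd]
    linarith
  · have e : ∀ t : ℝ, orient v q (t * a.1 + (1 - t) * b.1, t * a.2 + (1 - t) * b.2) =
        t * orient v q a + (1 - t) * orient v q b := by
      intro t
      unfold orient
      ring
    rw [e]
    field_simp
    ring

private theorem split_core {v q a b c d : Pt} {θ f σ : ℝ}
    (hv : σ * (v.2 - θ * v.1 - f) ≤ 0)
    (ha : 0 < σ * (a.2 - θ * a.1 - f)) (hb : 0 < σ * (b.2 - θ * b.1 - f))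
    (hc : σ * (c.2 - θ * c.1 - f) ≤ 0) (hd : σ * (d.2 - θ * d.1 - f) ≤ 0)
    (oa : orient v q a < 0) (ob : 0 < orient v q b) (oc : orient v q c < 0) (od : 0 < orient v q d)
    {s : ℝ} (_hs : s ≠ 0) (hva : 0 < s * (a.1 - v.1)) (hvb : 0 < s * (b.1 - v.1)) (hac : 0 < s * (c.1 - a.1))
    (had : 0 < s * (d.1 - a.1)) (hbc : 0 < s * (c.1 - b.1)) (hbd : 0 < s * (d.1 - b.1)) : False := by
  obtain ⟨t, t0, t1, ht⟩ := split_mid oa ob
  obtain ⟨u, u0, u1, hu⟩ := split_mid oc od
  set x₁ := t * a.1 + (1 - t) * b.1 with hx₁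
  set y₁ := t * a.2 + (1 - t) * b.2 with hy₁
  set x₂ := u * c.1 + (1 - u) * d.1 with hx₂
  set y₂ := u * c.2 + (1 - u) * d.2 with hy₂
  have hH₁ : 0 < σ * (y₁ - θ * x₁ - f) := by
    have e : σ * (y₁ - θ * x₁ - f) = t * (σ * (a.2 - θ * a.1 - f)) + (1 - t) * (σ * (b.2 - θ * b.1 - f)) := by
      rw [hx₁, hy₁]
      ring
    rw [e]
    have := mul_pos t0 ha
    have := mul_pos (sub_pos.mpr t1) hb
    linarith
  have hH₂ : σ * (y₂ - θ * x₂ - f) ≤ 0 := by
    have e : σ * (y₂ - θ * x₂ - f) = u * (σ * (c.2 - θ * c.1 - f)) + (1 - u) * (σ * (d.2 - θ * d.1 - f)) := by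
      rw [hx₂, hy₂]
      ring
    rw [e]
    have := mul_nonpos_of_nonneg_of_nonpos u0.le hc
    have := mul_nonpos_of_nonneg_of_nonpos (sub_pos.mpr u1).le hd
    linarith
  have hx1v : 0 < s * (x₁ - v.1) := by
    have e : s * (x₁ - v.1) = t * (s * (a.1 - v.1)) + (1 - t) * (s * (b.1 - v.1)) := by
      rw [hx₁]
      ring
    rw [e]
    have := mul_pos t0 hva
    have := mul_pos (sub_pos.mpr t1) hvb
    linarith
  have hx21 : 0 < s * (x₂ - x₁) := by
    have e : s * (x₂ - x₁) = t * (u * (s * (c.1 - a.1)) + (1 - u) * (s * (d.1 - a.1))) +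
        (1 - t) * (u * (s * (c.1 - b.1)) + (1 - u) * (s * (d.1 - b.1))) := by
      rw [hx₁, hx₂]
      ring
    rw [e]
    have h1 := mul_pos u0 hac
    have h2 := mul_pos (sub_pos.mpr u1) had
    have h3 := mul_pos u0 hbc
    have h4 := mul_pos (sub_pos.mpr u1) hbd
    have h5 := mul_pos t0 (add_pos h1 h2)
    have h6 := mul_pos (sub_pos.mpr t1) (add_pos h3 h4)
    linarith
  simp only [orient] at ht hu oa
  by_cases hD : q.1 - v.1 = 0
  · rw [hD] at ht oa
    have h1 : (q.2 - v.2) * (x₁ - v.1) = 0 := by linarith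
    rcases mul_eq_zero.mp h1 with h | h
    · rw [h] at oa
      simp at oa
    · rw [h] at hx1v
      simp at hx1v
  · -- `H` is affine on the line
    have key : ∀ x y : ℝ, (q.1 - v.1) * (y - v.2) - (q.2 - v.2) * (x - v.1) = 0 →
        σ * (y - θ * x - f) = σ * (v.2 - θ * v.1 - f) +
          σ * ((q.2 - v.2) - (q.1 - v.1) * θ) / (q.1 - v.1) * (x - v.1) := by
      intro x y h
      field_simp
      linear_combination σ * h
    have k1 := key _ _ ht
    have k2 := key _ _ hu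
    set κ := σ * ((q.2 - v.2) - (q.1 - v.1) * θ) / (q.1 - v.1) with hκ
    have p1 : 0 < κ * (x₁ - v.1) := by linarith
    have p2 : κ * (x₂ - x₁) < 0 := by
      have e : κ * (x₂ - x₁) = (σ * (y₂ - θ * x₂ - f)) - (σ * (y₁ - θ * x₁ - f)) := by
        rw [k1, k2]
        ring
      rw [e]
      linarith
    have p3 : 0 < (κ * (x₁ - v.1)) * (s * (x₂ - x₁)) := mul_pos p1 hx21
    have p4 : (κ * (x₂ - x₁)) * (s * (x₁ - v.1)) < 0 := mul_neg_of_neg_of_pos p2 hx1v
    have p5 : (κ * (x₁ - v.1)) * (s * (x₂ - x₁)) = (κ * (x₂ - x₁)) * (s * (x₁ - v.1)) := by ring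
    linarith

theorem p_split : S_split := by
  constructor
  · rintro X Y Z hXY hYZ ⟨θ, f, σ, hX, hZ, hY⟩ v hv q hq ⟨⟨a, ha, b, hb, oa, ob⟩, c, hc, d, hd, oc, od⟩
    have h1 := hXY v hv a ha
    have h2 := hXY v hv b hb
    have h3 := hYZ a ha c hc
    have h4 := hYZ a ha d hd
    have h5 := hYZ b hb c hc
    have h6 := hYZ b hb d hd
    exact split_core (s := 1) (hX v hv) (hY a ha) (hY b hb) (hZ c hc) (hZ d hd) oa ob oc od one_ne_zero
      (by linarith) (by linarith) (by linarith) (by linarith) (by linarith) (by linarith)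
  · rintro X Y Z hXY hYZ ⟨θ, f, σ, hX, hZ, hY⟩ v hv q hq ⟨⟨c, hc, d, hd, oc, od⟩, a, ha, b, hb, oa, ob⟩
    have h1 := hYZ a ha v hv
    have h2 := hYZ b hb v hv
    have h3 := hXY c hc a ha
    have h4 := hXY d hd a ha
    have h5 := hXY c hc b hb
    have h6 := hXY d hd b hb
    exact split_core (s := -1) (hZ v hv) (hY a ha) (hY b hb) (hX c hc) (hX d hd) oa ob oc od (by norm_num)
      (by linarith) (by linarith) (by linarith) (by linarith) (by linarith) (by linarith)

end Pool.MP_992c01_co.NC
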