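import Pool.Agent.Lib.MP_992c01_co.Stm

set_option autoImplicit false

open scoped BigOperators Classical

namespace Pool.MP_992c01_co.NC

theorem start_card {V : Finset Pt} (κ : Pt → ℕ) (v : Pt) (hv : v ∈ V) :
    ((Finset.univ : Finset (Σ v : {v // v ∈ V}, Fin (κ v.1))).filter
      (fun π => π.1.1 = v)).card = κ v := by
  have h : (Finset.univ : Finset (Fin (κ v))).card = κ v := by simp
  rw [← h]
  refine Finset.card_bij' (fun π hπ => ?_) (fun j _ => (⟨⟨v, hv⟩, j⟩ :
    Σ v : {v // v ∈ V}, Fin (κ v.1))) ?_ ?_ ?_ ?_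
  · exact Fin.cast (by rw [(Finset.mem_filter.1 hπ).2]) π.2
  · intro π hπ
    exact Finset.mem_univ _
  · intro j _
    simp
  · rintro ⟨⟨u, hu⟩, j⟩ hπ
    have h1 : u = v := (Finset.mem_filter.1 hπ).2
    subst h1
    rfl
  · intro j _
    rfl

theorem p_start : S_htComm → S_start := by
  intro _ C s hs
  refine ⟨fun π => [π.1.1], ?_, ?_, ?_⟩
  · intro π
    exact Good.single s π.1.1 π.1.2
  · intro v hv
    exact start_card C.κ v hv
  · have h1 : Target C s = 0 := by
      unfold Target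
      refine Finset.sum_eq_zero fun a ha => Finset.sum_eq_zero fun b hb => ?_
      rw [if_neg]
      rintro ⟨h1, h2, _, h4⟩
      exact absurd h4 (not_lt.2 (hs a ha b hb (by intro h; rw [h] at h1; linarith)).le)
    have h2 : BadSum C s = 0 := by
      unfold BadSum
      refine Finset.sum_eq_zero fun v hv => Finset.sum_eq_zero fun q hq => ?_
      rw [if_neg]
      rintro ⟨⟨_, h2, _⟩, h4⟩
      exact absurd h4 (not_lt.2 (hs v hv q hq (by intro h; rw [h] at h2; exact lt_irrefl _ h2)).le)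
    have h3 : Phi C s (fun π : (Σ v : {v // v ∈ C.V}, Fin (C.κ v.1)) => [π.1.1]) = 0 := by
      unfold Phi
      refine Finset.sum_eq_zero fun π _ => Finset.sum_eq_zero fun u _ => ?_
      rw [if_neg]
      rintro ⟨h, _⟩
      exact h
    rw [h1, h2, h3]
    have h4 : (∑ π : (Σ v : {v // v ∈ C.V}, Fin (C.κ v.1)), W C.g [π.1.1]) = 0 :=
      Finset.sum_eq_zero fun π _ => rfl
    rw [h4]

end Pool.MP_992c01_co.NC
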