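import Pool.Agent.Lib.MP_992c01_co.Stm

/-! Piece `p_step` of MP_992c01_co: one step of the pedestrian process. -/

set_option autoImplicit false

open scoped BigOperators Classical

namespace Pool.MP_992c01_co.NC

theorem step_onlyPair_symm (hcomm : S_htComm) (C : Cfg) (s0 s : ℝ) (p q : Pt)
    (h : OnlyPair C s0 s p q) : OnlyPair C s0 s q p := by
  obtain ⟨hp, hq, hne, h1, h2, h3⟩ := h
  refine ⟨hq, hp, fun e => hne e.symm, ?_, ?_, ?_⟩
  · rw [hcomm q p]; exact h1
  · rw [hcomm q p]; exact h2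
  · intro v hv u hu hvu ha hb
    rcases h3 v hv u hu hvu ha hb with h | h
    · exact Or.inr h
    · exact Or.inl h

theorem step_main (h2 : S_stepWaste) (h3 : S_stepSwap)
    (C : Cfg) (Ped : Type) [Fintype Ped] (s0 s : ℝ) (p q : Pt) (path : Ped → List Pt)
    (ho : OnlyPair C s0 s p q) (hp : p.1 < 0) (hq : 0 < q.1) (hi : Inv C s0 path) :
    ∃ path' : Ped → List Pt, Inv C s path' := by
  by_cases hE : C.E p q
  · by_cases h4 : ∀ π, (path π).headI = p → Bel (path π) q
    · exact ⟨path, h2 C Ped s0 s p q path ho hp hq (Or.inr (Or.inl h4)) hi⟩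
    · by_cases h5 : ∀ π, (path π).headI = q → Bel (path π) p
      · exact ⟨path, h2 C Ped s0 s p q path ho hp hq (Or.inr (Or.inr h5)) hi⟩
      · push Not at h4 h5
        obtain ⟨π₁, ha, hb⟩ := h4
        obtain ⟨π₂, hc, hd⟩ := h5
        exact ⟨_, h3 C Ped s0 s p q path ho hp hq hE π₁ π₂ ha hb hc hd hi⟩
  · exact ⟨path, h2 C Ped s0 s p q path ho hp hq (Or.inl hE) hi⟩

theorem p_step : S_htComm → S_stepSame → S_stepWaste → S_stepSwap → S_step := by
  intro hcomm h1 h2 h3 C Ped _ s0 s p q path ho hi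
  have hp0 : p.1 ≠ 0 := C.hx p ho.1
  have hq0 : q.1 ≠ 0 := C.hx q ho.2.1
  rcases lt_or_gt_of_ne hp0 with hp | hp
  · rcases lt_or_gt_of_ne hq0 with hq | hq
    · exact ⟨path, h1 C Ped s0 s p q path ho (mul_pos_of_neg_of_neg hp hq) hi⟩
    · exact step_main h2 h3 C Ped s0 s p q path ho hp hq hi
  · rcases lt_or_gt_of_ne hq0 with hq | hq
    · exact step_main h2 h3 C Ped s0 s q p path (step_onlyPair_symm hcomm C s0 s p q ho) hq hp hi
    · exact ⟨path, h1 C Ped s0 s p q path ho (mul_pos hp hq) hi⟩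

end Pool.MP_992c01_co.NC
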