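import Pool.Agent.Lib.MP_992c01_co.Stm

set_option autoImplicit false

open scoped BigOperators Classical

namespace Pool.MP_992c01_co.NC

theorem stepSame_head {C : Cfg} {s : ℝ} {l : List Pt} (h : Good C s l) : l.headI ∈ C.V := by
  cases h with
  | single _ v hv => exact hv
  | cons _ v w l h hE hs hnb => exact C.EV _ _ (C.Esymm _ _ hE)

theorem stepSame_sep {C : Cfg} {s0 s : ℝ} {p q v u : Pt} (O : OnlyPair C s0 s p q) (hv : v ∈ C.V)
    (hu : u ∈ C.V) (hne : v.1 ≠ u.1) (hp : ¬ ((v = p ∧ u = q) ∨ (v = q ∧ u = p))) :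
    ht v u < s0 ∨ s < ht v u := by
  by_contra h
  push Not at h
  exact hp (O.2.2.2.2.2 v hv u hu hne h.1 h.2)

theorem stepSame_dev {C : Cfg} {s0 s : ℝ} {p q v u : Pt} (hd : S_dev) (O : OnlyPair C s0 s p q)
    (hv : v ∈ C.V) (hu : u ∈ C.V) (hp : ¬ ((v = p ∧ u = q) ∨ (v = q ∧ u = p)))
    (h : 0 < dev v u s) : 0 < dev v u s0 := by
  have hv0 := C.hx v hv
  have hs : s0 < s := O.2.2.2.1.trans O.2.2.2.2.1
  by_cases hne : u.1 = v.1
  · rw [hd.2.2.2.2.1 v u _ hv0 hne] at h ⊢
    exact h
  · rw [hd.1 v u _ hv0 hne] at h ⊢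
    rcases stepSame_sep O hv hu (fun e => hne e.symm) hp with h1 | h1
    · rcases pos_and_pos_or_neg_and_neg_of_mul_pos h with ⟨h2, h3⟩ | ⟨h2, h3⟩
      · linarith
      · exact mul_pos_of_neg_of_neg (by linarith) h3
    · rcases pos_and_pos_or_neg_and_neg_of_mul_pos h with ⟨h2, h3⟩ | ⟨h2, h3⟩
      · exact mul_pos (by linarith) h3
      · linarith

theorem stepSame_F {C : Cfg} {s0 s : ℝ} {p q u : Pt} {l : List Pt} (hd : S_dev)
    (O : OnlyPair C s0 s p q) (hv : l.headI ∈ C.V) (hu : u ∈ C.V)
    (hp : ¬ ((l.headI = p ∧ u = q) ∨ (l.headI = q ∧ u = p))) (h : F C s l u) : F C s0 l u := by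
  have hs : s0 < s := O.2.2.2.1.trans O.2.2.2.2.1
  refine ⟨h.1, stepSame_dev hd O hv hu hp h.2.1, ?_⟩
  rcases h.2.2 with h1 | ⟨a, ha, h1, h2⟩
  · exact Or.inl h1
  · exact Or.inr ⟨a, ha, h1, hs.trans h2⟩

theorem stepSame_count {C : Cfg} {Ped : Type} [Fintype Ped] {s0 : ℝ} {path : Ped → List Pt}
    (hI : Inv C s0 path) {v w : Pt} (hv : v ∈ C.V) (hw : w ∈ C.V) (x : ℝ) :
    (∑ π : Ped, ∑ u ∈ C.V, if (path π).headI = v ∧ u = w then x else 0) = (C.κ v : ℝ) * x := by
  have h1 : ∀ π : Ped, (∑ u ∈ C.V, if (path π).headI = v ∧ u = w then x else 0) =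
      if (path π).headI = v then x else 0 := by
    intro π
    by_cases h : (path π).headI = v
    · simp only [h, true_and, if_true]
      rw [Finset.sum_ite_eq' C.V w (fun _ => x), if_pos hw]
    · simp only [h, false_and, if_false, Finset.sum_const_zero]
  rw [Finset.sum_congr rfl fun π _ => h1 π, ← Finset.sum_filter, Finset.sum_const, hI.bags v hv,
    nsmul_eq_mul]

theorem stepSame_main {C : Cfg} {Ped : Type} [Fintype Ped] {s0 s : ℝ} {p q : Pt}
    {path : Ped → List Pt} (hc : S_htComm) (hd : S_dev) (hgm : S_goodMono)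
    (O : OnlyPair C s0 s p q) (hpq : 0 < p.1 * q.1) (hlt : |p.1| < |q.1|) (hI : Inv C s0 path) :
    Inv C s path := by
  have hs : s0 < s := O.2.2.2.1.trans O.2.2.2.2.1
  refine ⟨fun π => hgm C s0 s _ (hI.good π) hs.le, hI.bags, ?_⟩
  -- the target
  have hT : Target C s = Target C s0 := by
    unfold Target
    refine Finset.sum_congr rfl fun a ha => Finset.sum_congr rfl fun b hb => ?_
    have hiff : (a.1 < 0 ∧ 0 < b.1 ∧ C.E a b ∧ ht a b < s) ↔
        (a.1 < 0 ∧ 0 < b.1 ∧ C.E a b ∧ ht a b < s0) := by
      constructor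
      · rintro ⟨h1, h2, h3, h4⟩
        refine ⟨h1, h2, h3, ?_⟩
        rcases stepSame_sep O ha hb (by intro e; linarith) (by
          rintro (⟨e1, e2⟩ | ⟨e1, e2⟩)
          · rw [e1] at h1; rw [e2] at h2; nlinarith
          · rw [e1] at h1; rw [e2] at h2; nlinarith) with h5 | h5
        · exact h5
        · linarith
      · rintro ⟨h1, h2, h3, h4⟩
        exact ⟨h1, h2, h3, h4.trans hs⟩
    by_cases h : (a.1 < 0 ∧ 0 < b.1 ∧ C.E a b ∧ ht a b < s)
    · rw [if_pos h, if_pos (hiff.1 h)]
    · rw [if_neg h, if_neg (fun h' => h (hiff.2 h'))]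
  -- the bad sum
  have hB : BadSum C s0 + (if BadP C p q then (C.κ p : ℝ) * C.c q else 0) ≤ BadSum C s := by
    have h1 : (∑ v ∈ C.V, ∑ u ∈ C.V, if v = p ∧ u = q then
        (if BadP C p q then (C.κ p : ℝ) * C.c q else 0) else 0) =
        (if BadP C p q then (C.κ p : ℝ) * C.c q else 0) := by
      have h2 : ∀ v ∈ C.V, (∑ u ∈ C.V, if v = p ∧ u = q then
          (if BadP C p q then (C.κ p : ℝ) * C.c q else 0) else 0) =
          if v = p then (if BadP C p q then (C.κ p : ℝ) * C.c q else 0) else 0 := by
        intro v _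
        by_cases h : v = p
        · simp only [h, true_and, if_true]
          rw [Finset.sum_ite_eq' C.V q, if_pos O.2.1]
        · simp only [h, false_and, if_false, Finset.sum_const_zero]
      rw [Finset.sum_congr rfl h2, Finset.sum_ite_eq' C.V p, if_pos O.1]
    rw [← h1]
    unfold BadSum
    rw [← Finset.sum_add_distrib]
    refine Finset.sum_le_sum fun v hv => ?_
    rw [← Finset.sum_add_distrib]
    refine Finset.sum_le_sum fun u hu => ?_
    have hnn : 0 ≤ (C.κ v : ℝ) * C.c u := mul_nonneg (Nat.cast_nonneg _) (C.hc u)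
    by_cases hvu : v = p ∧ u = q
    · obtain ⟨rfl, rfl⟩ := hvu
      rw [if_pos (⟨rfl, rfl⟩ : v = v ∧ u = u), if_neg (fun h => absurd h.2 (not_lt.2 O.2.2.2.1.le)),
        zero_add]
      by_cases hb : BadP C v u
      · rw [if_pos hb, if_pos ⟨hb, O.2.2.2.2.1⟩]
      · rw [if_neg hb, if_neg (fun h => hb h.1)]
    · rw [if_neg hvu, add_zero]
      by_cases hb : BadP C v u ∧ ht v u < s0
      · rw [if_pos hb, if_pos ⟨hb.1, hb.2.trans hs⟩]
      · rw [if_neg hb]
        split_ifs
        · exact hnn
        · exact le_rfl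
  -- the potential
  have hP : Phi C s path ≤ Phi C s0 path + (if BadP C p q then (C.κ p : ℝ) * C.c q else 0) := by
    have h1 := stepSame_count hI O.1 O.2.1 (if BadP C p q then C.c q else 0)
    have h2 : (C.κ p : ℝ) * (if BadP C p q then C.c q else 0) =
        (if BadP C p q then (C.κ p : ℝ) * C.c q else 0) := by
      split_ifs
      · rfl
      · exact mul_zero _
    rw [← h2, ← h1]
    unfold Phi
    rw [← Finset.sum_add_distrib]
    refine Finset.sum_le_sum fun π _ => ?_
    rw [← Finset.sum_add_distrib]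
    refine Finset.sum_le_sum fun u hu => ?_
    have hgood := hI.good π
    have hhead := stepSame_head hgood
    have hnn := C.hc u
    have hnq : 0 ≤ (if BadP C p q then C.c q else 0) := by
      split_ifs
      · exact C.hc q
      · exact le_rfl
    by_cases hF : F C s (path π) u
    · by_cases hpr : ((path π).headI = p ∧ u = q) ∨ ((path π).headI = q ∧ u = p)
      · rcases hpr with ⟨e1, e2⟩ | ⟨e1, e2⟩
        · -- new bad forbidden points
          have hbad : BadP C p q := by
            refine ⟨hpq, hlt, ?_⟩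
            obtain ⟨f1, f2, f3⟩ := hF
            rw [e1, e2] at f3
            rw [e2] at f1
            rcases f3 with f3 | ⟨b, hb, g1, g2⟩
            · linarith
            · generalize path π = l at hgood e1 f1
              cases hgood with
              | single _ v hv => exact absurd f1 (by simp [Bel])
              | cons _ x w l' hg hE hsx hnb =>
                have e1' : w = p := e1
                subst e1'
                have hx : ht w x < s0 := by rw [hc w x]; exact hsx
                have hop := C.Eopp _ _ hE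
                refine ⟨x, C.EV _ _ hE, b, hb, by linarith [mul_comm x.1 w.1], g1, ?_, ?_⟩
                · exact hx.trans O.2.2.2.1
                · exact O.2.2.2.2.1.trans g2
          rw [if_pos hF, if_pos (⟨e1, e2⟩ : (path π).headI = p ∧ u = q), if_pos hbad, e2]
          have : 0 ≤ (if F C s0 (path π) q then C.c q else 0) := by
            split_ifs
            · exact C.hc q
            · exact le_rfl
          linarith
        · exfalso
          have f2 := hF.2.1
          rw [e1, e2] at f2
          have hqp : 0 < q.1 * p.1 := by rw [mul_comm]; exact hpq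
          have h3 := ((hd.2.2.2.1 q p s hqp hlt).1).1 f2
          rw [hc q p] at h3
          linarith [O.2.2.2.2.1]
      · rw [if_pos hF, if_pos (stepSame_F hd O hhead hu hpr hF)]
        split_ifs
        · linarith [C.hc q]
        · linarith
        · linarith
    · rw [if_neg hF]
      have h3 : 0 ≤ (if F C s0 (path π) u then C.c u else 0) := by
        split_ifs
        · exact hnn
        · exact le_rfl
      have h4 : 0 ≤ (if (path π).headI = p ∧ u = q then (if BadP C p q then C.c q else 0) else 0) := by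
        split_ifs
        · exact C.hc q
        · exact le_rfl
        · exact le_rfl
      linarith
  have := hI.ineq
  rw [hT]
  linarith

theorem p_stepSame : S_htComm → S_dev → S_goodMono → S_stepSame := by
  intro hc hd hgm C Ped _ s0 s p q path O hpq hI
  rcases lt_trichotomy |p.1| |q.1| with h | h | h
  · exact stepSame_main hc hd hgm O hpq h hI
  · exfalso
    rcases abs_eq_abs.1 h with h1 | h1
    · exact O.2.2.1 h1
    · rw [h1] at hpq
      nlinarith [mul_self_nonneg q.1]
  · have O' : OnlyPair C s0 s q p := by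
      refine ⟨O.2.1, O.1, fun e => O.2.2.1 e.symm, ?_, ?_, ?_⟩
      · rw [hc q p]; exact O.2.2.2.1
      · rw [hc q p]; exact O.2.2.2.2.1
      · intro v hv u hu h1 h2 h3
        exact (O.2.2.2.2.2 v hv u hu h1 h2 h3).symm
    exact stepSame_main hc hd hgm O' (by rw [mul_comm]; exact hpq) h hI

end Pool.MP_992c01_co.NC
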