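import Pool.Agent.Lib.MP_992c01_co.Stm

set_option autoImplicit false

open scoped BigOperators Classical

namespace Pool.MP_992c01_co.NC

/-- positivity of `dev v u` goes back in time, if the only event is on opposite sides -/
private theorem stepSwap_dev (hD : S_dev) (C : Cfg) (s0 s : ℝ) (p q : Pt)
    (hO : OnlyPair C s0 s p q) (hp : p.1 < 0) (hq : 0 < q.1) (v u : Pt) (hv : v ∈ C.V)
    (hu : u ∈ C.V) (t1 t2 : ℝ) (h1 : s0 ≤ t1) (h12 : t1 ≤ t2) (h2 : t2 ≤ s)
    (h : 0 < dev v u t2) : 0 < dev v u t1 := by
  obtain ⟨-, hop, hfar, hnear, heq, -⟩ := hD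
  obtain ⟨-, -, -, -, -, hO⟩ := hO
  have hv0 := C.hx v hv
  have hu0 := C.hx u hu
  by_cases h0 : u.1 = v.1
  · rw [heq v u t2 hv0 h0] at h
    rw [heq v u t1 hv0 h0]
    exact h
  rcases lt_or_gt_of_ne (mul_ne_zero hv0 hu0) with hs | hs
  · rw [(hop v u t2 hs).1] at h
    rw [(hop v u t1 hs).1]
    linarith
  · rcases lt_trichotomy |v.1| |u.1| with ha | ha | ha
    · rw [(hfar v u t2 hs ha).1] at h
      rw [(hfar v u t1 hs ha).1]
      by_contra hc
      have h3 := hO v hv u hu (fun e => h0 e.symm) (by linarith) (by linarith)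
      rcases h3 with ⟨rfl, rfl⟩ | ⟨rfl, rfl⟩
      · have := mul_neg_of_neg_of_pos hp hq
        linarith
      · have := mul_neg_of_pos_of_neg hq hp
        linarith
    · exfalso
      rcases abs_eq_abs.1 ha with h3 | h3
      · exact h0 h3.symm
      · rw [h3] at hs
        have := mul_self_nonneg u.1
        linarith
    · rw [(hnear v u t2 hs ha).1] at h
      rw [(hnear v u t1 hs ha).1]
      linarith

private theorem stepSwap_head (C : Cfg) (s : ℝ) (l : List Pt) (h : Good C s l) :
    l.headI ∈ C.V ∧ ∃ l', l = l.headI :: l' := by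
  cases h with
  | single _ v hv => exact ⟨hv, [], rfl⟩
  | cons _ v w l h hE hs hnb => exact ⟨C.EV w v (C.Esymm v w hE), v :: l, rfl⟩

theorem p_stepSwap : S_htComm → S_dev → S_goodMono → S_stepSwap := by
  intro hC hD hG C Ped _ s0 s p q path hO hp hq hE π₁ π₂ h1 hb1 h2 hb2 hI
  obtain ⟨hpV, hqV, hpq1, ht0, hts, hO'⟩ := id hO
  have hpq : p ≠ q := fun h => hpq1 (by rw [h])
  have h12 : π₁ ≠ π₂ := by
    rintro rfl
    exact hpq (h1.symm.trans h2)
  have hopp : p.1 * q.1 < 0 := mul_neg_of_neg_of_pos hp hq
  have hopp' : q.1 * p.1 < 0 := mul_neg_of_pos_of_neg hq hp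
  have htc : ht q p = ht p q := hC q p
  obtain ⟨-, l1, hl1⟩ := stepSwap_head C s0 _ (hI.good π₁)
  obtain ⟨-, l2, hl2⟩ := stepSwap_head C s0 _ (hI.good π₂)
  rw [h1] at hl1
  rw [h2] at hl2
  have hg1 : Good C s0 (p :: l1) := hl1 ▸ hI.good π₁
  have hg2 : Good C s0 (q :: l2) := hl2 ▸ hI.good π₂
  rw [hl1] at hb1
  rw [hl2] at hb2
  set path' : Ped → List Pt :=
    fun π => if π = π₁ then q :: path π else if π = π₂ then p :: path π else path π with hpath'
  have hp1 : path' π₁ = q :: p :: l1 := by
    simp only [hpath', if_true, hl1]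
  have hp2 : path' π₂ = p :: q :: l2 := by
    simp only [hpath', if_neg h12.symm, if_true, hl2]
  have hp3 : ∀ π, π ≠ π₁ → π ≠ π₂ → path' π = path π := by
    intro π a b
    simp only [hpath', if_neg a, if_neg b]
  -- the forbidden points
  have hF : ∀ π, ∀ u ∈ C.V, F C s (path' π) u → F C s0 (path π) u := by
    intro π u hu hF
    by_cases e1 : π = π₁
    · subst e1
      rw [hp1] at hF
      rw [hl1]
      obtain ⟨hB, hd, -⟩ := hF
      have hd1 : 0 < dev q u (ht p q) :=
        stepSwap_dev hD C s0 s p q hO hp hq q u hqV hu _ _ ht0.le hts.le le_rfl hd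
      have hd2 : 0 < dev p u (ht p q) := by
        rw [hD.2.2.2.2.2 p q u hopp]
        exact hd1
      have hd3 : 0 < dev p u s0 :=
        stepSwap_dev hD C s0 s p q hO hp hq p u hpV hu _ _ le_rfl ht0.le hts.le hd2
      refine ⟨?_, hd3, Or.inr ⟨q, hqV, hopp, ht0⟩⟩
      rcases hB with hB | hB
      · rw [htc] at hB
        exact absurd hd1 (not_lt.2 hB.le)
      · exact hB
    · by_cases e2 : π = π₂
      · subst e2
        rw [hp2] at hF
        rw [hl2]
        obtain ⟨hB, hd, -⟩ := hF
        have hd1 : 0 < dev p u (ht p q) :=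
          stepSwap_dev hD C s0 s p q hO hp hq p u hpV hu _ _ ht0.le hts.le le_rfl hd
        have hd2 : 0 < dev q u (ht p q) := by
          rw [← hD.2.2.2.2.2 p q u hopp]
          exact hd1
        have hd3 : 0 < dev q u s0 :=
          stepSwap_dev hD C s0 s p q hO hp hq q u hqV hu _ _ le_rfl ht0.le hts.le hd2
        refine ⟨?_, hd3, Or.inr ⟨p, hpV, hopp', by
          show s0 < ht q p
          rw [htc]
          exact ht0⟩⟩
        rcases hB with hB | hB
        · exact absurd hd1 (not_lt.2 hB.le)
        · exact hB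
      · rw [hp3 π e1 e2] at hF
        obtain ⟨hB, hd, ha⟩ := hF
        have hv := (stepSwap_head C s0 _ (hI.good π)).1
        refine ⟨hB, stepSwap_dev hD C s0 s p q hO hp hq _ u hv hu _ _ le_rfl
          (ht0.le.trans hts.le) le_rfl hd, ?_⟩
        rcases ha with ha | ⟨a, haV, ha, has⟩
        · exact Or.inl ha
        · exact Or.inr ⟨a, haV, ha, (ht0.trans hts).trans has⟩
  refine ⟨?_, ?_, ?_⟩
  · intro π
    show Good C s (path' π)
    by_cases e1 : π = π₁
    · subst e1
      rw [hp1]
      exact Good.cons s p q l1 (hG C s0 _ _ hg1 ht0.le) hE hts hb1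
    · by_cases e2 : π = π₂
      · subst e2
        rw [hp2]
        exact Good.cons s q p l2 (hG C s0 _ _ hg2 (htc ▸ ht0.le)) (C.Esymm _ _ hE) (htc ▸ hts) hb2
      · rw [hp3 π e1 e2]
        exact hG C s0 _ _ (hI.good π) (ht0.le.trans hts.le)
  · intro v hv
    rw [← hI.bags v hv]
    refine Finset.card_equiv (Equiv.swap π₁ π₂) fun π => ?_
    rw [Finset.mem_filter, Finset.mem_filter]
    simp only [Finset.mem_univ, true_and]
    by_cases e1 : π = π₁
    · subst e1
      rw [Equiv.swap_apply_left, h2]
      show (path' π).headI = v ↔ q = v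
      rw [hp1]
      rfl
    · by_cases e2 : π = π₂
      · subst e2
        rw [Equiv.swap_apply_right, h1]
        show (path' π).headI = v ↔ p = v
        rw [hp2]
        rfl
      · rw [Equiv.swap_apply_of_ne_of_ne e1 e2]
        show (path' π).headI = v ↔ (path π).headI = v
        rw [hp3 π e1 e2]
  · show Target C s + Phi C s path' ≤ (∑ π : Ped, W C.g (path' π)) + BadSum C s
    have hT : Target C s ≤ Target C s0 + (C.g p + C.g q) := by
      have e : ∑ a ∈ C.V, ∑ b ∈ C.V, (if a = p ∧ b = q then C.g p + C.g q else 0) =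
          C.g p + C.g q := by
        rw [Finset.sum_eq_single p, Finset.sum_eq_single q]
        · simp
        · intro b _ hb
          simp [hb]
        · intro hb
          exact absurd hqV hb
        · intro a _ ha
          simp [ha]
        · intro ha
          exact absurd hpV ha
      unfold Target
      rw [← e, ← Finset.sum_add_distrib]
      refine Finset.sum_le_sum fun a ha => ?_
      rw [← Finset.sum_add_distrib]
      refine Finset.sum_le_sum fun b hb => ?_
      have hnn : 0 ≤ C.g p + C.g q := add_nonneg (C.hg p) (C.hg q)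
      by_cases hc : a.1 < 0 ∧ 0 < b.1 ∧ C.E a b ∧ ht a b < s
      · rw [if_pos hc]
        obtain ⟨c1, c2, c3, c4⟩ := hc
        by_cases hc' : ht a b < s0
        · rw [if_pos ⟨c1, c2, c3, hc'⟩]
          have : (0 : ℝ) ≤ if a = p ∧ b = q then C.g p + C.g q else 0 := by
            split_ifs
            · exact hnn
            · exact le_rfl
          linarith
        · rcases hO' a ha b hb (by linarith) (not_lt.1 hc') c4.le with ⟨rfl, rfl⟩ | ⟨rfl, rfl⟩
          · rw [if_neg (fun h => hc' h.2.2.2), if_pos ⟨rfl, rfl⟩]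
            linarith
          · exfalso
            linarith
      · rw [if_neg hc]
        refine add_nonneg ?_ ?_
        · split_ifs
          · exact add_nonneg (C.hg a) (C.hg b)
          · exact le_rfl
        · split_ifs
          · exact hnn
          · exact le_rfl
    have hBad : BadSum C s0 ≤ BadSum C s := by
      unfold BadSum
      refine Finset.sum_le_sum fun v _ => Finset.sum_le_sum fun u _ => ?_
      have hnn : 0 ≤ (C.κ v : ℝ) * C.c u := mul_nonneg (Nat.cast_nonneg _) (C.hc u)
      by_cases hc : BadP C v u ∧ ht v u < s0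
      · rw [if_pos hc, if_pos ⟨hc.1, hc.2.trans (ht0.trans hts)⟩]
      · rw [if_neg hc]
        split_ifs
        · exact hnn
        · exact le_rfl
    have hPhi : Phi C s path' ≤ Phi C s0 path := by
      unfold Phi
      refine Finset.sum_le_sum fun π _ => Finset.sum_le_sum fun u hu => ?_
      by_cases hc : F C s (path' π) u
      · rw [if_pos hc, if_pos (hF π u hu hc)]
      · rw [if_neg hc]
        split_ifs
        · exact C.hc u
        · exact le_rfl
    have hW : ∑ π : Ped, W C.g (path' π) =
        (∑ π : Ped, W C.g (path π)) + (C.g p + C.g q) := by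
      have e : ∀ π : Ped, W C.g (path' π) = W C.g (path π) +
          ((if π = π₁ then C.g q else 0) + (if π = π₂ then C.g p else 0)) := by
        intro π
        by_cases e1 : π = π₁
        · subst e1
          rw [hp1, hl1, if_pos rfl, if_neg h12]
          simp only [W]
          ring
        · by_cases e2 : π = π₂
          · subst e2
            rw [hp2, hl2, if_pos rfl, if_neg e1]
            simp only [W]
            ring
          · rw [hp3 π e1 e2, if_neg e1, if_neg e2]
            ring
      rw [Finset.sum_congr rfl fun π _ => e π, Finset.sum_add_distrib, Finset.sum_add_distrib]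
      simp
      ring
    have := hI.ineq
    linarith

end Pool.MP_992c01_co.NC
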