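import Pool.Agent.Lib.MP_992c01_co.Stm

set_option autoImplicit false

open scoped BigOperators Classical

namespace Pool.MP_992c01_co.NC

theorem stepWaste_head {C : Cfg} {s : ℝ} {l : List Pt} (h : Good C s l) : l.headI ∈ C.V := by
  cases h with
  | single _ v hv => exact hv
  | cons _ v w l h hE hs hnb => exact C.EV _ _ (C.Esymm _ _ hE)

theorem stepWaste_sep {C : Cfg} {s0 s : ℝ} {p q v u : Pt} (O : OnlyPair C s0 s p q) (hv : v ∈ C.V)
    (hu : u ∈ C.V) (hne : v.1 ≠ u.1) (hp : ¬ ((v = p ∧ u = q) ∨ (v = q ∧ u = p))) :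
    ht v u < s0 ∨ s < ht v u := by
  by_contra h
  push Not at h
  exact hp (O.2.2.2.2.2 v hv u hu hne h.1 h.2)

theorem stepWaste_dev {C : Cfg} {s0 s : ℝ} {p q v u : Pt} (hd : S_dev) (O : OnlyPair C s0 s p q)
    (hv : v ∈ C.V) (hu : u ∈ C.V) (hp : ¬ ((v = p ∧ u = q) ∨ (v = q ∧ u = p)))
    (h : 0 < dev v u s) : 0 < dev v u s0 := by
  have hv0 := C.hx v hv
  have hs : s0 < s := O.2.2.2.1.trans O.2.2.2.2.1
  by_cases hne : u.1 = v.1
  · rw [hd.2.2.2.2.1 v u _ hv0 hne] at h ⊢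
    exact h
  · rw [hd.1 v u _ hv0 hne] at h ⊢
    rcases stepWaste_sep O hv hu (fun e => hne e.symm) hp with h1 | h1
    · rcases pos_and_pos_or_neg_and_neg_of_mul_pos h with ⟨h2, h3⟩ | ⟨h2, h3⟩
      · linarith
      · exact mul_pos_of_neg_of_neg (by linarith) h3
    · rcases pos_and_pos_or_neg_and_neg_of_mul_pos h with ⟨h2, h3⟩ | ⟨h2, h3⟩
      · exact mul_pos (by linarith) h3
      · linarith

theorem stepWaste_F {C : Cfg} {s0 s : ℝ} {p q u : Pt} {l : List Pt} (hd : S_dev)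
    (O : OnlyPair C s0 s p q) (hv : l.headI ∈ C.V) (hu : u ∈ C.V)
    (hp : ¬ ((l.headI = p ∧ u = q) ∨ (l.headI = q ∧ u = p))) (h : F C s l u) : F C s0 l u := by
  have hs : s0 < s := O.2.2.2.1.trans O.2.2.2.2.1
  refine ⟨h.1, stepWaste_dev hd O hv hu hp h.2.1, ?_⟩
  rcases h.2.2 with h1 | ⟨a, ha, h1, h2⟩
  · exact Or.inl h1
  · exact Or.inr ⟨a, ha, h1, hs.trans h2⟩

theorem stepWaste_count {C : Cfg} {Ped : Type} [Fintype Ped] {s0 : ℝ} {path : Ped → List Pt}
    (hI : Inv C s0 path) {v w : Pt} (hv : v ∈ C.V) (hw : w ∈ C.V) (x : ℝ) :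
    (∑ π : Ped, ∑ u ∈ C.V, if (path π).headI = v ∧ u = w then x else 0) = (C.κ v : ℝ) * x := by
  have h1 : ∀ π : Ped, (∑ u ∈ C.V, if (path π).headI = v ∧ u = w then x else 0) =
      if (path π).headI = v then x else 0 := by
    intro π
    by_cases h : (path π).headI = v
    · simp only [h, true_and, if_true]
      rw [Finset.sum_ite_eq' C.V w (fun _ => x), if_pos hw]
    · simp only [h, false_and, if_false, Finset.sum_const_zero]
  rw [Finset.sum_congr rfl fun π _ => h1 π, ← Finset.sum_filter, Finset.sum_const, hI.bags v hv,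
    nsmul_eq_mul]

theorem stepWaste_BadSum {C : Cfg} {s0 s : ℝ} (hs : s0 < s) : BadSum C s0 ≤ BadSum C s := by
  unfold BadSum
  refine Finset.sum_le_sum fun v hv => Finset.sum_le_sum fun u hu => ?_
  have hnn : 0 ≤ (C.κ v : ℝ) * C.c u := mul_nonneg (Nat.cast_nonneg _) (C.hc u)
  by_cases hb : BadP C v u ∧ ht v u < s0
  · rw [if_pos hb, if_pos ⟨hb.1, hb.2.trans hs⟩]
  · rw [if_neg hb]
    split_ifs
    · exact hnn
    · exact le_rfl

theorem stepWaste_Target {C : Cfg} {s0 s : ℝ} {p q : Pt} (O : OnlyPair C s0 s p q)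
    (hp : p.1 < 0) (hq : 0 < q.1) :
    Target C s ≤ Target C s0 + (if C.E p q then C.g p + C.g q else 0) := by
  have hs : s0 < s := O.2.2.2.1.trans O.2.2.2.2.1
  have h1 : (∑ v ∈ C.V, ∑ u ∈ C.V, if v = p ∧ u = q then
      (if C.E p q then C.g p + C.g q else 0) else 0) =
      (if C.E p q then C.g p + C.g q else 0) := by
    have h2 : ∀ v ∈ C.V, (∑ u ∈ C.V, if v = p ∧ u = q then
        (if C.E p q then C.g p + C.g q else 0) else 0) =
        if v = p then (if C.E p q then C.g p + C.g q else 0) else 0 := by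
      intro v _
      by_cases h : v = p
      · simp only [h, true_and, if_true]
        rw [Finset.sum_ite_eq' C.V q, if_pos O.2.1]
      · simp only [h, false_and, if_false, Finset.sum_const_zero]
    rw [Finset.sum_congr rfl h2, Finset.sum_ite_eq' C.V p, if_pos O.1]
  rw [← h1]
  unfold Target
  rw [← Finset.sum_add_distrib]
  refine Finset.sum_le_sum fun a ha => ?_
  rw [← Finset.sum_add_distrib]
  refine Finset.sum_le_sum fun b hb => ?_
  have hga := C.hg a
  have hgb := C.hg b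
  by_cases hc : a.1 < 0 ∧ 0 < b.1 ∧ C.E a b ∧ ht a b < s
  · rw [if_pos hc]
    by_cases hab : a = p ∧ b = q
    · obtain ⟨rfl, rfl⟩ := hab
      rw [if_pos (⟨rfl, rfl⟩ : a = a ∧ b = b), if_pos hc.2.2.1]
      have : 0 ≤ (if a.1 < 0 ∧ 0 < b.1 ∧ C.E a b ∧ ht a b < s0 then C.g a + C.g b else 0) := by
        split_ifs
        · linarith
        · exact le_rfl
      linarith
    · rw [if_neg hab, add_zero]
      have h3 : ht a b < s0 := by
        rcases stepWaste_sep O ha hb (by intro e; linarith [hc.1, hc.2.1]) (by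
          rintro (h | ⟨e1, e2⟩)
          · exact hab h
          · have := hc.1
            rw [e1] at this
            linarith) with h5 | h5
        · exact h5
        · linarith [hc.2.2.2]
      rw [if_pos ⟨hc.1, hc.2.1, hc.2.2.1, h3⟩]
  · rw [if_neg hc]
    have h3 : 0 ≤ (if a.1 < 0 ∧ 0 < b.1 ∧ C.E a b ∧ ht a b < s0 then C.g a + C.g b else 0) := by
      split_ifs
      · linarith
      · exact le_rfl
    have h4 : 0 ≤ (if a = p ∧ b = q then (if C.E p q then C.g p + C.g q else 0) else 0) := by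
      split_ifs
      · linarith [C.hg p, C.hg q]
      · exact le_rfl
      · exact le_rfl
    linarith

/-- The pair of the event is not active at time `s`. -/
theorem stepWaste_notF {C : Cfg} {s0 s : ℝ} {p q : Pt} (hc : S_htComm) (hd : S_dev)
    (O : OnlyPair C s0 s p q) (hp : p.1 < 0) (hq : 0 < q.1) {l : List Pt} {u : Pt}
    (h : (l.headI = p ∧ u = q) ∨ (l.headI = q ∧ u = p)) : ¬ F C s l u := by
  intro hF
  have f2 := hF.2.1
  rcases h with ⟨e1, e2⟩ | ⟨e1, e2⟩
  · rw [e1, e2] at f2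
    have h3 := ((hd.2.1 p q s (mul_neg_of_neg_of_pos hp hq)).1).1 f2
    linarith [O.2.2.2.2.1]
  · rw [e1, e2] at f2
    have h3 := ((hd.2.1 q p s (mul_neg_of_pos_of_neg hq hp)).1).1 f2
    rw [hc q p] at h3
    linarith [O.2.2.2.2.1]

theorem stepWaste_Phi {C : Cfg} {Ped : Type} [Fintype Ped] {s0 s : ℝ} {p q : Pt}
    {path : Ped → List Pt} (hc : S_htComm) (hd : S_dev) (O : OnlyPair C s0 s p q)
    (hp : p.1 < 0) (hq : 0 < q.1) (hI : Inv C s0 path) : Phi C s path ≤ Phi C s0 path := by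
  unfold Phi
  refine Finset.sum_le_sum fun π _ => Finset.sum_le_sum fun u hu => ?_
  have hhead := stepWaste_head (hI.good π)
  have hnn := C.hc u
  by_cases hF : F C s (path π) u
  · have hpr : ¬ (((path π).headI = p ∧ u = q) ∨ ((path π).headI = q ∧ u = p)) :=
      fun h => stepWaste_notF hc hd O hp hq h hF
    rw [if_pos hF, if_pos (stepWaste_F hd O hhead hu hpr hF)]
  · rw [if_neg hF]
    split_ifs
    · exact hnn
    · exact le_rfl

theorem stepWaste_Phi' {C : Cfg} {Ped : Type} [Fintype Ped] {s0 s : ℝ} {p q : Pt}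
    {path : Ped → List Pt} (hc : S_htComm) (hd : S_dev) (O : OnlyPair C s0 s p q)
    (hp : p.1 < 0) (hq : 0 < q.1) (hI : Inv C s0 path) {v w : Pt}
    (hvw : (v = p ∧ w = q) ∨ (v = q ∧ w = p))
    (hbel : ∀ π, (path π).headI = v → Bel (path π) w) :
    Phi C s path + (C.κ v : ℝ) * C.c w ≤ Phi C s0 path := by
  have hv : v ∈ C.V := by
    rcases hvw with ⟨e, _⟩ | ⟨e, _⟩
    · rw [e]; exact O.1
    · rw [e]; exact O.2.1
  have hw : w ∈ C.V := by
    rcases hvw with ⟨_, e⟩ | ⟨_, e⟩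
    · rw [e]; exact O.2.1
    · rw [e]; exact O.1
  have hvw0 : v.1 * w.1 < 0 := by
    rcases hvw with ⟨e1, e2⟩ | ⟨e1, e2⟩
    · rw [e1, e2]; exact mul_neg_of_neg_of_pos hp hq
    · rw [e1, e2]; exact mul_neg_of_pos_of_neg hq hp
  have hht : s0 < ht v w := by
    rcases hvw with ⟨e1, e2⟩ | ⟨e1, e2⟩
    · rw [e1, e2]; exact O.2.2.2.1
    · rw [e1, e2, hc q p]; exact O.2.2.2.1
  rw [← stepWaste_count hI hv hw (C.c w)]
  unfold Phi
  rw [← Finset.sum_add_distrib]
  refine Finset.sum_le_sum fun π _ => ?_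
  rw [← Finset.sum_add_distrib]
  refine Finset.sum_le_sum fun u hu => ?_
  have hhead := stepWaste_head (hI.good π)
  have hnn := C.hc u
  by_cases hpr : ((path π).headI = v ∧ u = w)
  · obtain ⟨e1, e2⟩ := hpr
    have hpr' : ((path π).headI = p ∧ u = q) ∨ ((path π).headI = q ∧ u = p) := by
      rcases hvw with ⟨f1, f2⟩ | ⟨f1, f2⟩
      · exact Or.inl ⟨e1.trans f1, e2.trans f2⟩
      · exact Or.inr ⟨e1.trans f1, e2.trans f2⟩
    have hF0 : F C s0 (path π) u := by
      refine ⟨?_, ?_, ?_⟩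
      · rw [e2]; exact hbel π e1
      · rw [e1, e2]
        exact ((hd.2.1 v w s0 hvw0).1).2 hht
      · rw [e1, e2]; exact Or.inl hvw0
    rw [if_neg (stepWaste_notF hc hd O hp hq hpr'), if_pos (⟨e1, e2⟩ : (path π).headI = v ∧ u = w),
      if_pos hF0, e2, zero_add]
  · rw [if_neg hpr, add_zero]
    by_cases hF : F C s (path π) u
    · have hpr' : ¬ (((path π).headI = p ∧ u = q) ∨ ((path π).headI = q ∧ u = p)) :=
        fun h => stepWaste_notF hc hd O hp hq h hF
      rw [if_pos hF, if_pos (stepWaste_F hd O hhead hu hpr' hF)]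
    · rw [if_neg hF]
      split_ifs
      · exact hnn
      · exact le_rfl

theorem p_stepWaste : S_htComm → S_dev → S_goodMono → S_stepWaste := by
  intro hc hd hgm C Ped _ s0 s p q path O hp hq hcase hI
  have hs : s0 < s := O.2.2.2.1.trans O.2.2.2.2.1
  refine ⟨fun π => hgm C s0 s _ (hI.good π) hs.le, hI.bags, ?_⟩
  have hT := stepWaste_Target O hp hq
  have hB := stepWaste_BadSum (C := C) hs
  have hin := hI.ineq
  by_cases hE : C.E p q
  · rw [if_pos hE] at hT
    rcases hcase with h | h | h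
    · exact absurd hE h
    · have h1 := stepWaste_Phi' hc hd O hp hq hI (Or.inl ⟨rfl, rfl⟩) h
      have h2 := C.hgc p q hE
      linarith
    · have h1 := stepWaste_Phi' hc hd O hp hq hI (Or.inr ⟨rfl, rfl⟩) h
      have h2 := C.hgc q p (C.Esymm _ _ hE)
      linarith
  · rw [if_neg hE] at hT
    have h1 := stepWaste_Phi hc hd O hp hq hI
    linarith

end Pool.MP_992c01_co.NC
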