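import Pool.Agent.Lib.MP_992c01_co.Stm

/-! MP_992c01_co : piece p_triple (see `Stm.lean` for the statement and its proof). -/

set_option autoImplicit false

open scoped BigOperators Classical

noncomputable section

namespace Pool.MP_992c01_co.NC

theorem p_triple : S_ham → S_triple := by
  intro hham P X Y Z μ hP hX hY hZ hXY hYZ hXZ hμ hμX hμZ
  obtain ⟨θ, f, ⟨x, hx, hxe⟩, ⟨z, hz, hze⟩, a1, a2, a3, a4⟩ :=
    hham X Z (μ 0) (μ 2) hXZ (hμ 0) (hμ 2) hμX hμZ
  have hno : ∀ y ∈ Y, y.2 ≠ θ * y.1 + f := by
    intro y hy hye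
    have h1 := hXY x hx y hy
    have h2 := hYZ y hy z hz
    have hxz : x ≠ z := by
      rintro rfl
      linarith
    have hxy : x ≠ y := by
      rintro rfl
      exact lt_irrefl _ h1
    have hzy : z ≠ y := by
      rintro rfl
      exact lt_irrefl _ h2
    apply hP x (hX hx) z (hZ hz) y (hY hy) hxz hxy hzy
    unfold orient
    rw [hxe, hze, hye]
    ring
  have hsum : ∑ p ∈ Y, μ 1 p = ∑ p ∈ Y.filter (fun p => θ * p.1 + f < p.2), μ 1 p +
      ∑ p ∈ Y.filter (fun p => p.2 < θ * p.1 + f), μ 1 p := by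
    rw [← Finset.sum_filter_add_sum_filter_not Y (fun p => θ * p.1 + f < p.2)]
    congr 1
    apply Finset.sum_congr _ fun _ _ => rfl
    apply Finset.filter_congr
    intro p hp
    constructor
    · intro h
      exact lt_of_le_of_ne (not_lt.mp h) (hno p hp)
    · intro h
      exact not_lt.mpr h.le
  by_cases hc : (∑ p ∈ Y, μ 1 p) / 2 ≤ ∑ p ∈ Y.filter (fun p => θ * p.1 + f < p.2), μ 1 p
  · refine ⟨X.filter (fun p => p.2 ≤ θ * p.1 + f), Y.filter (fun p => θ * p.1 + f < p.2),
      Z.filter (fun p => p.2 ≤ θ * p.1 + f), Finset.filter_subset _ _, Finset.filter_subset _ _,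
      Finset.filter_subset _ _, a1, hc, a3, θ, f, 1, ?_, ?_, ?_⟩
    · intro p hp
      have := (Finset.mem_filter.mp hp).2
      linarith
    · intro p hp
      have := (Finset.mem_filter.mp hp).2
      linarith
    · intro p hp
      have := (Finset.mem_filter.mp hp).2
      linarith
  · refine ⟨X.filter (fun p => θ * p.1 + f ≤ p.2), Y.filter (fun p => p.2 < θ * p.1 + f),
      Z.filter (fun p => θ * p.1 + f ≤ p.2), Finset.filter_subset _ _, Finset.filter_subset _ _,
      Finset.filter_subset _ _, a2, by linarith, a4, θ, f, -1, ?_, ?_, ?_⟩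
    · intro p hp
      have := (Finset.mem_filter.mp hp).2
      linarith
    · intro p hp
      have := (Finset.mem_filter.mp hp).2
      linarith
    · intro p hp
      have := (Finset.mem_filter.mp hp).2
      linarith

end Pool.MP_992c01_co.NC
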