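import Pool.Agent.Lib.MP_992c01_co.Stm

set_option autoImplicit false

open scoped BigOperators Classical

namespace Pool.MP_992c01_co.NC

private lemma weighted_inv (ε : ℝ) (p : Pt) : aff 1 (-ε) 0 (aff 1 ε 0 p) = p := by
  unfold aff
  ext
  · simp
  · simp

private lemma weighted_eps (P : Finset Pt) : ∃ ε : ℝ, ∀ p ∈ P, ∀ q ∈ P,
    p.1 + ε * p.2 = q.1 + ε * q.2 → p = q := by
  obtain ⟨ε, hε⟩ := Infinite.exists_notMem_finset
    ((P ×ˢ P).image (fun x : Pt × Pt => (x.2.1 - x.1.1) / (x.1.2 - x.2.2)))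
  refine ⟨ε, fun p hp q hq h => ?_⟩
  by_cases h2 : p.2 = q.2
  · rw [h2] at h
    exact Prod.ext (by linarith) h2
  · exfalso
    apply hε
    rw [Finset.mem_image]
    refine ⟨(p, q), Finset.mem_product.mpr ⟨hp, hq⟩, ?_⟩
    have h3 : p.2 - q.2 ≠ 0 := sub_ne_zero.mpr h2
    show (q.1 - p.1) / (p.2 - q.2) = ε
    rw [div_eq_iff h3]
    linarith

theorem p_weighted : S_aff → S_distinct → S_weighted := by
  intro haff hdis k hk
  obtain ⟨δ, hδ, H⟩ := hdis k hk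
  refine ⟨δ, hδ, ?_⟩
  intro P col w hP hcol hw hne
  obtain ⟨ε, hε⟩ := weighted_eps P
  obtain ⟨finj, _, fgp, _⟩ := haff 1 ε 0 one_ne_zero
  obtain ⟨ginj, _, _, gnc⟩ := haff 1 (-ε) 0 one_ne_zero
  obtain ⟨l', ⟨h1, h2, h3, ⟨c, h4⟩, h5⟩, h6⟩ := H (P.image (aff 1 ε 0))
    (fun x y => col (aff 1 (-ε) 0 x) (aff 1 (-ε) 0 y)) (fun x => w (aff 1 (-ε) 0 x))
    (fgp P hP) (by
      intro p hp q hq h
      obtain ⟨p', hp', rfl⟩ := Finset.mem_image.mp hp
      obtain ⟨q', hq', rfl⟩ := Finset.mem_image.mp hq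
      have : p' = q' := by
        apply hε p' hp' q' hq'
        have e : ∀ x : Pt, (aff 1 ε 0 x).1 = x.1 + ε * x.2 := by
          intro x; unfold aff; simp
        rw [e, e] at h
        exact h
      rw [this]) (fun x y => hcol _ _) (fun p => hw _) (hne.image _)
  refine ⟨l'.map (aff 1 (-ε) 0), ⟨?_, ?_, ?_, ⟨c, ?_⟩, ?_⟩, ?_⟩
  · simpa using h1
  · exact h2.map ginj
  · intro v hv
    obtain ⟨u, hu, rfl⟩ := List.mem_map.mp hv
    obtain ⟨p, hp, rfl⟩ := Finset.mem_image.mp (h3 u hu)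
    rw [weighted_inv]
    exact hp
  · rw [List.isChain_map]
    exact h4
  · exact (gnc l').mpr h5
  · rw [List.map_map]
    have e1 : ∑ p ∈ P.image (aff 1 ε 0), w (aff 1 (-ε) 0 p) = ∑ p ∈ P, w p := by
      rw [Finset.sum_image (fun x _ y _ h => finj h)]
      apply Finset.sum_congr rfl
      intro p _
      rw [weighted_inv]
    rw [e1] at h6
    exact h6

end Pool.MP_992c01_co.NC
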