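import Pool.Agent.Lib.MP_992c01_co.P_dev
import Pool.Agent.Lib.MP_992c01_co.P_goodBel
import Pool.Agent.Lib.MP_992c01_co.P_goodNC
import Pool.Agent.Lib.MP_992c01_co.P_stepSame
import Pool.Agent.Lib.MP_992c01_co.P_stepWaste
import Pool.Agent.Lib.MP_992c01_co.P_stepSwap
import Pool.Agent.Lib.MP_992c01_co.P_step
import Pool.Agent.Lib.MP_992c01_co.P_start
import Pool.Agent.Lib.MP_992c01_co.P_run
import Pool.Agent.Lib.MP_992c01_co.P_core
import Pool.Agent.Lib.MP_992c01_co.P_aff
import Pool.Agent.Lib.MP_992c01_co.P_axis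
import Pool.Agent.Lib.MP_992c01_co.P_coreGP
import Pool.Agent.Lib.MP_992c01_co.P_ham
import Pool.Agent.Lib.MP_992c01_co.P_triple
import Pool.Agent.Lib.MP_992c01_co.P_multi
import Pool.Agent.Lib.MP_992c01_co.P_split
import Pool.Agent.Lib.MP_992c01_co.P_groups
import Pool.Agent.Lib.MP_992c01_co.P_select
import Pool.Agent.Lib.MP_992c01_co.P_left
import Pool.Agent.Lib.MP_992c01_co.P_distinct
import Pool.Agent.Lib.MP_992c01_co.P_weighted
import Pool.Agent.Lib.MP_992c01_co.P_greedy
import Pool.Agent.Lib.MP_992c01_co.P_dual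
import Pool.Agent.Lib.MP_992c01_co.P_frac

/-! # MP_992c01_co : assembly of the pieces -/

set_option autoImplicit false

noncomputable section

namespace Pool.MP_992c01_co.NC

theorem all_goodBel : S_goodBel := p_goodBel p_htComm p_dev
theorem all_goodNC : S_goodNC := p_goodNC p_htComm p_dev p_goodMono all_goodBel
theorem all_step : S_step := p_step p_htComm (p_stepSame p_htComm p_dev p_goodMono)
  (p_stepWaste p_htComm p_dev p_goodMono) (p_stepSwap p_htComm p_dev p_goodMono)
theorem all_run : S_run := p_run p_htComm all_step (p_start p_htComm)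
theorem all_core : S_core := p_core p_htComm all_goodBel all_goodNC all_run
theorem all_coreGP : S_coreGP := p_coreGP p_htComm p_dev p_aff (p_axis p_aff) all_core
theorem all_multi : S_multi := p_multi (p_triple p_ham)
theorem all_left : S_left := p_left all_coreGP all_multi p_groups (p_select p_split)
theorem all_weighted : S_weighted := p_weighted p_aff (p_distinct p_aff all_left)
theorem all_greedy : S_greedy := p_greedy all_weighted
theorem all_frac : S_frac := p_frac all_weighted p_dual

/-- vertices of a list as a sequence -/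
def seqOf (l : List Pt) (s : ℕ) : Pt := l.getD s 0

theorem seqOf_mem {l : List Pt} {s : ℕ} (h : s < l.length) : seqOf l s ∈ l := by
  unfold seqOf
  rw [List.getD_eq_getElem _ _ h]
  exact List.getElem_mem h

theorem exists_seqOf {l : List Pt} {p : Pt} (h : p ∈ l) : ∃ s : ℕ, s < l.length ∧ seqOf l s = p := by
  obtain ⟨s, hs, e⟩ := List.getElem_of_mem h
  exact ⟨s, hs, by unfold seqOf; rw [List.getD_eq_getElem _ _ hs]; exact e⟩

theorem seqOf_inj {l : List Pt} (h : l.Nodup) {s t : ℕ} (hs : s < l.length) (ht : t < l.length)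
    (e : seqOf l s = seqOf l t) : s = t := by
  unfold seqOf at e
  rw [List.getD_eq_getElem _ _ hs, List.getD_eq_getElem _ _ ht] at e
  exact (List.Nodup.getElem_inj_iff h).1 e

theorem seqOf_chain {R : Pt → Pt → Prop} {l : List Pt} (h : l.IsChain R) {s : ℕ}
    (hs : s + 1 < l.length) : R (seqOf l s) (seqOf l (s + 1)) := by
  unfold seqOf
  rw [List.getD_eq_getElem _ _ hs, List.getD_eq_getElem _ _ (by omega)]
  exact List.isChain_iff_getElem.1 h s hs

theorem seqOf_edges : ∀ {l : List Pt} {s : ℕ}, s + 1 < l.length →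
    (seqOf l s, seqOf l (s + 1)) ∈ Edges l := by
  intro l
  induction l with
  | nil => intro s hs; simp at hs
  | cons q l ih =>
    intro s hs
    cases l with
    | nil => simp at hs
    | cons p l =>
      cases s with
      | zero => left; simp [seqOf]
      | succ s =>
        right
        have := @ih s (by simpa using hs)
        simpa [seqOf] using this

theorem seqOf_nc : ∀ {l : List Pt}, NCList l → ∀ {s t : ℕ}, s + 1 < l.length → t + 1 < l.length →
    s + 1 < t → Disjoint (segment ℝ (seqOf l s) (seqOf l (s + 1)))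
      (segment ℝ (seqOf l t) (seqOf l (t + 1))) := by
  intro l
  induction l with
  | nil => intro _ s t hs; simp at hs
  | cons q l ih =>
    intro h s t hs ht hst
    cases l with
    | nil => simp at hs
    | cons p l =>
      obtain ⟨h1, h2⟩ := h
      cases s with
      | zero =>
        obtain ⟨t, rfl⟩ : ∃ t', t = t' + 2 := ⟨t - 2, by omega⟩
        have ht' : t + 1 < l.length := by simp at ht; omega
        have := h2 _ (seqOf_edges ht')
        simpa [seqOf] using this
      | succ s =>
        obtain ⟨t, rfl⟩ : ∃ t', t = t' + 1 := ⟨t - 1, by omega⟩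
        have := ih h1 (s := s) (t := t) (by simpa using hs) (by simpa using ht) (by omega)
        simpa [seqOf] using this

theorem seqOf_mono {k : ℕ} {P : Finset Pt} {col : Pt → Pt → Fin k} {l : List Pt}
    (h : MonoNC k P col l) :
    1 ≤ l.length ∧ (∀ s : ℕ, s < l.length → seqOf l s ∈ P) ∧
    (∀ s t : ℕ, s < l.length → t < l.length → seqOf l s = seqOf l t → s = t) ∧
    (∃ c : Fin k, ∀ s : ℕ, s + 1 < l.length → col (seqOf l s) (seqOf l (s + 1)) = c) ∧
    (∀ s t : ℕ, s + 1 < l.length → t + 1 < l.length → s + 1 < t →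
      Disjoint (segment ℝ (seqOf l s) (seqOf l (s + 1)))
        (segment ℝ (seqOf l t) (seqOf l (t + 1)))) := by
  obtain ⟨h0, h1, h2, ⟨c, h3⟩, h4⟩ := h
  refine ⟨List.length_pos_iff.2 h0, fun s hs => h2 _ (seqOf_mem hs),
    fun s t hs ht e => seqOf_inj h1 hs ht e, ⟨c, fun s hs => seqOf_chain h3 hs⟩,
    fun s t hs ht hst => seqOf_nc h4 hs ht hst⟩

end Pool.MP_992c01_co.NC
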