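import Pool.Agent.Lib.MP_992c01_co.All

set_option autoImplicit false

namespace Pool.Agent.Lib.MP_992c01_co.AlmostCover

open Pool.MP_992c01_co.NC

/-- For every `m`, at most `m` pairwise vertex-disjoint noncrossing monochromatic paths cover all
but `(1-δ)^m |P|` points of a `k`-coloured complete geometric graph, `δ > 0` depending only on
`k`. -/
theorem result :
    ∀ k : ℕ, 1 ≤ k → ∃ δ : ℝ, 0 < δ ∧ δ ≤ 1 ∧ ∀ (P : Finset (ℝ × ℝ)),
      (∀ a ∈ P, ∀ b ∈ P, ∀ c ∈ P, a ≠ b → a ≠ c → b ≠ c →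
        (b.1 - a.1) * (c.2 - a.2) - (b.2 - a.2) * (c.1 - a.1) ≠ 0) →
      ∀ col : ℝ × ℝ → ℝ × ℝ → Fin k, (∀ x y, col x y = col y x) →
      ∀ m : ℕ, ∃ m' : ℕ, m' ≤ m ∧ ∃ len : Fin m' → ℕ, ∃ v : Fin m' → ℕ → ℝ × ℝ,
        ({p : ℝ × ℝ | p ∈ P ∧ ∀ j : Fin m', ∀ s : ℕ, s < len j → v j s ≠ p}.ncard : ℝ)
          ≤ (1 - δ) ^ m * P.card ∧
        (∀ i j : Fin m', ∀ s t : ℕ, s < len i → t < len j → v i s = v j t → i = j) ∧
        ∀ j : Fin m',
          1 ≤ len j ∧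
          (∀ s : ℕ, s < len j → v j s ∈ P) ∧
          (∀ s t : ℕ, s < len j → t < len j → v j s = v j t → s = t) ∧
          (∃ c : Fin k, ∀ s : ℕ, s + 1 < len j → col (v j s) (v j (s + 1)) = c) ∧
          (∀ s t : ℕ, s + 1 < len j → t + 1 < len j → s + 1 < t →
            Disjoint (segment ℝ (v j s) (v j (s + 1)))
              (segment ℝ (v j t) (v j (t + 1)))) := by
  intro k hk
  obtain ⟨δ, hδ, hδ1, H⟩ := all_greedy k hk
  refine ⟨δ, hδ, hδ1, fun P hP col hcol m => ?_⟩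
  obtain ⟨L, hm, hmono, hdis, hcard⟩ := H P col hP hcol m
  refine ⟨L.length, hm, fun j => L[j].length, fun j => seqOf L[j], ?_, ?_, ?_⟩
  · refine le_trans (le_of_eq ?_) hcard
    rw [← Set.ncard_coe_finset]
    congr 2
    ext p
    simp only [Set.mem_setOf_eq, Finset.coe_filter]
    refine and_congr_right fun _ => ⟨fun h l hl hp => ?_, fun h j s hs e => ?_⟩
    · obtain ⟨i, hi, rfl⟩ := List.getElem_of_mem hl
      obtain ⟨s, hs, e⟩ := exists_seqOf hp
      exact h ⟨i, hi⟩ s hs e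
    · exact h L[j] (List.getElem_mem j.2) (e ▸ seqOf_mem hs)
  · intro i j s t hs ht e
    replace e : seqOf L[i] s = seqOf L[j] t := e
    rw [List.pairwise_iff_getElem] at hdis
    rcases lt_trichotomy i j with h | h | h
    · exact absurd (e ▸ seqOf_mem ht) (hdis i j i.2 j.2 h _ (seqOf_mem hs))
    · exact h
    · exact absurd (e.symm ▸ seqOf_mem hs) (hdis j i j.2 i.2 h _ (seqOf_mem ht))
  · intro j
    exact seqOf_mono (hmono L[j] (List.getElem_mem j.2))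

end Pool.Agent.Lib.MP_992c01_co.AlmostCover
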