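import Pool.Agent.Lib.MP_992c01_co.Proc

set_option autoImplicit false

namespace Pool.Agent.Lib.MP_992c01_co

/-- The line through `p` and `q` has points of `S` strictly on both sides. -/
def Crosses (p q : Pt) (S : Finset Pt) : Prop :=
  ∃ x ∈ S, ∃ y ∈ S, orient p q x < 0 ∧ 0 < orient p q y

/-- The pairs of `A` (first point nearer to `x = c`) whose line crosses `B`. -/
noncomputable def ZS (c : ℝ) (A B : Finset Pt) : Finset (Pt × Pt) := by
  classical exact (A ×ˢ A).filter (fun q => |q.1.1 - c| < |q.2.1 - c| ∧ Crosses q.1 q.2 B)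

/-- Their number. -/
noncomputable def Z (c : ℝ) (A B : Finset Pt) : ℕ := (ZS c A B).card

theorem mem_ZS {c : ℝ} {A B : Finset Pt} {q : Pt × Pt} :
    q ∈ ZS c A B ↔ (q.1 ∈ A ∧ q.2 ∈ A) ∧ |q.1.1 - c| < |q.2.1 - c| ∧ Crosses q.1 q.2 B := by
  classical
  unfold ZS
  simp [Finset.mem_filter, Finset.mem_product]

theorem crosses_of_mul_neg {p q x y : Pt} {S : Finset Pt} (hx : x ∈ S) (hy : y ∈ S)
    (h : orient p q x * orient p q y < 0) : Crosses p q S := by
  rcases mul_neg_iff.mp h with h | h
  · exact ⟨y, hy, x, hx, h.2, h.1⟩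
  · exact ⟨x, hx, y, hy, h.1, h.2⟩

section
variable {c : ℝ} {A B : Finset Pt} {N : ℕ} {ev : ℕ → Pt × Pt}

theorem Setup.memV (S : Setup c A B N ev) {i : Pt} (hi : i ∈ A ∨ i ∈ B) {n : ℕ} (hn : n ≤ N) :
    P ev n i ∈ A ∨ P ev n i ∈ B := by
  classical
  have h := P_mem (V := A ∪ B) (N := N) (ev := ev)
    (fun n hn => ⟨Finset.mem_union_left _ (S.mA n hn), Finset.mem_union_right _ (S.mB n hn)⟩)
    (i := i) (by simpa [Finset.mem_union] using hi) n hn
  simpa [Finset.mem_union] using h

theorem Setup.chg_mem (S : Setup c A B N ev) {s : ℕ} (hs : s < N) {i v p : Pt} {r r' : ℕ}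
    (h : Chg c A B ev s i v p r r') : (v, p) ∈ ZS c A B ∨ (v, p) ∈ ZS c B A := by
  have hpm : p ∈ A ∨ p ∈ B := by
    rcases h.cur with ⟨b1, b2⟩ | ⟨b1, b2⟩
    · rw [b2]; exact Or.inr (S.mB s hs)
    · rw [b2]; exact Or.inl (S.mA s hs)
  have hvm : v ∈ A ∨ v ∈ B := by
    have hr : r < N := by have := h.rr'; have := h.r's; omega
    have := (S.mv_data hr h.mr).2.2.2.2
    rwa [h.vr] at this
  obtain ⟨x, y, hx, hy, ox, oy, hxy⟩ := h.crs
  rcases h.same with hs' | hs'
  · left
    have hvA : v ∈ A := by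
      rcases hvm with h1 | h1
      · exact h1
      · exact absurd (S.hB v h1) (by linarith [hs'.1])
    have hpA : p ∈ A := by
      rcases hpm with h1 | h1
      · exact h1
      · exact absurd (S.hB p h1) (by linarith [hs'.2])
    have hxB : x ∈ B := by
      rcases hx with h1 | h1
      · exfalso; have := S.hA x h1; rcases ox with h2 | h2 <;> linarith [h2.1, h2.2, hs'.1]
      · exact h1
    have hyB : y ∈ B := by
      rcases hy with h1 | h1
      · exfalso; have := S.hA y h1; rcases oy with h2 | h2 <;> linarith [h2.1, h2.2, hs'.1]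
      · exact h1
    exact mem_ZS.mpr ⟨⟨hvA, hpA⟩, h.dist, crosses_of_mul_neg hxB hyB hxy⟩
  · right
    have hvB : v ∈ B := by
      rcases hvm with h1 | h1
      · exact absurd (S.hA v h1) (by linarith [hs'.1])
      · exact h1
    have hpB : p ∈ B := by
      rcases hpm with h1 | h1
      · exact absurd (S.hA p h1) (by linarith [hs'.2])
      · exact h1
    have hxA : x ∈ A := by
      rcases hx with h1 | h1
      · exact h1
      · exfalso; have := S.hB x h1; rcases ox with h2 | h2 <;> linarith [h2.1, h2.2, hs'.1]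
    have hyA : y ∈ A := by
      rcases hy with h1 | h1
      · exact h1
      · exfalso; have := S.hB y h1; rcases oy with h2 | h2 <;> linarith [h2.1, h2.2, hs'.1]
    exact mem_ZS.mpr ⟨⟨hvB, hpB⟩, h.dist, crosses_of_mul_neg hxA hyA hxy⟩

/-- The number of blocked events. -/
theorem Setup.blocked_card [DecidablePred (fun n => ¬ Al ev n)] (S : Setup c A B N ev) :
    ((Finset.range N).filter (fun n => ¬ Al ev n)).card ≤ Z c A B + Z c B A := by
  classical
  have hch : ∀ s : ℕ, s < N → ¬ Al ev s → ∃ q : Pt × Pt, ∃ i r r', Chg c A B ev s i q.1 q.2 r r' := by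
    intro s h1 h2
    obtain ⟨i, v, p, r, r', h⟩ := S.charge h1 h2
    exact ⟨(v, p), i, r, r', h⟩
  choose f hf using hch
  let g : ℕ → Pt × Pt := fun s => if h : s < N ∧ ¬ Al ev s then f s h.1 h.2 else ((0, 0), (0, 0))
  have hg : ∀ s (h1 : s < N) (h2 : ¬ Al ev s), g s = f s h1 h2 := by
    intro s h1 h2
    simp only [g]
    rw [dif_pos ⟨h1, h2⟩]
  calc ((Finset.range N).filter (fun n => ¬ Al ev n)).card
      ≤ (ZS c A B ∪ ZS c B A).card := by
        refine Finset.card_le_card_of_injOn g ?_ ?_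
        · intro s hs
          have hs' := Finset.mem_filter.mp (Finset.mem_coe.mp hs)
          have h1 := Finset.mem_range.mp hs'.1
          rw [hg s h1 hs'.2]
          obtain ⟨i, r, r', h⟩ := hf s h1 hs'.2
          have := S.chg_mem h1 h
          rw [Finset.mem_coe, Finset.mem_union]
          exact this
        · intro s hs t ht' hst
          have hs' := Finset.mem_filter.mp (Finset.mem_coe.mp hs)
          have ht'' := Finset.mem_filter.mp (Finset.mem_coe.mp ht')
          have h1 := Finset.mem_range.mp hs'.1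
          have h2 := Finset.mem_range.mp ht''.1
          rw [hg s h1 hs'.2, hg t h2 ht''.2] at hst
          obtain ⟨i, r, r', h⟩ := hf s h1 hs'.2
          obtain ⟨j, q, q', h'⟩ := hf t h2 ht''.2
          by_contra hne
          rcases lt_or_gt_of_ne hne with hlt | hlt
          · rw [hst] at h
            exact S.charge_inj hlt h2 hs'.2 h h'
          · rw [← hst] at h'
            exact S.charge_inj hlt h1 ht''.2 h' h
    _ ≤ Z c A B + Z c B A := Finset.card_union_le _ _

/-- the position map is onto. -/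
theorem Setup.surj (S : Setup c A B N ev) {n : ℕ} (hn : n ≤ N) {x : Pt} (hx : x ∈ A ∨ x ∈ B) :
    ∃ i, (i ∈ A ∨ i ∈ B) ∧ P ev n i = x := by
  classical
  have h1 : (A ∪ B).image (P ev n) ⊆ A ∪ B := by
    intro y hy
    obtain ⟨i, hi, rfl⟩ := Finset.mem_image.mp hy
    have := S.memV (i := i) (by simpa [Finset.mem_union] using hi) hn
    simpa [Finset.mem_union] using this
  have h2 : (A ∪ B).image (P ev n) = A ∪ B := by
    refine Finset.eq_of_subset_of_card_le h1 ?_
    rw [Finset.card_image_of_injective _ (P_inj n)]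
  have h3 : x ∈ (A ∪ B).image (P ev n) := by
    rw [h2]; simpa [Finset.mem_union] using hx
  obtain ⟨i, hi, h4⟩ := Finset.mem_image.mp h3
  exact ⟨i, by simpa [Finset.mem_union] using hi, h4⟩

/-- some pedestrian moves often. -/
theorem Setup.exists_ped (S : Setup c A B N ev) (hne : (A ∪ B).Nonempty) :
    ∃ i, (i ∈ A ∨ i ∈ B) ∧ ∃ M : Finset ℕ, (∀ n, n ∈ M ↔ n < N ∧ Mv ev i n) ∧
      2 * N ≤ M.card * (A.card + B.card) + 2 * (Z c A B + Z c B A) := by
  classical
  let M : Pt → Finset ℕ := fun i => (Finset.range N).filter (fun n => Mv ev i n)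
  obtain ⟨i, hi, himax⟩ := Finset.exists_max_image (A ∪ B) (fun i => (M i).card) hne
  refine ⟨i, by simpa [Finset.mem_union] using hi, M i, ?_, ?_⟩
  · intro n; simp [M, Finset.mem_filter, Finset.mem_range]
  · set K := ((Finset.range N).filter (fun n => Al ev n)).card with hK
    have hsplit : K + ((Finset.range N).filter (fun n => ¬ Al ev n)).card = N := by
      rw [hK, Finset.card_filter_add_card_filter_not, Finset.card_range]
    have hbl := S.blocked_card
    have hdc : 2 * K ≤ ∑ i ∈ A ∪ B, (M i).card := by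
      have e1 : ∑ i ∈ A ∪ B, (M i).card
          = ∑ n ∈ Finset.range N, ((A ∪ B).filter (fun i => Mv ev i n)).card := by
        simp only [M, Finset.card_filter]
        exact Finset.sum_comm
      rw [e1]
      calc 2 * K = ∑ n ∈ (Finset.range N).filter (fun n => Al ev n), 2 := by
            rw [Finset.sum_const, smul_eq_mul, hK, mul_comm]
        _ ≤ ∑ n ∈ (Finset.range N).filter (fun n => Al ev n),
              ((A ∪ B).filter (fun i => Mv ev i n)).card := by
            refine Finset.sum_le_sum ?_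
            intro n hn
            have hn' := Finset.mem_filter.mp hn
            have hnN := Finset.mem_range.mp hn'.1
            obtain ⟨i1, hi1, he1⟩ := S.surj hnN.le (Or.inl (S.mA n hnN))
            obtain ⟨i2, hi2, he2⟩ := S.surj hnN.le (Or.inr (S.mB n hnN))
            have hne' : i1 ≠ i2 := by
              rintro rfl
              have := he1.symm.trans he2
              exact (S.opp hnN).ne this
            have hsub : ({i1, i2} : Finset Pt) ⊆ (A ∪ B).filter (fun i => Mv ev i n) := by
              intro x hx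
              rw [Finset.mem_insert, Finset.mem_singleton] at hx
              rw [Finset.mem_filter, Finset.mem_union]
              rcases hx with rfl | rfl
              · exact ⟨hi1, hn'.2, Or.inl he1⟩
              · exact ⟨hi2, hn'.2, Or.inr he2⟩
            calc 2 = ({i1, i2} : Finset Pt).card := (Finset.card_pair hne').symm
              _ ≤ _ := Finset.card_le_card hsub
        _ ≤ _ := Finset.sum_le_sum_of_subset (Finset.filter_subset _ _)
    have hmx : ∑ i ∈ A ∪ B, (M i).card ≤ (A ∪ B).card * (M i).card := by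
      calc ∑ i ∈ A ∪ B, (M i).card ≤ ∑ _j ∈ A ∪ B, (M i).card :=
            Finset.sum_le_sum (fun j hj => himax j hj)
        _ = _ := by rw [Finset.sum_const, smul_eq_mul]
    have hcu : (A ∪ B).card ≤ A.card + B.card := Finset.card_union_le _ _
    have : (A ∪ B).card * (M i).card ≤ (M i).card * (A.card + B.card) := by
      rw [mul_comm]; exact Nat.mul_le_mul_left _ hcu
    omega

/-- The path of a pedestrian is a noncrossing path. -/
theorem Setup.path (S : Setup c A B N ev) {i : Pt} (hi : i ∈ A ∨ i ∈ B) {M : Finset ℕ}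
    (hM : ∀ n, n ∈ M ↔ n < N ∧ Mv ev i n) :
    ∃ v : ℕ → Pt, (∀ s ≤ M.card, v s ∈ A ∨ v s ∈ B) ∧
      (∀ s ≤ M.card, ∀ t ≤ M.card, v s = v t → s = t) ∧
      (∀ s < M.card, ∃ n < N, ev n = (v s, v (s + 1)) ∨ ev n = (v (s + 1), v s)) ∧
      (∀ s t, s < M.card → t < M.card → s + 1 < t →
        Disjoint (segment ℝ (v s) (v (s + 1))) (segment ℝ (v t) (v (t + 1)))) := by
  classical
  set m := M.card with hm
  let r : ℕ → ℕ := fun j => if h : j < m then M.orderEmbOfFin hm.symm ⟨j, h⟩ else N
  have r_lt : ∀ j (h : j < m), r j = M.orderEmbOfFin hm.symm ⟨j, h⟩ := fun j h => by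
    simp only [r]; rw [dif_pos h]
  have r_ge : ∀ j, m ≤ j → r j = N := fun j h => by
    simp only [r]; rw [dif_neg (by omega)]
  have r_mem : ∀ j, j < m → r j ∈ M := fun j h => by
    rw [r_lt j h]; exact Finset.orderEmbOfFin_mem _ _ _
  have r_mv : ∀ j, j < m → r j < N ∧ Mv ev i (r j) := fun j h => (hM _).mp (r_mem j h)
  have r_mono : ∀ j l, j < l → l < m → r j < r l := fun j l h1 h2 => by
    rw [r_lt j (by omega), r_lt l h2]
    exact (M.orderEmbOfFin hm.symm).strictMono (by simpa using h1)
  have r_surj : ∀ u ∈ M, ∃ l, l < m ∧ r l = u := fun u hu => by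
    have : u ∈ Set.range (M.orderEmbOfFin hm.symm) := by
      rw [Finset.range_orderEmbOfFin]; exact hu
    obtain ⟨⟨l, hl⟩, h⟩ := this
    exact ⟨l, hl, by rw [r_lt l hl]; exact h⟩
  have r_mono_le : ∀ j l, j ≤ l → l < m → r j ≤ r l := fun j l h1 h2 => by
    rcases lt_or_eq_of_le h1 with h | h
    · exact (r_mono j l h h2).le
    · rw [h]
  have gap : ∀ j, j < m → ∀ u, r j < u → u < r (j + 1) → ¬ Mv ev i u := by
    intro j hj u hu1 hu2 hu3
    have huN : u < N := by
      by_cases h : j + 1 < m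
      · exact lt_trans hu2 (r_mv _ h).1
      · rwa [r_ge (j + 1) (by omega)] at hu2
    obtain ⟨l, hl, hlu⟩ := r_surj u ((hM u).mpr ⟨huN, hu3⟩)
    have h1 : j < l := by
      by_contra h
      have := r_mono_le l j (by omega) hj
      omega
    by_cases h : j + 1 < m
    · have := r_mono_le (j + 1) l (by omega) hl
      omega
    · omega
  have gap0 : ∀ u, u < r 0 → ¬ Mv ev i u := by
    intro u hu1 hu3
    have huN : u < N := by
      by_cases h : 0 < m
      · exact lt_trans hu1 (r_mv _ h).1
      · rwa [r_ge 0 (by omega)] at hu1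
    obtain ⟨l, hl, hlu⟩ := r_surj u ((hM u).mpr ⟨huN, hu3⟩)
    have := r_mono_le 0 l (by omega) hl
    omega
  have r_succ : ∀ j, j < m → r j < r (j + 1) := by
    intro j hj
    by_cases h : j + 1 < m
    · exact r_mono _ _ (by omega) h
    · rw [r_ge (j + 1) (by omega)]; exact (r_mv j hj).1
  let v : ℕ → Pt := fun j => P ev (r j) i
  have v_succ : ∀ j, j < m → v (j + 1) = P ev (r j + 1) i := by
    intro j hj
    exact P_const (r_succ j hj) (fun u h1 h2 => gap j hj u (by omega) h2)
  have r_le : ∀ j, r j ≤ N := by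
    intro j
    by_cases h : j < m
    · exact (r_mv j h).1.le
    · exact (r_ge j (by omega)).le
  have v_mem : ∀ j, v j ∈ A ∨ v j ∈ B := fun j => S.memV hi (r_le j)
  have dat : ∀ j, j < m → Opp c (v j) (v (j + 1)) ∧
      ht c (ev (r j)).1 (ev (r j)).2 = ht c (v j) (v (j + 1)) ∧
      (∀ p, Bel (ev (r j)).1 (ev (r j)).2 p ↔ Bel (v j) (v (j + 1)) p) := by
    intro j hj
    obtain ⟨h1, h2, h3, _, _⟩ := S.mv_data (r_mv j hj).1 (r_mv j hj).2
    rw [← v_succ j hj] at h1 h2
    refine ⟨h1, h2, ?_⟩
    rw [v_succ j hj]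
    exact h3
  have evd : ∀ j, j < m → (v j = (ev (r j)).1 ∧ v (j + 1) = (ev (r j)).2) ∨
      (v j = (ev (r j)).2 ∧ v (j + 1) = (ev (r j)).1) := by
    intro j hj
    rw [v_succ j hj]
    exact P_succ_mv (r_mv j hj).2
  have nb : ∀ j l, j < m → j ≤ l → l ≤ m → ¬ Bel (v j) (v (j + 1)) (v l) := by
    intro j l hj hjl hl
    rcases Nat.lt_or_ge j l with h | h
    · rcases Nat.lt_or_ge (j + 1) l with h' | h'
      · obtain ⟨l', rfl⟩ : ∃ l', l = l' + 1 := ⟨l - 1, by omega⟩
        rw [v_succ l' (by omega), ← (dat j hj).2.2]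
        exact dest_not_bel (r_mono j l' (by omega) (by omega)) (r_mv j hj).2
          (r_mv l' (by omega)).2
      · have : l = j + 1 := by omega
        rw [this]; exact not_Bel_right _ _
    · have : l = j := by omega
      rw [this]; exact not_Bel_left _ _
  have ne2 : ∀ j, j + 1 < m → v (j + 2) ≠ v j := by
    intro j hj he
    have hev : ev (r j) = ev (r (j + 1)) := by
      rcases evd j (by omega) with ⟨a1, a2⟩ | ⟨a1, a2⟩
      · rcases evd (j + 1) hj with ⟨a3, a4⟩ | ⟨a3, a4⟩
        · exfalso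
          have k1 := S.hB _ (S.mB _ (r_mv j (by omega)).1)
          have k2 := S.hA _ (S.mA _ (r_mv (j + 1) hj).1)
          rw [← a2] at k1; rw [← a3] at k2; linarith
        · exact Prod.ext (a1.symm.trans (he.symm.trans a4)) (a2.symm.trans a3)
      · rcases evd (j + 1) hj with ⟨a3, a4⟩ | ⟨a3, a4⟩
        · exact Prod.ext (a2.symm.trans a3) (a1.symm.trans (he.symm.trans a4))
        · exfalso
          have k1 := S.hA _ (S.mA _ (r_mv j (by omega)).1)
          have k2 := S.hB _ (S.mB _ (r_mv (j + 1) hj).1)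
          rw [← a2] at k1; rw [← a3] at k2; linarith
    have := S.inj _ (r_mv j (by omega)).1 _ (r_mv (j + 1) hj).1 hev
    have := r_succ j (by omega)
    omega
  have ne : ∀ j l, j < l → l ≤ m → v j ≠ v l := by
    intro j l hjl hl
    rcases Nat.lt_or_ge (j + 1) l with h | h
    · rcases Nat.lt_or_ge (j + 2) l with h' | h'
      · intro he
        have d1 := dat j (by omega)
        have d2 := dat (j + 1) (by omega)
        have hmono := S.mono (r j) (r (j + 1)) (r_succ j (by omega)).le (r_mv (j + 1) (by omega)).1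
        rw [d1.2.1, d2.2.1, ht_symm c (v j)] at hmono
        have hb : Bel (v (j + 1)) (v (j + 1 + 1)) (v j) := by
          refine Bel_of_ht_le d1.1.symm d2.1 ?_ hmono
          exact S.gp _ (v_mem _) _ (v_mem _) _ (v_mem _) d2.1.ne d1.1.symm.ne (ne2 j (by omega))
        rw [he] at hb
        exact nb (j + 1) l (by omega) (by omega) hl hb
      · have : l = j + 2 := by omega
        rw [this]; exact (ne2 j (by omega)).symm
    · have : l = j + 1 := by omega
      rw [this]; exact (dat j (by omega)).1.ne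
  refine ⟨v, fun s _ => v_mem s, ?_, ?_, ?_⟩
  · intro s hs t ht' he
    rcases lt_trichotomy s t with h | h | h
    · exact absurd he (ne s t h ht')
    · exact h
    · exact absurd he.symm (ne t s h hs)
  · intro s hs
    refine ⟨r s, (r_mv s hs).1, ?_⟩
    rcases evd s hs with ⟨a1, a2⟩ | ⟨a1, a2⟩
    · left; exact Prod.ext a1.symm a2.symm
    · right; exact Prod.ext a2.symm a1.symm
  · intro s t hs ht' hst
    have key : ∀ l, s + 1 < l → l ≤ m → Abv (v s) (v (s + 1)) (v l) := by
      intro l h1 h2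
      refine Abv_of_not_Bel (dat s hs).1.ne1 ?_ (nb s l hs (by omega) h2)
      exact S.gp _ (v_mem _) _ (v_mem _) _ (v_mem _) (dat s hs).1.ne (ne s l (by omega) h2)
        (ne (s + 1) l h1 h2)
    exact (disjoint_seg (key t hst ht'.le) (key (t + 1) (by omega) (by omega))).symm

end

/-- **Core lemma.** -/
theorem core (c : ℝ) (A B : Finset Pt) (hA : ∀ a ∈ A, a.1 < c) (hB : ∀ b ∈ B, c < b.1)
    (hne : (A ∪ B).Nonempty)
    (gp : ∀ x ∈ A ∪ B, ∀ y ∈ A ∪ B, ∀ z ∈ A ∪ B, x ≠ y → x ≠ z → y ≠ z → orient x y z ≠ 0)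
    (E : Finset (Pt × Pt)) (hE : E ⊆ A ×ˢ B) :
    ∃ (m : ℕ) (v : ℕ → Pt), (∀ s ≤ m, v s ∈ A ∪ B) ∧
      (∀ s ≤ m, ∀ t ≤ m, v s = v t → s = t) ∧
      (∀ s < m, (v s, v (s + 1)) ∈ E ∨ (v (s + 1), v s) ∈ E) ∧
      (∀ s t, s < m → t < m → s + 1 < t →
        Disjoint (segment ℝ (v s) (v (s + 1))) (segment ℝ (v t) (v (t + 1)))) ∧
      2 * E.card ≤ m * (A.card + B.card) + 2 * (Z c A B + Z c B A) := by
  classical
  let N := E.card
  let f : Fin N → Pt × Pt := fun i => (E.equivFin.symm i : Pt × Pt)
  have hfE : ∀ i, f i ∈ E := fun i => (E.equivFin.symm i).2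
  have hfinj : Function.Injective f := fun i j h =>
    E.equivFin.symm.injective (Subtype.ext h)
  let σ := Tuple.sort (fun i => ht c (f i).1 (f i).2)
  have hσ := Tuple.monotone_sort (fun i => ht c (f i).1 (f i).2)
  let ev : ℕ → Pt × Pt := fun n => if h : n < N then f (σ ⟨n, h⟩) else ((0, 0), (0, 0))
  have hev : ∀ n (h : n < N), ev n = f (σ ⟨n, h⟩) := fun n h => by
    simp only [ev]; rw [dif_pos h]
  have hevE : ∀ n, n < N → ev n ∈ E := fun n h => by rw [hev n h]; exact hfE _
  have S : Setup c A B N ev := by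
    refine ⟨hA, hB, ?_, ?_, ?_, ?_, ?_⟩
    · intro x hx y hy z hz
      exact gp x (by simpa [Finset.mem_union] using hx) y (by simpa [Finset.mem_union] using hy) z
        (by simpa [Finset.mem_union] using hz)
    · intro n hn; exact (Finset.mem_product.mp (hE (hevE n hn))).1
    · intro n hn; exact (Finset.mem_product.mp (hE (hevE n hn))).2
    · intro m hm n hn h
      rw [hev m hm, hev n hn] at h
      have := σ.injective (hfinj h)
      simpa using this
    · intro m n hmn hn
      rw [hev m (by omega), hev n hn]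
      exact hσ (by simpa using hmn)
  obtain ⟨i, hi, M, hM, hcard⟩ := S.exists_ped hne
  obtain ⟨v, h1, h2, h3, h4⟩ := S.path hi hM
  refine ⟨M.card, v, ?_, h2, ?_, h4, hcard⟩
  · intro s hs
    rw [Finset.mem_union]; exact h1 s hs
  · intro s hs
    obtain ⟨n, hn, h⟩ := h3 s hs
    rcases h with h | h
    · left; rw [← h]; exact hevE n hn
    · right; rw [← h]; exact hevE n hn

end Pool.Agent.Lib.MP_992c01_co
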