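import Pool.Agent.Lib.MP_992c01_co.Lin

set_option autoImplicit false

/-! # MP_992c01_co : partition into logarithmically many noncrossing monochromatic paths -/

namespace Pool.Agent.Lib.MP_992c01_co

/-- The vertices of a path. -/
noncomputable def verts (π : ℕ × (ℕ → Pt)) : Finset Pt := by
  classical exact (Finset.range π.1).image π.2

theorem mem_verts {π : ℕ × (ℕ → Pt)} {p : Pt} : p ∈ verts π ↔ ∃ s < π.1, π.2 s = p := by
  classical
  unfold verts
  simp [Finset.mem_image]

theorem cover_seq {k K : ℕ} (hK : 1 ≤ K) (col : Pt → Pt → Fin k)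
    (H : ∀ P : Finset Pt, GP P → P.Nonempty → ∃ len v, Good P col len v ∧ P.card ≤ K * len) :
    ∀ (n : ℕ) (P : Finset Pt), P.card = n → GP P → P.Nonempty →
    ∃ (m : ℕ) (π : ℕ → ℕ × (ℕ → Pt)), (m : ℝ) ≤ 1 + K * Real.log n ∧
      (∀ j < m, Good P col (π j).1 (π j).2) ∧ (∀ p ∈ P, ∃ j < m, p ∈ verts (π j)) ∧
      (∀ i j, i < j → j < m → Disjoint (verts (π i)) (verts (π j))) ∧
      ∀ j < m, P.card ≤ ∑ i ∈ Finset.range j, (π i).1 + K * (π j).1 := by
  classical
  intro n
  induction n using Nat.strong_induction_on with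
  | _ n ih =>
    intro P hn gp hne
    obtain ⟨len, v, hv, hlen⟩ := H P gp hne
    have hsub : verts (len, v) ⊆ P := by
      intro p hp
      obtain ⟨s, hs, rfl⟩ := mem_verts.mp hp
      exact hv.2.1 s hs
    have hcard : (verts (len, v)).card = len := by
      unfold verts
      rw [Finset.card_image_of_injOn, Finset.card_range]
      intro a ha b hb h
      exact hv.2.2.1 a b (Finset.mem_range.mp ha) (Finset.mem_range.mp hb) h
    have hKR : (1:ℝ) ≤ K := by exact_mod_cast hK
    have hn1 : 1 ≤ n := by rw [← hn]; exact Finset.card_pos.mpr hne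
    rcases (P \ verts (len, v)).eq_empty_or_nonempty with h0 | h0
    · refine ⟨1, fun _ => (len, v), ?_, ?_, ?_, ?_, ?_⟩
      · have : 0 ≤ Real.log n := Real.log_nonneg (by exact_mod_cast hn1)
        have := mul_nonneg (by linarith : (0:ℝ) ≤ K) this
        simp only [Nat.cast_one]; linarith
      · intro j _; exact hv
      · intro p hp
        refine ⟨0, by omega, ?_⟩
        by_contra h
        have : p ∈ P \ verts (len, v) := Finset.mem_sdiff.mpr ⟨hp, h⟩
        rw [h0] at this; simp at this
      · intro i j h1 h2; omega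
      · intro j hj
        have : j = 0 := by omega
        rw [this]; simpa using hlen
    · have hc' : (P \ verts (len, v)).card = n - len := by
        rw [Finset.card_sdiff_of_subset hsub, hn, hcard]
      have hpos : 0 < n - len := by rw [← hc']; exact Finset.card_pos.mpr h0
      have hlen1 := hv.1
      obtain ⟨m, π, l1, l2, l3, l4, l5⟩ :=
        ih (n - len) (by omega) _ hc' (gp.mono Finset.sdiff_subset) h0
      let ρ : ℕ → ℕ × (ℕ → Pt) := fun j => if j = 0 then (len, v) else π (j - 1)
      have ρ0 : ρ 0 = (len, v) := rfl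
      have ρs : ∀ j, ρ (j + 1) = π j := fun j => by
        simp only [ρ]; rw [if_neg (by omega), Nat.add_sub_cancel]
      refine ⟨m + 1, ρ, ?_, ?_, ?_, ?_, ?_⟩
      · have e1 : ((n - len : ℕ) : ℝ) = n - len := by
          rw [Nat.cast_sub (by omega)]
        have hnR : (0:ℝ) < n := by exact_mod_cast hn1
        have e2 : (n:ℝ) ≤ K * len := by rw [hn] at hlen; exact_mod_cast hlen
        have e3 : Real.log ((n - len : ℕ) : ℝ) ≤ Real.log n - 1 / K := by
          have hp : (0:ℝ) < ((n - len : ℕ) : ℝ) := by exact_mod_cast hpos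
          have e4 : ((n - len : ℕ) : ℝ) / n ≤ 1 - 1 / K := by
            rw [e1, div_le_iff₀ hnR]
            have : (n:ℝ) / K ≤ len := by
              rw [div_le_iff₀ (by linarith)]; linarith
            have e5 : (1 - 1 / (K:ℝ)) * n = n - n / K := by ring
            rw [e5]; linarith
          have e6 : Real.log (((n - len : ℕ) : ℝ) / n) ≤ ((n - len : ℕ) : ℝ) / n - 1 :=
            Real.log_le_sub_one_of_pos (div_pos hp hnR)
          rw [Real.log_div hp.ne' hnR.ne'] at e6
          linarith
        have e7 : K * Real.log ((n - len : ℕ) : ℝ) ≤ K * Real.log n - 1 := by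
          have := mul_le_mul_of_nonneg_left e3 (by linarith : (0:ℝ) ≤ K)
          have e8 : (K:ℝ) * (Real.log n - 1 / K) = K * Real.log n - 1 := by
            field_simp
          linarith
        push_cast
        linarith
      · intro j hj
        rcases Nat.eq_zero_or_pos j with h | h
        · rw [h, ρ0]; exact hv
        · obtain ⟨i, rfl⟩ : ∃ i, j = i + 1 := ⟨j - 1, by omega⟩
          rw [ρs]; exact (l2 i (by omega)).mono Finset.sdiff_subset
      · intro p hp
        by_cases h : p ∈ verts (len, v)
        · exact ⟨0, by omega, by rw [ρ0]; exact h⟩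
        · obtain ⟨j, hj, h'⟩ := l3 p (Finset.mem_sdiff.mpr ⟨hp, h⟩)
          exact ⟨j + 1, by omega, by rw [ρs]; exact h'⟩
      · intro i j hij hj
        obtain ⟨j', rfl⟩ : ∃ j', j = j' + 1 := ⟨j - 1, by omega⟩
        rw [ρs]
        rcases Nat.eq_zero_or_pos i with h | h
        · rw [h, ρ0, Finset.disjoint_left]
          intro p hp hp'
          obtain ⟨s, hs, rfl⟩ := mem_verts.mp hp'
          exact (Finset.mem_sdiff.mp ((l2 j' (by omega)).2.1 s hs)).2 hp
        · obtain ⟨i', rfl⟩ : ∃ i', i = i' + 1 := ⟨i - 1, by omega⟩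
          rw [ρs]
          exact l4 i' j' (by omega) (by omega)
      · intro j hj
        rcases Nat.eq_zero_or_pos j with h | h
        · rw [h, ρ0]; simpa using hlen
        · obtain ⟨i, rfl⟩ : ∃ i, j = i + 1 := ⟨j - 1, by omega⟩
          rw [Finset.sum_range_succ', ρs, ρ0]
          simp only [ρs]
          have := l5 i (by omega)
          rw [hc'] at this
          show P.card ≤ ∑ i ∈ Finset.range i, (π i).1 + len + K * (π i).1
          omega

end Pool.Agent.Lib.MP_992c01_co
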