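import Pool.Agent.Lib.MP_992c01_co.All

set_option autoImplicit false

namespace Pool.Agent.Lib.MP_992c01_co.FractionalCover42

open Pool.MP_992c01_co.NC

/-- Fractional version of Q1: for every number `k` of colours the vertices of every `k`-coloured
complete geometric graph have a fractional cover by noncrossing monochromatic paths of total weight
at most `C`, a constant depending only on `k`. -/
theorem result :
    ∀ k : ℕ, 1 ≤ k → ∃ C : ℝ, ∀ (P : Finset (ℝ × ℝ)),
      (∀ a ∈ P, ∀ b ∈ P, ∀ c ∈ P, a ≠ b → a ≠ c → b ≠ c →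
        (b.1 - a.1) * (c.2 - a.2) - (b.2 - a.2) * (c.1 - a.1) ≠ 0) →
      ∀ col : ℝ × ℝ → ℝ × ℝ → Fin k, (∀ x y, col x y = col y x) →
      ∃ N : ℕ, ∃ len : Fin N → ℕ, ∃ v : Fin N → ℕ → ℝ × ℝ, ∃ lam : Fin N → ℝ,
        (∀ j : Fin N, 0 ≤ lam j) ∧ (∑ j : Fin N, lam j ≤ C) ∧
        (∀ p ∈ P, 1 ≤ ∑ j : Fin N, Set.indicator {i : Fin N | ∃ s : ℕ, s < len i ∧ v i s = p} lam j) ∧
        ∀ j : Fin N,
          1 ≤ len j ∧
          (∀ s : ℕ, s < len j → v j s ∈ P) ∧
          (∀ s t : ℕ, s < len j → t < len j → v j s = v j t → s = t) ∧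
          (∃ c : Fin k, ∀ s : ℕ, s + 1 < len j → col (v j s) (v j (s + 1)) = c) ∧
          (∀ s t : ℕ, s + 1 < len j → t + 1 < len j → s + 1 < t →
            Disjoint (segment ℝ (v j s) (v j (s + 1)))
              (segment ℝ (v j t) (v j (t + 1)))) := by
  intro k hk
  obtain ⟨δ, hδ, H⟩ := all_frac k hk
  refine ⟨1 / δ, fun P hP col hcol => ?_⟩
  rcases P.eq_empty_or_nonempty with rfl | hne
  · refine ⟨0, fun j => j.elim0, fun j => j.elim0, fun j => j.elim0, fun j => j.elim0, ?_, ?_,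
      fun j => j.elim0⟩
    · simp only [Finset.univ_eq_empty, Finset.sum_empty]; positivity
    · intro p hp; simp at hp
  · obtain ⟨N, l, lam, hl, h0, hs, hc⟩ := H P col hP hcol hne
    refine ⟨N, fun j => (l j).length, fun j => seqOf (l j), lam, h0, hs, ?_,
      fun j => seqOf_mono (hl j)⟩
    intro p hp
    refine (hc p hp).trans (le_of_eq ?_)
    rw [Finset.sum_filter]
    refine Finset.sum_congr rfl fun j _ => ?_
    by_cases h : p ∈ l j
    · rw [if_pos h, Set.indicator_of_mem]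
      exact exists_seqOf h
    · rw [if_neg h, Set.indicator_of_notMem]
      rintro ⟨s, hs, rfl⟩
      exact h (seqOf_mem hs)

end Pool.Agent.Lib.MP_992c01_co.FractionalCover42
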