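import Mathlib

set_option autoImplicit false

namespace Pool.Agent.Lib.MP_992c01_co

/-- Points of the plane. -/
abbrev Pt := ℝ × ℝ

/-- Twice the signed area of the triangle `a b c`. -/
def orient (a b c : Pt) : ℝ := (b.1 - a.1) * (c.2 - a.2) - (b.2 - a.2) * (c.1 - a.1)

/-- `r` is strictly below the (non vertical) line through `p` and `q`. -/
def Bel (p q r : Pt) : Prop := orient p q r * (q.1 - p.1) < 0

/-- `r` is strictly above the (non vertical) line through `p` and `q`. -/
def Abv (p q r : Pt) : Prop := 0 < orient p q r * (q.1 - p.1)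

/-- height at `x = c` of the line through `p` and `q`. -/
noncomputable def ht (c : ℝ) (p q : Pt) : ℝ :=
  (p.2 * (q.1 - c) + q.2 * (c - p.1)) / (q.1 - p.1)

theorem orient_swap (a b c : Pt) : orient b a c = - orient a b c := by
  unfold orient; ring

theorem orient_cyc (a b c : Pt) : orient b c a = orient a b c := by
  unfold orient; ring

theorem orient_self_left (a b : Pt) : orient a b a = 0 := by
  unfold orient; ring

theorem orient_self_right (a b : Pt) : orient a b b = 0 := by
  unfold orient; ring

theorem Bel_symm {p q r : Pt} : Bel p q r ↔ Bel q p r := by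
  unfold Bel
  rw [orient_swap p q r]
  constructor <;> intro h <;> nlinarith

theorem Abv_symm {p q r : Pt} : Abv p q r ↔ Abv q p r := by
  unfold Abv
  rw [orient_swap p q r]
  constructor <;> intro h <;> nlinarith

theorem ht_symm (c : ℝ) (p q : Pt) : ht c p q = ht c q p := by
  unfold ht
  rw [← neg_sub p.1 q.1, div_neg, ← neg_div]
  congr 1
  ring

theorem not_Bel_left (p q : Pt) : ¬ Bel p q p := by
  unfold Bel; rw [orient_self_left]; simp

theorem not_Bel_right (p q : Pt) : ¬ Bel p q q := by
  unfold Bel; rw [orient_self_right]; simp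

theorem Abv_of_not_Bel {p q r : Pt} (hx : p.1 ≠ q.1) (ho : orient p q r ≠ 0)
    (h : ¬ Bel p q r) : Abv p q r := by
  unfold Bel at h
  unfold Abv
  have h1 : q.1 - p.1 ≠ 0 := sub_ne_zero.mpr (Ne.symm hx)
  exact lt_of_le_of_ne (not_lt.mp h) (Ne.symm (mul_ne_zero ho h1))

/-- opposite sides of the vertical line `x = c`. -/
def Opp (c : ℝ) (p q : Pt) : Prop := (p.1 < c ∧ c < q.1) ∨ (q.1 < c ∧ c < p.1)

/-- the same strict side of the vertical line `x = c`. -/
def Same (c : ℝ) (p q : Pt) : Prop := (p.1 < c ∧ q.1 < c) ∨ (c < p.1 ∧ c < q.1)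

theorem Opp.symm {c : ℝ} {p q : Pt} (h : Opp c p q) : Opp c q p := by
  unfold Opp at *; tauto

theorem Same.symm {c : ℝ} {p q : Pt} (h : Same c p q) : Same c q p := by
  unfold Same at *; tauto

theorem Opp.ne {c : ℝ} {p q : Pt} (h : Opp c p q) : p ≠ q := by
  rintro rfl
  rcases h with h | h <;> linarith [h.1, h.2]

theorem Opp.ne1 {c : ℝ} {p q : Pt} (h : Opp c p q) : p.1 ≠ q.1 := by
  rcases h with h | h <;> intro h' <;> linarith [h.1, h.2]

theorem ht_sub (c : ℝ) (p q w : Pt) (hq : q.1 ≠ p.1) (hw : w.1 ≠ p.1) :
    (ht c p q - ht c p w) * ((q.1 - p.1) * (w.1 - p.1)) = (c - p.1) * orient p w q := by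
  have h1 : q.1 - p.1 ≠ 0 := sub_ne_zero.mpr hq
  have h2 : w.1 - p.1 ≠ 0 := sub_ne_zero.mpr hw
  unfold ht orient
  field_simp
  ring

/-- pivot lemma: among two points opposite to `p` the lower one is hit first. -/
theorem Bel_iff_ht {c : ℝ} {p q w : Pt} (hq : Opp c p q) (hw : Opp c p w) :
    Bel p w q ↔ ht c p q < ht c p w := by
  have key := ht_sub c p q w hq.ne1.symm hw.ne1.symm
  unfold Bel
  rcases hq with hq | hq
  · rcases hw with hw | hw
    · have a1 : 0 < (q.1 - p.1) * (w.1 - p.1) := mul_pos (by linarith) (by linarith)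
      have a2 : 0 < c - p.1 := by linarith
      have a3 : 0 < w.1 - p.1 := by linarith
      constructor
      · intro h
        have h1 : orient p w q < 0 := by
          by_contra h2; push Not at h2; nlinarith
        by_contra h2; push Not at h2
        have : 0 ≤ (ht c p q - ht c p w) * ((q.1 - p.1) * (w.1 - p.1)) :=
          mul_nonneg (by linarith) a1.le
        nlinarith
      · intro h
        have : (ht c p q - ht c p w) * ((q.1 - p.1) * (w.1 - p.1)) < 0 :=
          mul_neg_of_neg_of_pos (by linarith) a1
        have h1 : orient p w q < 0 := by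
          by_contra h2; push Not at h2; nlinarith
        nlinarith
    · exfalso; linarith [hq.1, hw.2]
  · rcases hw with hw | hw
    · exfalso; linarith [hq.2, hw.1]
    · have a1 : 0 < (q.1 - p.1) * (w.1 - p.1) := mul_pos_of_neg_of_neg (by linarith) (by linarith)
      have a2 : c - p.1 < 0 := by linarith
      have a3 : w.1 - p.1 < 0 := by linarith
      constructor
      · intro h
        have h1 : 0 < orient p w q := by
          by_contra h2; push Not at h2; nlinarith
        by_contra h2; push Not at h2
        have : 0 ≤ (ht c p q - ht c p w) * ((q.1 - p.1) * (w.1 - p.1)) :=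
          mul_nonneg (by linarith) a1.le
        nlinarith
      · intro h
        have : (ht c p q - ht c p w) * ((q.1 - p.1) * (w.1 - p.1)) < 0 :=
          mul_neg_of_neg_of_pos (by linarith) a1
        have h1 : 0 < orient p w q := by
          by_contra h2; push Not at h2; nlinarith
        nlinarith

theorem Bel_of_ht_le {c : ℝ} {p q w : Pt} (hq : Opp c p q) (hw : Opp c p w)
    (ho : orient p w q ≠ 0) (h : ht c p q ≤ ht c p w) : Bel p w q := by
  rcases lt_or_eq_of_le h with h | h
  · exact (Bel_iff_ht hq hw).mpr h
  · exfalso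
    have key := ht_sub c p q w hq.ne1.symm hw.ne1.symm
    rw [h, sub_self, zero_mul] at key
    rcases mul_eq_zero.mp key.symm with h1 | h1
    · rcases hq with hq | hq <;> linarith [hq.1, hq.2]
    · exact ho h1

theorem ht_lt_of_Abv {c : ℝ} {p q w : Pt} (hq : Opp c p q) (hw : Opp c p w)
    (h : Abv p w q) : ht c p w < ht c p q := by
  by_contra h1
  push Not at h1
  have h2 : orient p w q ≠ 0 := by
    intro h3; unfold Abv at h; rw [h3] at h; simp at h
  have h3 := Bel_of_ht_le hq hw h2 h1
  unfold Abv at h; unfold Bel at h3; linarith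

/-- charging geometry: `v`, `b` on the same side, `a1`, `a2` on the other side, the line of the
pedestrian at `v` turns from `a1` to `a2` and `b` goes from below to above. -/
theorem charge_geo {c : ℝ} {v b a1 a2 : Pt} (hs : Same c v b) (h1 : Opp c v a1) (h2 : Opp c v a2)
    (hh : ht c v a1 ≤ ht c v a2) (hb : Bel v a1 b) (ha : Abv v a2 b) :
    |v.1 - c| < |b.1 - c| ∧ ht c v a1 < ht c v b ∧ ht c v b < ht c v a2 ∧
      orient v b a1 * orient v b a2 < 0 := by
  have e1 : orient v b a1 = - orient v a1 b := by unfold orient; ring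
  have e2 : orient v b a2 = - orient v a2 b := by unfold orient; ring
  rcases hs with hs | hs
  · -- left side
    rcases h1 with h1 | h1
    swap
    · exfalso; linarith [h1.1, h1.2, hs.1]
    rcases h2 with h2 | h2
    swap
    · exfalso; linarith [h2.1, h2.2, hs.1]
    have x1 : 0 < a1.1 - v.1 := by linarith
    have x2 : 0 < a2.1 - v.1 := by linarith
    have o1 : orient v a1 b < 0 := by
      unfold Bel at hb; by_contra h; push Not at h; nlinarith
    have o2 : 0 < orient v a2 b := by
      unfold Abv at ha; by_contra h; push Not at h; nlinarith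
    have k0 := ht_sub c v a1 a2 (by linarith) (by linarith)
    have o12 : orient v a2 a1 ≤ 0 := by
      have : (ht c v a1 - ht c v a2) * ((a1.1 - v.1) * (a2.1 - v.1)) ≤ 0 :=
        mul_nonpos_of_nonpos_of_nonneg (by linarith) (mul_nonneg x1.le x2.le)
      by_contra h; push Not at h
      have : 0 < (c - v.1) * orient v a2 a1 := mul_pos (by linarith) h
      linarith
    have hD : b.1 < v.1 := by
      by_contra h; push Not at h
      -- (b.1 - v.1) >= 0
      have i1 : (a2.1 - v.1) * orient v a1 b - (a1.1 - v.1) * orient v a2 b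
          = (b.1 - v.1) * (- orient v a2 a1) + 0 * 0 := by
        unfold orient; ring
      have i2 : 0 ≤ (b.1 - v.1) * (- orient v a2 a1) := mul_nonneg (by linarith) (by linarith)
      have i3 : (a2.1 - v.1) * orient v a1 b < 0 := mul_neg_of_pos_of_neg x2 o1
      have i4 : 0 < (a1.1 - v.1) * orient v a2 b := mul_pos x1 o2
      linarith
    refine ⟨?_, ?_, ?_, ?_⟩
    · rw [abs_of_neg (by linarith), abs_of_neg (by linarith)]; linarith
    · have k1 := ht_sub c v b a1 (by linarith) (by linarith)
      by_contra h; push Not at h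
      have : 0 ≤ (ht c v b - ht c v a1) * ((b.1 - v.1) * (a1.1 - v.1)) :=
        mul_nonneg_of_nonpos_of_nonpos (by linarith)
          (mul_nonpos_of_nonpos_of_nonneg (by linarith) x1.le)
      have : (c - v.1) * orient v a1 b < 0 := mul_neg_of_pos_of_neg (by linarith) o1
      linarith
    · have k1 := ht_sub c v b a2 (by linarith) (by linarith)
      by_contra h; push Not at h
      have : (ht c v b - ht c v a2) * ((b.1 - v.1) * (a2.1 - v.1)) ≤ 0 :=
        mul_nonpos_of_nonneg_of_nonpos (by linarith)
          (mul_nonpos_of_nonpos_of_nonneg (by linarith) x2.le)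
      have : 0 < (c - v.1) * orient v a2 b := mul_pos (by linarith) o2
      linarith
    · rw [e1, e2]; nlinarith
  · -- right side
    rcases h1 with h1 | h1
    · exfalso; linarith [h1.1, h1.2, hs.1]
    rcases h2 with h2 | h2
    · exfalso; linarith [h2.1, h2.2, hs.1]
    have x1 : a1.1 - v.1 < 0 := by linarith
    have x2 : a2.1 - v.1 < 0 := by linarith
    have o1 : 0 < orient v a1 b := by
      unfold Bel at hb; by_contra h; push Not at h; nlinarith
    have o2 : orient v a2 b < 0 := by
      unfold Abv at ha; by_contra h; push Not at h; nlinarith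
    have k0 := ht_sub c v a1 a2 (by linarith) (by linarith)
    have o12 : 0 ≤ orient v a2 a1 := by
      have : (ht c v a1 - ht c v a2) * ((a1.1 - v.1) * (a2.1 - v.1)) ≤ 0 :=
        mul_nonpos_of_nonpos_of_nonneg (by linarith)
          (mul_nonneg_of_nonpos_of_nonpos x1.le x2.le)
      by_contra h; push Not at h
      have : 0 < (c - v.1) * orient v a2 a1 := mul_pos_of_neg_of_neg (by linarith) h
      linarith
    have hD : v.1 < b.1 := by
      by_contra h; push Not at h
      have i1 : (a2.1 - v.1) * orient v a1 b - (a1.1 - v.1) * orient v a2 b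
          = (b.1 - v.1) * (- orient v a2 a1) := by
        unfold orient; ring
      have i2 : 0 ≤ (b.1 - v.1) * (- orient v a2 a1) :=
        mul_nonneg_of_nonpos_of_nonpos (by linarith) (by linarith)
      have i3 : (a2.1 - v.1) * orient v a1 b < 0 := mul_neg_of_neg_of_pos x2 o1
      have i4 : 0 < (a1.1 - v.1) * orient v a2 b := mul_pos_of_neg_of_neg x1 o2
      linarith
    refine ⟨?_, ?_, ?_, ?_⟩
    · rw [abs_of_pos (by linarith), abs_of_pos (by linarith)]; linarith
    · have k1 := ht_sub c v b a1 (by linarith) (by linarith)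
      by_contra h; push Not at h
      have : 0 ≤ (ht c v b - ht c v a1) * ((b.1 - v.1) * (a1.1 - v.1)) :=
        mul_nonneg_of_nonpos_of_nonpos (by linarith)
          (mul_nonpos_of_nonneg_of_nonpos (by linarith) x1.le)
      have : (c - v.1) * orient v a1 b < 0 := mul_neg_of_neg_of_pos (by linarith) o1
      linarith
    · have k1 := ht_sub c v b a2 (by linarith) (by linarith)
      by_contra h; push Not at h
      have : (ht c v b - ht c v a2) * ((b.1 - v.1) * (a2.1 - v.1)) ≤ 0 :=
        mul_nonpos_of_nonneg_of_nonpos (by linarith)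
          (mul_nonpos_of_nonneg_of_nonpos (by linarith) x2.le)
      have : 0 < (c - v.1) * orient v a2 b := mul_pos_of_neg_of_neg (by linarith) o2
      linarith
    · rw [e1, e2]; nlinarith

/-- two points strictly above a line: the whole segment is disjoint from the line. -/
theorem disjoint_seg {p q z w : Pt} (hz : Abv p q z) (hw : Abv p q w) :
    Disjoint (segment ℝ z w) (segment ℝ p q) := by
  rw [Set.disjoint_left]
  rintro x ⟨s, t, hs, ht', hst, rfl⟩ ⟨s', t', hs', ht'', hst', hx⟩
  have h0 : orient p q (s' • p + t' • q) = 0 := by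
    unfold orient
    simp only [Prod.fst_add, Prod.snd_add, Prod.smul_fst, Prod.smul_snd, smul_eq_mul]
    have : s' = 1 - t' := by linarith
    subst this; ring
  have h1 : orient p q (s • z + t • w) = s * orient p q z + t * orient p q w := by
    unfold orient
    simp only [Prod.fst_add, Prod.snd_add, Prod.smul_fst, Prod.smul_snd, smul_eq_mul]
    have : s = 1 - t := by linarith
    subst this; ring
  rw [hx, h1] at h0
  unfold Abv at hz hw
  have h2 : s * (orient p q z * (q.1 - p.1)) + t * (orient p q w * (q.1 - p.1)) = 0 := by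
    have := congrArg (· * (q.1 - p.1)) h0
    simp only [zero_mul] at this
    nlinarith
  rcases lt_or_eq_of_le hs with h | h
  · have a1 := mul_pos h hz
    have a2 := mul_nonneg ht' hw.le
    linarith
  · have : t = 1 := by linarith
    subst this
    rw [← h] at h2
    linarith

end Pool.Agent.Lib.MP_992c01_co
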