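import Pool.Agent.Lib.MP_992c01_co.Part

set_option autoImplicit false

/-! # MP_992c01_co : noncrossing monochromatic paths of linear length -/

namespace Pool.Agent.Lib.MP_992c01_co

/-- `v 0, ..., v (len - 1)` is a noncrossing monochromatic path on vertices of `P`. -/
def Good {k : ℕ} (P : Finset Pt) (col : Pt → Pt → Fin k) (len : ℕ) (v : ℕ → Pt) : Prop :=
  1 ≤ len ∧
  (∀ s : ℕ, s < len → v s ∈ P) ∧
  (∀ s t : ℕ, s < len → t < len → v s = v t → s = t) ∧
  (∃ c : Fin k, ∀ s : ℕ, s + 1 < len → col (v s) (v (s + 1)) = c) ∧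
  (∀ s t : ℕ, s + 1 < len → t + 1 < len → s + 1 < t →
    Disjoint (segment ℝ (v s) (v (s + 1))) (segment ℝ (v t) (v (t + 1))))

theorem Good.mono {k : ℕ} {P Q : Finset Pt} {col : Pt → Pt → Fin k} {len : ℕ} {v : ℕ → Pt}
    (h : Good P col len v) (hPQ : P ⊆ Q) : Good Q col len v :=
  ⟨h.1, fun s hs => hPQ (h.2.1 s hs), h.2.2.1, h.2.2.2.1, h.2.2.2.2⟩

open Classical in
theorem pigeon {k : ℕ} (hk : 1 ≤ k) (T : Finset (Pt × Pt)) (col : Pt → Pt → Fin k) :
    ∃ c : Fin k, T.card ≤ k * (T.filter (fun q => col q.1 q.2 = c)).card := by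
  by_contra hc
  push Not at hc
  have h1 : T.card = ∑ c : Fin k, (T.filter (fun q => col q.1 q.2 = c)).card :=
    Finset.card_eq_sum_card_fiberwise (fun _ _ => Finset.mem_coe.mpr (Finset.mem_univ _))
  have h2 : ∑ c : Fin k, k * (T.filter (fun q => col q.1 q.2 = c)).card < ∑ c : Fin k, T.card := by
    apply Finset.sum_lt_sum_of_nonempty
    · exact ⟨⟨0, hk⟩, Finset.mem_univ _⟩
    · intro c _; exact hc c
  rw [← Finset.mul_sum, ← h1] at h2
  simp at h2

theorem arith1 {k m s e z D T : ℕ} (hs : 1 ≤ s) (h1 : s * s ≤ k * e)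
    (h2 : 2 * e ≤ m * (s + s) + 2 * z) (h3 : D * z ≤ T * (s * s)) (h4 : 2 * k * T ≤ D)
    (hD : 1 ≤ D) : s ≤ 2 * k * m := by
  by_contra hc
  push Not at hc
  have a1 : 2 * D * (s * s) ≤ 2 * D * (k * e) := Nat.mul_le_mul_left _ h1
  have a2 : D * k * (2 * e) ≤ D * k * (m * (s + s) + 2 * z) := Nat.mul_le_mul_left _ h2
  have a3 : 2 * k * (D * z) ≤ 2 * k * (T * (s * s)) := Nat.mul_le_mul_left _ h3
  have a4 : 2 * k * T * (s * s) ≤ D * (s * s) := Nat.mul_le_mul_right _ h4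
  have a5 : (2 * k * m + 1) * (s * D) ≤ s * (s * D) := Nat.mul_le_mul_right _ hc
  have a6 : 1 ≤ s * D := Nat.one_le_iff_ne_zero.mpr (by positivity)
  nlinarith

/-- The linear theorem for points with different abscissas. -/
theorem lin0 (k d s : ℕ) (hk : 1 ≤ k) (hd : 2 * k * 3 ^ d ≤ 4 ^ d) (hs : 1 ≤ s) (X : Finset Pt)
    (gp : GP X) (hinj : Set.InjOn Prod.fst (X : Set Pt)) (hX : 2 * (6 ^ d * s) ≤ X.card)
    (col : Pt → Pt → Fin k) (hcol : ∀ x y, col x y = col y x) :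
    ∃ m v, Good X col (m + 1) v ∧ s ≤ 2 * k * m := by
  classical
  have hds : 1 ≤ 6 ^ d * s := Nat.one_le_iff_ne_zero.mpr (by positivity)
  obtain ⟨w, hw, hrank⟩ := exists_rank X Prod.fst hinj (6 ^ d * s) (by omega)
  have hrank' : (X.filter (fun z => z.1 < w.1)).card = 6 ^ d * s := hrank
  have hcard := Finset.card_filter_add_card_filter_not (s := X) (fun z : Pt => z.1 < w.1)
  have hLne : (X.filter (fun z => z.1 < w.1)).Nonempty := by
    rw [← Finset.card_pos]; omega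
  obtain ⟨a, ha, hmax⟩ := Finset.exists_max_image _ (fun z : Pt => z.1) hLne
  have ha1 := (Finset.mem_filter.mp ha).2
  have hLs : X.filter (fun z => z.1 < w.1) ⊆ X := Finset.filter_subset _ _
  have hRs : X.filter (fun z => ¬ z.1 < w.1) ⊆ X := Finset.filter_subset _ _
  obtain ⟨ι, iι, F, F1, F2, F3, F4⟩ := part s hs d _ (gp.mono hLs)
    (hinj.mono (Finset.coe_subset.mpr hLs)) (hrank'.ge)
  obtain ⟨κ, iκ, G, G1, G2, G3, G4⟩ := part s hs d _ (gp.mono hRs)
    (hinj.mono (Finset.coe_subset.mpr hRs)) (by omega)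
  obtain ⟨i, j, hij⟩ := avg ((a.1 + w.1) / 2) F G s (3 ^ d) (4 ^ d) (Nat.one_le_pow _ _ (by norm_num))
    F1 G1 F3 G3 F4 G4
  obtain ⟨c, hc⟩ := pigeon hk (F i ×ˢ G j) col
  rw [Finset.card_product, F3, G3] at hc
  have hFX : F i ⊆ X := (F2 i).trans hLs
  have hGX : G j ⊆ X := (G2 j).trans hRs
  have hUX : F i ∪ G j ⊆ X := Finset.union_subset hFX hGX
  obtain ⟨m, v, v1, v2, v3, v4, v5⟩ := core ((a.1 + w.1) / 2) (F i) (G j)
    (by
      intro z hz
      have := hmax z (F2 i hz)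
      linarith)
    (by
      intro z hz
      have := not_lt.mp (Finset.mem_filter.mp (G2 j hz)).2
      linarith)
    (by
      have : (F i).Nonempty := by rw [← Finset.card_pos, F3]; omega
      exact this.mono Finset.subset_union_left)
    (fun x hx y hy z hz => gp x (hUX hx) y (hUX hy) z (hUX hz))
    ((F i ×ˢ G j).filter (fun q => col q.1 q.2 = c)) (Finset.filter_subset _ _)
  refine ⟨m, v, ⟨by omega, ?_, ?_, ⟨c, ?_⟩, ?_⟩, ?_⟩
  · intro t ht; exact hUX (v1 t (by omega))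
  · intro t t' ht ht' h; exact v2 t (by omega) t' (by omega) h
  · intro t ht
    rcases v3 t (by omega) with h | h
    · exact (Finset.mem_filter.mp h).2
    · rw [hcol]; exact (Finset.mem_filter.mp h).2
  · intro t t' ht ht' h; exact v4 t t' (by omega) (by omega) h
  · rw [F3, G3] at v5
    exact arith1 hs hc v5 hij hd (Nat.one_le_pow _ _ (by norm_num))

/-- Half of the points have different abscissas. -/
theorem distinct_fst (P : Finset Pt) (gp : GP P) :
    ∃ X ⊆ P, Set.InjOn Prod.fst (X : Set Pt) ∧ P.card ≤ 2 * X.card := by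
  classical
  have hex : ∀ a : ℝ, ∃ p : Pt, a ∈ P.image Prod.fst → p ∈ P ∧ p.1 = a := by
    intro a
    by_cases h : a ∈ P.image Prod.fst
    · obtain ⟨p, hp, hpa⟩ := Finset.mem_image.mp h
      exact ⟨p, fun _ => ⟨hp, hpa⟩⟩
    · exact ⟨(0, 0), fun h' => absurd h' h⟩
  choose g hg using hex
  refine ⟨(P.image Prod.fst).image g, ?_, ?_, ?_⟩
  · intro p hp
    obtain ⟨a, ha, rfl⟩ := Finset.mem_image.mp hp
    exact (hg a ha).1
  · intro p hp q hq h
    obtain ⟨a, ha, rfl⟩ := Finset.mem_image.mp hp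
    obtain ⟨b, hb, rfl⟩ := Finset.mem_image.mp hq
    rw [(hg a ha).2, (hg b hb).2] at h
    rw [h]
  · rw [Finset.card_image_of_injOn]
    · have := Finset.card_le_mul_card_image (f := Prod.fst) P 2 (by
        intro a ha
        by_contra hc
        push Not at hc
        obtain ⟨x, hx, y, hy, z, hz, h1, h2, h3⟩ := Finset.two_lt_card.mp hc
        rw [Finset.mem_filter] at hx hy hz
        apply gp x hx.1 y hy.1 z hz.1 h1 h2 h3
        unfold orient
        rw [hx.2, hy.2, hz.2]; ring)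
      exact this
    · intro a ha b hb h
      rw [← (hg a ha).2, ← (hg b hb).2, h]

/-- **Linear noncrossing monochromatic paths**, with a parameter `d`. -/
theorem lin1 (k d : ℕ) (hk : 1 ≤ k) (hd : 2 * k * 3 ^ d ≤ 4 ^ d) (P : Finset Pt) (gp : GP P)
    (hne : P.Nonempty) (col : Pt → Pt → Fin k) (hcol : ∀ x y, col x y = col y x) :
    ∃ len v, Good P col len v ∧ P.card ≤ 8 * k * 6 ^ d * len := by
  obtain ⟨X, hXP, hinj, hX⟩ := distinct_fst P gp
  have h6 : 1 ≤ 6 ^ d := Nat.one_le_pow _ _ (by norm_num)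
  have hdiv := Nat.div_add_mod X.card (2 * 6 ^ d)
  have hmod := Nat.mod_lt X.card (show 0 < 2 * 6 ^ d by positivity)
  rcases Nat.eq_zero_or_pos (X.card / (2 * 6 ^ d)) with h0 | h0
  · obtain ⟨p, hp⟩ := hne
    refine ⟨1, fun _ => p, ⟨le_refl _, fun _ _ => hp, fun s t hs ht _ => by omega,
      ⟨⟨0, hk⟩, fun s hs => by omega⟩, fun s t hs _ _ => by omega⟩, ?_⟩
    rw [h0, mul_zero, zero_add] at hdiv
    have : 8 * 1 * 6 ^ d ≤ 8 * k * 6 ^ d := Nat.mul_le_mul_right _ (Nat.mul_le_mul_left _ hk)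
    omega
  · set s := X.card / (2 * 6 ^ d) with hs
    have hXs : 2 * (6 ^ d * s) ≤ X.card := by rw [← mul_assoc]; omega
    obtain ⟨m, v, hv, hm⟩ := lin0 k d s hk hd h0 X (gp.mono hXP) hinj hXs col hcol
    refine ⟨m + 1, v, hv.mono hXP, ?_⟩
    have a1 : X.card ≤ 2 * 6 ^ d * (s + 1) := by rw [mul_add]; omega
    have a2 : 2 * 6 ^ d * (s + 1) ≤ 2 * 6 ^ d * (2 * k * m + 2 * k) :=
      Nat.mul_le_mul_left _ (by omega)
    nlinarith

theorem exists_d (k : ℕ) (hk : 1 ≤ k) : ∃ d, 2 * k * 3 ^ d ≤ 4 ^ d ∧ 6 ^ d ≤ 768 * k ^ 7 := by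
  have hex : ∃ d, 2 * k * 3 ^ d ≤ 4 ^ d := by
    obtain ⟨d, hd⟩ := pow_unbounded_of_one_lt ((2 * k : ℕ) : ℝ) (show (1:ℝ) < 4 / 3 by norm_num)
    refine ⟨d, ?_⟩
    have h3 : (0:ℝ) < 3 ^ d := by positivity
    rw [div_pow, lt_div_iff₀ h3] at hd
    exact_mod_cast hd.le
  classical
  refine ⟨Nat.find hex, Nat.find_spec hex, ?_⟩
  rcases Nat.eq_zero_or_pos (Nat.find hex) with h0 | h0
  · rw [h0]
    have : 1 ≤ k ^ 7 := Nat.one_le_pow _ _ hk
    omega
  · obtain ⟨e, he⟩ : ∃ e, Nat.find hex = e + 1 := ⟨Nat.find hex - 1, by omega⟩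
    have hmin := Nat.find_min hex (m := e) (by omega)
    rw [he]
    push Not at hmin
    have a1 : (4 ^ e) ^ 7 < (2 * k * 3 ^ e) ^ 7 := Nat.pow_lt_pow_left hmin (by norm_num)
    have a2 : 6 ^ e * (3 ^ e) ^ 7 ≤ (4 ^ e) ^ 7 := by
      have : 6 ^ e * (3 ^ e) ^ 7 = 13122 ^ e := by
        rw [← pow_mul, mul_comm e 7, pow_mul, ← mul_pow]; norm_num
      rw [this, ← pow_mul, mul_comm e 7, pow_mul]
      exact Nat.pow_le_pow_left (by norm_num) e
    have a3 : 6 ^ e * (3 ^ e) ^ 7 < (2 * k) ^ 7 * (3 ^ e) ^ 7 := by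
      rw [← mul_pow]; exact a2.trans_lt a1
    have a4 : 6 ^ e < (2 * k) ^ 7 := lt_of_mul_lt_mul_right a3 (Nat.zero_le _)
    rw [pow_succ]
    rw [mul_pow] at a4
    norm_num at a4
    omega

/-- **Linear noncrossing monochromatic paths.** -/
theorem lin (k : ℕ) (hk : 1 ≤ k) (P : Finset Pt) (gp : GP P)
    (hne : P.Nonempty) (col : Pt → Pt → Fin k) (hcol : ∀ x y, col x y = col y x) :
    ∃ len v, Good P col len v ∧ P.card ≤ 6144 * k ^ 8 * len := by
  obtain ⟨d, hd, h6⟩ := exists_d k hk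
  obtain ⟨len, v, hv, h⟩ := lin1 k d hk hd P gp hne col hcol
  refine ⟨len, v, hv, h.trans ?_⟩
  apply Nat.mul_le_mul_right
  calc 8 * k * 6 ^ d ≤ 8 * k * (768 * k ^ 7) := Nat.mul_le_mul_left _ h6
    _ = 6144 * k ^ 8 := by ring

end Pool.Agent.Lib.MP_992c01_co
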