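import Pool.Agent.Lib.MP_992c01_co.WLin

set_option autoImplicit false

/-! # MP_992c01_co : fractional covers by multiplicative weights -/

namespace Pool.Agent.Lib.MP_992c01_co

open Classical in
/-- number of the paths `π 0, ..., π (t - 1)` through `p`. -/
noncomputable def cnt (π : ℕ → ℕ × (ℕ → Pt)) (t : ℕ) (p : Pt) : ℕ :=
  ((Finset.range t).filter (fun j => p ∈ verts (π j))).card

theorem cnt_zero (π : ℕ → ℕ × (ℕ → Pt)) (p : Pt) : cnt π 0 p = 0 := by
  unfold cnt; simp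

open Classical in
theorem cnt_succ (π : ℕ → ℕ × (ℕ → Pt)) (t : ℕ) (p : Pt) :
    cnt π (t + 1) p = cnt π t p + (if p ∈ verts (π t) then 1 else 0) := by
  unfold cnt
  rw [Finset.range_add_one, Finset.filter_insert]
  split_ifs with h
  · rw [Finset.card_insert_of_notMem (by simp)]
  · simp

theorem cnt_le (π : ℕ → ℕ × (ℕ → Pt)) (t : ℕ) (p : Pt) : cnt π t p ≤ t := by
  classical
  unfold cnt
  exact (Finset.card_filter_le _ _).trans (by simp)

theorem cnt_congr {π ρ : ℕ → ℕ × (ℕ → Pt)} {t : ℕ} (h : ∀ j < t, π j = ρ j) (p : Pt) :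
    cnt π t p = cnt ρ t p := by
  classical
  unfold cnt
  congr 1
  apply Finset.filter_congr
  intro j hj
  rw [h j (Finset.mem_range.mp hj)]

theorem pw_eq {k : ℕ} {P : Finset Pt} {col : Pt → Pt → Fin k} {len : ℕ} {v : ℕ → Pt}
    (hv : Good P col len v) (w : Pt → ℕ) : pw w len v = Wt w (verts (len, v)) := by
  classical
  unfold pw Wt verts
  rw [Finset.sum_image]
  intro a ha b hb h
  exact hv.2.2.1 a b (Finset.mem_range.mp ha) (Finset.mem_range.mp hb) h

theorem mw {k K : ℕ} (P : Finset Pt) (col : Pt → Pt → Fin k)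
    (H : ∀ w : Pt → ℕ, ∃ len v, Good P col len v ∧ Wt w P ≤ K * pw w len v) (T : ℕ) :
    ∀ t ≤ T, ∃ π : ℕ → ℕ × (ℕ → Pt), (∀ j < t, Good P col (π j).1 (π j).2) ∧
      (∑ p ∈ P, 2 ^ (T - cnt π t p)) * (2 * K) ^ t ≤ P.card * 2 ^ T * (2 * K - 1) ^ t := by
  classical
  intro t
  induction t with
  | zero =>
    intro _
    refine ⟨fun _ => (0, fun _ => (0, 0)), fun j hj => by omega, ?_⟩
    simp [cnt_zero, Finset.sum_const]
  | succ t ih =>
    intro ht
    obtain ⟨π, h1, h2⟩ := ih (by omega)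
    obtain ⟨len, v, hv, hK⟩ := H (fun p => 2 ^ (T - cnt π t p - 1))
    set w : Pt → ℕ := fun p => 2 ^ (T - cnt π t p - 1) with hw
    let ρ : ℕ → ℕ × (ℕ → Pt) := fun j => if j < t then π j else (len, v)
    have hρ : ∀ j < t, ρ j = π j := fun j hj => by simp only [ρ]; rw [if_pos hj]
    have hρt : ρ t = (len, v) := by simp only [ρ]; rw [if_neg (lt_irrefl _)]
    refine ⟨ρ, ?_, ?_⟩
    · intro j hj
      by_cases hjt : j < t
      · rw [hρ j hjt]; exact h1 j hjt
      · have : j = t := by omega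
        rw [this, hρt]; exact hv
    · have e1 : ∀ p, cnt ρ (t + 1) p = cnt π t p + (if p ∈ verts (len, v) then 1 else 0) := by
        intro p
        rw [cnt_succ, hρt, cnt_congr hρ]
      have hct : ∀ p, cnt π t p ≤ t := fun p => cnt_le π t p
      have e2 : ∑ p ∈ P, 2 ^ (T - cnt π t p) = 2 * Wt w P := by
        unfold Wt
        rw [Finset.mul_sum]
        apply Finset.sum_congr rfl
        intro p _
        simp only [hw]
        have := hct p
        rw [← pow_succ']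
        congr 1; omega
      have hsub : verts (len, v) ⊆ P := by
        intro p hp
        obtain ⟨s, hs, rfl⟩ := mem_verts.mp hp
        exact hv.2.1 s hs
      have e3 : ∑ p ∈ P, 2 ^ (T - cnt ρ (t + 1) p) + pw w len v = 2 * Wt w P := by
        rw [pw_eq hv w]
        unfold Wt
        rw [← Finset.inter_eq_right.mpr hsub, ← Finset.filter_mem_eq_inter, Finset.sum_filter,
          ← Finset.sum_add_distrib, Finset.mul_sum]
        apply Finset.sum_congr rfl
        intro p _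
        rw [e1]
        simp only [hw]
        have := hct p
        by_cases hp : p ∈ verts (len, v)
        · rw [if_pos hp, if_pos hp, two_mul]
          congr 1
        · rw [if_neg hp, if_neg hp, add_zero, add_zero, ← pow_succ']
          congr 1; omega
      rw [e2] at h2
      have hK' : Wt w P ≤ K * pw w len v := hK
      -- 2K * Snew ≤ (2K - 1) * (2 W)
      have e4 : 2 * K * ∑ p ∈ P, 2 ^ (T - cnt ρ (t + 1) p) ≤ (2 * K - 1) * (2 * Wt w P) := by
        rcases Nat.eq_zero_or_pos K with hK0 | hK0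
        · rw [hK0]; simp
        · have h5 : 2 * K * ∑ p ∈ P, 2 ^ (T - cnt ρ (t + 1) p) + 2 * K * pw w len v =
              2 * K * (2 * Wt w P) := by rw [← mul_add, e3]
          have h6 : 2 * K * (2 * Wt w P) = (2 * K - 1) * (2 * Wt w P) + 2 * Wt w P := by
            obtain ⟨K', hK'⟩ : ∃ K', 2 * K = K' + 1 := ⟨2 * K - 1, by omega⟩
            rw [hK', Nat.add_sub_cancel]; ring
          have h7 : 2 * Wt w P ≤ 2 * K * pw w len v := by
            have := Nat.mul_le_mul_left 2 hK'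
            linarith
          omega
      calc (∑ p ∈ P, 2 ^ (T - cnt ρ (t + 1) p)) * (2 * K) ^ (t + 1)
          = (2 * K * ∑ p ∈ P, 2 ^ (T - cnt ρ (t + 1) p)) * (2 * K) ^ t := by rw [pow_succ]; ring
        _ ≤ ((2 * K - 1) * (2 * Wt w P)) * (2 * K) ^ t := Nat.mul_le_mul_right _ e4
        _ = (2 * K - 1) * (2 * Wt w P * (2 * K) ^ t) := by ring
        _ ≤ (2 * K - 1) * (P.card * 2 ^ T * (2 * K - 1) ^ t) := Nat.mul_le_mul_left _ h2
        _ = P.card * 2 ^ T * (2 * K - 1) ^ (t + 1) := by rw [pow_succ]; ring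

theorem multi {k K : ℕ} (hK : 1 ≤ K) (P : Finset Pt) (hne : P.Nonempty) (col : Pt → Pt → Fin k)
    (H : ∀ w : Pt → ℕ, ∃ len v, Good P col len v ∧ Wt w P ≤ K * pw w len v) (T : ℕ)
    (hT : 4 * K * Real.log P.card ≤ T) :
    ∃ π : ℕ → ℕ × (ℕ → Pt), (∀ j < T, Good P col (π j).1 (π j).2) ∧
      ∀ p ∈ P, T ≤ 4 * K * cnt π T p := by
  obtain ⟨π, h1, h2⟩ := mw P col H T T le_rfl
  refine ⟨π, h1, fun p hp => ?_⟩
  have hn : 1 ≤ P.card := Finset.card_pos.mpr hne
  have h3 : 2 ^ (T - cnt π T p) ≤ ∑ p ∈ P, 2 ^ (T - cnt π T p) :=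
    Finset.single_le_sum (f := fun p => 2 ^ (T - cnt π T p)) (fun _ _ => Nat.zero_le _) hp
  have h4 : 2 ^ (T - cnt π T p) * (2 * K) ^ T ≤ P.card * 2 ^ T * (2 * K - 1) ^ T :=
    (Nat.mul_le_mul_right _ h3).trans h2
  have hc := cnt_le π T p
  have h5 : 2 ^ T * (2 * K) ^ T ≤ P.card * 2 ^ T * (2 * K - 1) ^ T * 2 ^ cnt π T p := by
    have e : 2 ^ T = 2 ^ (T - cnt π T p) * 2 ^ cnt π T p := by
      rw [← pow_add]; congr 1; omega
    calc 2 ^ T * (2 * K) ^ T = 2 ^ (T - cnt π T p) * (2 * K) ^ T * 2 ^ cnt π T p := by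
          nth_rewrite 1 [e]; ring
      _ ≤ P.card * 2 ^ T * (2 * K - 1) ^ T * 2 ^ cnt π T p := Nat.mul_le_mul_right _ h4
  have h6 : (2 * K) ^ T ≤ P.card * (2 * K - 1) ^ T * 2 ^ cnt π T p := by
    have h2T : 0 < 2 ^ T := by positivity
    apply Nat.le_of_mul_le_mul_left _ h2T
    calc 2 ^ T * (2 * K) ^ T ≤ P.card * 2 ^ T * (2 * K - 1) ^ T * 2 ^ cnt π T p := h5
      _ = 2 ^ T * (P.card * (2 * K - 1) ^ T * 2 ^ cnt π T p) := by ring
  -- real logarithms
  have hKR : (1:ℝ) ≤ K := by exact_mod_cast hK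
  have hcast : ((2 * K - 1 : ℕ) : ℝ) = 2 * K - 1 := by
    rw [Nat.cast_sub (by omega)]; push_cast; ring
  have h7 : (2 * (K:ℝ)) ^ T ≤ P.card * (2 * K - 1) ^ T * 2 ^ cnt π T p := by
    have : (((2 * K) ^ T : ℕ) : ℝ) ≤ ((P.card * (2 * K - 1) ^ T * 2 ^ cnt π T p : ℕ) : ℝ) := by
      exact_mod_cast h6
    push_cast at this
    rw [hcast] at this
    exact this
  have hpos1 : (0:ℝ) < 2 * K := by linarith
  have hpos2 : (0:ℝ) < 2 * K - 1 := by linarith
  have hnR : (0:ℝ) < P.card := by exact_mod_cast hn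
  have h8 := Real.log_le_log (pow_pos hpos1 T) h7
  have L1 : Real.log ((2 * (K:ℝ)) ^ T) = T * Real.log (2 * K) := Real.log_pow _ _
  have L2 : Real.log ((P.card:ℝ) * (2 * K - 1) ^ T * 2 ^ cnt π T p) =
      Real.log P.card + T * Real.log (2 * K - 1) + cnt π T p * Real.log 2 := by
    have a1 : (2 * (K:ℝ) - 1) ^ T ≠ 0 := (pow_pos hpos2 T).ne'
    have a2 : (2:ℝ) ^ cnt π T p ≠ 0 := by positivity
    rw [Real.log_mul (mul_ne_zero hnR.ne' a1) a2, Real.log_mul hnR.ne' a1, Real.log_pow,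
      Real.log_pow]
  rw [L1, L2] at h8
  have h9 : Real.log (2 * K - 1) ≤ Real.log (2 * K) - 1 / (2 * K) := by
    have h10 : Real.log ((2 * K - 1) / (2 * K)) ≤ (2 * K - 1) / (2 * K) - 1 :=
      Real.log_le_sub_one_of_pos (div_pos hpos2 hpos1)
    rw [Real.log_div hpos2.ne' hpos1.ne'] at h10
    have h11 : ((2:ℝ) * K - 1) / (2 * K) - 1 = - (1 / (2 * K)) := by field_simp; ring
    linarith
  have h12 : (T:ℝ) * (1 / (2 * K)) ≤ Real.log P.card + cnt π T p * Real.log 2 := by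
    have h13 := mul_le_mul_of_nonneg_left h9 (Nat.cast_nonneg T : (0:ℝ) ≤ T)
    have h14 : (T:ℝ) * (Real.log (2 * K) - 1 / (2 * K)) =
        T * Real.log (2 * K) - T * (1 / (2 * K)) := by ring
    linarith
  have hlog2 : Real.log 2 ≤ 1 := by
    have := Real.log_le_sub_one_of_pos (show (0:ℝ) < 2 by norm_num)
    linarith
  have h15 : (T:ℝ) * (1 / (2 * K)) ≤ Real.log P.card + cnt π T p := by
    have : (cnt π T p : ℝ) * Real.log 2 ≤ cnt π T p * 1 :=
      mul_le_mul_of_nonneg_left hlog2 (Nat.cast_nonneg _)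
    linarith
  have h16 : (T:ℝ) * 2 ≤ 4 * K * Real.log P.card + 4 * K * cnt π T p := by
    have h17 := mul_le_mul_of_nonneg_left h15 (show (0:ℝ) ≤ 4 * K by linarith)
    have h18 : 4 * (K:ℝ) * (T * (1 / (2 * K))) = T * 2 := by field_simp; ring
    rw [h18] at h17
    linarith
  have h19 : (T:ℝ) ≤ 4 * K * cnt π T p := by linarith
  exact_mod_cast h19

end Pool.Agent.Lib.MP_992c01_co
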