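import Pool.Agent.Lib.MP_992c01_co.Stm

set_option autoImplicit false

open scoped BigOperators Classical

namespace Pool.MP_992c01_co.NC

/-- height at `x = c` of the line `p q` -/
noncomputable def axis_H (p q : Pt) (c : ℝ) : ℝ :=
  (p.2 * (q.1 - c) - q.2 * (p.1 - c)) / (q.1 - p.1)

theorem axis_ht (p q : Pt) (c : ℝ) : ht (aff 1 0 c p) (aff 1 0 c q) = axis_H p q c := by
  have h1 : (aff 1 0 c p).1 = p.1 - c := by
    show 1 * p.1 + 0 * p.2 - c = p.1 - c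
    ring
  have h2 : (aff 1 0 c q).1 = q.1 - c := by
    show 1 * q.1 + 0 * q.2 - c = q.1 - c
    ring
  have h3 : (aff 1 0 c p).2 = p.2 := rfl
  have h4 : (aff 1 0 c q).2 = q.2 := rfl
  have h5 : q.1 - c - (p.1 - c) = q.1 - p.1 := by ring
  unfold ht axis_H
  rw [h1, h2, h3, h4, h5]

theorem axis_fst (p : Pt) (c : ℝ) : (aff 1 0 c p).1 = p.1 - c := by
  show 1 * p.1 + 0 * p.2 - c = p.1 - c
  ring

/-- two lines which agree at two abscissae are equal -/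
theorem axis_orient (p q p' q' : Pt) (c₁ c₂ : ℝ) (h : p.1 ≠ q.1) (h' : p'.1 ≠ q'.1)
    (hc : c₁ ≠ c₂) (e1 : axis_H p q c₁ = axis_H p' q' c₁) (e2 : axis_H p q c₂ = axis_H p' q' c₂) :
    orient p q p' = 0 ∧ orient p q q' = 0 := by
  have hd : q.1 - p.1 ≠ 0 := sub_ne_zero.2 h.symm
  have hd' : q'.1 - p'.1 ≠ 0 := sub_ne_zero.2 h'.symm
  unfold axis_H at e1 e2
  rw [div_eq_div_iff hd hd'] at e1 e2
  have hS : (q.2 - p.2) * (q'.1 - p'.1) - (q'.2 - p'.2) * (q.1 - p.1) = 0 := by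
    have h0 : (c₁ - c₂) * ((q.2 - p.2) * (q'.1 - p'.1) - (q'.2 - p'.2) * (q.1 - p.1)) = 0 := by
      linear_combination e1 - e2
    rcases mul_eq_zero.1 h0 with h1 | h1
    · exact absurd (sub_eq_zero.1 h1) hc
    · exact h1
  unfold orient
  constructor
  · refine (mul_eq_zero.1 (?_ : (q'.1 - p'.1) * _ = 0)).resolve_left hd'
    linear_combination (-1) * e1 - (p'.1 - c₁) * hS
  · refine (mul_eq_zero.1 (?_ : (q'.1 - p'.1) * _ = 0)).resolve_left hd'
    linear_combination (-1) * e1 - (p'.1 - c₁) * hS - (q'.1 - p'.1) * hS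

theorem axis_sub (V : Finset Pt) (hV : GenPos V) (p q p' q' : Pt) (hp : p ∈ V) (hq : q ∈ V)
    (hp' : p' ∈ V) (hq' : q' ∈ V) (h : p.1 ≠ q.1) (h' : p'.1 ≠ q'.1)
    (hne : ¬ ((p = p' ∧ q = q') ∨ (p = q' ∧ q = p'))) :
    {c : ℝ | axis_H p q c = axis_H p' q' c}.Subsingleton := by
  intro c₁ h₁ c₂ h₂
  by_contra hc
  obtain ⟨o1, o2⟩ := axis_orient p q p' q' c₁ c₂ h h' hc h₁ h₂
  have hpq : p ≠ q := fun e => h (by rw [e])
  have hpq' : p' ≠ q' := fun e => h' (by rw [e])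
  have a1 : p = p' ∨ q = p' := by
    by_contra hcon
    rw [not_or] at hcon
    exact hV p hp q hq p' hp' hpq hcon.1 hcon.2 o1
  have a2 : p = q' ∨ q = q' := by
    by_contra hcon
    rw [not_or] at hcon
    exact hV p hp q hq q' hq' hpq hcon.1 hcon.2 o2
  rcases a1 with a1 | a1 <;> rcases a2 with a2 | a2
  · exact hpq' (a1.symm.trans a2)
  · exact hne (Or.inl ⟨a1, a2⟩)
  · exact hne (Or.inr ⟨a2, a1⟩)
  · exact hpq' (a1.symm.trans a2)

theorem p_axis : S_aff → S_axis := by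
  intro _ V x₁ x₂ hV hx
  have hfin : ((⋃ p ∈ V, ⋃ q ∈ V, ⋃ p' ∈ V, ⋃ q' ∈ V,
      {c : ℝ | (p.1 ≠ q.1 ∧ p'.1 ≠ q'.1 ∧ ¬ ((p = p' ∧ q = q') ∨ (p = q' ∧ q = p'))) ∧
        axis_H p q c = axis_H p' q' c}) ∪ (⋃ v ∈ V, {v.1})).Finite := by
    refine Set.Finite.union ?_ ?_
    · refine Set.Finite.biUnion V.finite_toSet fun p hp => ?_
      refine Set.Finite.biUnion V.finite_toSet fun q hq => ?_
      refine Set.Finite.biUnion V.finite_toSet fun p' hp' => ?_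
      refine Set.Finite.biUnion V.finite_toSet fun q' hq' => ?_
      by_cases hcond : p.1 ≠ q.1 ∧ p'.1 ≠ q'.1 ∧ ¬ ((p = p' ∧ q = q') ∨ (p = q' ∧ q = p'))
      · refine ((axis_sub V hV p q p' q' hp hq hp' hq' hcond.1 hcond.2.1 hcond.2.2).anti
          ?_).finite
        intro c hc
        exact hc.2
      · refine Set.Finite.subset Set.finite_empty ?_
        intro c hc
        exact hcond hc.1
    · exact Set.Finite.biUnion V.finite_toSet fun v _ => Set.finite_singleton _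
  obtain ⟨c, hc1, hc2⟩ := (Set.Ioo_infinite hx).exists_notMem_finite hfin
  rw [Set.mem_union, not_or] at hc2
  obtain ⟨hc2, hc3⟩ := hc2
  refine ⟨c, hc1.1, hc1.2, ?_, ?_⟩
  · intro v hv he
    refine hc3 ?_
    rw [Set.mem_iUnion₂]
    exact ⟨v, hv, he.symm⟩
  · intro P hP Q hQ P' hP' Q' hQ' h h' he
    obtain ⟨p, hp, rfl⟩ := Finset.mem_image.1 hP
    obtain ⟨q, hq, rfl⟩ := Finset.mem_image.1 hQ
    obtain ⟨p', hp', rfl⟩ := Finset.mem_image.1 hP'
    obtain ⟨q', hq', rfl⟩ := Finset.mem_image.1 hQ'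
    rw [axis_ht, axis_ht] at he
    have k1 : p.1 ≠ q.1 := by
      intro e
      apply h
      rw [axis_fst, axis_fst, e]
    have k2 : p'.1 ≠ q'.1 := by
      intro e
      apply h'
      rw [axis_fst, axis_fst, e]
    by_cases hk : (p = p' ∧ q = q') ∨ (p = q' ∧ q = p')
    · rcases hk with ⟨h1, h2⟩ | ⟨h1, h2⟩
      · left
        rw [h1, h2]
        exact ⟨rfl, rfl⟩
      · right
        rw [h1, h2]
        exact ⟨rfl, rfl⟩
    · exfalso
      refine hc2 ?_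
      simp only [Set.mem_iUnion]
      exact ⟨p, hp, q, hq, p', hp', q', hq', ⟨k1, k2, hk⟩, he⟩

end Pool.MP_992c01_co.NC
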