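import Pool.Agent.Lib.MP_992c01_co.Stm

set_option autoImplicit false

open scoped BigOperators Classical

namespace Pool.MP_992c01_co.NC

theorem p_htComm : S_htComm := by
  intro p q
  unfold ht
  rw [← neg_sub (q.2 * p.1) (p.2 * q.1), ← neg_sub p.1 q.1, neg_div_neg_eq]

theorem dev_eq (v u : Pt) (t : ℝ) (hv : v.1 ≠ 0) (huv : u.1 ≠ v.1) :
    dev v u t = (ht v u - t) * (1 - u.1 / v.1) := by
  unfold dev ht
  have h : u.1 - v.1 ≠ 0 := sub_ne_zero.mpr huv
  field_simp
  ring

theorem p_dev : S_dev := by
  refine ⟨dev_eq, ?_, ?_, ?_, ?_, ?_⟩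
  · intro v u t h
    have hv : v.1 ≠ 0 := by rintro h0; rw [h0] at h; simp at h
    have huv : u.1 ≠ v.1 := by
      intro h1; rw [h1] at h; nlinarith [mul_self_nonneg v.1]
    rw [dev_eq v u t hv huv]
    have hf : 0 < 1 - u.1 / v.1 := by
      have : u.1 / v.1 < 0 := by
        rcases lt_or_gt_of_ne hv with h1 | h1
        · exact div_neg_of_pos_of_neg (by nlinarith) h1
        · exact div_neg_of_neg_of_pos (by nlinarith) h1
      linarith
    constructor
    · rw [mul_pos_iff_of_pos_right hf, sub_pos]
    · rw [mul_neg_iff]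
      constructor
      · rintro (⟨_, h2⟩ | ⟨h1, _⟩)
        · linarith
        · linarith
      · intro h1; right; exact ⟨by linarith, hf⟩
  · intro v u t h hlt
    have hv : v.1 ≠ 0 := by rintro h0; rw [h0] at h; simp at h
    have huv : u.1 ≠ v.1 := by
      intro h1; rw [h1] at hlt; exact lt_irrefl _ hlt
    rw [dev_eq v u t hv huv]
    have hf : 1 - u.1 / v.1 < 0 := by
      have : 1 < u.1 / v.1 := by
        rcases lt_or_gt_of_ne hv with h1 | h1
        · have hu : u.1 < 0 := by nlinarith
          rw [abs_of_neg h1, abs_of_neg hu] at hlt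
          rw [one_lt_div_of_neg h1]; linarith
        · have hu : 0 < u.1 := by nlinarith
          rw [abs_of_pos h1, abs_of_pos hu] at hlt
          rw [one_lt_div h1]; exact hlt
      linarith
    constructor
    · rw [mul_pos_iff]
      constructor
      · rintro (⟨_, h2⟩ | ⟨h1, _⟩)
        · linarith
        · linarith
      · intro h1; right; exact ⟨by linarith, hf⟩
    · rw [mul_neg_iff]
      constructor
      · rintro (⟨h1, _⟩ | ⟨_, h2⟩)
        · linarith
        · linarith
      · intro h1; left; exact ⟨by linarith, hf⟩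
  · intro v u t h hlt
    have hv : v.1 ≠ 0 := by rintro h0; rw [h0] at h; simp at h
    have huv : u.1 ≠ v.1 := by
      intro h1; rw [h1] at hlt; exact lt_irrefl _ hlt
    rw [dev_eq v u t hv huv]
    have hf : 0 < 1 - u.1 / v.1 := by
      have : u.1 / v.1 < 1 := by
        rcases lt_or_gt_of_ne hv with h1 | h1
        · have hu : u.1 < 0 := by nlinarith
          rw [abs_of_neg h1, abs_of_neg hu] at hlt
          rw [div_lt_one_of_neg h1]; linarith
        · have hu : 0 < u.1 := by nlinarith
          rw [abs_of_pos h1, abs_of_pos hu] at hlt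
          rw [div_lt_one h1]; exact hlt
      linarith
    constructor
    · rw [mul_pos_iff_of_pos_right hf, sub_pos]
    · rw [mul_neg_iff]
      constructor
      · rintro (⟨_, h2⟩ | ⟨h1, _⟩)
        · linarith
        · linarith
      · intro h1; right; exact ⟨by linarith, hf⟩
  · intro v u t hv h
    unfold dev
    rw [h, div_self hv]; ring
  · intro v w u h
    have hv : v.1 ≠ 0 := by rintro h0; rw [h0] at h; simp at h
    have hw : w.1 ≠ 0 := by rintro h0; rw [h0] at h; simp at h
    have hvw : w.1 - v.1 ≠ 0 := by
      intro h1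
      have : w.1 = v.1 := by linarith
      rw [this] at h; nlinarith [mul_self_nonneg v.1]
    unfold dev ht
    field_simp
    ring

theorem p_goodMono : S_goodMono := by
  intro C s s' l h hs
  cases h with
  | single _ v hv => exact Good.single s' v hv
  | cons _ v w l h hE hs' hnb => exact Good.cons s' v w l h hE (lt_of_lt_of_le hs' hs) hnb

end Pool.MP_992c01_co.NC
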