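import Pool.Agent.Lib.MP_992c01_co.Stm

set_option autoImplicit false

open scoped BigOperators Classical

namespace Pool.MP_992c01_co.NC

/-- the incidence map `lam ↦ (p ↦ ∑_{S ∋ p} lam S)` -/
noncomputable def dual_A (P : Finset Pt) (𝒮 : Finset (Finset Pt)) : (↥𝒮 → ℝ) →ₗ[ℝ] (↥P → ℝ) where
  toFun := fun l p => ∑ S : ↥𝒮, if (p : Pt) ∈ (S : Finset Pt) then l S else 0
  map_add' := by
    intro l l'
    funext p
    simp only [Pi.add_apply]
    rw [← Finset.sum_add_distrib]
    refine Finset.sum_congr rfl fun S _ => ?_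
    split_ifs <;> simp
  map_smul' := by
    intro c l
    funext p
    simp only [Pi.smul_apply, smul_eq_mul, RingHom.id_apply]
    rw [Finset.mul_sum]
    refine Finset.sum_congr rfl fun S _ => ?_
    split_ifs <;> simp

theorem dual_A_apply (P : Finset Pt) (𝒮 : Finset (Finset Pt)) (l : ↥𝒮 → ℝ) (p : ↥P) :
    dual_A P 𝒮 l p = ∑ S : ↥𝒮, if (p : Pt) ∈ (S : Finset Pt) then l S else 0 := rfl

theorem dual_A_single (P : Finset Pt) (𝒮 : Finset (Finset Pt)) (S : ↥𝒮) (p : ↥P) :
    dual_A P 𝒮 (Pi.single S 1) p = if (p : Pt) ∈ (S : Finset Pt) then 1 else 0 := by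
  rw [dual_A_apply]
  rw [Finset.sum_eq_single S]
  · simp
  · intro T _ hT
    simp [Pi.single_eq_of_ne hT]
  · intro h
    exact absurd (Finset.mem_univ S) h

/-- a linear functional on `↥P → ℝ` is a weighted sum -/
theorem dual_f_sum (P : Finset Pt) (f : StrongDual ℝ (↥P → ℝ)) (y : ↥P → ℝ) :
    f y = ∑ p : ↥P, y p * f (Pi.single p 1) := by
  conv_lhs => rw [pi_eq_sum_univ' y]
  rw [map_sum]
  refine Finset.sum_congr rfl fun p _ => ?_
  rw [map_smul, smul_eq_mul]

theorem p_dual : S_dual := by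
  intro P 𝒮 δ hδ hne H
  set K : Set (↥P → ℝ) := (dual_A P 𝒮) '' stdSimplex ℝ ↥𝒮 with hK
  set Q : Set (↥P → ℝ) := {y | ∀ p, δ ≤ y p} with hQ
  have hKc : Convex ℝ K := (convex_stdSimplex ℝ ↥𝒮).linear_image _
  have hKk : IsCompact K :=
    (isCompact_stdSimplex ℝ ↥𝒮).image (LinearMap.continuous_of_finiteDimensional _)
  have hQc : Convex ℝ Q := by
    intro x hx y hy a b ha hb hab p
    have h1 := hx p
    have h2 := hy p
    simp only [Pi.add_apply, Pi.smul_apply, smul_eq_mul]
    nlinarith [mul_nonneg ha (sub_nonneg.mpr h1), mul_nonneg hb (sub_nonneg.mpr h2)]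
  have hQk : IsClosed Q := by
    rw [hQ]
    simp only [Set.ofPred_forall]
    exact isClosed_iInter fun p => isClosed_le continuous_const (continuous_apply p)
  have hnd : ¬ Disjoint K Q := by
    intro hd
    obtain ⟨f, u, v, hfK, huv, hfQ⟩ := geometric_hahn_banach_compact_closed hKc hKk hQc hQk hd
    have hcst : (fun _ => δ : ↥P → ℝ) ∈ Q := fun p => le_rfl
    -- nonnegative weights
    have hw : ∀ p : ↥P, 0 ≤ f (Pi.single p 1) := by
      intro p
      by_contra hneg
      push Not at hneg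
      set a := f (Pi.single p 1) with ha
      -- take a large multiple
      obtain ⟨n, hn⟩ := exists_nat_gt ((v - f (fun _ => δ)) / a)
      have hmem : (fun _ => δ : ↥P → ℝ) + (n : ℝ) • (Pi.single p 1 : ↥P → ℝ) ∈ Q := by
        intro q
        simp only [Pi.add_apply, Pi.smul_apply, smul_eq_mul]
        have : 0 ≤ (n : ℝ) * (Pi.single p (1:ℝ) : ↥P → ℝ) q := by
          apply mul_nonneg (Nat.cast_nonneg n)
          by_cases h : q = p
          · subst h; simp
          · simp [Pi.single_eq_of_ne h]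
        linarith
      have h1 := hfQ _ hmem
      rw [map_add, map_smul, smul_eq_mul, ← ha] at h1
      rw [div_lt_iff_of_neg hneg] at hn
      linarith
    set w : Pt → ℝ := fun p => if h : p ∈ P then f (Pi.single ⟨p, h⟩ 1) else 0 with hwdef
    have hw0 : ∀ p, 0 ≤ w p := by
      intro p
      simp only [hwdef]
      split_ifs with h
      · exact hw _
      · exact le_rfl
    obtain ⟨S, hS, hle⟩ := H w hw0
    have hwv : ∀ p : ↥P, w (p : Pt) = f (Pi.single p 1) := by
      intro p
      simp only [hwdef]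
      rw [dif_pos p.2]
    have e1 : f (fun _ => δ) = δ * ∑ p ∈ P, w p := by
      rw [dual_f_sum, ← Finset.mul_sum, ← Finset.sum_coe_sort P w]
      congr 1
      exact Finset.sum_congr rfl fun p _ => (hwv p).symm
    have e2 : f (dual_A P 𝒮 (Pi.single ⟨S, hS⟩ 1)) = ∑ p ∈ S ∩ P, w p := by
      rw [dual_f_sum]
      have : ∀ p : ↥P, dual_A P 𝒮 (Pi.single ⟨S, hS⟩ 1) p * f (Pi.single p 1)
          = if (p : Pt) ∈ S then w (p : Pt) else 0 := by
        intro p
        rw [dual_A_single, hwv p]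
        split_ifs <;> simp
      rw [Finset.sum_congr rfl fun p _ => this p]
      rw [Finset.sum_coe_sort P (fun p => if p ∈ S then w p else 0)]
      rw [← Finset.sum_filter, Finset.inter_comm]
      congr 1
    have h1 := hfK _ (Set.mem_image_of_mem (dual_A P 𝒮)
      (single_mem_stdSimplex ℝ (⟨S, hS⟩ : ↥𝒮)))
    have h2 := hfQ _ hcst
    rw [e2] at h1
    rw [e1] at h2
    linarith
  rw [Set.not_disjoint_iff] at hnd
  obtain ⟨x, ⟨l, hl, hlx⟩, hx⟩ := hnd
  set lam : Finset Pt → ℝ := fun S => if h : S ∈ 𝒮 then l ⟨S, h⟩ / δ else 0 with hlam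
  have hlamv : ∀ S : ↥𝒮, lam (S : Finset Pt) = l S / δ := by
    intro S
    simp only [hlam]
    rw [dif_pos S.2]
  refine ⟨lam, ?_, ?_, ?_⟩
  · intro S
    simp only [hlam]
    split_ifs with h
    · exact div_nonneg (hl.1 _) hδ.le
    · exact le_rfl
  · rw [← Finset.sum_coe_sort 𝒮 lam, Finset.sum_congr rfl fun S _ => hlamv S, ← Finset.sum_div, hl.2]
  · intro p hp
    have h1 := hx ⟨p, hp⟩
    rw [← hlx, dual_A_apply] at h1
    rw [Finset.sum_filter, ← Finset.sum_coe_sort 𝒮 (fun S => if p ∈ S then lam S else 0)]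
    have h2 : (∑ S : ↥𝒮, if p ∈ (S : Finset Pt) then lam (S : Finset Pt) else 0)
        = (∑ S : ↥𝒮, if p ∈ (S : Finset Pt) then l S else 0) / δ := by
      rw [Finset.sum_div]
      refine Finset.sum_congr rfl fun S _ => ?_
      rw [hlamv S]
      split_ifs <;> simp
    rw [h2, le_div_iff₀ hδ, one_mul]
    exact h1

end Pool.MP_992c01_co.NC
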