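import Pool.Agent.Lib.MP_992c01_co.Quarter

set_option autoImplicit false

/-! # MP_992c01_co : families of sets with small crossing number, averaging -/

namespace Pool.Agent.Lib.MP_992c01_co

open Classical in
/-- `6^d s` points in general position with different abscissas contain `4^d` sets of `s` points
such that every line crosses at most `3^d` of them. -/
theorem part (s : ℕ) (hs : 1 ≤ s) : ∀ (d : ℕ) (X : Finset Pt), GP X →
    Set.InjOn Prod.fst (X : Set Pt) → 6 ^ d * s ≤ X.card →
    ∃ (ι : Type) (_ : Fintype ι) (F : ι → Finset Pt), Fintype.card ι = 4 ^ d ∧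
      (∀ i, F i ⊆ X) ∧ (∀ i, (F i).card = s) ∧
      ∀ p q : Pt, (Finset.univ.filter (fun i => Crosses p q (F i))).card ≤ 3 ^ d := by
  intro d
  induction d with
  | zero =>
    intro X _ _ hX
    obtain ⟨S, hS, hc⟩ := Finset.exists_subset_card_eq (s := X) (n := s) (by simpa using hX)
    refine ⟨Unit, inferInstance, fun _ => S, by simp, fun _ => hS, fun _ => hc, ?_⟩
    intro p q
    refine (Finset.card_le_univ _).trans (by simp)
  | succ d ih =>
    intro X gp hinj hX
    have h1 : 1 ≤ 6 ^ d * s := Nat.one_le_iff_ne_zero.mpr (by positivity)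
    obtain ⟨S, hS, hc, hq⟩ := quarter X gp hinj (6 ^ d * s) h1 (by rw [pow_succ] at hX; linarith)
    have hex := fun i => ih (S i) (gp.mono (hS i))
      (hinj.mono (Finset.coe_subset.mpr (hS i))) (hc i)
    choose ι inst F hcard hsub hFs hcr using hex
    refine ⟨Σ i, ι i, inferInstance, fun x => F x.1 x.2, ?_, ?_, ?_, ?_⟩
    · rw [Fintype.card_sigma]
      simp only [hcard, Finset.sum_const, Finset.card_univ, Fintype.card_fin, smul_eq_mul]
      rw [pow_succ]; ring
    · intro x; exact (hsub x.1 x.2).trans (hS x.1)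
    · intro x; exact hFs x.1 x.2
    · intro p q
      obtain ⟨i0, hi0⟩ := hq p q
      have e1 : (Finset.univ.filter (fun x : (Σ i, ι i) => Crosses p q (F x.1 x.2))).card =
          ∑ i, (Finset.univ.filter (fun j : ι i => Crosses p q (F i j))).card := by
        rw [Finset.card_filter, Fintype.sum_sigma]
        apply Finset.sum_congr rfl
        intro i _
        rw [Finset.card_filter]
      rw [e1]
      have e2 : (Finset.univ.filter (fun j : ι i0 => Crosses p q (F i0 j))).card = 0 := by
        rw [Finset.card_eq_zero, Finset.filter_eq_empty_iff]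
        intro j _ h
        exact hi0 (h.mono (hsub i0 j))
      rw [← Finset.add_sum_erase _ _ (Finset.mem_univ i0), e2, zero_add]
      refine (Finset.sum_le_sum fun i _ => hcr i p q).trans ?_
      rw [Finset.sum_const, Finset.card_erase_of_mem (Finset.mem_univ _), Finset.card_univ,
        Fintype.card_fin, smul_eq_mul, pow_succ]
      omega

theorem half_pairs (S : Finset Pt) (c : ℝ) :
    2 * ((S ×ˢ S).filter (fun q => |q.1.1 - c| < |q.2.1 - c|)).card ≤ S.card * S.card := by
  classical
  rw [← Finset.card_product, two_mul]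
  have e : ((S ×ˢ S).filter (fun q : Pt × Pt => |q.1.1 - c| < |q.2.1 - c|)).card =
      ((S ×ˢ S).filter (fun q : Pt × Pt => |q.2.1 - c| < |q.1.1 - c|)).card := by
    apply Finset.card_bij (fun q _ => Prod.swap q)
    · intro q hq
      simp only [Finset.mem_filter, Finset.mem_product, Prod.fst_swap, Prod.snd_swap] at hq ⊢
      exact ⟨⟨hq.1.2, hq.1.1⟩, hq.2⟩
    · intro a _ b _ h; exact Prod.swap_injective h
    · intro q hq
      refine ⟨Prod.swap q, ?_, by simp⟩
      simp only [Finset.mem_filter, Finset.mem_product, Prod.fst_swap, Prod.snd_swap] at hq ⊢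
      exact ⟨⟨hq.1.2, hq.1.1⟩, hq.2⟩
  nth_rewrite 2 [e]
  rw [← Finset.card_union_of_disjoint]
  · apply Finset.card_le_card
    apply Finset.union_subset <;> exact Finset.filter_subset _ _
  · rw [Finset.disjoint_left]
    intro q h1 h2
    rw [Finset.mem_filter] at h1 h2
    linarith [h1.2, h2.2]

open Classical in
theorem sum_Z {κ : Type} [Fintype κ] (c : ℝ) (S : Finset Pt) (G : κ → Finset Pt) (K : ℕ)
    (h : ∀ p q : Pt, (Finset.univ.filter (fun j => Crosses p q (G j))).card ≤ K) :
    2 * ∑ j, Z c S (G j) ≤ K * (S.card * S.card) := by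
  have e : ∀ j, Z c S (G j) = ∑ q ∈ (S ×ˢ S).filter (fun q => |q.1.1 - c| < |q.2.1 - c|),
      (if Crosses q.1 q.2 (G j) then 1 else 0) := by
    intro j
    rw [← Finset.card_filter, Finset.filter_filter]
    unfold Z
    congr 1
  simp only [e]
  rw [Finset.sum_comm]
  have : ∑ q ∈ (S ×ˢ S).filter (fun q => |q.1.1 - c| < |q.2.1 - c|),
      ∑ j, (if Crosses q.1 q.2 (G j) then 1 else 0) ≤
      ∑ q ∈ (S ×ˢ S).filter (fun q => |q.1.1 - c| < |q.2.1 - c|), K := by
    apply Finset.sum_le_sum
    intro q _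
    rw [← Finset.card_filter]
    exact h q.1 q.2
  rw [Finset.sum_const, smul_eq_mul] at this
  have h2 := half_pairs S c
  calc _ ≤ 2 * (((S ×ˢ S).filter (fun q => |q.1.1 - c| < |q.2.1 - c|)).card * K) :=
        Nat.mul_le_mul_left _ this
    _ = K * (2 * ((S ×ˢ S).filter (fun q => |q.1.1 - c| < |q.2.1 - c|)).card) := by ring
    _ ≤ K * (S.card * S.card) := Nat.mul_le_mul_left _ h2

open Classical in
/-- averaging over the pairs of sets. -/
theorem avg {ι κ : Type} [Fintype ι] [Fintype κ] (c : ℝ) (F : ι → Finset Pt) (G : κ → Finset Pt)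
    (s K M : ℕ) (hM : 1 ≤ M) (hι : Fintype.card ι = M) (hκ : Fintype.card κ = M)
    (hF : ∀ i, (F i).card = s) (hG : ∀ j, (G j).card = s)
    (hcF : ∀ p q : Pt, (Finset.univ.filter (fun i => Crosses p q (F i))).card ≤ K)
    (hcG : ∀ p q : Pt, (Finset.univ.filter (fun j => Crosses p q (G j))).card ≤ K) :
    ∃ i j, M * (Z c (F i) (G j) + Z c (G j) (F i)) ≤ K * (s * s) := by
  by_contra hc
  push Not at hc
  have h1 : ∑ i, 2 * ∑ j, Z c (F i) (G j) ≤ M * (K * (s * s)) := by
    refine (Finset.sum_le_sum fun i _ => sum_Z c (F i) G K hcG).trans ?_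
    simp only [hF, Finset.sum_const, Finset.card_univ, hι, smul_eq_mul]
    exact le_refl _
  have h2 : ∑ j, 2 * ∑ i, Z c (G j) (F i) ≤ M * (K * (s * s)) := by
    refine (Finset.sum_le_sum fun j _ => sum_Z c (G j) F K hcF).trans ?_
    simp only [hG, Finset.sum_const, Finset.card_univ, hκ, smul_eq_mul]
    exact le_refl _
  rw [← Finset.mul_sum] at h1 h2
  rw [Finset.sum_comm] at h2
  have h3 : ∑ i : ι, ∑ j : κ, (K * (s * s) + 1) ≤
      ∑ i, ∑ j, M * (Z c (F i) (G j) + Z c (G j) (F i)) := by
    apply Finset.sum_le_sum; intro i _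
    apply Finset.sum_le_sum; intro j _
    exact hc i j
  simp only [← Finset.mul_sum, Finset.sum_add_distrib, Finset.sum_const, Finset.card_univ, hι, hκ,
    smul_eq_mul] at h3
  have h4 : M * (∑ i, ∑ j, Z c (F i) (G j) + ∑ i, ∑ j, Z c (G j) (F i)) ≤
      M * (M * (K * (s * s))) := Nat.mul_le_mul_left _ (by linarith)
  have h5 : M * (M * (K * (s * s))) < M * (M * (K * (s * s))) + M * (M * 1) := by
    have : 0 < M * (M * 1) := by positivity
    omega
  linarith

end Pool.Agent.Lib.MP_992c01_co
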