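import Pool.Agent.Lib.MP_992c01_co.Geo

set_option autoImplicit false

namespace Pool.Agent.Lib.MP_992c01_co

/-- transposition of the plane exchanging `a` and `b`. -/
noncomputable def swp (a b x : Pt) : Pt := by
  classical exact if x = a then b else if x = b then a else x

theorem swp_left (a b : Pt) : swp a b a = b := by
  unfold swp; simp

theorem swp_right (a b : Pt) : swp a b b = a := by
  unfold swp
  by_cases h : b = a
  · simp [h]
  · simp [h]

theorem swp_other {a b x : Pt} (h1 : x ≠ a) (h2 : x ≠ b) : swp a b x = x := by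
  unfold swp; simp [h1, h2]

theorem swp_swp (a b x : Pt) : swp a b (swp a b x) = x := by
  by_cases h1 : x = a
  · subst h1; rw [swp_left, swp_right]
  · by_cases h2 : x = b
    · subst h2; rw [swp_right, swp_left]
    · rw [swp_other h1 h2, swp_other h1 h2]

theorem swp_inj (a b : Pt) : Function.Injective (swp a b) := by
  intro x y h
  have := congrArg (swp a b) h
  rwa [swp_swp, swp_swp] at this

/-- State of the walk of the pedestrians: current position, forbidden points. -/
structure St where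
  pos : Pt → Pt
  forb : Pt → Pt → Prop

/-- the event `e` may be used. -/
def Allowed (e : Pt × Pt) (σ : St) : Prop :=
  ∀ i, (σ.pos i = e.1 → ¬ σ.forb i e.2) ∧ (σ.pos i = e.2 → ¬ σ.forb i e.1)

/-- one event. -/
noncomputable def stp (e : Pt × Pt) (σ : St) : St := by
  classical exact
    if Allowed e σ then
      ⟨fun i => swp e.1 e.2 (σ.pos i),
        fun i p => σ.forb i p ∨ ((σ.pos i = e.1 ∨ σ.pos i = e.2) ∧ Bel e.1 e.2 p)⟩
    else σ

/-- the process. -/
noncomputable def st (ev : ℕ → Pt × Pt) : ℕ → St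
  | 0 => ⟨id, fun _ _ => False⟩
  | n + 1 => stp (ev n) (st ev n)

/-- position of pedestrian `i` before event `n`. -/
noncomputable def P (ev : ℕ → Pt × Pt) (n : ℕ) (i : Pt) : Pt := (st ev n).pos i

/-- the event `n` is used. -/
def Al (ev : ℕ → Pt × Pt) (n : ℕ) : Prop := Allowed (ev n) (st ev n)

/-- pedestrian `i` moves at event `n`. -/
def Mv (ev : ℕ → Pt × Pt) (i : Pt) (n : ℕ) : Prop :=
  Al ev n ∧ (P ev n i = (ev n).1 ∨ P ev n i = (ev n).2)

section
variable {ev : ℕ → Pt × Pt}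

theorem P_zero (i : Pt) : P ev 0 i = i := rfl

theorem P_succ_al {n : ℕ} (h : Al ev n) (i : Pt) :
    P ev (n + 1) i = swp (ev n).1 (ev n).2 (P ev n i) := by
  have h' : Allowed (ev n) (st ev n) := h
  show (stp (ev n) (st ev n)).pos i = _
  unfold stp
  rw [if_pos h']
  rfl

theorem P_succ_nal {n : ℕ} (h : ¬ Al ev n) (i : Pt) : P ev (n + 1) i = P ev n i := by
  have h' : ¬ Allowed (ev n) (st ev n) := h
  show (stp (ev n) (st ev n)).pos i = _
  unfold stp
  rw [if_neg h']
  rfl

theorem P_inj (n : ℕ) : Function.Injective (P ev n) := by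
  induction n with
  | zero => intro x y h; simpa [P_zero] using h
  | succ n ih =>
    intro x y h
    by_cases ha : Al ev n
    · rw [P_succ_al ha, P_succ_al ha] at h
      exact ih (swp_inj _ _ h)
    · rw [P_succ_nal ha, P_succ_nal ha] at h
      exact ih h

theorem forb_iff (n : ℕ) (i p : Pt) :
    (st ev n).forb i p ↔ ∃ r < n, Mv ev i r ∧ Bel (ev r).1 (ev r).2 p := by
  induction n with
  | zero =>
    show False ↔ _
    simp
  | succ n ih =>
    show (stp (ev n) (st ev n)).forb i p ↔ _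
    unfold stp
    by_cases ha : Allowed (ev n) (st ev n)
    · rw [if_pos ha]
      show ((st ev n).forb i p ∨ _) ↔ _
      rw [ih]
      constructor
      · rintro (⟨r, hr, h1, h2⟩ | ⟨h1, h2⟩)
        · exact ⟨r, by omega, h1, h2⟩
        · exact ⟨n, by omega, ⟨ha, h1⟩, h2⟩
      · rintro ⟨r, hr, h1, h2⟩
        by_cases hrn : r = n
        · subst hrn; exact Or.inr ⟨h1.2, h2⟩
        · exact Or.inl ⟨r, by omega, h1, h2⟩
    · rw [if_neg ha, ih]
      constructor
      · rintro ⟨r, hr, h1, h2⟩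
        exact ⟨r, by omega, h1, h2⟩
      · rintro ⟨r, hr, h1, h2⟩
        by_cases hrn : r = n
        · subst hrn; exact absurd h1.1 ha
        · exact ⟨r, by omega, h1, h2⟩

theorem P_succ_nmv {n : ℕ} {i : Pt} (h : ¬ Mv ev i n) : P ev (n + 1) i = P ev n i := by
  by_cases ha : Al ev n
  · rw [P_succ_al ha]
    have h1 : P ev n i ≠ (ev n).1 := fun h' => h ⟨ha, Or.inl h'⟩
    have h2 : P ev n i ≠ (ev n).2 := fun h' => h ⟨ha, Or.inr h'⟩
    exact swp_other h1 h2
  · exact P_succ_nal ha i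

theorem P_succ_mv {n : ℕ} {i : Pt} (h : Mv ev i n) :
    (P ev n i = (ev n).1 ∧ P ev (n + 1) i = (ev n).2) ∨
    (P ev n i = (ev n).2 ∧ P ev (n + 1) i = (ev n).1) := by
  rcases h with ⟨ha, h | h⟩
  · left; refine ⟨h, ?_⟩; rw [P_succ_al ha, h, swp_left]
  · right; refine ⟨h, ?_⟩; rw [P_succ_al ha, h, swp_right]

theorem P_const {i : Pt} {r s : ℕ} (hrs : r ≤ s) (h : ∀ u, r ≤ u → u < s → ¬ Mv ev i u) :
    P ev s i = P ev r i := by
  induction s, hrs using Nat.le_induction with
  | base => rfl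
  | succ s hs ih =>
    rw [P_succ_nmv (h s hs (by omega))]
    exact ih (fun u h1 h2 => h u h1 (by omega))

/-- destinations are never strictly below an earlier line. -/
theorem dest_not_bel {i : Pt} {r u : ℕ} (hru : r < u) (hr : Mv ev i r) (hu : Mv ev i u) :
    ¬ Bel (ev r).1 (ev r).2 (P ev (u + 1) i) := by
  intro hb
  have ha : Allowed (ev u) (st ev u) := hu.1
  rcases P_succ_mv hu with ⟨h1, h2⟩ | ⟨h1, h2⟩
  · rw [h2] at hb
    exact (ha i).1 h1 ((forb_iff u i _).mpr ⟨r, hru, hr, hb⟩)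
  · rw [h2] at hb
    exact (ha i).2 h1 ((forb_iff u i _).mpr ⟨r, hru, hr, hb⟩)

theorem P_mem {V : Finset Pt} {N : ℕ} (hev : ∀ n < N, (ev n).1 ∈ V ∧ (ev n).2 ∈ V)
    {i : Pt} (hi : i ∈ V) : ∀ n ≤ N, P ev n i ∈ V := by
  intro n
  induction n with
  | zero => intro _; exact hi
  | succ n ih =>
    intro hn
    by_cases hm : Mv ev i n
    · rcases P_succ_mv hm with ⟨_, h2⟩ | ⟨_, h2⟩
      · rw [h2]; exact (hev n (by omega)).2
      · rw [h2]; exact (hev n (by omega)).1
    · rw [P_succ_nmv hm]; exact ih (by omega)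

end

/-- The hypotheses on the list of events. -/
structure Setup (c : ℝ) (A B : Finset Pt) (N : ℕ) (ev : ℕ → Pt × Pt) : Prop where
  hA : ∀ a ∈ A, a.1 < c
  hB : ∀ b ∈ B, c < b.1
  gp : ∀ x, (x ∈ A ∨ x ∈ B) → ∀ y, (y ∈ A ∨ y ∈ B) → ∀ z, (z ∈ A ∨ z ∈ B) →
    x ≠ y → x ≠ z → y ≠ z → orient x y z ≠ 0
  mA : ∀ n < N, (ev n).1 ∈ A
  mB : ∀ n < N, (ev n).2 ∈ B
  inj : ∀ m < N, ∀ n < N, ev m = ev n → m = n
  mono : ∀ m n, m ≤ n → n < N → ht c (ev m).1 (ev m).2 ≤ ht c (ev n).1 (ev n).2

section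
variable {c : ℝ} {A B : Finset Pt} {N : ℕ} {ev : ℕ → Pt × Pt}

theorem Setup.opp (S : Setup c A B N ev) {n : ℕ} (hn : n < N) : Opp c (ev n).1 (ev n).2 :=
  Or.inl ⟨S.hA _ (S.mA n hn), S.hB _ (S.mB n hn)⟩

/-- The event `n` joins the positions of `i` before and after (if `i` moves). -/
theorem Setup.mv_data (S : Setup c A B N ev) {n : ℕ} (hn : n < N) {i : Pt} (h : Mv ev i n) :
    Opp c (P ev n i) (P ev (n + 1) i) ∧
    ht c (ev n).1 (ev n).2 = ht c (P ev n i) (P ev (n + 1) i) ∧
    (∀ p, Bel (ev n).1 (ev n).2 p ↔ Bel (P ev n i) (P ev (n + 1) i) p) ∧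
    (P ev n i ∈ A ∨ P ev n i ∈ B) ∧ (P ev (n + 1) i ∈ A ∨ P ev (n + 1) i ∈ B) := by
  rcases P_succ_mv h with ⟨h1, h2⟩ | ⟨h1, h2⟩
  · rw [h1, h2]
    exact ⟨S.opp hn, rfl, fun p => Iff.rfl, Or.inl (S.mA n hn), Or.inr (S.mB n hn)⟩
  · rw [h1, h2]
    exact ⟨(S.opp hn).symm, ht_symm _ _ _, fun p => Bel_symm, Or.inr (S.mB n hn),
      Or.inl (S.mA n hn)⟩

/-- Data of the charge of a blocked event. -/
structure Chg (c : ℝ) (A B : Finset Pt) (ev : ℕ → Pt × Pt) (s : ℕ) (i v p : Pt) (r r' : ℕ) :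
    Prop where
  cur : (P ev s i = (ev s).1 ∧ p = (ev s).2) ∨ (P ev s i = (ev s).2 ∧ p = (ev s).1)
  rr' : r < r'
  r's : r' < s
  mr : Mv ev i r
  mr' : Mv ev i r'
  btw : ∀ u, r < u → u < r' → ¬ Mv ev i u
  vr : P ev (r + 1) i = v
  vr' : P ev r' i = v
  belr : Bel (ev r).1 (ev r).2 p
  last : ∀ u, r < u → u < s → Mv ev i u → ¬ Bel (ev u).1 (ev u).2 p
  same : Same c v p
  dist : |v.1 - c| < |p.1 - c|
  h1 : ht c (ev r).1 (ev r).2 < ht c v p
  h2 : ht c v p < ht c (ev r').1 (ev r').2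
  crs : ∃ x, ∃ y, (x ∈ A ∨ x ∈ B) ∧ (y ∈ A ∨ y ∈ B) ∧ Opp c v x ∧ Opp c v y ∧
    orient v p x * orient v p y < 0

theorem Setup.charge (S : Setup c A B N ev) {s : ℕ} (hs : s < N) (hb : ¬ Al ev s) :
    ∃ i v p r r', Chg c A B ev s i v p r r' := by
  classical
  -- the blocked pair
  have h0 : ∃ i p, ((P ev s i = (ev s).1 ∧ p = (ev s).2) ∨ (P ev s i = (ev s).2 ∧ p = (ev s).1)) ∧
      (st ev s).forb i p := by
    unfold Al Allowed at hb
    push Not at hb
    obtain ⟨i, hi⟩ := hb
    by_cases h : (st ev s).pos i = (ev s).1 → ¬ (st ev s).forb i (ev s).2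
    · obtain ⟨h1, h2⟩ := hi h
      exact ⟨i, (ev s).1, Or.inr ⟨h1, rfl⟩, h2⟩
    · push Not at h
      exact ⟨i, (ev s).2, Or.inl ⟨h.1, rfl⟩, h.2⟩
  obtain ⟨i, p, hcur, hf⟩ := h0
  rw [forb_iff] at hf
  -- last index
  obtain ⟨r, hrs, hmr, hbr, hlast⟩ : ∃ r < s, Mv ev i r ∧ Bel (ev r).1 (ev r).2 p ∧
      ∀ u, r < u → u < s → Mv ev i u → ¬ Bel (ev u).1 (ev u).2 p := by
    let F := (Finset.range s).filter (fun r => Mv ev i r ∧ Bel (ev r).1 (ev r).2 p)
    have hF : F.Nonempty := by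
      obtain ⟨r, h1, h2, h3⟩ := hf
      exact ⟨r, by simp [F, h1, h2, h3]⟩
    refine ⟨F.max' hF, ?_, ?_, ?_, ?_⟩
    · have := F.max'_mem hF
      simp only [F, Finset.mem_filter, Finset.mem_range] at this
      exact this.1
    · have := F.max'_mem hF
      simp only [F, Finset.mem_filter, Finset.mem_range] at this
      exact this.2.1
    · have := F.max'_mem hF
      simp only [F, Finset.mem_filter, Finset.mem_range] at this
      exact this.2.2
    · intro u hu1 hu2 hu3 hu4
      have : u ∈ F := by simp [F, hu2, hu3, hu4]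
      have := F.le_max' u this
      omega
  have hrN : r < N := by omega
  obtain ⟨oppr, htr, belr, memr, memr1⟩ := S.mv_data hrN hmr
  -- `p` is opposite to the current position
  have hop : Opp c (P ev s i) p := by
    rcases hcur with ⟨h1, h2⟩ | ⟨h1, h2⟩
    · rw [h1, h2]; exact S.opp hs
    · rw [h1, h2]; exact (S.opp hs).symm
  have hhs : ht c (ev s).1 (ev s).2 = ht c (P ev s i) p := by
    rcases hcur with ⟨h1, h2⟩ | ⟨h1, h2⟩
    · rw [h1, h2]
    · rw [h1, h2]; exact ht_symm _ _ _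
  have hpm : p ∈ A ∨ p ∈ B := by
    rcases hcur with ⟨h1, h2⟩ | ⟨h1, h2⟩
    · rw [h2]; exact Or.inr (S.mB s hs)
    · rw [h2]; exact Or.inl (S.mA s hs)
  -- there is a next move
  have hnext : ∃ r', r < r' ∧ r' < s ∧ Mv ev i r' ∧ ∀ u, r < u → u < r' → ¬ Mv ev i u := by
    by_contra hno
    have hnm : ∀ u, r + 1 ≤ u → u < s → ¬ Mv ev i u := by
      intro u h1 h2 h3
      -- least move after `r`
      have hex : ∃ u, r < u ∧ u < s ∧ Mv ev i u := ⟨u, by omega, h2, h3⟩
      let u0 := Nat.find hex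
      have hu0 := Nat.find_spec hex
      exact hno ⟨u0, hu0.1, hu0.2.1, hu0.2.2, fun w hw1 hw2 hw3 =>
        Nat.find_min hex hw2 ⟨hw1, by omega, hw3⟩⟩
    have hc : P ev s i = P ev (r + 1) i := P_const (by omega) hnm
    rw [belr] at hbr
    rw [hc] at hop hhs
    have hb2 : Bel (P ev (r + 1) i) (P ev r i) p := Bel_symm.mp hbr
    have h3 := (Bel_iff_ht hop oppr.symm).mp hb2
    have h4 := S.mono r s hrs.le hs
    rw [htr, hhs, ht_symm c (P ev r i)] at h4
    linarith
  obtain ⟨r', hrr', hr's, hmr', hbtw⟩ := hnext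
  have hr'N : r' < N := by omega
  obtain ⟨oppr', htr', belr', memr', memr1'⟩ := S.mv_data hr'N hmr'
  have hv : P ev r' i = P ev (r + 1) i :=
    P_const (by omega) (fun u h1 h2 => hbtw u (by omega) h2)
  set v := P ev (r + 1) i with hvdef
  rw [hv] at oppr' htr' belr' memr'
  -- `p` is different from `v` and from the next position
  have hpv : p ≠ v := by
    rintro rfl
    rw [belr] at hbr
    exact not_Bel_right _ _ hbr
  have hpn : p ≠ P ev (r' + 1) i := by
    rintro rfl
    exact dest_not_bel hrr' hmr hmr' hbr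
  have hnb' : ¬ Bel v (P ev (r' + 1) i) p := by
    rw [← belr']
    exact hlast r' hrr' hr's hmr'
  have hab' : Abv v (P ev (r' + 1) i) p := by
    refine Abv_of_not_Bel oppr'.ne1 ?_ hnb'
    exact S.gp _ memr' _ memr1' _ hpm oppr'.ne (Ne.symm hpv) (Ne.symm hpn)
  have hbv : Bel v (P ev r i) p := Bel_symm.mp ((belr p).mp hbr)
  have hmono : ht c v (P ev r i) ≤ ht c v (P ev (r' + 1) i) := by
    have h4 := S.mono r r' hrr'.le hr'N
    rw [htr, htr', ht_symm c (P ev r i)] at h4
    exact h4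
  -- `p` is on the side of `v`
  have hsame : Same c v p := by
    have hvside : v.1 < c ∨ c < v.1 := by
      rcases oppr' with h | h
      · exact Or.inl h.1
      · exact Or.inr h.2
    have hpside : p.1 < c ∨ c < p.1 := by
      rcases hop with h | h
      · exact Or.inr h.2
      · exact Or.inl h.1
    by_contra hns
    have hopv : Opp c v p := by
      unfold Same at hns
      unfold Opp
      tauto
    have h3 := (Bel_iff_ht hopv oppr.symm).mp hbv
    have h4 := ht_lt_of_Abv hopv oppr' hab'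
    linarith
  obtain ⟨g1, g2, g3, g4⟩ := charge_geo hsame oppr.symm oppr' hmono hbv hab'
  refine ⟨i, v, p, r, r', ⟨hcur, hrr', hr's, hmr, hmr', hbtw, hvdef.symm, hv, hbr, hlast, hsame, g1,
    ?_, ?_, ?_⟩⟩
  · rw [htr, ht_symm c (P ev r i)]; exact g2
  · rw [htr']; exact g3
  · exact ⟨P ev r i, P ev (r' + 1) i, memr, memr1', oppr.symm, oppr', g4⟩

/-- charges of different events are different. -/
theorem Setup.charge_inj (S : Setup c A B N ev) {s t : ℕ} (hst : s < t) (ht' : t < N)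
    (hbs : ¬ Al ev s) {i j v p : Pt} {r r' q q' : ℕ}
    (h1 : Chg c A B ev s i v p r r') (h2 : Chg c A B ev t j v p q q') : False := by
  classical
  have hmono := S.mono
  have a1 := h1.rr'
  have a2 := h1.r's
  have a3 := h2.rr'
  have a4 := h2.r's
  -- overlap of the time intervals
  have o1 : q < r' := by
    by_contra h
    have := hmono r' q (by omega) (by omega)
    linarith [h1.h2, h2.h1]
  have o2 : r < q' := by
    by_contra h
    have := hmono q' r (by omega) (by omega)
    linarith [h2.h2, h1.h1]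
  -- the same pedestrian
  have hij : i = j := by
    have e1 : P ev (max r q + 1) i = v := by
      rw [← h1.vr]
      refine P_const (by omega) (fun u hu1 hu2 => h1.btw u (by omega) (by omega))
    have e2 : P ev (max r q + 1) j = v := by
      rw [← h2.vr]
      refine P_const (by omega) (fun u hu1 hu2 => h2.btw u (by omega) (by omega))
    exact P_inj _ (e1.trans e2.symm)
  subst hij
  have hrq : r = q := by
    rcases lt_trichotomy r q with h | h | h
    · exact absurd h2.mr (h1.btw q h o1)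
    · exact h
    · exact absurd h1.mr (h2.btw r h o2)
  subst hrq
  have hsN : s < N := by omega
  -- positions at `s` and `t` differ
  have hpc : P ev s i ≠ P ev t i := by
    intro he
    have hps : p.1 < c ∨ c < p.1 := by
      rcases h1.same with h | h
      · exact Or.inl h.2
      · exact Or.inr h.2
    have hevs : ev s = ev t := by
      have k1 := S.hA _ (S.mA s hsN)
      have k2 := S.hB _ (S.mB s hsN)
      have k3 := S.hA _ (S.mA t ht')
      have k4 := S.hB _ (S.mB t ht')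
      rcases h1.cur with ⟨b1, b2⟩ | ⟨b1, b2⟩
      · rcases h2.cur with ⟨b3, b4⟩ | ⟨b3, b4⟩
        · exact Prod.ext (b1.symm.trans (he.trans b3)) (b2.symm.trans b4)
        · exfalso; rw [← b2] at k2; rw [← b4] at k3; linarith
      · rcases h2.cur with ⟨b3, b4⟩ | ⟨b3, b4⟩
        · exfalso; rw [← b2] at k1; rw [← b4] at k4; linarith
        · exact Prod.ext (b2.symm.trans b4) (b1.symm.trans (he.trans b3))
    exact absurd (S.inj s hsN t ht' hevs) (by omega)
  -- first move after `s`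
  have hex : ∃ u, s ≤ u ∧ u < t ∧ Mv ev i u := by
    by_contra hno
    push Not at hno
    exact hpc (P_const hst.le (fun u hu1 hu2 => hno u hu1 hu2)).symm
  let u := Nat.find hex
  have hu := Nat.find_spec hex
  have hmin : ∀ w, s ≤ w → w < u → ¬ Mv ev i w := fun w hw1 hw2 hw3 =>
    Nat.find_min hex hw2 ⟨hw1, lt_trans hw2 hu.2.1, hw3⟩
  have hus : s < u := by
    rcases lt_or_eq_of_le hu.1 with h | h
    · exact h
    · exfalso
      have hmv : Mv ev i s := by
        have := hu.2.2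
        rw [← h] at this
        exact this
      exact hbs hmv.1
  have huN : u < N := lt_trans hu.2.1 ht'
  have hPu : P ev u i = P ev s i := P_const hus.le (fun w h3 h4 => hmin w h3 h4)
  obtain ⟨oppu, htu, belu, memu, memu1⟩ := S.mv_data huN hu.2.2
  rw [hPu] at oppu htu belu memu
  have hop : Opp c (P ev s i) p := by
    rcases h1.cur with ⟨b1, b2⟩ | ⟨b1, b2⟩
    · rw [b1, b2]; exact S.opp hsN
    · rw [b1, b2]; exact (S.opp hsN).symm
  have hhs : ht c (ev s).1 (ev s).2 = ht c (P ev s i) p := by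
    rcases h1.cur with ⟨b1, b2⟩ | ⟨b1, b2⟩
    · rw [b1, b2]
    · rw [b1, b2]; exact ht_symm _ _ _
  have hpm : p ∈ A ∨ p ∈ B := by
    rcases h1.cur with ⟨b1, b2⟩ | ⟨b1, b2⟩
    · rw [b2]; exact Or.inr (S.mB s hsN)
    · rw [b2]; exact Or.inl (S.mA s hsN)
  have hpw : p ≠ P ev (u + 1) i := by
    intro he
    have hevs : ev s = ev u := by
      have k1 := S.hA _ (S.mA s hsN)
      have k2 := S.hB _ (S.mB s hsN)
      have k3 := S.hA _ (S.mA u huN)
      have k4 := S.hB _ (S.mB u huN)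
      rcases P_succ_mv hu.2.2 with ⟨b3, b4⟩ | ⟨b3, b4⟩
      · rcases h1.cur with ⟨b1, b2⟩ | ⟨b1, b2⟩
        · exact Prod.ext (b1.symm.trans (hPu.symm.trans b3)) (b2.symm.trans (he.trans b4))
        · exfalso
          have : p = (ev u).2 := he.trans b4
          rw [← b2] at k1; rw [← this] at k4; linarith
      · rcases h1.cur with ⟨b1, b2⟩ | ⟨b1, b2⟩
        · exfalso
          have : p = (ev u).1 := he.trans b4
          rw [← b2] at k2; rw [← this] at k3; linarith
        · exact Prod.ext (b2.symm.trans (he.trans b4)) (b1.symm.trans (hPu.symm.trans b3))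
    exact absurd (S.inj s hsN u huN hevs) (by omega)
  have hle : ht c (P ev s i) p ≤ ht c (P ev s i) (P ev (u + 1) i) := by
    have := hmono s u hus.le huN
    rwa [hhs, htu] at this
  have hbel : Bel (P ev s i) (P ev (u + 1) i) p :=
    Bel_of_ht_le hop oppu (S.gp _ memu _ memu1 _ hpm oppu.ne hop.ne (Ne.symm hpw)) hle
  exact h2.last u (by omega) hu.2.1 hu.2.2 ((belu p).mpr hbel)

end

end Pool.Agent.Lib.MP_992c01_co
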