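import Pool.Agent.Lib.MP_992c01_co.Core

set_option autoImplicit false

/-! # MP_992c01_co : quartering a point set by two lines -/

namespace Pool.Agent.Lib.MP_992c01_co

/-- general position: no three collinear points. -/
def GP (X : Finset Pt) : Prop :=
  ∀ x ∈ X, ∀ y ∈ X, ∀ z ∈ X, x ≠ y → x ≠ z → y ≠ z → orient x y z ≠ 0

theorem GP.mono {X Y : Finset Pt} (h : GP X) (hY : Y ⊆ X) : GP Y :=
  fun x hx y hy z hz => h x (hY hx) y (hY hy) z (hY hz)

theorem Crosses.mono {p q : Pt} {S T : Finset Pt} (h : Crosses p q S) (hS : S ⊆ T) :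
    Crosses p q T := by
  obtain ⟨x, hx, y, hy, h⟩ := h
  exact ⟨x, hS hx, y, hS hy, h⟩

/-- For an injective real function on a finite set all ranks occur. -/
theorem exists_rank {α : Type*} (R : Finset α) (f : α → ℝ) (hf : Set.InjOn f (R : Set α)) (t : ℕ)
    (ht : t < R.card) : ∃ w ∈ R, (R.filter (fun z => f z < f w)).card = t := by
  classical
  have hmono : ∀ w ∈ R, ∀ w' ∈ R, f w < f w' →
      (R.filter (fun z => f z < f w)).card < (R.filter (fun z => f z < f w')).card := by
    intro w hw w' hw' h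
    apply Finset.card_lt_card
    rw [Finset.ssubset_iff_of_subset]
    · refine ⟨w, ?_, ?_⟩
      · simp [hw, h]
      · simp
    · intro z hz
      rw [Finset.mem_filter] at hz ⊢
      exact ⟨hz.1, hz.2.trans h⟩
  have hinj : Set.InjOn (fun w => (R.filter (fun z => f z < f w)).card) (R : Set α) := by
    intro w hw w' hw' h
    by_contra hne
    have h1 : f w ≠ f w' := fun h2 => hne (hf hw hw' h2)
    rcases lt_or_gt_of_ne h1 with h2 | h2
    · exact (hmono w hw w' hw' h2).ne h
    · exact (hmono w' hw' w hw h2).ne' h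
  have hmap : Set.MapsTo (fun w => (R.filter (fun z => f z < f w)).card) (R : Set α)
      (Finset.range R.card : Set ℕ) := by
    intro w hw
    rw [Finset.mem_coe, Finset.mem_range]
    apply Finset.card_lt_card
    rw [Finset.ssubset_iff_of_subset (Finset.filter_subset _ _)]
    exact ⟨w, hw, by simp⟩
  have hsurj := Finset.surjOn_of_injOn_of_card_le _ hmap hinj (by simp)
  obtain ⟨w, hw, h⟩ := hsurj (Finset.mem_coe.mpr (Finset.mem_range.mpr ht))
  exact ⟨w, hw, h⟩

theorem tour1 {α : Type*} [DecidableEq α] (A : Finset α) (r : α → α → Prop)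
    [∀ x, DecidablePred (r x)]
    (h : ∀ x ∈ A, ∀ y ∈ A, x ≠ y → r x y ∨ r y x) (hne : A.Nonempty) :
    ∃ x ∈ A, A.card ≤ 2 * (A.filter (fun y => y ≠ x ∧ r x y)).card + 1 := by
  by_contra hc
  push Not at hc
  have e1 : ∑ x ∈ A, ∑ y ∈ A, (if x ≠ y then 1 else 0) ≤
      ∑ x ∈ A, ∑ y ∈ A, ((if y ≠ x ∧ r x y then 1 else 0) + (if x ≠ y ∧ r y x then 1 else 0)) := by
    apply Finset.sum_le_sum; intro x hx
    apply Finset.sum_le_sum; intro y hy
    by_cases hxy : x = y
    · simp [hxy]
    · rcases h x hx y hy hxy with h1 | h1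
      · simp [hxy, Ne.symm hxy, h1]
      · simp [hxy, Ne.symm hxy, h1]
  have e2 : ∑ x ∈ A, ∑ y ∈ A, ((if y ≠ x ∧ r x y then 1 else 0) +
      (if x ≠ y ∧ r y x then 1 else 0)) =
      2 * ∑ x ∈ A, (A.filter (fun y => y ≠ x ∧ r x y)).card := by
    simp only [Finset.sum_add_distrib]
    rw [Finset.sum_comm (s := A) (t := A) (f := fun x y => if x ≠ y ∧ r y x then 1 else 0)]
    rw [two_mul]
    simp only [Finset.card_filter]
  have e3 : ∑ x ∈ A, ∑ y ∈ A, (if x ≠ y then 1 else 0) + A.card = A.card * A.card := by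
    have : ∀ x ∈ A, ∑ y ∈ A, (if x ≠ y then 1 else 0) + 1 = A.card := by
      intro x hx
      have : ∑ y ∈ A, (if x ≠ y then 1 else 0) + ∑ y ∈ A, (if x = y then 1 else 0) = A.card := by
        rw [← Finset.sum_add_distrib, Finset.card_eq_sum_ones]
        apply Finset.sum_congr rfl
        intro y _
        by_cases hxy : x = y <;> simp [hxy]
      rw [Finset.sum_ite_eq] at this
      simpa [hx] using this
    calc ∑ x ∈ A, ∑ y ∈ A, (if x ≠ y then 1 else 0) + A.card
        = ∑ x ∈ A, (∑ y ∈ A, (if x ≠ y then 1 else 0) + 1) := by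
          rw [Finset.sum_add_distrib]; simp
      _ = ∑ x ∈ A, A.card := Finset.sum_congr rfl this
      _ = A.card * A.card := by simp
  have e4 : ∑ x ∈ A, (2 * (A.filter (fun y => y ≠ x ∧ r x y)).card + 2) ≤ ∑ x ∈ A, A.card := by
    apply Finset.sum_le_sum
    intro x hx
    have := hc x hx
    omega
  rw [Finset.sum_add_distrib, ← Finset.mul_sum] at e4
  simp only [Finset.sum_const, smul_eq_mul] at e4
  have := Finset.card_pos.mpr hne
  omega

theorem tour2 {α : Type*} [DecidableEq α] (L : Finset α) (r : α → α → Prop)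
    [∀ x, DecidablePred (r x)]
    (h : ∀ x ∈ L, ∀ y ∈ L, x ≠ y → r x y ∨ r y x) (s : ℕ) (hs : 1 ≤ s) (hL : 4 * s ≤ L.card + 1) :
    ∃ x ∈ L, s ≤ (L.filter (fun y => y ≠ x ∧ r x y)).card ∧
      s ≤ (L.filter (fun y => y ≠ x ∧ r y x)).card := by
  by_contra hc
  push Not at hc
  have hA : (L.filter (fun x => (L.filter (fun y => y ≠ x ∧ r x y)).card < s)).card ≤ 2 * s - 1 := by
    rcases (L.filter (fun x => (L.filter (fun y => y ≠ x ∧ r x y)).card < s)).eq_empty_or_nonempty
      with h0 | h0
    · rw [h0]; simp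
    · obtain ⟨x, hx, h1⟩ := tour1 _ r (fun x hx y hy hxy =>
        h x (Finset.mem_filter.mp hx).1 y (Finset.mem_filter.mp hy).1 hxy) h0
      have h2 := (Finset.mem_filter.mp hx).2
      have h3 : ((L.filter (fun x => (L.filter (fun y => y ≠ x ∧ r x y)).card < s)).filter
          (fun y => y ≠ x ∧ r x y)).card ≤ (L.filter (fun y => y ≠ x ∧ r x y)).card :=
        Finset.card_le_card (Finset.filter_subset_filter _ (Finset.filter_subset _ _))
      omega
  have hB : (L.filter (fun x => (L.filter (fun y => y ≠ x ∧ r y x)).card < s)).card ≤ 2 * s - 1 := by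
    rcases (L.filter (fun x => (L.filter (fun y => y ≠ x ∧ r y x)).card < s)).eq_empty_or_nonempty
      with h0 | h0
    · rw [h0]; simp
    · obtain ⟨x, hx, h1⟩ := tour1 _ (fun x y => r y x) (fun x hx y hy hxy =>
        (h x (Finset.mem_filter.mp hx).1 y (Finset.mem_filter.mp hy).1 hxy).symm) h0
      have h2 := (Finset.mem_filter.mp hx).2
      have h3 : ((L.filter (fun x => (L.filter (fun y => y ≠ x ∧ r y x)).card < s)).filter
          (fun y => y ≠ x ∧ r y x)).card ≤ (L.filter (fun y => y ≠ x ∧ r y x)).card :=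
        Finset.card_le_card (Finset.filter_subset_filter _ (Finset.filter_subset _ _))
      omega
  have hU : L ⊆ L.filter (fun x => (L.filter (fun y => y ≠ x ∧ r x y)).card < s) ∪
      L.filter (fun x => (L.filter (fun y => y ≠ x ∧ r y x)).card < s) := by
    intro x hx
    rw [Finset.mem_union, Finset.mem_filter, Finset.mem_filter]
    by_cases h1 : (L.filter (fun y => y ≠ x ∧ r x y)).card < s
    · left; exact ⟨hx, h1⟩
    · right; exact ⟨hx, hc x hx (not_lt.mp h1)⟩
  have := (Finset.card_le_card hU).trans (Finset.card_union_le _ _)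
  omega

/-- Two lines through points on the left. -/
theorem aux_lines {x w x' w' z : Pt} (h1 : x.1 < w.1) (h2 : x'.1 < w'.1) (h3 : x.1 ≤ x'.1)
    (h4 : x'.1 ≤ z.1) (hx' : orient x w x' < 0) (hx : orient x' w' x < 0)
    (hz : orient x' w' z ≤ 0) : orient x w z < 0 := by
  have e : 0 < w.1 - x.1 := by linarith
  have e' : 0 < w'.1 - x'.1 := by linarith
  have id1 : ((w.1 - x.1) * orient x' w' z - (w'.1 - x'.1) * orient x w z) * (x'.1 - x.1) =
      (- (w'.1 - x'.1) * orient x w x') * (z.1 - x.1) -
        ((w.1 - x.1) * orient x' w' x) * (z.1 - x'.1) := by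
    unfold orient; ring
  have a1 : 0 < - (w'.1 - x'.1) * orient x w x' := by nlinarith
  have a2 : (w.1 - x.1) * orient x' w' x < 0 := by nlinarith
  rcases lt_or_eq_of_le h3 with h5 | h5
  · have a3 : 0 < (- (w'.1 - x'.1) * orient x w x') * (z.1 - x.1) := mul_pos a1 (by linarith)
    have a4 : ((w.1 - x.1) * orient x' w' x) * (z.1 - x'.1) ≤ 0 :=
      mul_nonpos_of_nonpos_of_nonneg a2.le (by linarith)
    have a5 : 0 < ((w.1 - x.1) * orient x' w' z - (w'.1 - x'.1) * orient x w z) := by
      by_contra h; push Not at h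
      have := mul_nonpos_of_nonpos_of_nonneg h (by linarith : (0:ℝ) ≤ x'.1 - x.1)
      linarith
    have a6 : (w.1 - x.1) * orient x' w' z ≤ 0 := mul_nonpos_of_nonneg_of_nonpos e.le hz
    by_contra h; push Not at h
    have := mul_nonneg e'.le h
    linarith
  · exfalso
    have id2 : (w.1 - x.1) * orient x' w' x + (w'.1 - x'.1) * orient x w x' =
        (x'.1 - x.1) * (-(w.1 - x.1) * (w'.2 - x'.2) * (-1) + (w'.1 - x'.1) * (w.2 - x.2) * (-1)) := by
      unfold orient; ring
    rw [h5, sub_self, zero_mul] at id2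
    rw [← h5] at id2
    nlinarith

theorem aux_lines' {x w x' w' z : Pt} (h1 : x.1 < w.1) (h2 : x'.1 < w'.1) (h3 : x.1 ≤ x'.1)
    (h4 : x'.1 ≤ z.1) (hx' : 0 < orient x w x') (hx : 0 < orient x' w' x)
    (hz : 0 ≤ orient x' w' z) : 0 < orient x w z := by
  -- reflect
  have r : ∀ a b c : Pt, orient (a.1, -a.2) (b.1, -b.2) (c.1, -c.2) = - orient a b c := by
    intro a b c; unfold orient; ring
  have := aux_lines (x := (x.1, -x.2)) (w := (w.1, -w.2)) (x' := (x'.1, -x'.2))
    (w' := (w'.1, -w'.2)) (z := (z.1, -z.2)) h1 h2 h3 h4 (by rw [r]; linarith) (by rw [r]; linarith)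
    (by rw [r]; linarith)
  rw [r] at this; linarith

/-- `w` halves `R` as seen from `x`. -/
def Halves (R : Finset Pt) (s : ℕ) (x w : Pt) : Prop := by
  classical
  exact w ∈ R ∧ (R.filter (fun z => orient x w z < 0)).card = s ∧
    (R.filter (fun z => 0 < orient x w z)).card = s

theorem exists_halves {R : Finset Pt} {s : ℕ} (hR : R.card = 2 * s + 1) {x : Pt}
    (hx : ∀ z ∈ R, x.1 < z.1)
    (gp : ∀ y ∈ R, ∀ z ∈ R, y ≠ z → orient x y z ≠ 0) : ∃ w, Halves R s x w := by
  classical
  have key : ∀ w ∈ R, ∀ z ∈ R,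
      ((z.2 - x.2) / (z.1 - x.1) < (w.2 - x.2) / (w.1 - x.1) ↔ orient x w z < 0) := by
    intro w hw z hz
    have h1 := hx w hw
    have h2 := hx z hz
    rw [div_lt_div_iff₀ (by linarith) (by linarith)]
    unfold orient
    constructor <;> intro h <;> nlinarith
  have hinj : Set.InjOn (fun z : Pt => (z.2 - x.2) / (z.1 - x.1)) (R : Set Pt) := by
    intro w hw z hz h
    by_contra hne
    have h1 := hx w hw
    have h2 := hx z hz
    apply gp w hw z hz hne
    have h3 : (w.2 - x.2) / (w.1 - x.1) = (z.2 - x.2) / (z.1 - x.1) := h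
    rw [div_eq_div_iff (by linarith) (by linarith)] at h3
    unfold orient; linarith
  obtain ⟨w, hw, h⟩ := exists_rank R (fun z => (z.2 - x.2) / (z.1 - x.1)) hinj s (by omega)
  have hb : (R.filter (fun z => orient x w z < 0)).card = s := by
    rw [← h]
    congr 1
    apply Finset.filter_congr
    intro z hz
    exact (key w hw z hz).symm
  refine ⟨w, hw, hb, ?_⟩
  have hpart : R = (R.filter (fun z => orient x w z < 0)) ∪
      (R.filter (fun z => 0 < orient x w z)) ∪ {w} := by
    ext z
    simp only [Finset.mem_union, Finset.mem_filter, Finset.mem_singleton]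
    constructor
    · intro hz
      by_cases hzw : z = w
      · right; exact hzw
      · left
        rcases lt_or_gt_of_ne (gp w hw z hz (Ne.symm hzw)) with h1 | h1
        · left; exact ⟨hz, h1⟩
        · right; exact ⟨hz, h1⟩
    · rintro ((h1 | h1) | h1)
      · exact h1.1
      · exact h1.1
      · rw [h1]; exact hw
  have hd1 : Disjoint (R.filter (fun z => orient x w z < 0))
      (R.filter (fun z => 0 < orient x w z)) := by
    rw [Finset.disjoint_left]
    intro z h1 h2
    rw [Finset.mem_filter] at h1 h2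
    linarith [h1.2, h2.2]
  have hd2 : Disjoint ((R.filter (fun z => orient x w z < 0)) ∪
      (R.filter (fun z => 0 < orient x w z))) {w} := by
    rw [Finset.disjoint_singleton_right]
    simp [orient_self_right]
  have hc := congrArg Finset.card hpart
  rw [Finset.card_union_of_disjoint hd2, Finset.card_union_of_disjoint hd1, hb, hR,
    Finset.card_singleton] at hc
  omega

/-- The quartering lemma: among `6 s` points in general position there are four sets of at least
`s` points such that no line crosses all four. -/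
theorem quarter (X : Finset Pt) (gp : GP X) (hinj : Set.InjOn Prod.fst (X : Set Pt)) (s : ℕ)
    (hs : 1 ≤ s) (hX : 6 * s ≤ X.card) :
    ∃ S : Fin 4 → Finset Pt, (∀ i, S i ⊆ X) ∧ (∀ i, s ≤ (S i).card) ∧
      ∀ p q, ∃ i, ¬ Crosses p q (S i) := by
  classical
  obtain ⟨w0, hw0, hrank⟩ := exists_rank X Prod.fst hinj (4 * s - 1) (by omega)
  have hrank' : (X.filter (fun z => z.1 < w0.1)).card = 4 * s - 1 := hrank
  have hcard := Finset.card_filter_add_card_filter_not (s := X) (fun z : Pt => z.1 < w0.1)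
  obtain ⟨R, hRsub, hR⟩ := Finset.exists_subset_card_eq
    (s := X.filter (fun z => ¬ z.1 < w0.1)) (n := 2 * s + 1) (by omega)
  set L := X.filter (fun z => z.1 < w0.1) with hL
  have hLX : ∀ x ∈ L, x ∈ X := fun x hx => (Finset.mem_filter.mp hx).1
  have hRX : ∀ x ∈ R, x ∈ X := fun x hx => (Finset.mem_filter.mp (hRsub hx)).1
  have hL1 : ∀ x ∈ L, x.1 < w0.1 := fun x hx => (Finset.mem_filter.mp hx).2
  have hR1 : ∀ x ∈ R, w0.1 ≤ x.1 := fun x hx =>
    not_lt.mp (Finset.mem_filter.mp (hRsub hx)).2
  have hLR : ∀ x ∈ L, ∀ z ∈ R, x.1 < z.1 := fun x hx z hz => (hL1 x hx).trans_le (hR1 z hz)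
  have hne : ∀ x ∈ L, ∀ z ∈ R, x ≠ z := by
    intro x hx z hz h
    have := hLR x hx z hz
    rw [h] at this; exact lt_irrefl _ this
  have hex : ∀ x : Pt, ∃ w, x ∈ L → Halves R s x w := by
    intro x
    by_cases hx : x ∈ L
    · obtain ⟨w, hw⟩ := exists_halves hR (hLR x hx) (fun y hy z hz hyz =>
        gp x (hLX x hx) y (hRX y hy) z (hRX z hz) (hne x hx y hy) (hne x hx z hz) hyz)
      exact ⟨w, fun _ => hw⟩
    · exact ⟨x, fun h => absurd h hx⟩
  choose w hw using hex
  have hwR : ∀ x ∈ L, w x ∈ R := fun x hx => (hw x hx).1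
  have hneg : ∀ x ∈ L, ∀ x' ∈ L, x.1 ≤ x'.1 → orient x (w x) x' < 0 →
      orient x' (w x') x < 0 → False := by
    intro x hx x' hx' hle h1 h2
    have hsub : insert (w x') (R.filter (fun z => orient x' (w x') z < 0)) ⊆
        R.filter (fun z => orient x (w x) z < 0) := by
      intro z hz
      rw [Finset.mem_insert, Finset.mem_filter] at hz
      have hzR : z ∈ R := by
        rcases hz with hz | hz
        · rw [hz]; exact hwR x' hx'
        · exact hz.1
      have hz0 : orient x' (w x') z ≤ 0 := by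
        rcases hz with hz | hz
        · rw [hz, orient_self_right]
        · exact hz.2.le
      rw [Finset.mem_filter]
      exact ⟨hzR, aux_lines (hLR x hx _ (hwR x hx)) (hLR x' hx' _ (hwR x' hx')) hle
        (hLR x' hx' z hzR).le h1 h2 hz0⟩
    have := Finset.card_le_card hsub
    rw [Finset.card_insert_of_notMem (by simp [orient_self_right])] at this
    have e1 : (R.filter (fun z => orient x' (w x') z < 0)).card = s := (hw x' hx').2.1
    have e2 : (R.filter (fun z => orient x (w x) z < 0)).card = s := (hw x hx).2.1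
    omega
  have hpos : ∀ x ∈ L, ∀ x' ∈ L, x.1 ≤ x'.1 → 0 < orient x (w x) x' →
      0 < orient x' (w x') x → False := by
    intro x hx x' hx' hle h1 h2
    have hsub : insert (w x') (R.filter (fun z => 0 < orient x' (w x') z)) ⊆
        R.filter (fun z => 0 < orient x (w x) z) := by
      intro z hz
      rw [Finset.mem_insert, Finset.mem_filter] at hz
      have hzR : z ∈ R := by
        rcases hz with hz | hz
        · rw [hz]; exact hwR x' hx'
        · exact hz.1
      have hz0 : 0 ≤ orient x' (w x') z := by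
        rcases hz with hz | hz
        · rw [hz, orient_self_right]
        · exact hz.2.le
      rw [Finset.mem_filter]
      exact ⟨hzR, aux_lines' (hLR x hx _ (hwR x hx)) (hLR x' hx' _ (hwR x' hx')) hle
        (hLR x' hx' z hzR).le h1 h2 hz0⟩
    have := Finset.card_le_card hsub
    rw [Finset.card_insert_of_notMem (by simp [orient_self_right])] at this
    have e1 : (R.filter (fun z => 0 < orient x' (w x') z)).card = s := (hw x' hx').2.2
    have e2 : (R.filter (fun z => 0 < orient x (w x) z)).card = s := (hw x hx).2.2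
    omega
  have hneg' : ∀ x ∈ L, ∀ x' ∈ L, orient x (w x) x' < 0 → orient x' (w x') x < 0 → False := by
    intro x hx x' hx' h1 h2
    rcases le_total x.1 x'.1 with h | h
    · exact hneg x hx x' hx' h h1 h2
    · exact hneg x' hx' x hx h h2 h1
  have hpos' : ∀ x ∈ L, ∀ x' ∈ L, 0 < orient x (w x) x' → 0 < orient x' (w x') x → False := by
    intro x hx x' hx' h1 h2
    rcases le_total x.1 x'.1 with h | h
    · exact hpos x hx x' hx' h h1 h2
    · exact hpos x' hx' x hx h h2 h1
  have hnz : ∀ x ∈ L, ∀ x' ∈ L, x ≠ x' → orient x (w x) x' ≠ 0 := by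
    intro x hx x' hx' h
    exact gp x (hLX x hx) (w x) (hRX _ (hwR x hx)) x' (hLX x' hx') (hne x hx _ (hwR x hx)) h
      (hne x' hx' _ (hwR x hx)).symm
  obtain ⟨x, hx, hd, hu⟩ := tour2 L (fun x x' => orient x (w x) x' < 0) (by
    intro x hx x' hx' h
    by_contra hc
    push Not at hc
    exact hpos' x hx x' hx' (lt_of_le_of_ne hc.1 (hnz x hx x' hx' h).symm)
      (lt_of_le_of_ne hc.2 (hnz x' hx' x hx h.symm).symm)) s hs (by rw [hrank']; omega)
  have hxw : x.1 < (w x).1 := hLR x hx _ (hwR x hx)
  refine ⟨![L.filter (fun y => orient x (w x) y < 0), L.filter (fun y => 0 < orient x (w x) y),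
    R.filter (fun y => orient x (w x) y < 0), R.filter (fun y => 0 < orient x (w x) y)], ?_, ?_, ?_⟩
  · intro i
    fin_cases i
    · exact fun y hy => hLX y (Finset.mem_filter.mp hy).1
    · exact fun y hy => hLX y (Finset.mem_filter.mp hy).1
    · exact fun y hy => hRX y (Finset.mem_filter.mp hy).1
    · exact fun y hy => hRX y (Finset.mem_filter.mp hy).1
  · intro i
    fin_cases i
    · refine hd.trans (Finset.card_le_card ?_)
      intro y hy
      have hy' := Finset.mem_filter.mp hy
      exact Finset.mem_filter.mpr ⟨hy'.1, hy'.2.2⟩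
    · refine hu.trans (Finset.card_le_card ?_)
      intro y hy
      have hy' := Finset.mem_filter.mp hy
      refine Finset.mem_filter.mpr ⟨hy'.1, ?_⟩
      rcases lt_or_gt_of_ne (hnz x hx y hy'.1 hy'.2.1.symm) with h | h
      · exact absurd hy'.2.2 (fun h2 => hneg' x hx y hy'.1 h h2)
      · exact h
    · exact ((hw x hx).2.1).ge
    · exact ((hw x hx).2.2).ge
  · intro p q
    by_contra hc
    push Not at hc
    set W := w x with hW
    have idz : ∀ z : Pt, (W.1 - x.1) * orient p q z = (q.1 - p.1) * orient x W z +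
        ((q.1 - p.1) * (W.2 - x.2) - (W.1 - x.1) * (q.2 - p.2)) * (z.1 - w0.1) +
        ((W.1 - x.1) * orient p q x -
          ((q.1 - p.1) * (W.2 - x.2) - (W.1 - x.1) * (q.2 - p.2)) * (x.1 - w0.1)) := by
      intro z; unfold orient; ring
    generalize ((q.1 - p.1) * (W.2 - x.2) - (W.1 - x.1) * (q.2 - p.2)) = b at idz
    generalize ((W.1 - x.1) * orient p q x - b * (x.1 - w0.1)) = a at idz
    generalize (q.1 - p.1) = g at idz
    have he : 0 < W.1 - x.1 := by linarith
    obtain ⟨y0, hy0, z0, hz0, c0⟩ := hc 0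
    obtain ⟨y1, hy1, z1, hz1, c1⟩ := hc 1
    obtain ⟨y2, hy2, z2, hz2, c2⟩ := hc 2
    obtain ⟨y3, hy3, z3, hz3, c3⟩ := hc 3
    have hy0' := Finset.mem_filter.mp (show y0 ∈ L.filter (fun y => orient x (w x) y < 0) from hy0)
    have hz0' := Finset.mem_filter.mp (show z0 ∈ L.filter (fun y => orient x (w x) y < 0) from hz0)
    have hy1' := Finset.mem_filter.mp (show y1 ∈ L.filter (fun y => 0 < orient x (w x) y) from hy1)
    have hz1' := Finset.mem_filter.mp (show z1 ∈ L.filter (fun y => 0 < orient x (w x) y) from hz1)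
    have hy2' := Finset.mem_filter.mp (show y2 ∈ R.filter (fun y => orient x (w x) y < 0) from hy2)
    have hz2' := Finset.mem_filter.mp (show z2 ∈ R.filter (fun y => orient x (w x) y < 0) from hz2)
    have hy3' := Finset.mem_filter.mp (show y3 ∈ R.filter (fun y => 0 < orient x (w x) y) from hy3)
    have hz3' := Finset.mem_filter.mp (show z3 ∈ R.filter (fun y => 0 < orient x (w x) y) from hz3)
    rw [← hW] at hy0' hz0' hy1' hz1' hy2' hz2' hy3' hz3'
    have negy : ∀ y : Pt, orient p q y < 0 → (W.1 - x.1) * orient p q y < 0 := fun y h =>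
      mul_neg_of_pos_of_neg he h
    have posz : ∀ y : Pt, 0 < orient p q y → 0 < (W.1 - x.1) * orient p q y := fun y h =>
      mul_pos he h
    have n0 := negy y0 c0.1
    have n1 := negy y1 c1.1
    have n2 := negy y2 c2.1
    have n3 := negy y3 c3.1
    have p0 := posz z0 c0.2
    have p1 := posz z1 c1.2
    have p2 := posz z2 c2.2
    have p3 := posz z3 c3.2
    rw [idz] at n0 n1 n2 n3 p0 p1 p2 p3
    have ly0 := hL1 y0 hy0'.1
    have lz0 := hL1 z0 hz0'.1
    have ly1 := hL1 y1 hy1'.1
    have lz1 := hL1 z1 hz1'.1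
    have ly2 := hR1 y2 hy2'.1
    have lz2 := hR1 z2 hz2'.1
    have ly3 := hR1 y3 hy3'.1
    have lz3 := hR1 z3 hz3'.1
    rcases le_total 0 g with hg | hg <;> rcases le_total 0 b with hb | hb
    · rcases le_total 0 a with ha | ha
      · -- S 3 positive
        have := mul_nonneg hg hy3'.2.le
        have := mul_nonneg hb (by linarith : (0:ℝ) ≤ y3.1 - w0.1)
        linarith
      · have := mul_nonpos_of_nonneg_of_nonpos hg hz0'.2.le
        have := mul_nonpos_of_nonneg_of_nonpos hb (by linarith : z0.1 - w0.1 ≤ (0:ℝ))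
        linarith
    · rcases le_total 0 a with ha | ha
      · -- S 1 (left, above)
        have := mul_nonneg hg hy1'.2.le
        have := mul_nonneg_of_nonpos_of_nonpos hb (by linarith : y1.1 - w0.1 ≤ (0:ℝ))
        linarith
      · have := mul_nonpos_of_nonneg_of_nonpos hg hz2'.2.le
        have := mul_nonpos_of_nonpos_of_nonneg hb (by linarith : (0:ℝ) ≤ z2.1 - w0.1)
        linarith
    · rcases le_total 0 a with ha | ha
      · have := mul_nonneg_of_nonpos_of_nonpos hg hy2'.2.le
        have := mul_nonneg hb (by linarith : (0:ℝ) ≤ y2.1 - w0.1)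
        linarith
      · have := mul_nonpos_of_nonpos_of_nonneg hg hz1'.2.le
        have := mul_nonpos_of_nonneg_of_nonpos hb (by linarith : z1.1 - w0.1 ≤ (0:ℝ))
        linarith
    · rcases le_total 0 a with ha | ha
      · have := mul_nonneg_of_nonpos_of_nonpos hg hy0'.2.le
        have := mul_nonneg_of_nonpos_of_nonpos hb (by linarith : y0.1 - w0.1 ≤ (0:ℝ))
        linarith
      · have := mul_nonpos_of_nonpos_of_nonneg hg hz3'.2.le
        have := mul_nonpos_of_nonpos_of_nonneg hb (by linarith : (0:ℝ) ≤ z3.1 - w0.1)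
        linarith

end Pool.Agent.Lib.MP_992c01_co
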