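import Mathlib

/-!
# MP_992c01_co : noncrossing monochromatic paths, fractional version (blueprint of helper42, note 1416)

Definitions and statements (`S_...`, proofs in the docstrings) of the pieces.  Points are `ℝ × ℝ`;
the axis is `x = 0`.  Piece `p_name` is proved in `P_name.lean` from the listed `S_...`.

IDEA. A point `o_t = (0,t)` moves up on the axis.  Every point `v` of `V` carries a bag of `κ v`
pedestrians; the line of a pedestrian at `v` at time `t` is the line `v o_t` (`dev v u t` = signed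
vertical distance of `u` above it).  At the time `ht a b` of an edge `a b` (on opposite sides of the
axis) one pedestrian of `a` and one of `b` change places along the segment `a b`, provided the
target was never strictly below the line of one of the earlier edges of that pedestrian (`Bel`).
Paths of pedestrians are noncrossing.  An unused event destroys `κ` active forbidden points (`F`),
and such points are only created at bad pairs (`BadP`).
-/

set_option autoImplicit false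

open scoped BigOperators Classical

noncomputable section

namespace Pool.MP_992c01_co.NC

abbrev Pt : Type := ℝ × ℝ

/-- orientation determinant (as in the frozen statement) -/
def orient (a b c : Pt) : ℝ := (b.1 - a.1) * (c.2 - a.2) - (b.2 - a.2) * (c.1 - a.1)

/-- no three points of `P` on a line (literally the frozen hypothesis) -/
def GenPos (P : Finset Pt) : Prop :=
  ∀ a ∈ P, ∀ b ∈ P, ∀ c ∈ P, a ≠ b → a ≠ c → b ≠ c → orient a b c ≠ 0

/-- height at which the line `p q` meets the axis (only used for `p.1 ≠ q.1`) -/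
def ht (p q : Pt) : ℝ := (p.2 * q.1 - q.2 * p.1) / (q.1 - p.1)

/-- signed vertical distance of `u` above the line through `v` and `(0,t)` -/
def dev (v u : Pt) (t : ℝ) : ℝ := u.2 - t - (v.2 - t) * (u.1 / v.1)

/-- `Bel l u`: `u` is strictly below the line of some edge of the path `l`
(`l` is written with the most recent vertex first). -/
def Bel : List Pt → Pt → Prop
  | [], _ => False
  | [_], _ => False
  | q :: p :: l, u => dev q u (ht q p) < 0 ∨ Bel (p :: l) u

/-- All consecutive pairs of `l` (edges). -/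
def Edges : List Pt → Set (Pt × Pt)
  | [] => ∅
  | [_] => ∅
  | q :: p :: l => {(q, p)} ∪ Edges (p :: l)

/-- noncrossing: every edge is disjoint (as a closed segment) from all non-adjacent edges -/
def NCList : List Pt → Prop
  | [] => True
  | [_] => True
  | q :: p :: l => NCList (p :: l) ∧ ∀ e ∈ Edges l, Disjoint (segment ℝ q p) (segment ℝ e.1 e.2)

/-- The geometric configuration: finitely many points off the axis, different lines spanned by
them meet the axis at different heights; `E` symmetric relation between points on opposite sides;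
`κ` bag sizes, `g` weights, `c` costs of forbidden points. -/
structure Cfg where
  V : Finset Pt
  hx : ∀ v ∈ V, v.1 ≠ 0
  hdist : ∀ p ∈ V, ∀ q ∈ V, ∀ p' ∈ V, ∀ q' ∈ V, p.1 ≠ q.1 → p'.1 ≠ q'.1 → ht p q = ht p' q' →
    (p = p' ∧ q = q') ∨ (p = q' ∧ q = p')
  E : Pt → Pt → Prop
  Esymm : ∀ v w, E v w → E w v
  EV : ∀ v w, E v w → v ∈ V
  Eopp : ∀ v w, E v w → v.1 * w.1 < 0
  κ : Pt → ℕ
  g : Pt → ℝ
  c : Pt → ℝ
  hg : ∀ v, 0 ≤ g v
  hc : ∀ v, 0 ≤ c v
  hgc : ∀ v w, E v w → g v + g w ≤ (κ v : ℝ) * c w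

variable (C : Cfg)

/-- `Good C s l`: `l` (most recent vertex first) is the path of a pedestrian before time `s`. -/
inductive Good : ℝ → List Pt → Prop
  | single (s : ℝ) (v : Pt) (hv : v ∈ C.V) : Good s [v]
  | cons (s : ℝ) (v w : Pt) (l : List Pt) (h : Good (ht v w) (v :: l)) (hE : C.E v w)
      (hs : ht v w < s) (hnb : ¬ Bel (v :: l) w) : Good s (w :: v :: l)

/-- weight collected by a path: all vertices but the first one (= last of the list) -/
def W (g : Pt → ℝ) : List Pt → ℝ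
  | [] => 0
  | [_] => 0
  | q :: p :: l => g q + W g (p :: l)

/-- `u` is an active forbidden point of the path `l` at time `s` -/
def F (s : ℝ) (l : List Pt) (u : Pt) : Prop :=
  Bel l u ∧ 0 < dev l.headI u s ∧
    (l.headI.1 * u.1 < 0 ∨ ∃ a ∈ C.V, l.headI.1 * a.1 < 0 ∧ s < ht l.headI a)

/-- the pair `v, q` (same side, `v` nearer to the axis) is bad: its line separates two points of
the other side -/
def BadP (v q : Pt) : Prop :=
  0 < v.1 * q.1 ∧ |v.1| < |q.1| ∧ ∃ a ∈ C.V, ∃ b ∈ C.V, v.1 * a.1 < 0 ∧ v.1 * b.1 < 0 ∧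
    ht v a < ht v q ∧ ht v q < ht v b

def Target (s : ℝ) : ℝ :=
  ∑ a ∈ C.V, ∑ b ∈ C.V, if a.1 < 0 ∧ 0 < b.1 ∧ C.E a b ∧ ht a b < s then C.g a + C.g b else 0

def BadSum (s : ℝ) : ℝ :=
  ∑ v ∈ C.V, ∑ q ∈ C.V, if BadP C v q ∧ ht v q < s then (C.κ v : ℝ) * C.c q else 0

def Phi {Ped : Type} [Fintype Ped] (s : ℝ) (path : Ped → List Pt) : ℝ :=
  ∑ π : Ped, ∑ u ∈ C.V, if F C s (path π) u then C.c u else 0

structure Inv {Ped : Type} [Fintype Ped] (s : ℝ) (path : Ped → List Pt) : Prop where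
  good : ∀ π, Good C s (path π)
  bags : ∀ v ∈ C.V, (Finset.univ.filter (fun π => (path π).headI = v)).card = C.κ v
  ineq : Target C s + Phi C s path ≤ (∑ π : Ped, W C.g (path π)) + BadSum C s

/-- no line spanned by two points of `V`, other than the line `p q`, meets the axis in `[s0,s]` -/
def OnlyPair (s0 s : ℝ) (p q : Pt) : Prop :=
  p ∈ C.V ∧ q ∈ C.V ∧ p.1 ≠ q.1 ∧ s0 < ht p q ∧ ht p q < s ∧
  ∀ v ∈ C.V, ∀ u ∈ C.V, v.1 ≠ u.1 → s0 ≤ ht v u → ht v u ≤ s →
    (v = p ∧ u = q) ∨ (v = q ∧ u = p)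

/-! ### A. Algebra of `ht`, `dev` -/

/-- Direct (also when `p.1 = q.1`: both sides are `_ / 0 = 0`). -/
def S_htComm : Prop := ∀ p q : Pt, ht p q = ht q p

/-- All facts about `dev`.  (1) `field_simp; ring` : `dev v u t = (ht v u - t) * (1 - u.1 / v.1)`.
(2)-(4) signs of the factor `1 - u.1/v.1`: positive if `v.1 * u.1 < 0`; negative if same side and
`|v.1| < |u.1|`; positive if same side and `|u.1| < |v.1|`.  (5) `u.1 / v.1 = 1`.
(6) with `t = ht v w` both sides are `u.2 - (v.2 + (w.2 - v.2) / (w.1 - v.1) * (u.1 - v.1))`. -/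
def S_dev : Prop :=
  (∀ (v u : Pt) (t : ℝ), v.1 ≠ 0 → u.1 ≠ v.1 → dev v u t = (ht v u - t) * (1 - u.1 / v.1)) ∧
  (∀ (v u : Pt) (t : ℝ), v.1 * u.1 < 0 →
    (0 < dev v u t ↔ t < ht v u) ∧ (dev v u t < 0 ↔ ht v u < t)) ∧
  (∀ (v u : Pt) (t : ℝ), 0 < v.1 * u.1 → |v.1| < |u.1| →
    (0 < dev v u t ↔ ht v u < t) ∧ (dev v u t < 0 ↔ t < ht v u)) ∧
  (∀ (v u : Pt) (t : ℝ), 0 < v.1 * u.1 → |u.1| < |v.1| →
    (0 < dev v u t ↔ t < ht v u) ∧ (dev v u t < 0 ↔ ht v u < t)) ∧
  (∀ (v u : Pt) (t : ℝ), v.1 ≠ 0 → u.1 = v.1 → dev v u t = u.2 - v.2) ∧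
  (∀ (v w u : Pt), v.1 * w.1 < 0 → dev v u (ht v w) = dev w u (ht v w))

/-! ### B. `Good` paths are noncrossing -/

/-- Cases on `Good` (only the condition `ht v w < s` changes). -/
def S_goodMono : Prop := ∀ (C : Cfg) (s s' : ℝ) (l : List Pt), Good C s l → s ≤ s' → Good C s' l

/-- Every vertex before the last edge is already below some line of the path, and there are no
repetitions.  First part: `l = x :: l'`, `u ∈ l'`.  If `u = l'.headI`: the last edges of the path are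
`x u` (height `h`) and then `v x` (height `h' > h`), `u` and `x` are on opposite sides, so
`dev x u (ht v x) < 0` by `S_dev` (2), which equals `dev v u (ht v x)` by (6): first alternative of
`Bel`.  Otherwise `Bel (x :: l') u` by induction.  Second part: for `w :: v :: l`: `w ≠ v` (opposite
sides); `w ∈ l`: if `w = l.headI` then the edges `v w` (in the list, height `< ht v w` by `Good`)
gives `ht v w < ht v w`; otherwise `Bel (v :: l) w`, against the condition of `cons`. -/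
def S_goodBel : Prop := ∀ (C : Cfg) (s : ℝ) (v : Pt) (l : List Pt), Good C s (v :: l) →
  (∀ u ∈ l, u ≠ l.headI → Bel (v :: l) u) ∧ (v :: l).Nodup

/-- `Good` paths are noncrossing.  For `w :: v :: l` and an edge `e = (x, y) ∈ Edges l` (so `x y` has
height `h < t := ht v w`; both `x, y ∈ l`, different from `v` and `w` by `Nodup`; `x.1 * y.1 < 0`).
Suppose the segments `w v` and `x y` have a common point `P`, `c := P.1`.  The line of `x y` and the
line of `v w` agree at `c`, at the axis the first has height `h < t`, so `c ≠ 0` and at abscissa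
`μ c` the line of `x y` minus the line of `v w` is `(h - t) * (1 - μ)`.  If `c` is on the side of `w`
then `w.1 = μ c` with `μ ≥ 1`; so `dev x w h = -(h-t)(1-μ)... ≤ 0`; `μ > 1`: `dev x w h < 0`, i.e.
`Bel (v :: l) w` (all edges of `l` count in `Bel`), contradiction.  `μ = 1`: `dev x w h = 0`, so
`ht x w = h = ht x y` or (if `w` is on the side of `x`, use `y` instead of `x`, `dev x w h = dev y w h`)
`ht y w = h`; by `hdist` `w = y` (or `w = x`), contradiction.  If `c` is on the side of `v`: the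
same with `v`: `μ > 1` gives `dev x v h < 0`, but `v` was admissible when it was appended to `l`
(`¬ Bel l v`), contradiction; `μ = 1` gives `v ∈ {x, y}`.  Useful lemmas to prove first: for
`(x,y) ∈ Edges l`, `Good C s l`: `x ∈ l`, `y ∈ l`, `C.E x y`, `ht x y < s`, and
`dev x u (ht x y) < 0 → Bel l u`. -/
def S_goodNC : Prop := ∀ (C : Cfg) (s : ℝ) (l : List Pt), Good C s l → NCList l

/-! ### C. The pedestrian process

General remark (use it in all steps): under `OnlyPair C s0 s p q`, for `v, u ∈ C.V` with `v.1 ≠ u.1`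
and `{v,u} ≠ {p,q}` the number `ht v u` is not in `[s0,s]`, so the sign of `dev v u ·` is the same
(nonzero) at all times of `[s0,s]`; if `v.1 = u.1` then `dev v u ·` is constant. -/

/-- Same side event (`p, q` on the same side): the path function does not change.  `good`:
`S_goodMono`.  `Target` does not change (no pair on opposite sides has its height in `[s0,s)`).
Let `v` be the nearer and `q'` the farther one of `p, q`.  For all `π`, `u`:
`F C s (path π) u → F C s0 (path π) u` unless the head of `path π` is `v` and `u = q'` (for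
head `q'`, `u = v`: `dev` decreases; the condition `∃ a` is monotone).  For head `v`, `u = q'` the new
contribution is at most `c q'` for each of the `κ v` pedestrians at `v`, and if it occurs then
`BadP C v q'`: `Bel (path π) q'` shows `path π = v :: x :: _`, `x` on the other side,
`ht v x < s0 < ht v q'`, and `F` gives `a` with `s < ht v a`.  In this case `BadSum` increases by
exactly `κ v * c q'`. -/
def S_stepSame : Prop := ∀ (C : Cfg) (Ped : Type) [Fintype Ped] (s0 s : ℝ) (p q : Pt)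
  (path : Ped → List Pt), OnlyPair C s0 s p q → 0 < p.1 * q.1 → Inv C s0 path → Inv C s path

/-- Opposite side event, no edge or no admissible pedestrians.  `BadSum` does not change,
`F C s (path π) u → F C s0 (path π) u` for all `π, u`.  If `¬ C.E p q`, `Target` does not change.
Otherwise `Target` increases by `g p + g q`, and e.g. in the first case all `κ p` pedestrians `π` at
`p` have `F C s0 (path π) q` but not `F C s (path π) q`, so `Phi` decreases by at least
`κ p * c q ≥ g p + g q` (`hgc`); in the second case `κ q * c p ≥ g q + g p` (`Esymm`, `hgc`). -/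
def S_stepWaste : Prop := ∀ (C : Cfg) (Ped : Type) [Fintype Ped] (s0 s : ℝ) (p q : Pt)
  (path : Ped → List Pt), OnlyPair C s0 s p q → p.1 < 0 → 0 < q.1 →
  (¬ C.E p q ∨ (∀ π, (path π).headI = p → Bel (path π) q) ∨
    (∀ π, (path π).headI = q → Bel (path π) p)) → Inv C s0 path → Inv C s path

/-- Opposite side event, two pedestrians change places.  `good`: `Good.cons` with
`Good C (ht p q) (path π₁)` from `S_goodMono`.  `bags`: clear.  `Target` increases by `g p + g q`, so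
does the sum of the `W`.  `BadSum` does not change.  `Phi` does not increase: for `π ≠ π₁, π₂` as
before.  For `π₁`, path `p :: l`, new path `q :: p :: l`: if `F C s (q :: p :: l) u` then `u ≠ q`
(`dev q q s = 0`), `u ≠ p` (`dev q p s < 0` since `ht q p < s`), and with `t = ht p q`
`0 < dev q u s` gives `0 < dev q u t = dev p u t` (constant sign on `[s0,s]`, `S_dev` (6)), hence
`0 < dev p u s0`; the alternative `dev q u (ht q p) < 0` in `Bel` is impossible, so
`Bel (p :: l) u`; the last condition of `F` at time `s0` holds with `a = q`.  Symmetric for `π₂`. -/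
def S_stepSwap : Prop := ∀ (C : Cfg) (Ped : Type) [Fintype Ped] (s0 s : ℝ) (p q : Pt)
  (path : Ped → List Pt), OnlyPair C s0 s p q → p.1 < 0 → 0 < q.1 → C.E p q →
  ∀ π₁ π₂ : Ped, (path π₁).headI = p → ¬ Bel (path π₁) q → (path π₂).headI = q →
  ¬ Bel (path π₂) p → Inv C s0 path →
  Inv C s (fun π => if π = π₁ then q :: path π else if π = π₂ then p :: path π else path π)

/-- One step, from the three previous ones (`OnlyPair` is symmetric in `p, q`). -/
def S_step : Prop := ∀ (C : Cfg) (Ped : Type) [Fintype Ped] (s0 s : ℝ) (p q : Pt)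
  (path : Ped → List Pt), OnlyPair C s0 s p q → Inv C s0 path → ∃ path' : Ped → List Pt, Inv C s path'

/-- Before all heights: every pedestrian `⟨v, _⟩` has path `[v]`. `Target = BadSum = Phi = W = 0`. -/
def S_start : Prop := ∀ (C : Cfg) (s : ℝ),
  (∀ v ∈ C.V, ∀ u ∈ C.V, v.1 ≠ u.1 → s < ht v u) →
  ∃ path : (Σ v : {v // v ∈ C.V}, Fin (C.κ v.1)) → List Pt, Inv C s path

/-- Induction on the number of heights below `s` (finite set of all `ht v u`, `v u ∈ C.V`,
`v.1 ≠ u.1`).  None: `S_start`.  Otherwise let `t` be the largest height `< s` and `s0 < t` such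
that no height lies in `[s0,t)`; by `hdist` exactly one pair `{p,q}` has height `t`; `S_step`. -/
def S_run : Prop := ∀ (C : Cfg) (s : ℝ),
  (∀ v ∈ C.V, ∀ u ∈ C.V, v.1 ≠ u.1 → ht v u ≠ s) →
  ∃ path : (Σ v : {v // v ∈ C.V}, Fin (C.κ v.1)) → List Pt, Inv C s path

/-- CORE LEMMA.  Take `s` above all heights in `S_run`; `Phi ≥ 0`, so the sum of the `W (path π)` is
at least the left side; the number of pedestrians is `∑ κ v`; take a `π` with maximal
`W (path π) ≤ ((path π).map C.g).sum` (if there is no pedestrian take `l = [v]`, `v ∈ C.V`).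
`S_goodBel` (Nodup), `S_goodNC`. -/
def S_core : Prop := ∀ (C : Cfg), C.V.Nonempty → ∃ l : List Pt, l ≠ [] ∧ l.Nodup ∧
  (∀ v ∈ l, v ∈ C.V) ∧ l.IsChain (fun v w => C.E v w) ∧ NCList l ∧
  (∑ a ∈ C.V, ∑ b ∈ C.V, if a.1 < 0 ∧ 0 < b.1 ∧ C.E a b then C.g a + C.g b else 0)
    - (∑ v ∈ C.V, ∑ q ∈ C.V, if BadP C v q then (C.κ v : ℝ) * C.c q else 0)
    ≤ (∑ v ∈ C.V, (C.κ v : ℝ)) * (l.map C.g).sum

/-! ### D. From general position to a `Cfg` -/

/-- affine maps used for changes of coordinates -/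
def aff (s ε c : ℝ) (p : Pt) : Pt := (s * p.1 + ε * p.2 - c, p.2)

/-- Invariance.  `orient (aff a) (aff b) (aff c) = s * orient a b c` (ring); injective for `s ≠ 0`;
`aff` is affine, so it maps segments onto segments (`image_segment` for affine maps, or directly),
hence preserves disjointness of segments in both directions. -/
def S_aff : Prop := ∀ (s ε c : ℝ), s ≠ 0 →
  Function.Injective (aff s ε c) ∧
  (∀ a b d : Pt, orient (aff s ε c a) (aff s ε c b) (aff s ε c d) = s * orient a b d) ∧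
  (∀ P : Finset Pt, GenPos P → GenPos (P.image (aff s ε c))) ∧
  (∀ l : List Pt, NCList (l.map (aff s ε c)) ↔ NCList l)

/-- A generic vertical line.  Two different pairs `{p,q} ≠ {p',q'}` with `p.1 ≠ q.1`,
`p'.1 ≠ q'.1` span different lines (they contain three different points, `GenPos`), so these lines
have at most one common point; `c` has to avoid finitely many abscissae in `(x₁, x₂)`.
(`ht` of the translated points is the value at `x = c` of the line, as a function of `x`.) -/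
def S_axis : Prop := ∀ (V : Finset Pt) (x₁ x₂ : ℝ), GenPos V → x₁ < x₂ →
  ∃ c : ℝ, x₁ < c ∧ c < x₂ ∧ (∀ v ∈ V, v.1 ≠ c) ∧
    ∀ p ∈ V.image (aff 1 0 c), ∀ q ∈ V.image (aff 1 0 c), ∀ p' ∈ V.image (aff 1 0 c),
    ∀ q' ∈ V.image (aff 1 0 c),
      p.1 ≠ q.1 → p'.1 ≠ q'.1 → ht p q = ht p' q' → (p = p' ∧ q = q') ∨ (p = q' ∧ q = p')

/-- the line `v q` has points of `S` strictly on both sides -/
def SplitP (v q : Pt) (S : Finset Pt) : Prop :=
  ∃ a ∈ S, ∃ b ∈ S, orient v q a < 0 ∧ 0 < orient v q b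

/-- CORE LEMMA in general position: `A` left of `B`, weights `w` on `A`, bag size `L` on `B` and
`κ a = ⌈w a * L |B| / w A⌉₊` on `A` (so `∑ κ ≤ L|B| + |A| + L|B| ≤ 3 L |B|`).  Choose `c` by `S_axis`
between `A` and `B`, `V = (A ∪ B).image (aff 1 0 c)`, `E` = image of `a ∈ A ∧ b ∈ B ∧ E a b` (or
swapped), `g = w` on the image of `A` and `0` elsewhere, costs `w A / (L |B|)` on `B`, `w a / L` on `A`
(`hgc`: `κ a * (w A / (L|B|)) ≥ w a` and `L * (w a / L) = w a`).  Apply `S_core`, translate back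
(`S_aff`).  A bad pair `BadP v q` in `B` satisfies `SplitP v q A`, a bad pair in `A` satisfies
`SplitP v q B` (a point `a` of the other side with `ht v a < ht v q` is strictly below the line
`v q`, one with `ht v q < ht v b` strictly above); bad costs: in `B`: `L * (w A/(L|B|)) = w A/|B|`; in `A`:
`κ v * (w q / L) ≤ (1 + w v * L|B| / w A) * w q / L`. -/
def S_coreGP : Prop := ∀ (A B : Finset Pt) (E : Pt → Pt → Prop) (w : Pt → ℝ) (L : ℕ),
  GenPos (A ∪ B) → (∀ a ∈ A, ∀ b ∈ B, a.1 < b.1) → B.Nonempty → 1 ≤ L → (∀ p, 0 ≤ w p) →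
  0 < ∑ a ∈ A, w a → (A.card : ℝ) ≤ L * B.card →
  ∃ l : List Pt, l ≠ [] ∧ l.Nodup ∧ (∀ v ∈ l, v ∈ A ∪ B) ∧
    l.IsChain (fun v w => (v ∈ A ∧ w ∈ B ∧ E v w) ∨ (w ∈ A ∧ v ∈ B ∧ E w v)) ∧ NCList l ∧
    (∑ a ∈ A, ∑ b ∈ B, if E a b then w a else 0)
      - (∑ v ∈ B, ∑ q ∈ B, if SplitP v q A then (∑ a ∈ A, w a) / B.card else 0)
      - (∑ v ∈ A, ∑ q ∈ A, if SplitP v q B then w q / L + w v * w q * B.card / (∑ a ∈ A, w a)
          else 0)
      ≤ 3 * L * B.card * (l.map w).sum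

/-! ### E. Same-type lemma -/

/-- `X, Y, Z`: the middle set is strictly separated from the two outer ones by a line -/
def NoTri (X Y Z : Finset Pt) : Prop :=
  ∃ θ f σ : ℝ, (∀ p ∈ X, σ * (p.2 - θ * p.1 - f) ≤ 0) ∧ (∀ p ∈ Z, σ * (p.2 - θ * p.1 - f) ≤ 0) ∧
    (∀ p ∈ Y, 0 < σ * (p.2 - θ * p.1 - f))

/-- `X` left of `Y` -/
def Lft (X Y : Finset Pt) : Prop := ∀ p ∈ X, ∀ q ∈ Y, p.1 < q.1

/-- Weighted ham sandwich line of two separated sets.  For a finite set `X` with weight `μ`,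
`μ X > 0`, let `f_X θ` = minimum over the subsets `S ⊆ X` with `μ S ≥ μ X / 2` of
`max_{p ∈ S} (p.2 - θ p.1)` (`Finset.inf'` of `Finset.sup'`; continuous in `θ`).  It is one of the
numbers `p.2 - θ p.1`; `{p : p.2 - θ p.1 ≤ f_X θ}` contains the minimising `S`;
`{p : p.2 - θ p.1 < f_X θ}` has weight `< μ X / 2` (otherwise it would be a better `S`), so
`{p.2 - θ p.1 ≥ f_X θ}` has weight `≥ μ X / 2`.  For `θ` large all numbers of `X` exceed all numbers
of `Z` (`X` is left of `Z`), for `-θ` large conversely, so `f_X θ = f_Z θ` for some `θ` (IVT);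
`f := f_X θ`. -/
def S_ham : Prop := ∀ (X Z : Finset Pt) (μ ν : Pt → ℝ), Lft X Z → (∀ p, 0 ≤ μ p) → (∀ p, 0 ≤ ν p) →
  0 < ∑ p ∈ X, μ p → 0 < ∑ p ∈ Z, ν p →
  ∃ θ f : ℝ, (∃ x ∈ X, x.2 = θ * x.1 + f) ∧ (∃ z ∈ Z, z.2 = θ * z.1 + f) ∧
    (∑ p ∈ X, μ p) / 2 ≤ ∑ p ∈ X.filter (fun p => p.2 ≤ θ * p.1 + f), μ p ∧
    (∑ p ∈ X, μ p) / 2 ≤ ∑ p ∈ X.filter (fun p => θ * p.1 + f ≤ p.2), μ p ∧
    (∑ p ∈ Z, ν p) / 2 ≤ ∑ p ∈ Z.filter (fun p => p.2 ≤ θ * p.1 + f), ν p ∧
    (∑ p ∈ Z, ν p) / 2 ≤ ∑ p ∈ Z.filter (fun p => θ * p.1 + f ≤ p.2), ν p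

/-- From `S_ham` for `X, Z`: the line goes through `x ∈ X` and `z ∈ Z`, so by `GenPos` no point of
`Y` is on it; one of the two open sides contains at least half of the weight of `Y`; take that part
as `Y'` and the closed other sides of `X, Z` (`σ = 1` if `Y'` is above, `σ = -1` if below). -/
def S_triple : Prop := ∀ (P X Y Z : Finset Pt) (μ : Fin 3 → Pt → ℝ), GenPos P → X ⊆ P → Y ⊆ P →
  Z ⊆ P → Lft X Y → Lft Y Z → Lft X Z → (∀ i p, 0 ≤ μ i p) →
  0 < ∑ p ∈ X, μ 0 p → 0 < ∑ p ∈ Z, μ 2 p →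
  ∃ X' Y' Z' : Finset Pt, X' ⊆ X ∧ Y' ⊆ Y ∧ Z' ⊆ Z ∧
    (∑ p ∈ X, μ 0 p) / 2 ≤ ∑ p ∈ X', μ 0 p ∧ (∑ p ∈ Y, μ 1 p) / 2 ≤ ∑ p ∈ Y', μ 1 p ∧
    (∑ p ∈ Z, μ 2 p) / 2 ≤ ∑ p ∈ Z', μ 2 p ∧ NoTri X' Y' Z'

/-- Same-type lemma for `N` sets in `x`-order, each with its own weight: apply `S_triple` to all
triples `i < j < k` one after the other (`NoTri` and `Lft` pass to subsets, weights stay positive),
`δ = 2 ^ (-N^3)` (induction over a finset of triples). -/
def S_multi : Prop := ∀ N : ℕ, ∃ δ : ℝ, 0 < δ ∧ δ ≤ 1 ∧ ∀ (P : Finset Pt) (X : Fin N → Finset Pt)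
  (μ : Fin N → Pt → ℝ), GenPos P → (∀ i, X i ⊆ P) → (∀ i j, i < j → Lft (X i) (X j)) →
  (∀ i p, 0 ≤ μ i p) → (∀ i, 0 < ∑ p ∈ X i, μ i p) →
  ∃ Y : Fin N → Finset Pt, (∀ i, Y i ⊆ X i) ∧
    (∀ i, δ * ∑ p ∈ X i, μ i p ≤ ∑ p ∈ Y i, μ i p) ∧
    ∀ i j k, i < j → j < k → NoTri (Y i) (Y j) (Y k)

/-- A line spanned by two points of an outer set cannot split both other sets.  (First part.)  If
`v.1 = q.1` the line is vertical and all points of `Y` have the same orientation.  Otherwise the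
line is `y = α x + β`; it meets the segment between two points of `Y` on different sides of it at
some abscissa `x₁` and similarly `x₂` for `Z`, `v.1 < x₁ < x₂`.  The function
`G x = σ (α x + β - θ x - f)` is affine, `G (v.1) ≤ 0`, `G x₁ > 0` (convex combination of two
values on `Y`), `G x₂ ≤ 0`: impossible.  Second part: symmetric. -/
def S_split : Prop :=
  (∀ (X Y Z : Finset Pt), Lft X Y → Lft Y Z → NoTri X Y Z →
    ∀ v ∈ X, ∀ q ∈ X, ¬ (SplitP v q Y ∧ SplitP v q Z)) ∧
  (∀ (X Y Z : Finset Pt), Lft X Y → Lft Y Z → NoTri X Y Z →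
    ∀ v ∈ Z, ∀ q ∈ Z, ¬ (SplitP v q X ∧ SplitP v q Y))

/-- Consecutive groups of large weight: with `T = μ S / (2 m)`, cut off from the left `m` times the
smallest initial part of weight `≥ T`; each has weight `< 2 T` (all single weights are `≤ T`), so
before the `i`-th cut the remaining weight is more than `2 m T - 2 (i-1) T ≥ 2 T` (if `T > 0`; if
`T = 0` take empty groups).  Convenient: prove by induction on `m` the version the version `2 m T ≤ μ S`, all
single weights `≤ T` imply `m` groups of weight `≥ T`. -/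
def S_groups : Prop := ∀ (S : Finset Pt) (μ : Pt → ℝ) (m : ℕ), 1 ≤ m → (∀ p, 0 ≤ μ p) →
  (∀ p ∈ S, ∀ q ∈ S, p.1 = q.1 → p = q) → (∀ p ∈ S, μ p ≤ (∑ p ∈ S, μ p) / (2 * m)) →
  ∃ G : Fin m → Finset Pt, (∀ i, G i ⊆ S) ∧ (∀ i j, i < j → Lft (G i) (G j)) ∧
    ∀ i, (∑ p ∈ S, μ p) / (2 * m) ≤ ∑ p ∈ G i, μ p

/-- Averaging.  By `S_split` for `v, q ∈ A i` at most one `j` has `SplitP v q (B j)`, and for
`v, q ∈ B j` at most one `i` has `SplitP v q (A i)`.  Let `r₁ i j, r₂ i j, r₃ i j` be the three left sides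
divided by `|B j|^2`, `|A i| * w(A i)`, `w(A i)^2`.  Then `∑_i r₁ i j ≤ 1`, `∑_j r₂ i j ≤ 1`,
`∑_j r₃ i j ≤ 1`, so the sum of `r₁ + r₂ + r₃` over the `m^2` pairs is `≤ 3 m` and some pair has
`r₁ + r₂ + r₃ ≤ 3 / m`. -/
def S_select : Prop := ∀ (m : ℕ) (A B : Fin m → Finset Pt) (w : Pt → ℝ), 1 ≤ m → (∀ p, 0 ≤ w p) →
  (∀ i, 0 < ∑ p ∈ A i, w p) → (∀ j, (B j).Nonempty) →
  (∀ i j, Lft (A i) (B j)) → (∀ i i', i < i' → Lft (A i) (A i')) → (∀ j j', j < j' → Lft (B j) (B j')) →
  (∀ i j j', j < j' → NoTri (A i) (B j) (B j')) → (∀ i i' j, i < i' → NoTri (A i) (A i') (B j)) →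
  ∃ i j : Fin m,
    (∑ v ∈ B j, ∑ q ∈ B j, if SplitP v q (A i) then (1 : ℝ) else 0)
      ≤ 3 / m * ((B j).card : ℝ) ^ 2 ∧
    (∑ v ∈ A i, ∑ q ∈ A i, if SplitP v q (B j) then w q else 0)
      ≤ 3 / m * (A i).card * ∑ p ∈ A i, w p ∧
    (∑ v ∈ A i, ∑ q ∈ A i, if SplitP v q (B j) then w v * w q else 0)
      ≤ 3 / m * (∑ p ∈ A i, w p) ^ 2

/-! ### F. Assembly -/

/-- monochromatic noncrossing path in `P` -/
def MonoNC (k : ℕ) (P : Finset Pt) (col : Pt → Pt → Fin k) (l : List Pt) : Prop :=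
  l ≠ [] ∧ l.Nodup ∧ (∀ v ∈ l, v ∈ P) ∧ (∃ c : Fin k, l.IsChain (fun v w => col v w = c)) ∧ NCList l

/-- Weighted statement when the left part carries half of the weight.  `m = 18 k`, `η = 1/(6 m)`,
`δ₀` from `S_multi (2 m)`, `L = ⌈4 m / δ₀⌉₊`, `δ = δ₀ / (24 k m L)`.  `S` = left part, `R` = right part,
`n = |P| ≥ 1/η`, so `|R| ≥ n/3 ≥ 2m`.  `S_groups` for `S` with `w` and for `R` with the counting weight
gives `A_1 < ... < A_m < B_1 < ... < B_m`; `S_multi` on the `2m` sets; `S_select`.  So `A', B'` with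
`w A' ≥ δ₀ w(S)/(2m)`, `|B'| ≥ δ₀ |R| / (2m)`, `|A'| ≤ |S| ≤ 2 |R| ≤ L |B'|`.  Some colour `c` has
`∑_{a ∈ A', b ∈ B', col a b = c} w a ≥ w A' |B'| / k`.  `S_coreGP` with `E a b := col a b = c`:
`3 L |B'| * (l.map w).sum ≥ w A' |B'| (1/k - 9/m) = w A' |B'| / (2k)`. -/
def S_left : Prop := ∀ k : ℕ, 1 ≤ k → ∃ η δ : ℝ, 0 < η ∧ 0 < δ ∧ ∀ (P : Finset Pt)
  (col : Pt → Pt → Fin k) (w : Pt → ℝ) (x₀ : ℝ), GenPos P → (∀ p ∈ P, ∀ q ∈ P, p.1 = q.1 → p = q) →
  (∀ x y, col x y = col y x) → (∀ p, 0 ≤ w p) → 0 < ∑ p ∈ P, w p →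
  (∀ p ∈ P, w p ≤ η * ∑ p ∈ P, w p) →
  (∑ p ∈ P, w p) / 2 ≤ ∑ p ∈ P.filter (fun p => p.1 ≤ x₀), w p →
  (P.filter (fun p => p.1 ≤ x₀)).card ≤ 2 * (P.filter (fun p => x₀ < p.1)).card →
  ∃ l : List Pt, MonoNC k P col l ∧ δ * ∑ p ∈ P, w p ≤ (l.map w).sum

/-- All `x`-coordinates distinct.  If some `p` has `w p ≥ η w P` (in particular if `w P = 0`) take
`l = [p]`.  Otherwise `n ≥ 2` (`η ≤ 1`; take `min η 1`), cut `P` by `x₀` into two parts of sizes
`⌊n/2⌋, ⌈n/2⌉`; one part carries half of the weight.  Left part: `S_left`.  Right part: reflect by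
`aff (-1) 0 0` (`S_aff`), colouring and weight transported by the inverse (= the same map), the part
`{x₀ < x}` becomes `{x ≤ x₁}` for suitable `x₁` (finite set), use `S_left` and reflect back. -/
def S_distinct : Prop := ∀ k : ℕ, 1 ≤ k → ∃ δ : ℝ, 0 < δ ∧ ∀ (P : Finset Pt)
  (col : Pt → Pt → Fin k) (w : Pt → ℝ), GenPos P → (∀ p ∈ P, ∀ q ∈ P, p.1 = q.1 → p = q) →
  (∀ x y, col x y = col y x) → (∀ p, 0 ≤ w p) → P.Nonempty →
  ∃ l : List Pt, MonoNC k P col l ∧ δ * ∑ p ∈ P, w p ≤ (l.map w).sum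

/-- WEIGHTED THEOREM: shear by `aff 1 ε 0`, where `ε` avoids the finitely many values with
`p.1 + ε p.2 = q.1 + ε q.2`, `p ≠ q` (`ε = 0` may be bad, each pair excludes at most one `ε`); transport
with the inverse `aff 1 (-ε) 0`; `S_distinct`, `S_aff`. -/
def S_weighted : Prop := ∀ k : ℕ, 1 ≤ k → ∃ δ : ℝ, 0 < δ ∧ ∀ (P : Finset Pt)
  (col : Pt → Pt → Fin k) (w : Pt → ℝ), GenPos P → (∀ x y, col x y = col y x) →
  (∀ p, 0 ≤ w p) → P.Nonempty →
  ∃ l : List Pt, MonoNC k P col l ∧ δ * ∑ p ∈ P, w p ≤ (l.map w).sum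

/-! ### G. Consequences -/

/-- Greedy: `m` pairwise vertex-disjoint monochromatic noncrossing paths (or fewer) leave at most
`(1-δ)^m |P|` vertices uncovered (`S_weighted` with `w = 1` on the set of vertices not yet covered,
which is again in general position). -/
def S_greedy : Prop := ∀ k : ℕ, 1 ≤ k → ∃ δ : ℝ, 0 < δ ∧ δ ≤ 1 ∧ ∀ (P : Finset Pt)
  (col : Pt → Pt → Fin k), GenPos P → (∀ x y, col x y = col y x) → ∀ m : ℕ,
  ∃ L : List (List Pt), L.length ≤ m ∧ (∀ l ∈ L, MonoNC k P col l) ∧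
    L.Pairwise (fun l l' => ∀ v ∈ l, v ∉ l') ∧
    ((P.filter (fun p => ∀ l ∈ L, p ∉ l)).card : ℝ) ≤ (1 - δ) ^ m * P.card

/-- LP duality for a finite set system: if every weight `w ≥ 0` on `P` has a member `S` of the
nonempty finite family `𝒮` of subsets with `w(S) ≥ δ w(P)`, then there is a fractional cover of total
weight `≤ 1/δ`.  Proof: let `K` = convex hull in `P → ℝ` of the indicators of the `S ∈ 𝒮` (compact,
convex) and `Q = {y : ∀ p, δ ≤ y p}` (closed, convex).  If they are disjoint, separate: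
`φ` linear and `u < v` with `φ x < u` on `K`, `φ y > v` on `Q`; `φ y = ∑ w p y p`, `w p ≥ 0` (otherwise
`φ` unbounded below on `Q`), `δ w(P) = φ (δ,...,δ) > φ (1_S) = w(S)` for all `S`: contradiction.
So some convex combination `∑ λ_S 1_S` is `≥ δ` everywhere; divide by `δ`. -/
def S_dual : Prop := ∀ (P : Finset Pt) (𝒮 : Finset (Finset Pt)) (δ : ℝ), 0 < δ → 𝒮.Nonempty →
  (∀ w : Pt → ℝ, (∀ p, 0 ≤ w p) → ∃ S ∈ 𝒮, δ * ∑ p ∈ P, w p ≤ ∑ p ∈ S ∩ P, w p) →
  ∃ lam : Finset Pt → ℝ, (∀ S, 0 ≤ lam S) ∧ (∑ S ∈ 𝒮, lam S ≤ 1 / δ) ∧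
    ∀ p ∈ P, 1 ≤ ∑ S ∈ 𝒮.filter (fun S => p ∈ S), lam S

/-- FRACTIONAL COVER: the fractional cover number is at most `1/δ` (from `S_weighted`, `S_dual` with
`𝒮` = vertex sets of the monochromatic noncrossing paths, choosing one list for each vertex set). -/
def S_frac : Prop := ∀ k : ℕ, 1 ≤ k → ∃ δ : ℝ, 0 < δ ∧ ∀ (P : Finset Pt)
  (col : Pt → Pt → Fin k), GenPos P → (∀ x y, col x y = col y x) → P.Nonempty →
  ∃ (N : ℕ) (l : Fin N → List Pt) (lam : Fin N → ℝ), (∀ i, MonoNC k P col (l i)) ∧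
    (∀ i, 0 ≤ lam i) ∧ (∑ i, lam i ≤ 1 / δ) ∧
    ∀ p ∈ P, 1 ≤ ∑ i ∈ Finset.univ.filter (fun i => p ∈ l i), lam i

end Pool.MP_992c01_co.NC
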