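import Pool.Agent.Lib.MP_992c01_co.WProc

set_option autoImplicit false

/-! # MP_992c01_co : weighted core lemma -/

namespace Pool.Agent.Lib.MP_992c01_co

/-- weighted number of crossing pairs. -/
noncomputable def Zw (w : Pt → ℕ) (c : ℝ) (A B : Finset Pt) : ℕ :=
  ∑ q ∈ ZS c A B, w q.1 * w q.2

section
variable {c : ℝ} {A B : Finset Pt} {N : ℕ} {ev : ℕ → Pt × Pt} {X : ℕ → Pt} {Mv : ℕ → Prop}

theorem Walk.chg_mem (W : Walk ev X Mv) (S : Setup c A B N ev) {s : ℕ} (hs : s < N) {v p : Pt}
    {r r' : ℕ} (h : WChg c A B ev X Mv s v p r r') : (v, p) ∈ ZS c A B ∨ (v, p) ∈ ZS c B A := by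
  have hpm : p ∈ A ∨ p ∈ B := by
    rcases h.cur with ⟨b1, b2⟩ | ⟨b1, b2⟩
    · rw [b2]; exact Or.inr (S.mB s hs)
    · rw [b2]; exact Or.inl (S.mA s hs)
  have hvm : v ∈ A ∨ v ∈ B := by
    have hr : r < N := by have := h.rr'; have := h.r's; omega
    have := (W.mv_data S hr h.mr).2.2.2.2
    rwa [h.vr] at this
  obtain ⟨x, y, hx, hy, ox, oy, hxy⟩ := h.crs
  rcases h.same with hs' | hs'
  · left
    have hvA : v ∈ A := by
      rcases hvm with h1 | h1
      · exact h1
      · exact absurd (S.hB v h1) (by linarith [hs'.1])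
    have hpA : p ∈ A := by
      rcases hpm with h1 | h1
      · exact h1
      · exact absurd (S.hB p h1) (by linarith [hs'.2])
    have hxB : x ∈ B := by
      rcases hx with h1 | h1
      · exfalso; have := S.hA x h1; rcases ox with h2 | h2 <;> linarith [h2.1, h2.2, hs'.1]
      · exact h1
    have hyB : y ∈ B := by
      rcases hy with h1 | h1
      · exfalso; have := S.hA y h1; rcases oy with h2 | h2 <;> linarith [h2.1, h2.2, hs'.1]
      · exact h1
    exact mem_ZS.mpr ⟨⟨hvA, hpA⟩, h.dist, crosses_of_mul_neg hxB hyB hxy⟩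
  · right
    have hvB : v ∈ B := by
      rcases hvm with h1 | h1
      · exact absurd (S.hA v h1) (by linarith [hs'.1])
      · exact h1
    have hpB : p ∈ B := by
      rcases hpm with h1 | h1
      · exact absurd (S.hA p h1) (by linarith [hs'.2])
      · exact h1
    have hxA : x ∈ A := by
      rcases hx with h1 | h1
      · exact h1
      · exfalso; have := S.hB x h1; rcases ox with h2 | h2 <;> linarith [h2.1, h2.2, hs'.1]
    have hyA : y ∈ A := by
      rcases hy with h1 | h1
      · exact h1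
      · exfalso; have := S.hB y h1; rcases oy with h2 | h2 <;> linarith [h2.1, h2.2, hs'.1]
    exact mem_ZS.mpr ⟨⟨hvB, hpB⟩, h.dist, crosses_of_mul_neg hxA hyA hxy⟩

/-- number of events below the line of the pair `q`. -/
noncomputable def n0 (c : ℝ) (N : ℕ) (ev : ℕ → Pt × Pt) (q : Pt × Pt) : ℕ := by
  classical exact
    ((Finset.range N).filter (fun n => ht c (ev n).1 (ev n).2 < ht c q.1 q.2)).card

theorem n0_le (q : Pt × Pt) : n0 c N ev q ≤ N := by
  classical
  unfold n0
  exact (Finset.card_filter_le _ _).trans (by simp)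

theorem Walk.at_n0 (W : Walk ev X Mv) (S : Setup c A B N ev) {s : ℕ} (hs : s < N) {v p : Pt}
    {r r' : ℕ} (h : WChg c A B ev X Mv s v p r r') : X (n0 c N ev (v, p)) = v := by
  classical
  have a1 := h.rr'
  have a2 := h.r's
  have h1 : r + 1 ≤ n0 c N ev (v, p) := by
    unfold n0
    rw [← Finset.card_range (r + 1)]
    apply Finset.card_le_card
    intro n hn
    rw [Finset.mem_range] at hn
    rw [Finset.mem_filter, Finset.mem_range]
    exact ⟨by omega, lt_of_le_of_lt (S.mono n r (by omega) (by omega)) h.h1⟩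
  have h2 : n0 c N ev (v, p) ≤ r' := by
    unfold n0
    rw [← Finset.card_range r']
    apply Finset.card_le_card
    intro n hn
    rw [Finset.mem_filter, Finset.mem_range] at hn
    rw [Finset.mem_range]
    by_contra hc
    push Not at hc
    have := S.mono r' n hc hn.1
    linarith [h.h2, hn.2]
  rw [W.const h1 (fun u hu1 hu2 => h.btw u (by omega) (by omega))]
  exact h.vr

variable {I : Type} [Fintype I] {init : I → Pt}

/-- The pedestrian `i` is at an end of event `n` and the other end `p` is forbidden. -/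
def Blk (init : I → Pt) (ev : ℕ → Pt × Pt) (n : ℕ) (i : I) (p : Pt) : Prop :=
  ((WP init ev i n = (ev n).1 ∧ p = (ev n).2) ∨ (WP init ev i n = (ev n).2 ∧ p = (ev n).1)) ∧
    (wst init ev n).forb i p

theorem Blk.not_mv {n : ℕ} {i : I} {p : Pt} (h : Blk init ev n i p) (hne : (ev n).1 ≠ (ev n).2) :
    ¬ WMv init ev i n := by
  rintro (h1 | h1)
  · have h2 := mem_SA h1
    rcases h.1 with ⟨h3, h4⟩ | ⟨h3, h4⟩
    · apply h2.2; rw [← h4]; exact h.2
    · exact hne (h2.1.symm.trans h3)
  · have h2 := mem_SB h1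
    rcases h.1 with ⟨h3, h4⟩ | ⟨h3, h4⟩
    · exact hne (h3.symm.trans h2.1)
    · apply h2.2; rw [← h4]; exact h.2

open Classical in
/-- the forbidden weight. -/
noncomputable def bw (w : Pt → ℕ) (init : I → Pt) (ev : ℕ → Pt × Pt) (n : ℕ) (i : I) : ℕ :=
  (if WP init ev i n = (ev n).1 ∧ (wst init ev n).forb i (ev n).2 then w (ev n).2 else 0) +
  (if WP init ev i n = (ev n).2 ∧ (wst init ev n).forb i (ev n).1 then w (ev n).1 else 0)

theorem bw_eq {w : Pt → ℕ} {n : ℕ} {i : I} {p : Pt} (h : Blk init ev n i p)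
    (hne : (ev n).1 ≠ (ev n).2) : bw w init ev n i = w p := by
  unfold bw
  rcases h.1 with ⟨h3, h4⟩ | ⟨h3, h4⟩
  · rw [if_pos ⟨h3, by rw [← h4]; exact h.2⟩, if_neg (fun h5 => hne (h3.symm.trans h5.1)), h4,
      add_zero]
  · rw [if_neg (fun h5 => hne (h5.1.symm.trans h3)), if_pos ⟨h3, by rw [← h4]; exact h.2⟩, h4,
      zero_add]

theorem bw_zero {w : Pt → ℕ} {n : ℕ} {i : I} (h : ¬ ∃ p, Blk init ev n i p) :
    bw w init ev n i = 0 := by
  unfold bw
  rw [if_neg, if_neg]
  · intro h1; exact h ⟨_, Or.inr ⟨h1.1, rfl⟩, h1.2⟩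
  · intro h1; exact h ⟨_, Or.inl ⟨h1.1, rfl⟩, h1.2⟩

open Classical in
theorem bw_sum_le (S : Setup c A B N ev) (w : Pt → ℕ)
    (hw : ∀ v, v ∈ A ∨ v ∈ B → (Finset.univ.filter (fun i => init i = v)).card = w v) :
    ∑ n ∈ Finset.range N, ∑ i, bw w init ev n i ≤ Zw w c A B + Zw w c B A := by
  have hne : ∀ n < N, (ev n).1 ≠ (ev n).2 := fun n hn => (S.opp hn).ne
  have hch : ∀ x : ℕ × I, ∃ q : Pt × Pt, (x.1 < N ∧ ∃ p, Blk init ev x.1 x.2 p) →
      Blk init ev x.1 x.2 q.2 ∧
      ∃ r r', WChg c A B ev (WP init ev x.2) (WMv init ev x.2) x.1 q.1 q.2 r r' := by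
    intro x
    by_cases h : x.1 < N ∧ ∃ p, Blk init ev x.1 x.2 p
    · obtain ⟨h1, p, hp⟩ := h
      obtain ⟨v, r, r', h2⟩ := (walk x.2).charge S h1 hp.1 ((wforb_iff _ _ _).mp hp.2)
      exact ⟨(v, p), fun _ => ⟨hp, r, r', h2⟩⟩
    · exact ⟨((0, 0), (0, 0)), fun h' => absurd h' h⟩
  choose f hf using hch
  set D := ((Finset.range N) ×ˢ (Finset.univ : Finset I)).filter
    (fun x => ∃ p, Blk init ev x.1 x.2 p) with hD
  have hDm : ∀ x ∈ D, x.1 < N ∧ ∃ p, Blk init ev x.1 x.2 p := by
    intro x hx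
    rw [hD, Finset.mem_filter, Finset.mem_product, Finset.mem_range] at hx
    exact ⟨hx.1.1, hx.2⟩
  have e1 : ∑ n ∈ Finset.range N, ∑ i, bw w init ev n i = ∑ x ∈ D, w (f x).2 := by
    rw [← Finset.sum_product' (Finset.range N) (Finset.univ : Finset I)
      (fun n i => bw w init ev n i)]
    have : ∀ x ∈ D, w (f x).2 = bw w init ev x.1 x.2 := by
      intro x hx
      have h := hDm x hx
      exact (bw_eq (hf x h).1 (hne _ h.1)).symm
    rw [Finset.sum_congr rfl this, hD]
    rw [Finset.sum_filter_of_ne]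
    intro x hx h0
    by_contra hc
    exact h0 (bw_zero hc)
  rw [e1]
  set Φ : ℕ × I → (Pt × Pt) × I := fun x => (f x, x.2) with hΦ
  have hinj : Set.InjOn Φ (D : Set (ℕ × I)) := by
    intro x hx y hy hxy
    have h1 := hDm x (Finset.mem_coe.mp hx)
    have h2 := hDm y (Finset.mem_coe.mp hy)
    obtain ⟨b1, r, r', c1⟩ := hf x h1
    obtain ⟨b2, q, q', c2⟩ := hf y h2
    have hxy' : (f x, x.2) = (f y, y.2) := hxy
    have hxy1 : f x = f y := (Prod.mk.inj hxy').1
    have hxy2 : x.2 = y.2 := (Prod.mk.inj hxy').2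
    have nb1 := b1.not_mv (hne _ h1.1)
    have nb2 := b2.not_mv (hne _ h2.1)
    rw [hxy1, hxy2] at c1
    rw [hxy2] at nb1
    apply Prod.ext _ hxy2
    by_contra hne'
    rcases lt_or_gt_of_ne hne' with hlt | hlt
    · exact (walk y.2).charge_inj S hlt h2.1 nb1 c1 c2
    · exact (walk y.2).charge_inj S hlt h1.1 nb2 c2 c1
  have e2 : ∑ x ∈ D, w (f x).2 = ∑ y ∈ D.image Φ, w y.1.2 := by
    rw [Finset.sum_image (fun x hx y hy h => hinj hx hy h)]
  rw [e2]
  set T := ((ZS c A B ∪ ZS c B A) ×ˢ (Finset.univ : Finset I)).filter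
    (fun y => WP init ev y.2 (n0 c N ev y.1) = y.1.1) with hT
  have hsub : D.image Φ ⊆ T := by
    intro y hy
    obtain ⟨x, hx, rfl⟩ := Finset.mem_image.mp hy
    have h1 := hDm x hx
    obtain ⟨b1, r, r', c1⟩ := hf x h1
    rw [hT, Finset.mem_filter, Finset.mem_product, Finset.mem_union]
    exact ⟨⟨(walk x.2).chg_mem S h1.1 c1, Finset.mem_univ _⟩, (walk x.2).at_n0 S h1.1 c1⟩
  refine (Finset.sum_le_sum_of_subset hsub).trans ?_
  have e3 : ∑ y ∈ T, w y.1.2 = ∑ q ∈ ZS c A B ∪ ZS c B A, w q.1 * w q.2 := by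
    rw [hT, Finset.sum_filter]
    rw [Finset.sum_product' (ZS c A B ∪ ZS c B A) (Finset.univ : Finset I)
      (fun q i => if WP init ev i (n0 c N ev q) = q.1 then w q.2 else 0)]
    apply Finset.sum_congr rfl
    intro q hq
    have hq1 : q.1 ∈ A ∨ q.1 ∈ B := by
      rcases Finset.mem_union.mp hq with h | h
      · exact Or.inl (mem_ZS.mp h).1.1
      · exact Or.inr (mem_ZS.mp h).1.1
    rw [← hw q.1 hq1, ← occ (ev := ev) (n0 c N ev q) (fun m hm => hne m
      (lt_of_lt_of_le hm (n0_le q))) q.1]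
    rw [← Finset.sum_filter, Finset.sum_const, smul_eq_mul]
  rw [e3]
  have := Finset.sum_union_inter (s₁ := ZS c A B) (s₂ := ZS c B A) (f := fun q => w q.1 * w q.2)
  unfold Zw
  omega

open Classical in
/-- gain of one event. -/
theorem gain_event (w : Pt → ℕ) {n : ℕ} (hne : ∀ m ≤ n, (ev m).1 ≠ (ev m).2)
    (h1 : (Finset.univ.filter (fun i => init i = (ev n).1)).card = w (ev n).1)
    (h2 : (Finset.univ.filter (fun i => init i = (ev n).2)).card = w (ev n).2) :
    w (ev n).1 * w (ev n).2 ≤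
      ∑ i, (if WMv init ev i n then w (WP init ev i (n + 1)) else 0) +
      ∑ i, bw w init ev n i := by
  set σ := wst init ev n with hσ
  have hn := hne n le_rfl
  -- the sum of the gains
  have g1 : xx (ev n) σ * (w (ev n).1 + w (ev n).2) ≤
      ∑ i, (if WMv init ev i n then w (WP init ev i (n + 1)) else 0) := by
    have hd : Disjoint (SA (ev n) σ) (SB (ev n) σ) := by
      rw [Finset.disjoint_left]
      intro i ha hb
      exact hn ((mem_SA ha).1.symm.trans (mem_SB hb).1)
    rw [← Finset.sum_filter]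
    have hsub : SA (ev n) σ ∪ SB (ev n) σ ⊆ Finset.univ.filter (fun i => WMv init ev i n) := by
      intro i hi
      rw [Finset.mem_filter]
      exact ⟨Finset.mem_univ _, Finset.mem_union.mp hi⟩
    refine le_trans ?_ (Finset.sum_le_sum_of_subset hsub)
    rw [Finset.sum_union hd]
    have s1 : ∑ i ∈ SA (ev n) σ, w (WP init ev i (n + 1)) = xx (ev n) σ * w (ev n).2 := by
      rw [← SA_card (ev n) σ, ← smul_eq_mul, ← Finset.sum_const]
      apply Finset.sum_congr rfl
      intro i hi
      have : WP init ev i (n + 1) = if i ∈ SA (ev n) σ then (ev n).2 else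
        if i ∈ SB (ev n) σ then (ev n).1 else σ.pos i := rfl
      rw [this, if_pos hi]
    have s2 : ∑ i ∈ SB (ev n) σ, w (WP init ev i (n + 1)) = xx (ev n) σ * w (ev n).1 := by
      rw [← SB_card (ev n) σ, ← smul_eq_mul, ← Finset.sum_const]
      apply Finset.sum_congr rfl
      intro i hi
      have : WP init ev i (n + 1) = if i ∈ SA (ev n) σ then (ev n).2 else
        if i ∈ SB (ev n) σ then (ev n).1 else σ.pos i := rfl
      rw [this, if_neg (fun ha => (Finset.disjoint_left.mp hd) ha hi), if_pos hi]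
    rw [s1, s2]
    apply le_of_eq; ring
  have hpos : ∀ i, WP init ev i n = σ.pos i := fun i => rfl
  -- forbidden numbers
  set FA := Finset.univ.filter (fun i => σ.pos i = (ev n).1 ∧ σ.forb i (ev n).2) with hFA
  set FB := Finset.univ.filter (fun i => σ.pos i = (ev n).2 ∧ σ.forb i (ev n).1) with hFB
  have b1 : ∑ i, bw w init ev n i = FA.card * w (ev n).2 + FB.card * w (ev n).1 := by
    unfold bw
    rw [Finset.sum_add_distrib, ← Finset.sum_filter, ← Finset.sum_filter, Finset.sum_const,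
      Finset.sum_const, smul_eq_mul, smul_eq_mul]
    rfl
  have c1 : (UA (ev n) σ).card + FA.card = w (ev n).1 := by
    rw [← h1, ← occ (ev := ev) n (fun m hm => hne m hm.le) (ev n).1, ← Finset.card_union_of_disjoint]
    · congr 1
      ext i
      unfold UA
      rw [Finset.mem_union, Finset.mem_filter, hFA, Finset.mem_filter, Finset.mem_filter, hpos]
      tauto
    · rw [Finset.disjoint_left]
      intro i ha hb
      unfold UA at ha
      rw [Finset.mem_filter] at ha
      rw [hFA, Finset.mem_filter] at hb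
      exact ha.2.2 hb.2.2
  have c2 : (UB (ev n) σ).card + FB.card = w (ev n).2 := by
    rw [← h2, ← occ (ev := ev) n (fun m hm => hne m hm.le) (ev n).2, ← Finset.card_union_of_disjoint]
    · congr 1
      ext i
      unfold UB
      rw [Finset.mem_union, Finset.mem_filter, hFB, Finset.mem_filter, Finset.mem_filter, hpos]
      tauto
    · rw [Finset.disjoint_left]
      intro i ha hb
      unfold UB at ha
      rw [Finset.mem_filter] at ha
      rw [hFB, Finset.mem_filter] at hb
      exact ha.2.2 hb.2.2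
  rw [b1]
  refine le_trans ?_ (Nat.add_le_add_right g1 _)
  rcases le_total (UA (ev n) σ).card (UB (ev n) σ).card with h | h
  · have hx : xx (ev n) σ = (UA (ev n) σ).card := min_eq_left h
    rw [hx]
    have e : w (ev n).1 * w (ev n).2 = (UA (ev n) σ).card * w (ev n).2 + FA.card * w (ev n).2 := by
      rw [← c1]; ring
    rw [e, mul_add]
    omega
  · have hx : xx (ev n) σ = (UB (ev n) σ).card := min_eq_right h
    rw [hx]
    have e : w (ev n).1 * w (ev n).2 = (UB (ev n) σ).card * w (ev n).1 + FB.card * w (ev n).1 := by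
      rw [← c2]; ring
    rw [e, mul_add]
    omega

end

open Classical in
/-- **Weighted core lemma.** -/
theorem wcore (c : ℝ) (A B : Finset Pt) (hA : ∀ a ∈ A, a.1 < c) (hB : ∀ b ∈ B, c < b.1)
    (gp : ∀ x ∈ A ∪ B, ∀ y ∈ A ∪ B, ∀ z ∈ A ∪ B, x ≠ y → x ≠ z → y ≠ z → orient x y z ≠ 0)
    (w : Pt → ℕ) (hpos : 0 < ∑ v ∈ A, w v + ∑ v ∈ B, w v)
    (E : Finset (Pt × Pt)) (hE : E ⊆ A ×ˢ B) :
    ∃ (m : ℕ) (v : ℕ → Pt), (∀ s ≤ m, v s ∈ A ∪ B) ∧
      (∀ s ≤ m, ∀ t ≤ m, v s = v t → s = t) ∧
      (∀ s < m, (v s, v (s + 1)) ∈ E ∨ (v (s + 1), v s) ∈ E) ∧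
      (∀ s t, s < m → t < m → s + 1 < t →
        Disjoint (segment ℝ (v s) (v (s + 1))) (segment ℝ (v t) (v (t + 1)))) ∧
      ∑ q ∈ E, w q.1 * w q.2 ≤
        (∑ s ∈ Finset.range m, w (v (s + 1))) * (∑ v ∈ A, w v + ∑ v ∈ B, w v) +
          (Zw w c A B + Zw w c B A) := by
  let N := E.card
  let f : Fin N → Pt × Pt := fun i => (E.equivFin.symm i : Pt × Pt)
  have hfE : ∀ i, f i ∈ E := fun i => (E.equivFin.symm i).2
  have hfinj : Function.Injective f := fun i j h =>
    E.equivFin.symm.injective (Subtype.ext h)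
  let σ := Tuple.sort (fun i => ht c (f i).1 (f i).2)
  have hσ := Tuple.monotone_sort (fun i => ht c (f i).1 (f i).2)
  let ev : ℕ → Pt × Pt := fun n => if h : n < N then f (σ ⟨n, h⟩) else ((0, 0), (0, 0))
  have hev : ∀ n (h : n < N), ev n = f (σ ⟨n, h⟩) := fun n h => by
    simp only [ev]; rw [dif_pos h]
  have hevE : ∀ n, n < N → ev n ∈ E := fun n h => by rw [hev n h]; exact hfE _
  have S : Setup c A B N ev := by
    refine ⟨hA, hB, ?_, ?_, ?_, ?_, ?_⟩
    · intro x hx y hy z hz
      exact gp x (by simpa [Finset.mem_union] using hx) y (by simpa [Finset.mem_union] using hy) z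
        (by simpa [Finset.mem_union] using hz)
    · intro n hn; exact (Finset.mem_product.mp (hE (hevE n hn))).1
    · intro n hn; exact (Finset.mem_product.mp (hE (hevE n hn))).2
    · intro m hm n hn h
      rw [hev m hm, hev n hn] at h
      have := σ.injective (hfinj h)
      simpa using this
    · intro m n hmn hn
      rw [hev m (by omega), hev n hn]
      exact hσ (by simpa using hmn)
  have hAB : Disjoint A B := by
    rw [Finset.disjoint_left]
    intro x h1 h2
    linarith [hA x h1, hB x h2]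
  have hne : ∀ n < N, (ev n).1 ≠ (ev n).2 := fun n hn => (S.opp hn).ne
  -- the pedestrians
  let I := Σ v : {v // v ∈ A ∪ B}, Fin (w v)
  let init : I → Pt := fun i => i.1.1
  have hinit : ∀ v, v ∈ A ∨ v ∈ B →
      ((Finset.univ : Finset I).filter (fun i => init i = v)).card = w v := by
    intro v hv
    have hv' : v ∈ A ∪ B := by simpa [Finset.mem_union] using hv
    rw [Finset.card_filter, Fintype.sum_sigma]
    rw [Finset.sum_eq_single (⟨v, hv'⟩ : {v // v ∈ A ∪ B})]
    · simp [init]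
    · intro b _ hb
      apply Finset.sum_eq_zero
      intro j _
      rw [if_neg]
      intro h
      exact hb (Subtype.ext h)
    · intro h; exact absurd (Finset.mem_univ _) h
  have hcardI : Fintype.card I = ∑ v ∈ A, w v + ∑ v ∈ B, w v := by
    rw [Fintype.card_sigma, ← Finset.sum_union hAB, ← Finset.sum_coe_sort (A ∪ B) w]
    simp
  have hE1 : ∑ q ∈ E, w q.1 * w q.2 = ∑ n ∈ Finset.range N, w (ev n).1 * w (ev n).2 := by
    rw [Finset.sum_range (fun n => w (ev n).1 * w (ev n).2)]
    have e1 : ∀ i : Fin N, w (ev i).1 * w (ev i).2 =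
        (fun j => w (f j).1 * w (f j).2) (σ i) := by
      intro i; rw [hev i i.2]
    rw [Finset.sum_congr rfl (fun i _ => e1 i), Equiv.sum_comp σ (fun j => w (f j).1 * w (f j).2)]
    have e2 := Equiv.sum_comp E.equivFin.symm (fun q : E => w q.1.1 * w q.1.2)
    rw [Finset.sum_coe_sort E (fun q => w q.1 * w q.2)] at e2
    exact e2.symm
  have htot : ∑ q ∈ E, w q.1 * w q.2 ≤
      ∑ i : I, ∑ n ∈ Finset.range N, (if WMv init ev i n then w (WP init ev i (n + 1)) else 0) +
        (Zw w c A B + Zw w c B A) := by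
    rw [hE1, Finset.sum_comm]
    refine le_trans ?_ (Nat.add_le_add_left (bw_sum_le (init := init) S w hinit) _)
    rw [← Finset.sum_add_distrib]
    apply Finset.sum_le_sum
    intro n hn
    have hnN := Finset.mem_range.mp hn
    exact gain_event w (fun m hm => hne m (by omega)) (hinit _ (Or.inl (S.mA n hnN)))
      (hinit _ (Or.inr (S.mB n hnN)))
  have hIne : (Finset.univ : Finset I).Nonempty := by
    rw [← Finset.card_pos, Finset.card_univ, hcardI]; exact hpos
  obtain ⟨i, _, himax⟩ := Finset.exists_max_image (Finset.univ : Finset I)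
    (fun i => ∑ n ∈ Finset.range N, (if WMv init ev i n then w (WP init ev i (n + 1)) else 0)) hIne
  have hi0 : WP init ev i 0 ∈ A ∨ WP init ev i 0 ∈ B := by
    have h : init i ∈ A ∪ B := i.1.2
    exact Finset.mem_union.mp h
  obtain ⟨v, h1, hsum, h2, h3, h4⟩ := (walk (init := init) (ev := ev) i).path S hi0
    (M := (Finset.range N).filter (fun n => WMv init ev i n))
    (by intro n; rw [Finset.mem_filter, Finset.mem_range])
  refine ⟨_, v, ?_, h2, ?_, h4, ?_⟩
  · intro s hs
    rw [Finset.mem_union]; exact h1 s hs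
  · intro s hs
    obtain ⟨n, hn, h⟩ := h3 s hs
    rcases h with h | h
    · left; rw [← h]; exact hevE n hn
    · right; rw [← h]; exact hevE n hn
  · rw [← hsum w, Finset.sum_filter]
    refine htot.trans (Nat.add_le_add_right ?_ _)
    refine (Finset.sum_le_sum (fun j hj => himax j hj)).trans ?_
    rw [Finset.sum_const, Finset.card_univ, hcardI, smul_eq_mul, mul_comm]

end Pool.Agent.Lib.MP_992c01_co
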