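import Pool.Agent.Lib.MP_992c01_co.WQuarter
import Pool.Agent.Lib.MP_992c01_co.Cover

set_option autoImplicit false

/-! # MP_992c01_co : noncrossing monochromatic paths of large weight -/

namespace Pool.Agent.Lib.MP_992c01_co

theorem half_pairs_w (w : Pt → ℕ) (S : Finset Pt) (c : ℝ) :
    2 * ∑ q ∈ (S ×ˢ S).filter (fun q => |q.1.1 - c| < |q.2.1 - c|), w q.1 * w q.2 ≤
      Wt w S * Wt w S := by
  classical
  have hprod : Wt w S * Wt w S = ∑ q ∈ S ×ˢ S, w q.1 * w q.2 := by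
    unfold Wt
    rw [Finset.sum_mul_sum, ← Finset.sum_product']
  have e : ∑ q ∈ (S ×ˢ S).filter (fun q : Pt × Pt => |q.1.1 - c| < |q.2.1 - c|), w q.1 * w q.2 =
      ∑ q ∈ (S ×ˢ S).filter (fun q : Pt × Pt => |q.2.1 - c| < |q.1.1 - c|), w q.1 * w q.2 := by
    refine Finset.sum_bij (fun q _ => Prod.swap q) ?_ ?_ ?_ ?_
    · intro q hq
      simp only [Finset.mem_filter, Finset.mem_product, Prod.fst_swap, Prod.snd_swap] at hq ⊢
      exact ⟨⟨hq.1.2, hq.1.1⟩, hq.2⟩
    · intro a _ b _ h; exact Prod.swap_injective h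
    · intro q hq
      refine ⟨Prod.swap q, ?_, by simp⟩
      simp only [Finset.mem_filter, Finset.mem_product, Prod.fst_swap, Prod.snd_swap] at hq ⊢
      exact ⟨⟨hq.1.2, hq.1.1⟩, hq.2⟩
    · intro q _
      simp only [Prod.fst_swap, Prod.snd_swap]
      ring
  rw [hprod, two_mul]
  nth_rewrite 2 [e]
  rw [← Finset.sum_union]
  · apply Finset.sum_le_sum_of_subset
    apply Finset.union_subset <;> exact Finset.filter_subset _ _
  · rw [Finset.disjoint_left]
    intro q h1 h2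
    rw [Finset.mem_filter] at h1 h2
    linarith [h1.2, h2.2]

open Classical in
theorem sum_Zw (w : Pt → ℕ) {κ : Type} [Fintype κ] (c : ℝ) (S : Finset Pt) (G : κ → Finset Pt)
    (K : ℕ) (h : ∀ p q : Pt, (Finset.univ.filter (fun j => Crosses p q (G j))).card ≤ K) :
    2 * ∑ j, Zw w c S (G j) ≤ K * (Wt w S * Wt w S) := by
  have e : ∀ j, Zw w c S (G j) = ∑ q ∈ (S ×ˢ S).filter (fun q => |q.1.1 - c| < |q.2.1 - c|),
      (if Crosses q.1 q.2 (G j) then w q.1 * w q.2 else 0) := by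
    intro j
    rw [← Finset.sum_filter, Finset.filter_filter]
    unfold Zw
    apply Finset.sum_congr _ (fun _ _ => rfl)
    ext q
    rw [mem_ZS, Finset.mem_filter, Finset.mem_product]
  simp only [e]
  rw [Finset.sum_comm]
  have : ∑ q ∈ (S ×ˢ S).filter (fun q => |q.1.1 - c| < |q.2.1 - c|),
      ∑ j, (if Crosses q.1 q.2 (G j) then w q.1 * w q.2 else 0) ≤
      ∑ q ∈ (S ×ˢ S).filter (fun q => |q.1.1 - c| < |q.2.1 - c|), K * (w q.1 * w q.2) := by
    apply Finset.sum_le_sum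
    intro q _
    rw [← Finset.sum_filter, Finset.sum_const, smul_eq_mul]
    exact Nat.mul_le_mul_right _ (h q.1 q.2)
  rw [← Finset.mul_sum] at this
  have h2 := half_pairs_w w S c
  calc _ ≤ 2 * (K * ∑ q ∈ (S ×ˢ S).filter (fun q => |q.1.1 - c| < |q.2.1 - c|),
        w q.1 * w q.2) := Nat.mul_le_mul_left _ this
    _ = K * (2 * ∑ q ∈ (S ×ˢ S).filter (fun q => |q.1.1 - c| < |q.2.1 - c|),
        w q.1 * w q.2) := by ring
    _ ≤ K * (Wt w S * Wt w S) := Nat.mul_le_mul_left _ h2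

open Classical in
/-- averaging over the pairs of sets. -/
theorem wavg (w : Pt → ℕ) {ι κ : Type} [Fintype ι] [Fintype κ] (c : ℝ) (F : ι → Finset Pt)
    (G : κ → Finset Pt) (u K M : ℕ) (hM : 1 ≤ M) (hι : Fintype.card ι = M)
    (hκ : Fintype.card κ = M) (hF : ∀ i, Wt w (F i) ≤ u) (hG : ∀ j, Wt w (G j) ≤ u)
    (hcF : ∀ p q : Pt, (Finset.univ.filter (fun i => Crosses p q (F i))).card ≤ K)
    (hcG : ∀ p q : Pt, (Finset.univ.filter (fun j => Crosses p q (G j))).card ≤ K) :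
    ∃ i j, M * (Zw w c (F i) (G j) + Zw w c (G j) (F i)) ≤ K * (u * u) := by
  by_contra hc
  push Not at hc
  have h1 : ∑ i, 2 * ∑ j, Zw w c (F i) (G j) ≤ M * (K * (u * u)) := by
    refine (Finset.sum_le_sum fun i _ => (sum_Zw w c (F i) G K hcG).trans
      (Nat.mul_le_mul_left _ (Nat.mul_le_mul (hF i) (hF i)))).trans ?_
    simp only [Finset.sum_const, Finset.card_univ, hι, smul_eq_mul]
    exact le_refl _
  have h2 : ∑ j, 2 * ∑ i, Zw w c (G j) (F i) ≤ M * (K * (u * u)) := by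
    refine (Finset.sum_le_sum fun j _ => (sum_Zw w c (G j) F K hcF).trans
      (Nat.mul_le_mul_left _ (Nat.mul_le_mul (hG j) (hG j)))).trans ?_
    simp only [Finset.sum_const, Finset.card_univ, hκ, smul_eq_mul]
    exact le_refl _
  rw [← Finset.mul_sum] at h1 h2
  rw [Finset.sum_comm] at h2
  have h3 : ∑ i : ι, ∑ j : κ, (K * (u * u) + 1) ≤
      ∑ i, ∑ j, M * (Zw w c (F i) (G j) + Zw w c (G j) (F i)) := by
    apply Finset.sum_le_sum; intro i _
    apply Finset.sum_le_sum; intro j _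
    exact hc i j
  simp only [← Finset.mul_sum, Finset.sum_add_distrib, Finset.sum_const, Finset.card_univ, hι, hκ,
    smul_eq_mul] at h3
  have h4 : M * (∑ i, ∑ j, Zw w c (F i) (G j) + ∑ i, ∑ j, Zw w c (G j) (F i)) ≤
      M * (M * (K * (u * u))) := Nat.mul_le_mul_left _ (by linarith)
  have h5 : M * (M * (K * (u * u))) < M * (M * (K * (u * u))) + M * (M * 1) := by
    have : 0 < M * (M * 1) := by positivity
    omega
  linarith

open Classical in
theorem wpigeon (w : Pt → ℕ) {k : ℕ} (hk : 1 ≤ k) (T : Finset (Pt × Pt)) (col : Pt → Pt → Fin k) :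
    ∃ c : Fin k, ∑ q ∈ T, w q.1 * w q.2 ≤
      k * ∑ q ∈ T.filter (fun q => col q.1 q.2 = c), w q.1 * w q.2 := by
  by_contra hc
  push Not at hc
  have h1 : ∑ q ∈ T, w q.1 * w q.2 =
      ∑ c : Fin k, ∑ q ∈ T.filter (fun q => col q.1 q.2 = c), w q.1 * w q.2 :=
    (Finset.sum_fiberwise T (fun q => col q.1 q.2) (fun q => w q.1 * w q.2)).symm
  have h2 : ∑ c : Fin k, k * ∑ q ∈ T.filter (fun q => col q.1 q.2 = c), w q.1 * w q.2 <
      ∑ c : Fin k, ∑ q ∈ T, w q.1 * w q.2 := by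
    apply Finset.sum_lt_sum_of_nonempty
    · exact ⟨⟨0, hk⟩, Finset.mem_univ _⟩
    · intro c _; exact hc c
  rw [← Finset.mul_sum, ← h1] at h2
  simp at h2

theorem arith2 {k p s f g e z D T : ℕ} (hs : 1 ≤ s) (hf : s ≤ f) (hf2 : f ≤ s + s) (hg : s ≤ g)
    (hg2 : g ≤ s + s) (h1 : f * g ≤ k * e) (h2 : e ≤ p * (f + g) + z)
    (h3 : D * z ≤ T * ((s + s) * (s + s))) (h4 : 8 * k * T ≤ D) (hD : 1 ≤ D) :
    s ≤ 4 * k * p := by
  -- D f g ≤ k D p (f+g) + k D z ≤ k D p (f+g) + 4 k T s^2 ≤ k D p (f + g) + D s^2 / 2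
  have a1 : D * (f * g) ≤ D * (k * e) := Nat.mul_le_mul_left _ h1
  have a2 : D * k * e ≤ D * k * (p * (f + g) + z) := Nat.mul_le_mul_left _ h2
  have a3 : k * (D * z) ≤ k * (T * ((s + s) * (s + s))) := Nat.mul_le_mul_left _ h3
  have a4 : 8 * k * T * (s * s) ≤ D * (s * s) := Nat.mul_le_mul_right _ h4
  have a5 : D * (s * s) ≤ D * (f * g) := Nat.mul_le_mul_left _ (Nat.mul_le_mul hf hg)
  have a6 : 2 * (D * (f * g)) ≤ 2 * (D * k * (p * (f + g))) + D * (f * g) := by nlinarith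
  have a7 : D * (f * g) ≤ D * (2 * k * p * (f + g)) := by nlinarith
  have a8 : f * g ≤ 2 * k * p * (f + g) := Nat.le_of_mul_le_mul_left a7 (by omega)
  rcases le_total f g with h | h
  · have a9 : 2 * k * p * (f + g) ≤ 2 * k * p * (g + g) := Nat.mul_le_mul_left _ (by omega)
    have a10 : g * f ≤ g * (4 * k * p) := by nlinarith
    exact hf.trans (Nat.le_of_mul_le_mul_left a10 (by omega))
  · have a9 : 2 * k * p * (f + g) ≤ 2 * k * p * (f + f) := Nat.mul_le_mul_left _ (by omega)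
    have a10 : f * g ≤ f * (4 * k * p) := by nlinarith
    exact hg.trans (Nat.le_of_mul_le_mul_left a10 (by omega))

/-- weight of a path. -/
def pw (w : Pt → ℕ) (len : ℕ) (v : ℕ → Pt) : ℕ := ∑ t ∈ Finset.range len, w (v t)

theorem wlin0 (w : Pt → ℕ) (k d s : ℕ) (hk : 1 ≤ k) (hd : 8 * k * 3 ^ d ≤ 4 ^ d) (hs : 1 ≤ s)
    (X : Finset Pt) (gp : GP X) (hinj : Set.InjOn Prod.fst (X : Set Pt))
    (hμ : ∀ x ∈ X, w x ≤ s) (hX : 4 * 6 ^ d * s ≤ Wt w X)
    (col : Pt → Pt → Fin k) (hcol : ∀ x y, col x y = col y x) :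
    ∃ len v, Good X col len v ∧ s ≤ 4 * k * pw w len v := by
  classical
  have hT : s + s ≤ 6 ^ d * (s + s) := Nat.le_mul_of_pos_left _ (by positivity)
  have hX' : 2 * (6 ^ d * (s + s)) ≤ Wt w X := by
    refine le_trans (le_of_eq ?_) hX; ring
  obtain ⟨w0, hw0, hr1, hr2⟩ := wrank w X Prod.fst hinj (6 ^ d * (s + s) - 1) (by omega)
  set L := X.filter (fun z => z.1 < w0.1) with hL
  have hr1' : Wt w L ≤ 6 ^ d * (s + s) - 1 := by convert hr1
  have hr2' : 6 ^ d * (s + s) - 1 < Wt w L + w w0 := by convert hr2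
  have hμ0 := hμ w0 hw0
  set R := X.filter (fun z => ¬ z.1 < w0.1) with hR
  have hsum : Wt w L + Wt w R = Wt w X := by
    unfold Wt
    exact Finset.sum_filter_add_sum_filter_not X _ _
  have hLs : L ⊆ X := Finset.filter_subset _ _
  have hRs : R ⊆ X := Finset.filter_subset _ _
  have hLne : L.Nonempty := by
    by_contra h
    rw [Finset.not_nonempty_iff_eq_empty] at h
    have : Wt w L = 0 := by rw [h]; simp [Wt]
    omega
  obtain ⟨a, ha, hmax⟩ := Finset.exists_max_image L (fun z : Pt => z.1) hLne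
  have ha1 : a.1 < w0.1 := (Finset.mem_filter.mp ha).2
  obtain ⟨ι, iι, F, F1, F2, F3, F4⟩ := wpart w s s hs d _ (gp.mono hLs)
    (hinj.mono (Finset.coe_subset.mpr hLs)) (fun x hx => hμ x (hLs hx)) (by omega)
  obtain ⟨κ, iκ, G, G1, G2, G3, G4⟩ := wpart w s s hs d _ (gp.mono hRs)
    (hinj.mono (Finset.coe_subset.mpr hRs)) (fun x hx => hμ x (hRs hx)) (by omega)
  obtain ⟨i, j, hij⟩ := wavg w ((a.1 + w0.1) / 2) F G (s + s) (3 ^ d) (4 ^ d)
    (Nat.one_le_pow _ _ (by norm_num)) F1 G1 (fun i => (F3 i).2) (fun j => (G3 j).2) F4 G4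
  obtain ⟨c, hc⟩ := wpigeon w hk (F i ×ˢ G j) col
  have hprod : ∑ q ∈ F i ×ˢ G j, w q.1 * w q.2 = Wt w (F i) * Wt w (G j) := by
    unfold Wt
    rw [Finset.sum_mul_sum, ← Finset.sum_product']
  rw [hprod] at hc
  have hFX : F i ⊆ X := (F2 i).trans hLs
  have hGX : G j ⊆ X := (G2 j).trans hRs
  have hUX : F i ∪ G j ⊆ X := Finset.union_subset hFX hGX
  have hpos : 0 < ∑ v ∈ F i, w v + ∑ v ∈ G j, w v := by
    have := (F3 i).1
    unfold Wt at this
    omega
  obtain ⟨m, v, v1, v2, v3, v4, v5⟩ := wcore ((a.1 + w0.1) / 2) (F i) (G j)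
    (by
      intro z hz
      have := hmax z (F2 i hz)
      linarith)
    (by
      intro z hz
      have := not_lt.mp (Finset.mem_filter.mp (G2 j hz)).2
      linarith)
    (fun x hx y hy z hz => gp x (hUX hx) y (hUX hy) z (hUX hz)) w hpos
    ((F i ×ˢ G j).filter (fun q => col q.1 q.2 = c)) (Finset.filter_subset _ _)
  refine ⟨m + 1, v, ⟨by omega, ?_, ?_, ⟨c, ?_⟩, ?_⟩, ?_⟩
  · intro t ht; exact hUX (v1 t (by omega))
  · intro t t' ht ht' h; exact v2 t (by omega) t' (by omega) h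
  · intro t ht
    rcases v3 t (by omega) with h | h
    · exact (Finset.mem_filter.mp h).2
    · rw [hcol]; exact (Finset.mem_filter.mp h).2
  · intro t t' ht ht' h; exact v4 t t' (by omega) (by omega) h
  · have hle : ∑ s ∈ Finset.range m, w (v (s + 1)) ≤ pw w (m + 1) v := by
      unfold pw
      rw [Finset.sum_range_succ']
      omega
    have h5 := arith2 hs (F3 i).1 (F3 i).2 (G3 j).1 (G3 j).2 hc v5 hij hd
      (Nat.one_le_pow _ _ (by norm_num))
    exact h5.trans (Nat.mul_le_mul_left _ hle)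

/-- Half of the weight on points with different abscissas. -/
theorem wdistinct_fst (w : Pt → ℕ) (P : Finset Pt) (gp : GP P) :
    ∃ X ⊆ P, Set.InjOn Prod.fst (X : Set Pt) ∧ Wt w P ≤ 2 * Wt w X := by
  classical
  have hex : ∀ a : ℝ, ∃ p : Pt, a ∈ P.image Prod.fst → (p ∈ P ∧ p.1 = a) ∧
      ∀ q ∈ P, q.1 = a → w q ≤ w p := by
    intro a
    by_cases h : a ∈ P.image Prod.fst
    · have hne : (P.filter (fun p => p.1 = a)).Nonempty := by
        obtain ⟨p, hp, hpa⟩ := Finset.mem_image.mp h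
        exact ⟨p, Finset.mem_filter.mpr ⟨hp, hpa⟩⟩
      obtain ⟨p, hp, hmax⟩ := Finset.exists_max_image _ w hne
      have hp' := Finset.mem_filter.mp hp
      exact ⟨p, fun _ => ⟨⟨hp'.1, hp'.2⟩, fun q hq hqa =>
        hmax q (Finset.mem_filter.mpr ⟨hq, hqa⟩)⟩⟩
    · exact ⟨(0, 0), fun h' => absurd h' h⟩
  choose g hg using hex
  have hinj : Set.InjOn g (P.image Prod.fst : Set ℝ) := by
    intro a ha b hb h
    rw [← (hg a ha).1.2, ← (hg b hb).1.2, h]
  refine ⟨(P.image Prod.fst).image g, ?_, ?_, ?_⟩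
  · intro p hp
    obtain ⟨a, ha, rfl⟩ := Finset.mem_image.mp hp
    exact (hg a ha).1.1
  · intro p hp q hq h
    obtain ⟨a, ha, rfl⟩ := Finset.mem_image.mp hp
    obtain ⟨b, hb, rfl⟩ := Finset.mem_image.mp hq
    rw [(hg a ha).1.2, (hg b hb).1.2] at h
    rw [h]
  · unfold Wt
    rw [Finset.sum_image (fun a ha b hb h => hinj ha hb h), Finset.mul_sum]
    rw [← Finset.sum_fiberwise_of_maps_to (g := Prod.fst) (t := P.image Prod.fst)
      (fun p hp => Finset.mem_image_of_mem _ hp)]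
    apply Finset.sum_le_sum
    intro a ha
    have hc2 : (P.filter (fun p => p.1 = a)).card ≤ 2 := by
      by_contra hc
      push Not at hc
      obtain ⟨x, hx, y, hy, z, hz, h1, h2, h3⟩ := Finset.two_lt_card.mp hc
      rw [Finset.mem_filter] at hx hy hz
      apply gp x hx.1 y hy.1 z hz.1 h1 h2 h3
      unfold orient
      rw [hx.2, hy.2, hz.2]; ring
    calc ∑ p ∈ P.filter (fun p => p.1 = a), w p ≤ ∑ p ∈ P.filter (fun p => p.1 = a), w (g a) := by
          apply Finset.sum_le_sum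
          intro q hq
          have hq' := Finset.mem_filter.mp hq
          exact (hg a ha).2 q hq'.1 hq'.2
      _ = (P.filter (fun p => p.1 = a)).card * w (g a) := by
          rw [Finset.sum_const, smul_eq_mul]
      _ ≤ 2 * w (g a) := Nat.mul_le_mul_right _ hc2

theorem good_single {k : ℕ} (hk : 1 ≤ k) {P : Finset Pt} (col : Pt → Pt → Fin k) {p : Pt}
    (hp : p ∈ P) : Good P col 1 (fun _ => p) :=
  ⟨le_refl _, fun _ _ => hp, fun s t hs ht _ => by omega,
      ⟨⟨0, hk⟩, fun s hs => by omega⟩, fun s t hs _ _ => by omega⟩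

/-- **Noncrossing monochromatic paths of large weight**, with a parameter `d`. -/
theorem wlin1 (w : Pt → ℕ) (k d : ℕ) (hk : 1 ≤ k) (hd : 8 * k * 3 ^ d ≤ 4 ^ d) (P : Finset Pt)
    (gp : GP P) (hne : P.Nonempty) (col : Pt → Pt → Fin k) (hcol : ∀ x y, col x y = col y x) :
    ∃ len v, Good P col len v ∧ Wt w P ≤ 64 * k * 6 ^ d * pw w len v := by
  obtain ⟨X, hXP, hinj, hX⟩ := wdistinct_fst w P gp
  have h6 : 1 ≤ 6 ^ d := Nat.one_le_pow _ _ (by norm_num)
  have hdiv := Nat.div_add_mod (Wt w X) (4 * 6 ^ d)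
  have hmod := Nat.mod_lt (Wt w X) (show 0 < 4 * 6 ^ d by positivity)
  set s := Wt w X / (4 * 6 ^ d) with hs
  have hXs : Wt w X ≤ 4 * 6 ^ d * (s + 1) := by rw [mul_add]; omega
  by_cases hbig : ∃ p ∈ X, s < w p
  · obtain ⟨p, hp, hps⟩ := hbig
    refine ⟨1, fun _ => p, good_single hk col (hXP hp), ?_⟩
    have e : pw w 1 (fun _ => p) = w p := by simp [pw]
    rw [e]
    have a1 : 4 * 6 ^ d * (s + 1) ≤ 4 * 6 ^ d * w p := Nat.mul_le_mul_left _ hps
    have a2 : 64 * 1 * 6 ^ d * w p ≤ 64 * k * 6 ^ d * w p :=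
      Nat.mul_le_mul_right _ (Nat.mul_le_mul_right _ (Nat.mul_le_mul_left _ hk))
    nlinarith
  · push Not at hbig
    rcases Nat.eq_zero_or_pos s with h0 | h0
    · obtain ⟨p, hp⟩ := hne
      refine ⟨1, fun _ => p, good_single hk col hp, ?_⟩
      have : Wt w X = 0 := by
        apply Finset.sum_eq_zero
        intro x hx
        have := hbig x hx
        omega
      have : Wt w P = 0 := by omega
      rw [this]; exact Nat.zero_le _
    · obtain ⟨len, v, hv, hm⟩ := wlin0 w k d s hk hd h0 X (gp.mono hXP) hinj hbig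
        (by omega) col hcol
      refine ⟨len, v, hv.mono hXP, ?_⟩
      have a1 : 4 * 6 ^ d * (s + 1) ≤ 4 * 6 ^ d * (2 * s) := Nat.mul_le_mul_left _ (by omega)
      have a2 : 4 * 6 ^ d * (2 * s) ≤ 4 * 6 ^ d * (2 * (4 * k * pw w len v)) :=
        Nat.mul_le_mul_left _ (Nat.mul_le_mul_left _ hm)
      nlinarith

/-- **Noncrossing monochromatic paths of large weight.** -/
theorem wlin (w : Pt → ℕ) (k : ℕ) (hk : 1 ≤ k) (P : Finset Pt) (gp : GP P)
    (hne : P.Nonempty) (col : Pt → Pt → Fin k) (hcol : ∀ x y, col x y = col y x) :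
    ∃ len v, Good P col len v ∧ Wt w P ≤ 805306368 * k ^ 8 * pw w len v := by
  obtain ⟨d, hd, h6⟩ := exists_d (4 * k) (by omega)
  obtain ⟨len, v, hv, h⟩ := wlin1 w k d hk (by
    refine le_trans (le_of_eq ?_) hd; ring) P gp hne col hcol
  refine ⟨len, v, hv, h.trans ?_⟩
  apply Nat.mul_le_mul_right
  calc 64 * k * 6 ^ d ≤ 64 * k * (768 * (4 * k) ^ 7) := Nat.mul_le_mul_left _ h6
    _ = 805306368 * k ^ 8 := by ring

end Pool.Agent.Lib.MP_992c01_co
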