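import Pool.Agent.Lib.MP_992c01_co.Walk

set_option autoImplicit false

/-! # MP_992c01_co : weighted version of the pedestrians -/

namespace Pool.Agent.Lib.MP_992c01_co

section
variable {I : Type}

/-- State of the weighted process. -/
structure WSt (I : Type) where
  pos : I → Pt
  forb : I → Pt → Prop

/-- some subset with `x` elements. -/
noncomputable def sel (U : Finset I) (x : ℕ) : Finset I := by
  classical exact if h : x ≤ U.card then (Finset.exists_subset_card_eq h).choose else ∅

theorem sel_sub (U : Finset I) (x : ℕ) : sel U x ⊆ U := by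
  unfold sel
  split_ifs with h
  · exact (Finset.exists_subset_card_eq h).choose_spec.1
  · exact Finset.empty_subset _

theorem sel_card {U : Finset I} {x : ℕ} (h : x ≤ U.card) : (sel U x).card = x := by
  unfold sel
  rw [dif_pos h]
  exact (Finset.exists_subset_card_eq h).choose_spec.2

variable [Fintype I]

open Classical in
/-- pedestrians at the first point for which the second point is not forbidden. -/
noncomputable def UA (e : Pt × Pt) (σ : WSt I) : Finset I :=
  Finset.univ.filter (fun i => σ.pos i = e.1 ∧ ¬ σ.forb i e.2)

open Classical in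
/-- pedestrians at the second point for which the first point is not forbidden. -/
noncomputable def UB (e : Pt × Pt) (σ : WSt I) : Finset I :=
  Finset.univ.filter (fun i => σ.pos i = e.2 ∧ ¬ σ.forb i e.1)

/-- number of exchanged pedestrians. -/
noncomputable def xx (e : Pt × Pt) (σ : WSt I) : ℕ := min (UA e σ).card (UB e σ).card

/-- those who leave the first point. -/
noncomputable def SA (e : Pt × Pt) (σ : WSt I) : Finset I := sel (UA e σ) (xx e σ)

/-- those who leave the second point. -/
noncomputable def SB (e : Pt × Pt) (σ : WSt I) : Finset I := sel (UB e σ) (xx e σ)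

theorem SA_card (e : Pt × Pt) (σ : WSt I) : (SA e σ).card = xx e σ :=
  sel_card (min_le_left _ _)

theorem SB_card (e : Pt × Pt) (σ : WSt I) : (SB e σ).card = xx e σ :=
  sel_card (min_le_right _ _)

theorem mem_SA {e : Pt × Pt} {σ : WSt I} {i : I} (h : i ∈ SA e σ) :
    σ.pos i = e.1 ∧ ¬ σ.forb i e.2 := by
  classical
  exact (Finset.mem_filter.mp (sel_sub _ _ h)).2

theorem mem_SB {e : Pt × Pt} {σ : WSt I} {i : I} (h : i ∈ SB e σ) :
    σ.pos i = e.2 ∧ ¬ σ.forb i e.1 := by
  classical
  exact (Finset.mem_filter.mp (sel_sub _ _ h)).2

open Classical in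
/-- one event. -/
noncomputable def wstp (e : Pt × Pt) (σ : WSt I) : WSt I :=
  ⟨fun i => if i ∈ SA e σ then e.2 else if i ∈ SB e σ then e.1 else σ.pos i,
    fun i p => σ.forb i p ∨ ((i ∈ SA e σ ∨ i ∈ SB e σ) ∧ Bel e.1 e.2 p)⟩

/-- the process. -/
noncomputable def wst (init : I → Pt) (ev : ℕ → Pt × Pt) : ℕ → WSt I
  | 0 => ⟨init, fun _ _ => False⟩
  | n + 1 => wstp (ev n) (wst init ev n)

/-- position of pedestrian `i` before event `n`. -/
noncomputable def WP (init : I → Pt) (ev : ℕ → Pt × Pt) (i : I) (n : ℕ) : Pt :=
  (wst init ev n).pos i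

/-- pedestrian `i` moves at event `n`. -/
def WMv (init : I → Pt) (ev : ℕ → Pt × Pt) (i : I) (n : ℕ) : Prop :=
  i ∈ SA (ev n) (wst init ev n) ∨ i ∈ SB (ev n) (wst init ev n)

variable {init : I → Pt} {ev : ℕ → Pt × Pt}

theorem WP_succ (i : I) (n : ℕ) : WP init ev i (n + 1) =
    (wstp (ev n) (wst init ev n)).pos i := rfl

theorem wforb_iff (n : ℕ) (i : I) (p : Pt) :
    (wst init ev n).forb i p ↔ ∃ r < n, WMv init ev i r ∧ Bel (ev r).1 (ev r).2 p := by
  induction n with
  | zero =>
    show False ↔ _
    simp
  | succ n ih =>
    show ((wst init ev n).forb i p ∨ ((i ∈ SA (ev n) (wst init ev n) ∨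
      i ∈ SB (ev n) (wst init ev n)) ∧ Bel (ev n).1 (ev n).2 p)) ↔ _
    rw [ih]
    constructor
    · rintro (⟨r, hr, h1, h2⟩ | ⟨h1, h2⟩)
      · exact ⟨r, by omega, h1, h2⟩
      · exact ⟨n, by omega, h1, h2⟩
    · rintro ⟨r, hr, h1, h2⟩
      by_cases hrn : r = n
      · subst hrn; exact Or.inr ⟨h1, h2⟩
      · exact Or.inl ⟨r, by omega, h1, h2⟩

theorem walk (i : I) : Walk ev (WP init ev i) (WMv init ev i) := by
  classical
  refine ⟨?_, ?_, ?_⟩
  · intro n h
    unfold WMv at h
    push Not at h
    rw [WP_succ]
    unfold wstp
    show (if _ then _ else if _ then _ else _) = _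
    rw [if_neg h.1, if_neg h.2]
    rfl
  · intro n h
    rw [WP_succ]
    unfold wstp
    by_cases h1 : i ∈ SA (ev n) (wst init ev n)
    · left
      refine ⟨(mem_SA h1).1, ?_⟩
      show (if _ then _ else if _ then _ else _) = _
      rw [if_pos h1]
    · right
      have h2 : i ∈ SB (ev n) (wst init ev n) := h.resolve_left h1
      refine ⟨(mem_SB h2).1, ?_⟩
      show (if _ then _ else if _ then _ else _) = _
      rw [if_neg h1, if_pos h2]
  · intro r u hru hr hu hb
    rw [WP_succ] at hb
    unfold wstp at hb
    by_cases h1 : i ∈ SA (ev u) (wst init ev u)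
    · have h2 := (mem_SA h1).2
      rw [wforb_iff] at h2
      apply h2
      refine ⟨r, hru, hr, ?_⟩
      have hb' : Bel (ev r).1 (ev r).2 (if i ∈ SA (ev u) (wst init ev u) then (ev u).2 else
        if i ∈ SB (ev u) (wst init ev u) then (ev u).1 else (wst init ev u).pos i) := hb
      rwa [if_pos h1] at hb'
    · have h3 : i ∈ SB (ev u) (wst init ev u) := hu.resolve_left h1
      have h2 := (mem_SB h3).2
      rw [wforb_iff] at h2
      apply h2
      refine ⟨r, hru, hr, ?_⟩
      have hb' : Bel (ev r).1 (ev r).2 (if i ∈ SA (ev u) (wst init ev u) then (ev u).2 else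
        if i ∈ SB (ev u) (wst init ev u) then (ev u).1 else (wst init ev u).pos i) := hb
      rwa [if_neg h1, if_pos h3] at hb'

open Classical in
/-- the number of pedestrians at a point does not change. -/
theorem occ (n : ℕ) (hev : ∀ m < n, (ev m).1 ≠ (ev m).2) (v : Pt) :
    (Finset.univ.filter (fun i => WP init ev i n = v)).card =
      (Finset.univ.filter (fun i => init i = v)).card := by
  induction n with
  | zero => rfl
  | succ n ih =>
    rw [← ih (fun m hm => hev m (by omega))]
    have hne := hev n (by omega)
    set σ := wst init ev n with hσ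
    have hpos : ∀ i, WP init ev i n = σ.pos i := fun i => rfl
    have hsucc : ∀ i, WP init ev i (n + 1) = if i ∈ SA (ev n) σ then (ev n).2 else
        if i ∈ SB (ev n) σ then (ev n).1 else σ.pos i := fun i => rfl
    have hAB : ∀ i, i ∈ SA (ev n) σ → i ∉ SB (ev n) σ := by
      intro i h1 h2
      exact hne ((mem_SA h1).1.symm.trans (mem_SB h2).1)
    by_cases h1 : v = (ev n).1
    · have e : Finset.univ.filter (fun i => WP init ev i (n + 1) = v) =
          (Finset.univ.filter (fun i => WP init ev i n = v) \ SA (ev n) σ) ∪ SB (ev n) σ := by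
        ext i
        simp only [Finset.mem_filter, Finset.mem_univ, true_and, Finset.mem_union,
          Finset.mem_sdiff, hsucc, hpos]
        by_cases ha : i ∈ SA (ev n) σ
        · rw [if_pos ha]
          constructor
          · intro h; exact absurd (h1.symm.trans h.symm) hne
          · rintro (h | h)
            · exact absurd ha h.2
            · exact absurd h (hAB i ha)
        · rw [if_neg ha]
          by_cases hb : i ∈ SB (ev n) σ
          · rw [if_pos hb]; simp [h1, hb]
          · rw [if_neg hb]; simp [ha, hb]
      rw [e, Finset.card_union_of_disjoint, Finset.card_sdiff_of_subset, SA_card, SB_card]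
      · apply Nat.sub_add_cancel
        rw [← SA_card (ev n) σ]
        apply Finset.card_le_card
        intro i hi
        rw [Finset.mem_filter]
        exact ⟨Finset.mem_univ _, by rw [hpos, h1]; exact (mem_SA hi).1⟩
      · intro i hi
        rw [Finset.mem_filter]
        exact ⟨Finset.mem_univ _, by rw [hpos, h1]; exact (mem_SA hi).1⟩
      · rw [Finset.disjoint_left]
        intro i hi hb
        rw [Finset.mem_sdiff, Finset.mem_filter, hpos] at hi
        exact hne (h1.symm.trans (hi.1.2.symm.trans (mem_SB hb).1))
    · by_cases h2 : v = (ev n).2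
      · have e : Finset.univ.filter (fun i => WP init ev i (n + 1) = v) =
            (Finset.univ.filter (fun i => WP init ev i n = v) \ SB (ev n) σ) ∪ SA (ev n) σ := by
          ext i
          simp only [Finset.mem_filter, Finset.mem_univ, true_and, Finset.mem_union,
            Finset.mem_sdiff, hsucc, hpos]
          by_cases ha : i ∈ SA (ev n) σ
          · rw [if_pos ha]; simp [h2, ha]
          · rw [if_neg ha]
            by_cases hb : i ∈ SB (ev n) σ
            · rw [if_pos hb]
              constructor
              · intro h; exact absurd h.symm h1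
              · rintro (h | h)
                · exact absurd hb h.2
                · exact absurd h ha
            · rw [if_neg hb]; simp [ha, hb]
        rw [e, Finset.card_union_of_disjoint, Finset.card_sdiff_of_subset, SA_card, SB_card]
        · apply Nat.sub_add_cancel
          rw [← SB_card (ev n) σ]
          apply Finset.card_le_card
          intro i hi
          rw [Finset.mem_filter]
          exact ⟨Finset.mem_univ _, by rw [hpos, h2]; exact (mem_SB hi).1⟩
        · intro i hi
          rw [Finset.mem_filter]
          exact ⟨Finset.mem_univ _, by rw [hpos, h2]; exact (mem_SB hi).1⟩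
        · rw [Finset.disjoint_left]
          intro i hi ha
          rw [Finset.mem_sdiff, Finset.mem_filter, hpos] at hi
          exact hne ((mem_SA ha).1.symm.trans (hi.1.2.trans h2))
      · congr 1
        ext i
        simp only [Finset.mem_filter, Finset.mem_univ, true_and, hsucc, hpos]
        by_cases ha : i ∈ SA (ev n) σ
        · rw [if_pos ha, (mem_SA ha).1]
          constructor
          · intro h; exact absurd h.symm h2
          · intro h; exact absurd h.symm h1
        · rw [if_neg ha]
          by_cases hb : i ∈ SB (ev n) σ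
          · rw [if_pos hb, (mem_SB hb).1]
            constructor
            · intro h; exact absurd h.symm h1
            · intro h; exact absurd h.symm h2
          · rw [if_neg hb]

end

end Pool.Agent.Lib.MP_992c01_co
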