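import Pool.Agent.Lib.MP_992c01_co.WCore

set_option autoImplicit false

/-! # MP_992c01_co : weighted quartering -/

namespace Pool.Agent.Lib.MP_992c01_co

/-- total weight. -/
def Wt (w : Pt → ℕ) (X : Finset Pt) : ℕ := ∑ v ∈ X, w v

theorem Wt_mono (w : Pt → ℕ) {X Y : Finset Pt} (h : X ⊆ Y) : Wt w X ≤ Wt w Y :=
  Finset.sum_le_sum_of_subset h

/-- weighted ranks. -/
theorem wrank (w : Pt → ℕ) (R : Finset Pt) (f : Pt → ℝ) (hf : Set.InjOn f (R : Set Pt)) (t : ℕ)
    (ht : t < Wt w R) : ∃ z ∈ R, Wt w (R.filter (fun y => f y < f z)) ≤ t ∧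
      t < Wt w (R.filter (fun y => f y < f z)) + w z := by
  classical
  have hle : ∀ z ∈ R, Wt w (R.filter (fun y => f y ≤ f z)) =
      Wt w (R.filter (fun y => f y < f z)) + w z := by
    intro z hz
    have : R.filter (fun y => f y ≤ f z) = insert z (R.filter (fun y => f y < f z)) := by
      ext y
      rw [Finset.mem_insert, Finset.mem_filter, Finset.mem_filter]
      constructor
      · rintro ⟨h1, h2⟩
        rcases lt_or_eq_of_le h2 with h | h
        · right; exact ⟨h1, h⟩
        · left; exact hf h1 hz h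
      · rintro (h | h)
        · rw [h]; exact ⟨hz, le_rfl⟩
        · exact ⟨h.1, h.2.le⟩
    rw [this]
    unfold Wt
    rw [Finset.sum_insert (by simp)]
    ring
  have hRne : R.Nonempty := by
    by_contra h
    rw [Finset.not_nonempty_iff_eq_empty] at h
    rw [h] at ht
    simp [Wt] at ht
  have hTne : (R.filter (fun z => t < Wt w (R.filter (fun y => f y ≤ f z)))).Nonempty := by
    obtain ⟨z, hz, hmax⟩ := Finset.exists_max_image R f hRne
    refine ⟨z, Finset.mem_filter.mpr ⟨hz, ?_⟩⟩
    rw [Finset.filter_true_of_mem (fun y hy => hmax y hy)]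
    exact ht
  obtain ⟨z, hz, hmin⟩ := Finset.exists_min_image _ f hTne
  obtain ⟨hzR, hzt⟩ := Finset.mem_filter.mp hz
  refine ⟨z, hzR, ?_, by rw [← hle z hzR]; exact hzt⟩
  rcases (R.filter (fun y => f y < f z)).eq_empty_or_nonempty with h0 | h0
  · rw [h0]; simp [Wt]
  · obtain ⟨y, hy, hymax⟩ := Finset.exists_max_image _ f h0
    obtain ⟨hyR, hyz⟩ := Finset.mem_filter.mp hy
    have hsub : R.filter (fun x => f x < f z) ⊆ R.filter (fun x => f x ≤ f y) := by
      intro x hx
      exact Finset.mem_filter.mpr ⟨(Finset.mem_filter.mp hx).1, hymax x hx⟩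
    have h1 : ¬ t < Wt w (R.filter (fun x => f x ≤ f y)) := by
      intro h
      have := hmin y (Finset.mem_filter.mpr ⟨hyR, h⟩)
      linarith
    exact (Wt_mono w hsub).trans (not_lt.mp h1)

theorem wtour1 (w : Pt → ℕ) (A : Finset Pt) (r : Pt → Pt → Prop) [∀ x, DecidablePred (r x)]
    (h : ∀ x ∈ A, ∀ y ∈ A, x ≠ y → r x y ∨ r y x) (hne : 0 < Wt w A) :
    ∃ x ∈ A, Wt w A ≤ 2 * Wt w (A.filter (fun y => y ≠ x ∧ r x y)) + w x := by
  classical
  by_contra hc
  push Not at hc
  -- pairs
  have e1 : ∑ x ∈ A, ∑ y ∈ A, w x * w y ≤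
      ∑ x ∈ A, ∑ y ∈ A, ((if y ≠ x ∧ r x y then w x * w y else 0) +
        (if x ≠ y ∧ r y x then w x * w y else 0) + (if x = y then w x * w y else 0)) := by
    apply Finset.sum_le_sum; intro x hx
    apply Finset.sum_le_sum; intro y hy
    by_cases hxy : x = y
    · simp [hxy]
    · rcases h x hx y hy hxy with h1 | h1
      · simp [hxy, Ne.symm hxy, h1]
      · simp [hxy, Ne.symm hxy, h1]
  have e2 : ∑ x ∈ A, ∑ y ∈ A, (if x ≠ y ∧ r y x then w x * w y else 0) =
      ∑ x ∈ A, ∑ y ∈ A, (if y ≠ x ∧ r x y then w x * w y else 0) := by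
    rw [Finset.sum_comm]
    apply Finset.sum_congr rfl; intro x _
    apply Finset.sum_congr rfl; intro y _
    rw [mul_comm (w x) (w y)]
  have e3 : ∑ x ∈ A, ∑ y ∈ A, (if y ≠ x ∧ r x y then w x * w y else 0) =
      ∑ x ∈ A, w x * Wt w (A.filter (fun y => y ≠ x ∧ r x y)) := by
    apply Finset.sum_congr rfl; intro x _
    unfold Wt
    rw [Finset.mul_sum, Finset.sum_filter]
  have e4 : ∑ x ∈ A, ∑ y ∈ A, (if x = y then w x * w y else 0) = ∑ x ∈ A, w x * w x := by
    apply Finset.sum_congr rfl; intro x hx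
    rw [Finset.sum_ite_eq]
    simp [hx]
  simp only [Finset.sum_add_distrib] at e1
  rw [e2, e3, e4] at e1
  have e5 : ∑ x ∈ A, ∑ y ∈ A, w x * w y = ∑ x ∈ A, w x * Wt w A := by
    apply Finset.sum_congr rfl; intro x _
    unfold Wt
    rw [Finset.mul_sum]
  rw [e5] at e1
  have e6 : ∑ x ∈ A, w x * (2 * Wt w (A.filter (fun y => y ≠ x ∧ r x y)) + w x) <
      ∑ x ∈ A, w x * Wt w A := by
    apply Finset.sum_lt_sum
    · intro x hx; exact Nat.mul_le_mul_left _ (hc x hx).le
    · obtain ⟨x, hx, hx0⟩ : ∃ x ∈ A, w x ≠ 0 := by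
        by_contra hno
        push Not at hno
        have : Wt w A = 0 := Finset.sum_eq_zero hno
        omega
      exact ⟨x, hx, Nat.mul_lt_mul_of_pos_left (hc x hx) (Nat.pos_of_ne_zero hx0)⟩
  have e7 : ∑ x ∈ A, w x * (2 * Wt w (A.filter (fun y => y ≠ x ∧ r x y)) + w x) =
      ∑ x ∈ A, w x * Wt w (A.filter (fun y => y ≠ x ∧ r x y)) +
      ∑ x ∈ A, w x * Wt w (A.filter (fun y => y ≠ x ∧ r x y)) + ∑ x ∈ A, w x * w x := by
    rw [← Finset.sum_add_distrib, ← Finset.sum_add_distrib]
    apply Finset.sum_congr rfl; intro x _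
    ring
  omega

theorem wtour2 (w : Pt → ℕ) (L : Finset Pt) (r : Pt → Pt → Prop) [∀ x, DecidablePred (r x)]
    (h : ∀ x ∈ L, ∀ y ∈ L, x ≠ y → r x y ∨ r y x) (s μ : ℕ) (hs : 1 ≤ s)
    (hμ : ∀ x ∈ L, w x ≤ μ) (hL : 4 * s + 2 * μ ≤ Wt w L) :
    ∃ x ∈ L, s ≤ Wt w (L.filter (fun y => y ≠ x ∧ r x y)) ∧
      s ≤ Wt w (L.filter (fun y => y ≠ x ∧ r y x)) := by
  classical
  by_contra hc
  push Not at hc
  have hA : Wt w (L.filter (fun x => Wt w (L.filter (fun y => y ≠ x ∧ r x y)) < s)) ≤
      2 * s + μ - 2 := by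
    rcases Nat.eq_zero_or_pos
      (Wt w (L.filter (fun x => Wt w (L.filter (fun y => y ≠ x ∧ r x y)) < s))) with h0 | h0
    · omega
    · obtain ⟨x, hx, h1⟩ := wtour1 w _ r (fun x hx y hy hxy =>
        h x (Finset.mem_filter.mp hx).1 y (Finset.mem_filter.mp hy).1 hxy) h0
      have h2 := (Finset.mem_filter.mp hx).2
      have h3 : Wt w ((L.filter (fun x => Wt w (L.filter (fun y => y ≠ x ∧ r x y)) < s)).filter
          (fun y => y ≠ x ∧ r x y)) ≤ Wt w (L.filter (fun y => y ≠ x ∧ r x y)) :=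
        Wt_mono w (Finset.filter_subset_filter _ (Finset.filter_subset _ _))
      have h4 := hμ x (Finset.mem_filter.mp hx).1
      omega
  have hB : Wt w (L.filter (fun x => Wt w (L.filter (fun y => y ≠ x ∧ r y x)) < s)) ≤
      2 * s + μ - 2 := by
    rcases Nat.eq_zero_or_pos
      (Wt w (L.filter (fun x => Wt w (L.filter (fun y => y ≠ x ∧ r y x)) < s))) with h0 | h0
    · omega
    · obtain ⟨x, hx, h1⟩ := wtour1 w _ (fun x y => r y x) (fun x hx y hy hxy =>
        (h x (Finset.mem_filter.mp hx).1 y (Finset.mem_filter.mp hy).1 hxy).symm) h0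
      have h2 := (Finset.mem_filter.mp hx).2
      have h3 : Wt w ((L.filter (fun x => Wt w (L.filter (fun y => y ≠ x ∧ r y x)) < s)).filter
          (fun y => y ≠ x ∧ r y x)) ≤ Wt w (L.filter (fun y => y ≠ x ∧ r y x)) :=
        Wt_mono w (Finset.filter_subset_filter _ (Finset.filter_subset _ _))
      have h4 := hμ x (Finset.mem_filter.mp hx).1
      omega
  have hU : L ⊆ L.filter (fun x => Wt w (L.filter (fun y => y ≠ x ∧ r x y)) < s) ∪
      L.filter (fun x => Wt w (L.filter (fun y => y ≠ x ∧ r y x)) < s) := by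
    intro x hx
    rw [Finset.mem_union, Finset.mem_filter, Finset.mem_filter]
    by_cases h1 : Wt w (L.filter (fun y => y ≠ x ∧ r x y)) < s
    · left; exact ⟨hx, h1⟩
    · right; exact ⟨hx, hc x hx (not_lt.mp h1)⟩
  have h1 := Wt_mono w hU
  have h2 := Finset.sum_union_inter
    (s₁ := L.filter (fun x => Wt w (L.filter (fun y => y ≠ x ∧ r x y)) < s))
    (s₂ := L.filter (fun x => Wt w (L.filter (fun y => y ≠ x ∧ r y x)) < s)) (f := w)
  unfold Wt at *
  omega

open Classical in
/-- `z` divides `R` at the weight `t` as seen from `x`. -/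
def WHalves (w : Pt → ℕ) (R : Finset Pt) (t : ℕ) (x z : Pt) : Prop :=
  z ∈ R ∧ Wt w (R.filter (fun y => orient x z y < 0)) ≤ t ∧
    t < Wt w (R.filter (fun y => orient x z y < 0)) + w z

open Classical in
theorem exists_whalves (w : Pt → ℕ) {R : Finset Pt} {t : ℕ} (ht : t < Wt w R) {x : Pt}
    (hx : ∀ z ∈ R, x.1 < z.1)
    (gp : ∀ y ∈ R, ∀ z ∈ R, y ≠ z → orient x y z ≠ 0) : ∃ z, WHalves w R t x z := by
  have key : ∀ w ∈ R, ∀ z ∈ R,
      ((z.2 - x.2) / (z.1 - x.1) < (w.2 - x.2) / (w.1 - x.1) ↔ orient x w z < 0) := by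
    intro w hw z hz
    have h1 := hx w hw
    have h2 := hx z hz
    rw [div_lt_div_iff₀ (by linarith) (by linarith)]
    unfold orient
    constructor <;> intro h <;> nlinarith
  have hinj : Set.InjOn (fun z : Pt => (z.2 - x.2) / (z.1 - x.1)) (R : Set Pt) := by
    intro w hw z hz h
    by_contra hne
    have h1 := hx w hw
    have h2 := hx z hz
    apply gp w hw z hz hne
    have h3 : (w.2 - x.2) / (w.1 - x.1) = (z.2 - x.2) / (z.1 - x.1) := h
    rw [div_eq_div_iff (by linarith) (by linarith)] at h3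
    unfold orient; linarith
  obtain ⟨z, hz, h1, h2⟩ := wrank w R (fun z => (z.2 - x.2) / (z.1 - x.1)) hinj t ht
  have e : R.filter (fun y => (y.2 - x.2) / (y.1 - x.1) < (z.2 - x.2) / (z.1 - x.1)) =
      R.filter (fun y => orient x z y < 0) := by
    apply Finset.filter_congr
    intro y hy
    exact key z hz y hy
  refine ⟨z, hz, ?_, ?_⟩
  · rw [← e]; convert h1
  · rw [← e]; convert h2

open Classical in
/-- the point `z` splits the total weight. -/
theorem Wt_split (w : Pt → ℕ) {R : Finset Pt} {x z : Pt} (hz : z ∈ R)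
    (gp : ∀ y ∈ R, y ≠ z → orient x z y ≠ 0) :
    Wt w R = Wt w (R.filter (fun y => orient x z y < 0)) +
      Wt w (R.filter (fun y => 0 < orient x z y)) + w z := by
  have hpart : R = insert z ((R.filter (fun y => orient x z y < 0)) ∪
      (R.filter (fun y => 0 < orient x z y))) := by
    ext y
    simp only [Finset.mem_union, Finset.mem_filter, Finset.mem_insert]
    constructor
    · intro hy
      by_cases hyz : y = z
      · left; exact hyz
      · right
        rcases lt_or_gt_of_ne (gp y hy hyz) with h1 | h1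
        · left; exact ⟨hy, h1⟩
        · right; exact ⟨hy, h1⟩
    · rintro (h1 | h1 | h1)
      · rw [h1]; exact hz
      · exact h1.1
      · exact h1.1
  have hd1 : Disjoint (R.filter (fun y => orient x z y < 0))
      (R.filter (fun y => 0 < orient x z y)) := by
    rw [Finset.disjoint_left]
    intro y h1 h2
    rw [Finset.mem_filter] at h1 h2
    linarith [h1.2, h2.2]
  have hd2 : z ∉ (R.filter (fun y => orient x z y < 0)) ∪
      (R.filter (fun y => 0 < orient x z y)) := by
    simp [orient_self_right]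
  unfold Wt
  conv_lhs => rw [hpart]
  rw [Finset.sum_insert hd2, Finset.sum_union hd1]
  ring

open Classical in
/-- The weighted quartering lemma. -/
theorem wquarter (w : Pt → ℕ) (X : Finset Pt) (gp : GP X)
    (hinj : Set.InjOn Prod.fst (X : Set Pt)) (s μ : ℕ)
    (hs : 1 ≤ s) (hμ : ∀ x ∈ X, w x ≤ μ) (hX : 6 * s + 5 * μ ≤ Wt w X) :
    ∃ S : Fin 4 → Finset Pt, (∀ i, S i ⊆ X) ∧ (∀ i, s ≤ Wt w (S i)) ∧
      ∀ p q, ∃ i, ¬ Crosses p q (S i) := by
  obtain ⟨w0, hw0, hr1, hr2⟩ := wrank w X Prod.fst hinj (4 * s + 3 * μ) (by omega)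
  set L := X.filter (fun z => z.1 < w0.1) with hL
  have hr1' : Wt w L ≤ 4 * s + 3 * μ := by convert hr1
  have hr2' : 4 * s + 3 * μ < Wt w L + w w0 := by convert hr2
  have hμ0 := hμ w0 hw0
  set R := X.filter (fun z => ¬ z.1 < w0.1) with hR
  have hsum : Wt w L + Wt w R = Wt w X := by
    unfold Wt
    exact Finset.sum_filter_add_sum_filter_not X _ _
  have hLX : ∀ x ∈ L, x ∈ X := fun x hx => (Finset.mem_filter.mp hx).1
  have hRX : ∀ x ∈ R, x ∈ X := fun x hx => (Finset.mem_filter.mp hx).1
  have hL1 : ∀ x ∈ L, x.1 < w0.1 := fun x hx => (Finset.mem_filter.mp hx).2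
  have hR1 : ∀ x ∈ R, w0.1 ≤ x.1 := fun x hx => not_lt.mp (Finset.mem_filter.mp hx).2
  have hLR : ∀ x ∈ L, ∀ z ∈ R, x.1 < z.1 := fun x hx z hz => (hL1 x hx).trans_le (hR1 z hz)
  have hne : ∀ x ∈ L, ∀ z ∈ R, x ≠ z := by
    intro x hx z hz h
    have := hLR x hx z hz
    rw [h] at this; exact lt_irrefl _ this
  have hex : ∀ x : Pt, ∃ z, x ∈ L → WHalves w R (s + μ) x z := by
    intro x
    by_cases hx : x ∈ L
    · obtain ⟨z, hz⟩ := exists_whalves w (R := R) (t := s + μ) (by omega) (hLR x hx)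
        (fun y hy z hz hyz =>
        gp x (hLX x hx) y (hRX y hy) z (hRX z hz) (hne x hx y hy) (hne x hx z hz) hyz)
      exact ⟨z, fun _ => hz⟩
    · exact ⟨x, fun h => absurd h hx⟩
  choose u hu using hex
  have huR : ∀ x ∈ L, u x ∈ R := fun x hx => (hu x hx).1
  have hsplit : ∀ x ∈ L, Wt w R = Wt w (R.filter (fun y => orient x (u x) y < 0)) +
      Wt w (R.filter (fun y => 0 < orient x (u x) y)) + w (u x) := by
    intro x hx
    refine Wt_split w (huR x hx) ?_
    intro y hy hyu
    exact gp x (hLX x hx) _ (hRX _ (huR x hx)) y (hRX y hy) (hne x hx _ (huR x hx))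
      (hne x hx y hy) (Ne.symm hyu)
  have hneg : ∀ x ∈ L, ∀ x' ∈ L, x.1 ≤ x'.1 → orient x (u x) x' < 0 →
      orient x' (u x') x < 0 → False := by
    intro x hx x' hx' hle h1 h2
    have hsub : insert (u x') (R.filter (fun z => orient x' (u x') z < 0)) ⊆
        R.filter (fun z => orient x (u x) z < 0) := by
      intro z hz
      rw [Finset.mem_insert, Finset.mem_filter] at hz
      have hzR : z ∈ R := by
        rcases hz with hz | hz
        · rw [hz]; exact huR x' hx'
        · exact hz.1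
      have hz0 : orient x' (u x') z ≤ 0 := by
        rcases hz with hz | hz
        · rw [hz, orient_self_right]
        · exact hz.2.le
      rw [Finset.mem_filter]
      exact ⟨hzR, aux_lines (hLR x hx _ (huR x hx)) (hLR x' hx' _ (huR x' hx')) hle
        (hLR x' hx' z hzR).le h1 h2 hz0⟩
    have := Wt_mono w hsub
    have e0 : Wt w (insert (u x') (R.filter (fun z => orient x' (u x') z < 0))) =
        w (u x') + Wt w (R.filter (fun z => orient x' (u x') z < 0)) := by
      unfold Wt
      rw [Finset.sum_insert (by simp [orient_self_right])]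
    have e1 := (hu x' hx').2.2
    have e2 := (hu x hx).2.1
    omega
  have hpos : ∀ x ∈ L, ∀ x' ∈ L, x.1 ≤ x'.1 → 0 < orient x (u x) x' →
      0 < orient x' (u x') x → False := by
    intro x hx x' hx' hle h1 h2
    have hsub : insert (u x') (R.filter (fun z => 0 < orient x' (u x') z)) ⊆
        R.filter (fun z => 0 < orient x (u x) z) := by
      intro z hz
      rw [Finset.mem_insert, Finset.mem_filter] at hz
      have hzR : z ∈ R := by
        rcases hz with hz | hz
        · rw [hz]; exact huR x' hx'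
        · exact hz.1
      have hz0 : 0 ≤ orient x' (u x') z := by
        rcases hz with hz | hz
        · rw [hz, orient_self_right]
        · exact hz.2.le
      rw [Finset.mem_filter]
      exact ⟨hzR, aux_lines' (hLR x hx _ (huR x hx)) (hLR x' hx' _ (huR x' hx')) hle
        (hLR x' hx' z hzR).le h1 h2 hz0⟩
    have := Wt_mono w hsub
    have e0 : Wt w (insert (u x') (R.filter (fun z => 0 < orient x' (u x') z))) =
        w (u x') + Wt w (R.filter (fun z => 0 < orient x' (u x') z)) := by
      unfold Wt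
      rw [Finset.sum_insert (by simp [orient_self_right])]
    have e1 := (hu x' hx').2.1
    have e2 := (hu x hx).2.2
    have e3 := hsplit x hx
    have e4 := hsplit x' hx'
    omega
  have hneg' : ∀ x ∈ L, ∀ x' ∈ L, orient x (u x) x' < 0 → orient x' (u x') x < 0 → False := by
    intro x hx x' hx' h1 h2
    rcases le_total x.1 x'.1 with h | h
    · exact hneg x hx x' hx' h h1 h2
    · exact hneg x' hx' x hx h h2 h1
  have hpos' : ∀ x ∈ L, ∀ x' ∈ L, 0 < orient x (u x) x' → 0 < orient x' (u x') x → False := by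
    intro x hx x' hx' h1 h2
    rcases le_total x.1 x'.1 with h | h
    · exact hpos x hx x' hx' h h1 h2
    · exact hpos x' hx' x hx h h2 h1
  have hnz : ∀ x ∈ L, ∀ x' ∈ L, x ≠ x' → orient x (u x) x' ≠ 0 := by
    intro x hx x' hx' h
    exact gp x (hLX x hx) (u x) (hRX _ (huR x hx)) x' (hLX x' hx') (hne x hx _ (huR x hx)) h
      (hne x' hx' _ (huR x hx)).symm
  obtain ⟨x, hx, hd, hup⟩ := wtour2 w L (fun x x' => orient x (u x) x' < 0) (by
    intro x hx x' hx' h
    by_contra hc
    push Not at hc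
    exact hpos' x hx x' hx' (lt_of_le_of_ne hc.1 (hnz x hx x' hx' h).symm)
      (lt_of_le_of_ne hc.2 (hnz x' hx' x hx h.symm).symm)) s μ hs (fun x hx => hμ x (hLX x hx))
      (by omega)
  have hxw : x.1 < (u x).1 := hLR x hx _ (huR x hx)
  refine ⟨![L.filter (fun y => orient x (u x) y < 0), L.filter (fun y => 0 < orient x (u x) y),
    R.filter (fun y => orient x (u x) y < 0), R.filter (fun y => 0 < orient x (u x) y)], ?_, ?_, ?_⟩
  · intro i
    fin_cases i
    · exact fun y hy => hLX y (Finset.mem_filter.mp hy).1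
    · exact fun y hy => hLX y (Finset.mem_filter.mp hy).1
    · exact fun y hy => hRX y (Finset.mem_filter.mp hy).1
    · exact fun y hy => hRX y (Finset.mem_filter.mp hy).1
  · have f1 := (hu x hx).2.1
    have f2 := (hu x hx).2.2
    have f3 := hsplit x hx
    have f4 := hμ _ (hRX _ (huR x hx))
    intro i
    fin_cases i
    · refine hd.trans (Wt_mono w ?_)
      intro y hy
      have hy' := Finset.mem_filter.mp hy
      exact Finset.mem_filter.mpr ⟨hy'.1, hy'.2.2⟩
    · refine hup.trans (Wt_mono w ?_)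
      intro y hy
      have hy' := Finset.mem_filter.mp hy
      refine Finset.mem_filter.mpr ⟨hy'.1, ?_⟩
      rcases lt_or_gt_of_ne (hnz x hx y hy'.1 hy'.2.1.symm) with h | h
      · exact absurd hy'.2.2 (fun h2 => hneg' x hx y hy'.1 h h2)
      · exact h
    · show s ≤ Wt w (R.filter (fun y => orient x (u x) y < 0))
      omega
    · show s ≤ Wt w (R.filter (fun y => 0 < orient x (u x) y))
      omega
  · intro p q
    by_contra hc
    push Not at hc
    set W := u x with hW
    have idz : ∀ z : Pt, (W.1 - x.1) * orient p q z = (q.1 - p.1) * orient x W z +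
        ((q.1 - p.1) * (W.2 - x.2) - (W.1 - x.1) * (q.2 - p.2)) * (z.1 - w0.1) +
        ((W.1 - x.1) * orient p q x -
          ((q.1 - p.1) * (W.2 - x.2) - (W.1 - x.1) * (q.2 - p.2)) * (x.1 - w0.1)) := by
      intro z; unfold orient; ring
    generalize ((q.1 - p.1) * (W.2 - x.2) - (W.1 - x.1) * (q.2 - p.2)) = b at idz
    generalize ((W.1 - x.1) * orient p q x - b * (x.1 - w0.1)) = a at idz
    generalize (q.1 - p.1) = g at idz
    have he : 0 < W.1 - x.1 := by linarith
    obtain ⟨y0, hy0, z0, hz0, c0⟩ := hc 0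
    obtain ⟨y1, hy1, z1, hz1, c1⟩ := hc 1
    obtain ⟨y2, hy2, z2, hz2, c2⟩ := hc 2
    obtain ⟨y3, hy3, z3, hz3, c3⟩ := hc 3
    have hy0' := Finset.mem_filter.mp (show y0 ∈ L.filter (fun y => orient x (u x) y < 0) from hy0)
    have hz0' := Finset.mem_filter.mp (show z0 ∈ L.filter (fun y => orient x (u x) y < 0) from hz0)
    have hy1' := Finset.mem_filter.mp (show y1 ∈ L.filter (fun y => 0 < orient x (u x) y) from hy1)
    have hz1' := Finset.mem_filter.mp (show z1 ∈ L.filter (fun y => 0 < orient x (u x) y) from hz1)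
    have hy2' := Finset.mem_filter.mp (show y2 ∈ R.filter (fun y => orient x (u x) y < 0) from hy2)
    have hz2' := Finset.mem_filter.mp (show z2 ∈ R.filter (fun y => orient x (u x) y < 0) from hz2)
    have hy3' := Finset.mem_filter.mp (show y3 ∈ R.filter (fun y => 0 < orient x (u x) y) from hy3)
    have hz3' := Finset.mem_filter.mp (show z3 ∈ R.filter (fun y => 0 < orient x (u x) y) from hz3)
    rw [← hW] at hy0' hz0' hy1' hz1' hy2' hz2' hy3' hz3'
    have negy : ∀ y : Pt, orient p q y < 0 → (W.1 - x.1) * orient p q y < 0 := fun y h =>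
      mul_neg_of_pos_of_neg he h
    have posz : ∀ y : Pt, 0 < orient p q y → 0 < (W.1 - x.1) * orient p q y := fun y h =>
      mul_pos he h
    have n0 := negy y0 c0.1
    have n1 := negy y1 c1.1
    have n2 := negy y2 c2.1
    have n3 := negy y3 c3.1
    have p0 := posz z0 c0.2
    have p1 := posz z1 c1.2
    have p2 := posz z2 c2.2
    have p3 := posz z3 c3.2
    rw [idz] at n0 n1 n2 n3 p0 p1 p2 p3
    have ly0 := hL1 y0 hy0'.1
    have lz0 := hL1 z0 hz0'.1
    have ly1 := hL1 y1 hy1'.1
    have lz1 := hL1 z1 hz1'.1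
    have ly2 := hR1 y2 hy2'.1
    have lz2 := hR1 z2 hz2'.1
    have ly3 := hR1 y3 hy3'.1
    have lz3 := hR1 z3 hz3'.1
    rcases le_total 0 g with hg | hg <;> rcases le_total 0 b with hb | hb
    · rcases le_total 0 a with ha | ha
      · have := mul_nonneg hg hy3'.2.le
        have := mul_nonneg hb (by linarith : (0:ℝ) ≤ y3.1 - w0.1)
        linarith
      · have := mul_nonpos_of_nonneg_of_nonpos hg hz0'.2.le
        have := mul_nonpos_of_nonneg_of_nonpos hb (by linarith : z0.1 - w0.1 ≤ (0:ℝ))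
        linarith
    · rcases le_total 0 a with ha | ha
      · have := mul_nonneg hg hy1'.2.le
        have := mul_nonneg_of_nonpos_of_nonpos hb (by linarith : y1.1 - w0.1 ≤ (0:ℝ))
        linarith
      · have := mul_nonpos_of_nonneg_of_nonpos hg hz2'.2.le
        have := mul_nonpos_of_nonpos_of_nonneg hb (by linarith : (0:ℝ) ≤ z2.1 - w0.1)
        linarith
    · rcases le_total 0 a with ha | ha
      · have := mul_nonneg_of_nonpos_of_nonpos hg hy2'.2.le
        have := mul_nonneg hb (by linarith : (0:ℝ) ≤ y2.1 - w0.1)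
        linarith
      · have := mul_nonpos_of_nonpos_of_nonneg hg hz1'.2.le
        have := mul_nonpos_of_nonneg_of_nonpos hb (by linarith : z1.1 - w0.1 ≤ (0:ℝ))
        linarith
    · rcases le_total 0 a with ha | ha
      · have := mul_nonneg_of_nonpos_of_nonpos hg hy0'.2.le
        have := mul_nonneg_of_nonpos_of_nonpos hb (by linarith : y0.1 - w0.1 ≤ (0:ℝ))
        linarith
      · have := mul_nonpos_of_nonpos_of_nonneg hg hz3'.2.le
        have := mul_nonpos_of_nonpos_of_nonneg hb (by linarith : (0:ℝ) ≤ z3.1 - w0.1)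
        linarith

open Classical in
/-- families of sets of weight about `s` with small crossing number. -/
theorem wpart (w : Pt → ℕ) (s μ : ℕ) (hs : 1 ≤ s) : ∀ (d : ℕ) (X : Finset Pt), GP X →
    Set.InjOn Prod.fst (X : Set Pt) → (∀ x ∈ X, w x ≤ μ) → 6 ^ d * (s + μ) ≤ Wt w X + μ →
    ∃ (ι : Type) (_ : Fintype ι) (F : ι → Finset Pt), Fintype.card ι = 4 ^ d ∧
      (∀ i, F i ⊆ X) ∧ (∀ i, s ≤ Wt w (F i) ∧ Wt w (F i) ≤ s + μ) ∧
      ∀ p q : Pt, (Finset.univ.filter (fun i => Crosses p q (F i))).card ≤ 3 ^ d := by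
  intro d
  induction d with
  | zero =>
    intro X _ hinj hμ hX
    rw [pow_zero, one_mul] at hX
    obtain ⟨z, hz, h1, h2⟩ := wrank w X Prod.fst hinj (s - 1) (by omega)
    have hμz := hμ z hz
    have e : Wt w (insert z (X.filter (fun y => y.1 < z.1))) =
        w z + Wt w (X.filter (fun y => y.1 < z.1)) := by
      unfold Wt
      rw [Finset.sum_insert (by simp)]
    have h1' : Wt w (X.filter (fun y => y.1 < z.1)) ≤ s - 1 := by convert h1
    have h2' : s - 1 < Wt w (X.filter (fun y => y.1 < z.1)) + w z := by convert h2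
    refine ⟨Unit, inferInstance, fun _ => insert z (X.filter (fun y => y.1 < z.1)), by simp,
      fun _ => ?_, fun _ => ?_, ?_⟩
    · intro y hy
      rcases Finset.mem_insert.mp hy with h | h
      · rw [h]; exact hz
      · exact (Finset.mem_filter.mp h).1
    · show s ≤ Wt w (insert z (X.filter (fun y => y.1 < z.1))) ∧
        Wt w (insert z (X.filter (fun y => y.1 < z.1))) ≤ s + μ
      rw [e]
      omega
    · intro p q
      refine (Finset.card_le_univ _).trans (by simp)
  | succ d ih =>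
    intro X gp hinj hμ hX
    have h0 : s + μ ≤ 6 ^ d * (s + μ) := Nat.le_mul_of_pos_left _ (by positivity)
    have h6 : 6 ^ (d + 1) * (s + μ) = 6 * (6 ^ d * (s + μ)) := by rw [pow_succ]; ring
    obtain ⟨S, hS, hc, hq⟩ := wquarter w X gp hinj (6 ^ d * (s + μ) - μ) μ (by omega) hμ (by omega)
    have hex := fun i => ih (S i) (gp.mono (hS i))
      (hinj.mono (Finset.coe_subset.mpr (hS i))) (fun x hx => hμ x (hS i hx))
      (by have := hc i; omega)
    choose ι inst F hcard hsub hFs hcr using hex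
    refine ⟨Σ i, ι i, inferInstance, fun x => F x.1 x.2, ?_, ?_, ?_, ?_⟩
    · rw [Fintype.card_sigma]
      simp only [hcard, Finset.sum_const, Finset.card_univ, Fintype.card_fin, smul_eq_mul]
      rw [pow_succ]; ring
    · intro x; exact (hsub x.1 x.2).trans (hS x.1)
    · intro x; exact hFs x.1 x.2
    · intro p q
      obtain ⟨i0, hi0⟩ := hq p q
      have e1 : (Finset.univ.filter (fun x : (Σ i, ι i) => Crosses p q (F x.1 x.2))).card =
          ∑ i, (Finset.univ.filter (fun j : ι i => Crosses p q (F i j))).card := by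
        rw [Finset.card_filter, Fintype.sum_sigma]
        apply Finset.sum_congr rfl
        intro i _
        rw [Finset.card_filter]
      rw [e1]
      have e2 : (Finset.univ.filter (fun j : ι i0 => Crosses p q (F i0 j))).card = 0 := by
        rw [Finset.card_eq_zero, Finset.filter_eq_empty_iff]
        intro j _ h
        exact hi0 (h.mono (hsub i0 j))
      rw [← Finset.add_sum_erase _ _ (Finset.mem_univ i0), e2, zero_add]
      refine (Finset.sum_le_sum fun i _ => hcr i p q).trans ?_
      rw [Finset.sum_const, Finset.card_erase_of_mem (Finset.mem_univ _), Finset.card_univ,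
        Fintype.card_fin, smul_eq_mul, pow_succ]
      omega

end Pool.Agent.Lib.MP_992c01_co
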