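import Pool.Agent.Lib.MP_992c01_co.Lin

set_option autoImplicit false

/-! # MP_992c01_co : walks with forbidden points (abstract version of `Proc`) -/

namespace Pool.Agent.Lib.MP_992c01_co

/-- A walk along the events: `X n` is the position before event `n`, `Mv n` means that the walk
uses event `n`; destinations are never strictly below an earlier used line. -/
structure Walk (ev : ℕ → Pt × Pt) (X : ℕ → Pt) (Mv : ℕ → Prop) : Prop where
  stay : ∀ n, ¬ Mv n → X (n + 1) = X n
  go : ∀ n, Mv n → (X n = (ev n).1 ∧ X (n + 1) = (ev n).2) ∨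
    (X n = (ev n).2 ∧ X (n + 1) = (ev n).1)
  ok : ∀ r u, r < u → Mv r → Mv u → ¬ Bel (ev r).1 (ev r).2 (X (u + 1))

section
variable {c : ℝ} {A B : Finset Pt} {N : ℕ} {ev : ℕ → Pt × Pt} {X : ℕ → Pt} {Mv : ℕ → Prop}

theorem Walk.const (W : Walk ev X Mv) {r s : ℕ} (hrs : r ≤ s)
    (h : ∀ u, r ≤ u → u < s → ¬ Mv u) : X s = X r := by
  induction s, hrs using Nat.le_induction with
  | base => rfl
  | succ s hs ih =>
    rw [W.stay s (h s hs (by omega))]
    exact ih (fun u h1 h2 => h u h1 (by omega))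

theorem Walk.mem (W : Walk ev X Mv) (S : Setup c A B N ev) (h0 : X 0 ∈ A ∨ X 0 ∈ B) :
    ∀ n ≤ N, X n ∈ A ∨ X n ∈ B := by
  intro n
  induction n with
  | zero => intro _; exact h0
  | succ n ih =>
    intro hn
    by_cases hm : Mv n
    · rcases W.go n hm with ⟨_, h2⟩ | ⟨_, h2⟩
      · rw [h2]; exact Or.inr (S.mB n (by omega))
      · rw [h2]; exact Or.inl (S.mA n (by omega))
    · rw [W.stay n hm]; exact ih (by omega)

/-- The event `n` joins the positions before and after (if the walk moves). -/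
theorem Walk.mv_data (W : Walk ev X Mv) (S : Setup c A B N ev) {n : ℕ} (hn : n < N) (h : Mv n) :
    Opp c (X n) (X (n + 1)) ∧
    ht c (ev n).1 (ev n).2 = ht c (X n) (X (n + 1)) ∧
    (∀ p, Bel (ev n).1 (ev n).2 p ↔ Bel (X n) (X (n + 1)) p) ∧
    (X n ∈ A ∨ X n ∈ B) ∧ (X (n + 1) ∈ A ∨ X (n + 1) ∈ B) := by
  rcases W.go n h with ⟨h1, h2⟩ | ⟨h1, h2⟩
  · rw [h1, h2]
    exact ⟨S.opp hn, rfl, fun p => Iff.rfl, Or.inl (S.mA n hn), Or.inr (S.mB n hn)⟩
  · rw [h1, h2]
    exact ⟨(S.opp hn).symm, ht_symm _ _ _, fun p => Bel_symm, Or.inr (S.mB n hn),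
      Or.inl (S.mA n hn)⟩

/-- Data of the charge of a blocked event. -/
structure WChg (c : ℝ) (A B : Finset Pt) (ev : ℕ → Pt × Pt) (X : ℕ → Pt) (Mv : ℕ → Prop)
    (s : ℕ) (v p : Pt) (r r' : ℕ) : Prop where
  cur : (X s = (ev s).1 ∧ p = (ev s).2) ∨ (X s = (ev s).2 ∧ p = (ev s).1)
  rr' : r < r'
  r's : r' < s
  mr : Mv r
  mr' : Mv r'
  btw : ∀ u, r < u → u < r' → ¬ Mv u
  vr : X (r + 1) = v
  vr' : X r' = v
  belr : Bel (ev r).1 (ev r).2 p
  last : ∀ u, r < u → u < s → Mv u → ¬ Bel (ev u).1 (ev u).2 p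
  same : Same c v p
  dist : |v.1 - c| < |p.1 - c|
  h1 : ht c (ev r).1 (ev r).2 < ht c v p
  h2 : ht c v p < ht c (ev r').1 (ev r').2
  crs : ∃ x, ∃ y, (x ∈ A ∨ x ∈ B) ∧ (y ∈ A ∨ y ∈ B) ∧ Opp c v x ∧ Opp c v y ∧
    orient v p x * orient v p y < 0

theorem Walk.charge (W : Walk ev X Mv) (S : Setup c A B N ev) {s : ℕ} (hs : s < N) {p : Pt}
    (hcur : (X s = (ev s).1 ∧ p = (ev s).2) ∨ (X s = (ev s).2 ∧ p = (ev s).1))
    (hf : ∃ r < s, Mv r ∧ Bel (ev r).1 (ev r).2 p) :
    ∃ v r r', WChg c A B ev X Mv s v p r r' := by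
  classical
  -- last index
  obtain ⟨r, hrs, hmr, hbr, hlast⟩ : ∃ r < s, Mv r ∧ Bel (ev r).1 (ev r).2 p ∧
      ∀ u, r < u → u < s → Mv u → ¬ Bel (ev u).1 (ev u).2 p := by
    let F := (Finset.range s).filter (fun r => Mv r ∧ Bel (ev r).1 (ev r).2 p)
    have hF : F.Nonempty := by
      obtain ⟨r, h1, h2, h3⟩ := hf
      exact ⟨r, by simp [F, h1, h2, h3]⟩
    refine ⟨F.max' hF, ?_, ?_, ?_, ?_⟩
    · have := F.max'_mem hF
      simp only [F, Finset.mem_filter, Finset.mem_range] at this
      exact this.1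
    · have := F.max'_mem hF
      simp only [F, Finset.mem_filter, Finset.mem_range] at this
      exact this.2.1
    · have := F.max'_mem hF
      simp only [F, Finset.mem_filter, Finset.mem_range] at this
      exact this.2.2
    · intro u hu1 hu2 hu3 hu4
      have : u ∈ F := by simp [F, hu2, hu3, hu4]
      have := F.le_max' u this
      omega
  have hrN : r < N := by omega
  obtain ⟨oppr, htr, belr, memr, memr1⟩ := W.mv_data S hrN hmr
  -- `p` is opposite to the current position
  have hop : Opp c (X s) p := by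
    rcases hcur with ⟨h1, h2⟩ | ⟨h1, h2⟩
    · rw [h1, h2]; exact S.opp hs
    · rw [h1, h2]; exact (S.opp hs).symm
  have hhs : ht c (ev s).1 (ev s).2 = ht c (X s) p := by
    rcases hcur with ⟨h1, h2⟩ | ⟨h1, h2⟩
    · rw [h1, h2]
    · rw [h1, h2]; exact ht_symm _ _ _
  have hpm : p ∈ A ∨ p ∈ B := by
    rcases hcur with ⟨h1, h2⟩ | ⟨h1, h2⟩
    · rw [h2]; exact Or.inr (S.mB s hs)
    · rw [h2]; exact Or.inl (S.mA s hs)
  -- there is a next move
  have hnext : ∃ r', r < r' ∧ r' < s ∧ Mv r' ∧ ∀ u, r < u → u < r' → ¬ Mv u := by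
    by_contra hno
    have hnm : ∀ u, r + 1 ≤ u → u < s → ¬ Mv u := by
      intro u h1 h2 h3
      -- least move after `r`
      have hex : ∃ u, r < u ∧ u < s ∧ Mv u := ⟨u, by omega, h2, h3⟩
      let u0 := Nat.find hex
      have hu0 := Nat.find_spec hex
      exact hno ⟨u0, hu0.1, hu0.2.1, hu0.2.2, fun w hw1 hw2 hw3 =>
        Nat.find_min hex hw2 ⟨hw1, by omega, hw3⟩⟩
    have hc : X s = X (r + 1) := W.const (by omega) hnm
    rw [belr] at hbr
    rw [hc] at hop hhs
    have hb2 : Bel (X (r + 1)) (X r) p := Bel_symm.mp hbr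
    have h3 := (Bel_iff_ht hop oppr.symm).mp hb2
    have h4 := S.mono r s hrs.le hs
    rw [htr, hhs, ht_symm c (X r)] at h4
    linarith
  obtain ⟨r', hrr', hr's, hmr', hbtw⟩ := hnext
  have hr'N : r' < N := by omega
  obtain ⟨oppr', htr', belr', memr', memr1'⟩ := W.mv_data S hr'N hmr'
  have hv : X r' = X (r + 1) :=
    W.const (by omega) (fun u h1 h2 => hbtw u (by omega) h2)
  set v := X (r + 1) with hvdef
  rw [hv] at oppr' htr' belr' memr'
  -- `p` is different from `v` and from the next position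
  have hpv : p ≠ v := by
    rintro rfl
    rw [belr] at hbr
    exact not_Bel_right _ _ hbr
  have hpn : p ≠ X (r' + 1) := by
    rintro rfl
    exact W.ok _ _ hrr' hmr hmr' hbr
  have hnb' : ¬ Bel v (X (r' + 1)) p := by
    rw [← belr']
    exact hlast r' hrr' hr's hmr'
  have hab' : Abv v (X (r' + 1)) p := by
    refine Abv_of_not_Bel oppr'.ne1 ?_ hnb'
    exact S.gp _ memr' _ memr1' _ hpm oppr'.ne (Ne.symm hpv) (Ne.symm hpn)
  have hbv : Bel v (X r) p := Bel_symm.mp ((belr p).mp hbr)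
  have hmono : ht c v (X r) ≤ ht c v (X (r' + 1)) := by
    have h4 := S.mono r r' hrr'.le hr'N
    rw [htr, htr', ht_symm c (X r)] at h4
    exact h4
  -- `p` is on the side of `v`
  have hsame : Same c v p := by
    have hvside : v.1 < c ∨ c < v.1 := by
      rcases oppr' with h | h
      · exact Or.inl h.1
      · exact Or.inr h.2
    have hpside : p.1 < c ∨ c < p.1 := by
      rcases hop with h | h
      · exact Or.inr h.2
      · exact Or.inl h.1
    by_contra hns
    have hopv : Opp c v p := by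
      unfold Same at hns
      unfold Opp
      tauto
    have h3 := (Bel_iff_ht hopv oppr.symm).mp hbv
    have h4 := ht_lt_of_Abv hopv oppr' hab'
    linarith
  obtain ⟨g1, g2, g3, g4⟩ := charge_geo hsame oppr.symm oppr' hmono hbv hab'
  refine ⟨v, r, r', ⟨hcur, hrr', hr's, hmr, hmr', hbtw, hvdef.symm, hv, hbr, hlast, hsame, g1,
    ?_, ?_, ?_⟩⟩
  · rw [htr, ht_symm c (X r)]; exact g2
  · rw [htr']; exact g3
  · exact ⟨X r, X (r' + 1), memr, memr1', oppr.symm, oppr', g4⟩

/-- charges of different events are different. -/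
theorem Walk.charge_inj (W : Walk ev X Mv) (S : Setup c A B N ev) {s t : ℕ} (hst : s < t)
    (ht' : t < N) (hbs : ¬ Mv s) {v p : Pt} {r r' q q' : ℕ}
    (h1 : WChg c A B ev X Mv s v p r r') (h2 : WChg c A B ev X Mv t v p q q') : False := by
  classical
  have hmono := S.mono
  have a1 := h1.rr'
  have a2 := h1.r's
  have a3 := h2.rr'
  have a4 := h2.r's
  -- overlap of the time intervals
  have o1 : q < r' := by
    by_contra h
    have := hmono r' q (by omega) (by omega)
    linarith [h1.h2, h2.h1]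
  have o2 : r < q' := by
    by_contra h
    have := hmono q' r (by omega) (by omega)
    linarith [h2.h2, h1.h1]
  have hrq : r = q := by
    rcases lt_trichotomy r q with h | h | h
    · exact absurd h2.mr (h1.btw q h o1)
    · exact h
    · exact absurd h1.mr (h2.btw r h o2)
  subst hrq
  have hsN : s < N := by omega
  -- positions at `s` and `t` differ
  have hpc : X s ≠ X t := by
    intro he
    have hps : p.1 < c ∨ c < p.1 := by
      rcases h1.same with h | h
      · exact Or.inl h.2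
      · exact Or.inr h.2
    have hevs : ev s = ev t := by
      have k1 := S.hA _ (S.mA s hsN)
      have k2 := S.hB _ (S.mB s hsN)
      have k3 := S.hA _ (S.mA t ht')
      have k4 := S.hB _ (S.mB t ht')
      rcases h1.cur with ⟨b1, b2⟩ | ⟨b1, b2⟩
      · rcases h2.cur with ⟨b3, b4⟩ | ⟨b3, b4⟩
        · exact Prod.ext (b1.symm.trans (he.trans b3)) (b2.symm.trans b4)
        · exfalso; rw [← b2] at k2; rw [← b4] at k3; linarith
      · rcases h2.cur with ⟨b3, b4⟩ | ⟨b3, b4⟩
        · exfalso; rw [← b2] at k1; rw [← b4] at k4; linarith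
        · exact Prod.ext (b2.symm.trans b4) (b1.symm.trans (he.trans b3))
    exact absurd (S.inj s hsN t ht' hevs) (by omega)
  -- first move after `s`
  have hex : ∃ u, s ≤ u ∧ u < t ∧ Mv u := by
    by_contra hno
    push Not at hno
    exact hpc (W.const hst.le (fun u hu1 hu2 => hno u hu1 hu2)).symm
  let u := Nat.find hex
  have hu := Nat.find_spec hex
  have hmin : ∀ w, s ≤ w → w < u → ¬ Mv w := fun w hw1 hw2 hw3 =>
    Nat.find_min hex hw2 ⟨hw1, lt_trans hw2 hu.2.1, hw3⟩
  have hus : s < u := by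
    rcases lt_or_eq_of_le hu.1 with h | h
    · exact h
    · exfalso
      have hmv : Mv s := by
        have := hu.2.2
        rw [← h] at this
        exact this
      exact hbs hmv
  have huN : u < N := lt_trans hu.2.1 ht'
  have hPu : X u = X s := W.const hus.le (fun w h3 h4 => hmin w h3 h4)
  obtain ⟨oppu, htu, belu, memu, memu1⟩ := W.mv_data S huN hu.2.2
  rw [hPu] at oppu htu belu memu
  have hop : Opp c (X s) p := by
    rcases h1.cur with ⟨b1, b2⟩ | ⟨b1, b2⟩
    · rw [b1, b2]; exact S.opp hsN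
    · rw [b1, b2]; exact (S.opp hsN).symm
  have hhs : ht c (ev s).1 (ev s).2 = ht c (X s) p := by
    rcases h1.cur with ⟨b1, b2⟩ | ⟨b1, b2⟩
    · rw [b1, b2]
    · rw [b1, b2]; exact ht_symm _ _ _
  have hpm : p ∈ A ∨ p ∈ B := by
    rcases h1.cur with ⟨b1, b2⟩ | ⟨b1, b2⟩
    · rw [b2]; exact Or.inr (S.mB s hsN)
    · rw [b2]; exact Or.inl (S.mA s hsN)
  have hpw : p ≠ X (u + 1) := by
    intro he
    have hevs : ev s = ev u := by
      have k1 := S.hA _ (S.mA s hsN)
      have k2 := S.hB _ (S.mB s hsN)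
      have k3 := S.hA _ (S.mA u huN)
      have k4 := S.hB _ (S.mB u huN)
      rcases W.go _ hu.2.2 with ⟨b3, b4⟩ | ⟨b3, b4⟩
      · rcases h1.cur with ⟨b1, b2⟩ | ⟨b1, b2⟩
        · exact Prod.ext (b1.symm.trans (hPu.symm.trans b3)) (b2.symm.trans (he.trans b4))
        · exfalso
          have : p = (ev u).2 := he.trans b4
          rw [← b2] at k1; rw [← this] at k4; linarith
      · rcases h1.cur with ⟨b1, b2⟩ | ⟨b1, b2⟩
        · exfalso
          have : p = (ev u).1 := he.trans b4
          rw [← b2] at k2; rw [← this] at k3; linarith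
        · exact Prod.ext (b2.symm.trans (he.trans b4)) (b1.symm.trans (hPu.symm.trans b3))
    exact absurd (S.inj s hsN u huN hevs) (by omega)
  have hle : ht c (X s) p ≤ ht c (X s) (X (u + 1)) := by
    have := hmono s u hus.le huN
    rwa [hhs, htu] at this
  have hbel : Bel (X s) (X (u + 1)) p :=
    Bel_of_ht_le hop oppu (S.gp _ memu _ memu1 _ hpm oppu.ne hop.ne (Ne.symm hpw)) hle
  exact h2.last u (by omega) hu.2.1 hu.2.2 ((belu p).mpr hbel)

/-- The path of a pedestrian is a noncrossing path. -/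
theorem Walk.path (W : Walk ev X Mv) (S : Setup c A B N ev) (hi : X 0 ∈ A ∨ X 0 ∈ B)
    {M : Finset ℕ} (hM : ∀ n, n ∈ M ↔ n < N ∧ Mv n) :
    ∃ v : ℕ → Pt, (∀ s ≤ M.card, v s ∈ A ∨ v s ∈ B) ∧
      (∀ w : Pt → ℕ, ∑ n ∈ M, w (X (n + 1)) = ∑ s ∈ Finset.range M.card, w (v (s + 1))) ∧
      (∀ s ≤ M.card, ∀ t ≤ M.card, v s = v t → s = t) ∧
      (∀ s < M.card, ∃ n < N, ev n = (v s, v (s + 1)) ∨ ev n = (v (s + 1), v s)) ∧
      (∀ s t, s < M.card → t < M.card → s + 1 < t →
        Disjoint (segment ℝ (v s) (v (s + 1))) (segment ℝ (v t) (v (t + 1)))) := by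
  classical
  set m := M.card with hm
  let r : ℕ → ℕ := fun j => if h : j < m then M.orderEmbOfFin hm.symm ⟨j, h⟩ else N
  have r_lt : ∀ j (h : j < m), r j = M.orderEmbOfFin hm.symm ⟨j, h⟩ := fun j h => by
    simp only [r]; rw [dif_pos h]
  have r_ge : ∀ j, m ≤ j → r j = N := fun j h => by
    simp only [r]; rw [dif_neg (by omega)]
  have r_mem : ∀ j, j < m → r j ∈ M := fun j h => by
    rw [r_lt j h]; exact Finset.orderEmbOfFin_mem _ _ _
  have r_mv : ∀ j, j < m → r j < N ∧ Mv (r j) := fun j h => (hM _).mp (r_mem j h)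
  have r_mono : ∀ j l, j < l → l < m → r j < r l := fun j l h1 h2 => by
    rw [r_lt j (by omega), r_lt l h2]
    exact (M.orderEmbOfFin hm.symm).strictMono (by simpa using h1)
  have r_surj : ∀ u ∈ M, ∃ l, l < m ∧ r l = u := fun u hu => by
    have : u ∈ Set.range (M.orderEmbOfFin hm.symm) := by
      rw [Finset.range_orderEmbOfFin]; exact hu
    obtain ⟨⟨l, hl⟩, h⟩ := this
    exact ⟨l, hl, by rw [r_lt l hl]; exact h⟩
  have r_mono_le : ∀ j l, j ≤ l → l < m → r j ≤ r l := fun j l h1 h2 => by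
    rcases lt_or_eq_of_le h1 with h | h
    · exact (r_mono j l h h2).le
    · rw [h]
  have gap : ∀ j, j < m → ∀ u, r j < u → u < r (j + 1) → ¬ Mv u := by
    intro j hj u hu1 hu2 hu3
    have huN : u < N := by
      by_cases h : j + 1 < m
      · exact lt_trans hu2 (r_mv _ h).1
      · rwa [r_ge (j + 1) (by omega)] at hu2
    obtain ⟨l, hl, hlu⟩ := r_surj u ((hM u).mpr ⟨huN, hu3⟩)
    have h1 : j < l := by
      by_contra h
      have := r_mono_le l j (by omega) hj
      omega
    by_cases h : j + 1 < m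
    · have := r_mono_le (j + 1) l (by omega) hl
      omega
    · omega
  have gap0 : ∀ u, u < r 0 → ¬ Mv u := by
    intro u hu1 hu3
    have huN : u < N := by
      by_cases h : 0 < m
      · exact lt_trans hu1 (r_mv _ h).1
      · rwa [r_ge 0 (by omega)] at hu1
    obtain ⟨l, hl, hlu⟩ := r_surj u ((hM u).mpr ⟨huN, hu3⟩)
    have := r_mono_le 0 l (by omega) hl
    omega
  have r_succ : ∀ j, j < m → r j < r (j + 1) := by
    intro j hj
    by_cases h : j + 1 < m
    · exact r_mono _ _ (by omega) h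
    · rw [r_ge (j + 1) (by omega)]; exact (r_mv j hj).1
  let v : ℕ → Pt := fun j => X (r j)
  have v_succ : ∀ j, j < m → v (j + 1) = X (r j + 1) := by
    intro j hj
    exact W.const (r_succ j hj) (fun u h1 h2 => gap j hj u (by omega) h2)
  have r_le : ∀ j, r j ≤ N := by
    intro j
    by_cases h : j < m
    · exact (r_mv j h).1.le
    · exact (r_ge j (by omega)).le
  have v_mem : ∀ j, v j ∈ A ∨ v j ∈ B := fun j => W.mem S hi _ (r_le j)
  have dat : ∀ j, j < m → Opp c (v j) (v (j + 1)) ∧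
      ht c (ev (r j)).1 (ev (r j)).2 = ht c (v j) (v (j + 1)) ∧
      (∀ p, Bel (ev (r j)).1 (ev (r j)).2 p ↔ Bel (v j) (v (j + 1)) p) := by
    intro j hj
    obtain ⟨h1, h2, h3, _, _⟩ := W.mv_data S (r_mv j hj).1 (r_mv j hj).2
    rw [← v_succ j hj] at h1 h2
    refine ⟨h1, h2, ?_⟩
    rw [v_succ j hj]
    exact h3
  have evd : ∀ j, j < m → (v j = (ev (r j)).1 ∧ v (j + 1) = (ev (r j)).2) ∨
      (v j = (ev (r j)).2 ∧ v (j + 1) = (ev (r j)).1) := by
    intro j hj
    rw [v_succ j hj]
    exact W.go _ (r_mv j hj).2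
  have nb : ∀ j l, j < m → j ≤ l → l ≤ m → ¬ Bel (v j) (v (j + 1)) (v l) := by
    intro j l hj hjl hl
    rcases Nat.lt_or_ge j l with h | h
    · rcases Nat.lt_or_ge (j + 1) l with h' | h'
      · obtain ⟨l', rfl⟩ : ∃ l', l = l' + 1 := ⟨l - 1, by omega⟩
        rw [v_succ l' (by omega), ← (dat j hj).2.2]
        exact W.ok _ _ (r_mono j l' (by omega) (by omega)) (r_mv j hj).2
          (r_mv l' (by omega)).2
      · have : l = j + 1 := by omega
        rw [this]; exact not_Bel_right _ _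
    · have : l = j := by omega
      rw [this]; exact not_Bel_left _ _
  have ne2 : ∀ j, j + 1 < m → v (j + 2) ≠ v j := by
    intro j hj he
    have hev : ev (r j) = ev (r (j + 1)) := by
      rcases evd j (by omega) with ⟨a1, a2⟩ | ⟨a1, a2⟩
      · rcases evd (j + 1) hj with ⟨a3, a4⟩ | ⟨a3, a4⟩
        · exfalso
          have k1 := S.hB _ (S.mB _ (r_mv j (by omega)).1)
          have k2 := S.hA _ (S.mA _ (r_mv (j + 1) hj).1)
          rw [← a2] at k1; rw [← a3] at k2; linarith
        · exact Prod.ext (a1.symm.trans (he.symm.trans a4)) (a2.symm.trans a3)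
      · rcases evd (j + 1) hj with ⟨a3, a4⟩ | ⟨a3, a4⟩
        · exact Prod.ext (a2.symm.trans a3) (a1.symm.trans (he.symm.trans a4))
        · exfalso
          have k1 := S.hA _ (S.mA _ (r_mv j (by omega)).1)
          have k2 := S.hB _ (S.mB _ (r_mv (j + 1) hj).1)
          rw [← a2] at k1; rw [← a3] at k2; linarith
    have := S.inj _ (r_mv j (by omega)).1 _ (r_mv (j + 1) hj).1 hev
    have := r_succ j (by omega)
    omega
  have ne : ∀ j l, j < l → l ≤ m → v j ≠ v l := by
    intro j l hjl hl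
    rcases Nat.lt_or_ge (j + 1) l with h | h
    · rcases Nat.lt_or_ge (j + 2) l with h' | h'
      · intro he
        have d1 := dat j (by omega)
        have d2 := dat (j + 1) (by omega)
        have hmono := S.mono (r j) (r (j + 1)) (r_succ j (by omega)).le (r_mv (j + 1) (by omega)).1
        rw [d1.2.1, d2.2.1, ht_symm c (v j)] at hmono
        have hb : Bel (v (j + 1)) (v (j + 1 + 1)) (v j) := by
          refine Bel_of_ht_le d1.1.symm d2.1 ?_ hmono
          exact S.gp _ (v_mem _) _ (v_mem _) _ (v_mem _) d2.1.ne d1.1.symm.ne (ne2 j (by omega))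
        rw [he] at hb
        exact nb (j + 1) l (by omega) (by omega) hl hb
      · have : l = j + 2 := by omega
        rw [this]; exact (ne2 j (by omega)).symm
    · have : l = j + 1 := by omega
      rw [this]; exact (dat j (by omega)).1.ne
  refine ⟨v, fun s _ => v_mem s, ?_, ?_, ?_, ?_⟩
  · intro w
    symm
    refine Finset.sum_bij (fun s _ => r s) ?_ ?_ ?_ ?_
    · intro s hs; exact r_mem s (Finset.mem_range.mp hs)
    · intro s hs t ht' he
      have hs' := Finset.mem_range.mp hs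
      have ht'' := Finset.mem_range.mp ht'
      by_contra hne
      rcases lt_or_gt_of_ne hne with h | h
      · exact absurd he (r_mono s t h ht'').ne
      · exact absurd he (r_mono t s h hs').ne'
    · intro u hu
      obtain ⟨l, hl, h⟩ := r_surj u hu
      exact ⟨l, Finset.mem_range.mpr hl, h⟩
    · intro s hs
      rw [v_succ s (Finset.mem_range.mp hs)]
  · intro s hs t ht' he
    rcases lt_trichotomy s t with h | h | h
    · exact absurd he (ne s t h ht')
    · exact h
    · exact absurd he.symm (ne t s h hs)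
  · intro s hs
    refine ⟨r s, (r_mv s hs).1, ?_⟩
    rcases evd s hs with ⟨a1, a2⟩ | ⟨a1, a2⟩
    · left; exact Prod.ext a1.symm a2.symm
    · right; exact Prod.ext a2.symm a1.symm
  · intro s t hs ht' hst
    have key : ∀ l, s + 1 < l → l ≤ m → Abv (v s) (v (s + 1)) (v l) := by
      intro l h1 h2
      refine Abv_of_not_Bel (dat s hs).1.ne1 ?_ (nb s l hs (by omega) h2)
      exact S.gp _ (v_mem _) _ (v_mem _) _ (v_mem _) (dat s hs).1.ne (ne s l (by omega) h2)
        (ne (s + 1) l h1 h2)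
    exact (disjoint_seg (key t hst ht'.le) (key (t + 1) (by omega) (by omega))).symm

end

end Pool.Agent.Lib.MP_992c01_co
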